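import Pool.Agent.K1H12.SE.Cross3
import Pool.Agent.Y123.GN.B3

/-!
# Superelliptic periods: the system for several exponents
-/

set_option autoImplicit false

namespace Pool.Agent.K1H12.SE

open Finset Matrix
open Pool.Agent.Y113

variable {n s : ℕ}

section big

variable {R : Type*}

/-- block diagonal matrices with index set `Fin (n * s)` -/
def bigM [Zero R] (X : Fin s → Matrix (Fin n) (Fin n) R) : Matrix (Fin (n * s)) (Fin (n * s)) R :=
  (Matrix.blockDiagonal X).submatrix finProdFinEquiv.symm finProdFinEquiv.symm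

theorem bigM_apply [Zero R] (X : Fin s → Matrix (Fin n) (Fin n) R) (p q : Fin n × Fin s) :
    bigM X (finProdFinEquiv p) (finProdFinEquiv q) = if p.2 = q.2 then X p.2 p.1 q.1 else 0 := by
  unfold bigM
  rw [Matrix.submatrix_apply, Equiv.symm_apply_apply, Equiv.symm_apply_apply, Matrix.blockDiagonal_apply]

theorem bigM_mul [Semiring R] (X Y : Fin s → Matrix (Fin n) (Fin n) R) :
    bigM X * bigM Y = bigM fun σ => X σ * Y σ := by
  unfold bigM
  rw [Matrix.submatrix_mul_equiv, ← Matrix.blockDiagonal_mul]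

theorem bigM_one [Semiring R] : bigM (fun _ => 1 : Fin s → Matrix (Fin n) (Fin n) R) = 1 := by
  unfold bigM
  have h1 : (fun _ => 1 : Fin s → Matrix (Fin n) (Fin n) R) = 1 := rfl
  rw [h1, Matrix.blockDiagonal_one, Matrix.submatrix_one_equiv]

theorem bigM_map [Zero R] {S : Type*} [Zero S] (φ : R → S) (hφ : φ 0 = 0) (X : Fin s → Matrix (Fin n) (Fin n) R) :
    (bigM X).map φ = bigM fun σ => (X σ).map φ := by
  unfold bigM
  rw [← Matrix.blockDiagonal_map X φ hφ]
  rfl

end big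

/-- the system -/
theorem dat_big {f : Polynomial ℚ} {A : Fin s → Matrix (Fin n) (Fin n) (Polynomial ℚ)}
    {Z W : Fin s → Matrix (Fin n) (Fin n) (PowerSeries ℚ)} (hf : f.coeff 0 ≠ 0)
    (h : ∀ σ, GG.Dat f (fun i j => A σ i j) (fun i j => Z σ i j) (fun i j => W σ i j)) :
    GG.Dat f (fun i j => bigM A i j) (fun i j => bigM Z i j) (fun i j => bigM W i j) := by
  have hsd : ∀ Z : Fin s → Matrix (Fin n) (Fin n) (PowerSeries ℚ), (∀ σ i j, SDc (Z σ i j)) → ∀ i j, SDc (bigM Z i j) := by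
    intro Z hZ i j
    obtain ⟨p, rfl⟩ := finProdFinEquiv.surjective i
    obtain ⟨q, rfl⟩ := finProdFinEquiv.surjective j
    rw [bigM_apply]
    split_ifs
    · exact hZ _ _ _
    · exact Pool.Agent.Y655.HG.SDc_zero
  refine ⟨hf, ?_, ?_, hsd Z fun σ i j => (h σ).gZ i j, hsd W fun σ i j => (h σ).gW i j⟩
  · have h1 : (bigM Z).map (fun g => (f : PowerSeries ℚ) * PowerSeries.derivative ℚ g) =
        bigM Z * (bigM A).map (fun g => (g : PowerSeries ℚ)) := by
      rw [bigM_map _ (by rw [map_zero, mul_zero]), bigM_map _ Polynomial.coe_zero, bigM_mul]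
      congr 1
      funext σ
      ext1 i j
      rw [Matrix.map_apply, Matrix.mul_apply]
      exact (h σ).sys i j
    intro i j
    have h2 := congrFun (congrFun h1 i) j
    rw [Matrix.map_apply, Matrix.mul_apply] at h2
    exact h2
  · have h1 : bigM W * bigM Z = 1 := by
      rw [bigM_mul, ← bigM_one]
      congr 1
      funext σ
      ext1 i j
      rw [Matrix.mul_apply, Matrix.one_apply]
      exact (h σ).inv i j
    intro i j
    have h2 := congrFun (congrFun h1 i) j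
    rw [Matrix.mul_apply, Matrix.one_apply] at h2
    exact h2

theorem Ec_real (g : PowerSeries ℚ) (r : ℝ) : GG.Ec g (r : ℂ) = ((Pool.Agent.Y37.GF.E g r : ℝ) : ℂ) := by
  unfold GG.Ec Pool.Agent.Y37.GF.E
  rw [Complex.ofReal_tsum]
  congr 1
  funext m
  push_cast
  rfl

/-- the periods as a matrix -/
theorem pv_big (C : Fin s → Matrix (Fin n) (Fin n) ℂ) (Z : Fin s → Matrix (Fin n) (Fin n) (PowerSeries ℚ)) (x : ℝ) :
    (Matrix.of fun i j => GG.pv (bigM C) (fun i j => bigM Z i j) x (i, j) : Matrix (Fin (n * s)) (Fin (n * s)) ℂ) =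
      bigM fun σ => C σ * Zc (Z σ) ((1 / x : ℝ) : ℂ) := by
  have h1 : (Matrix.of fun i j => GG.pv (bigM C) (fun i j => bigM Z i j) x (i, j) : Matrix (Fin (n * s)) (Fin (n * s)) ℂ) =
      bigM C * (bigM Z).map (fun g => GG.Ec g ((1 / x : ℝ) : ℂ)) := by
    ext i j
    rw [Matrix.of_apply, Matrix.mul_apply]
    unfold GG.pv
    refine sum_congr rfl fun a _ => ?_
    rw [Matrix.map_apply, Ec_real]
    rfl
  rw [h1, bigM_map, bigM_mul]
  · rfl
  · rw [Ec_real]
    unfold Pool.Agent.Y37.GF.E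
    simp

theorem pv_big_apply (C : Fin s → Matrix (Fin n) (Fin n) ℂ) (Z : Fin s → Matrix (Fin n) (Fin n) (PowerSeries ℚ)) (x : ℝ)
    (i j : Fin (n * s)) : GG.pv (bigM C) (fun i j => bigM Z i j) x (i, j) =
      bigM (fun σ => C σ * Zc (Z σ) ((1 / x : ℝ) : ℂ)) i j := by
  rw [← pv_big]
  rfl

/-- from relations between the entries of the block diagonal matrix to relations between the entries of the blocks -/
noncomputable def unb (F : MvPolynomial (Option (Fin (n * s) × Fin (n * s))) ℂ) :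
    MvPolynomial (Option (Fin s × Fin n × Fin n)) ℂ :=
  MvPolynomial.bind₁ (fun o => o.elim (MvPolynomial.X none) fun p =>
    if (finProdFinEquiv.symm p.1).2 = (finProdFinEquiv.symm p.2).2 then
      MvPolynomial.X (some ((finProdFinEquiv.symm p.1).2, (finProdFinEquiv.symm p.1).1, (finProdFinEquiv.symm p.2).1))
    else 0) F

theorem ev_unb (F : MvPolynomial (Option (Fin (n * s) × Fin (n * s))) ℂ) (t : ℂ) (X : Fin s → Matrix (Fin n) (Fin n) ℂ) :
    ev (unb F) t X = MvPolynomial.aeval (fun o : Option (Fin (n * s) × Fin (n * s)) => o.elim t fun p => bigM X p.1 p.2) F := by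
  unfold ev unb
  rw [← MvPolynomial.coe_aeval_eq_eval]
  simp only [RingHom.coe_coe]
  rw [MvPolynomial.aeval_bind₁]
  congr 2
  funext o
  rcases o with _ | p
  · simp
  · simp only [Option.elim_some]
    unfold bigM
    rw [Matrix.submatrix_apply, Matrix.blockDiagonal_apply]
    split_ifs
    · rw [MvPolynomial.aeval_X]
      rfl
    · rw [map_zero]

/-- **the Galois elements** -/
theorem gal_big {a : ℕ → ℝ} {m : ℕ} (hn : 2 ≤ n) {f : Polynomial ℚ} (hc : Cfg n a f) {μ : Fin s → ℝ} {ν : Fin s → ℚ} (hν : ∀ σ, (ν σ : ℝ) = 1 - μ σ)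
    (h0 : ∀ σ, 0 < μ σ) (h1 : ∀ σ, μ σ < 1) (hμ : Function.Injective μ) (hμ' : ∀ σ τ, σ ≠ τ → μ σ + μ τ ≠ 1)
    (h2 : 3 ≤ n → ∀ σ, 2 * μ σ ≠ 1) (h3 : 3 ≤ n → ∀ σ, ∀ k : ℤ, ((n - 1 : ℕ) : ℝ) * μ σ ≠ k)
    (hg : Gap n a m 0) {Z : Fin s → Matrix (Fin n) (Fin n) (PowerSeries ℚ)} {C : Fin s → Matrix (Fin n) (Fin n) ℂ} {ρ : ℝ}
    (hN : Near n a μ m Z C ρ) {x₀ : ℝ} (hx₀ : 0 < x₀) (hρ : 1 / x₀ ≤ ρ) (g : Fin s → Matrix.SpecialLinearGroup (Fin n) ℂ) :
    Pool.Agent.Y123.GN.Gal (bigM C) (fun i j => bigM Z i j) x₀ (bigM fun σ => (g σ).1) := by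
  intro F hF x hx
  have hx0 : 0 < x := hx₀.trans hx
  have hreal : ∀ x : ℝ, x₀ < x → (fun σ => C σ * Zc (Z σ) ((1 / x : ℝ) : ℂ)) = fun σ => Rm n a (μ σ) m (1 / x) := by
    intro x hx
    have h5 : 1 / x < 1 / x₀ := one_div_lt_one_div_of_lt hx₀ hx
    funext σ
    rw [hN.real (1 / x) (by rw [abs_of_pos (one_div_pos.2 (hx₀.trans hx))]; linarith) σ]
  have h4 := real_rel hn hc hν h0 h1 hμ hμ' h2 h3 hg hN (F := unb F) (v := 1 / x₀) (one_div_pos.2 hx₀) hρ (fun t ht htv => by
    have h5 : x₀ < 1 / t := by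
      rw [lt_one_div hx₀ ht]
      exact htv
    have h6 := hF (1 / t) h5
    rw [ev_unb]
    rw [one_div_one_div] at h6
    rw [← h6]
    congr 2
    funext o
    rcases o with _ | p
    · rfl
    · simp only [Option.elim_some]
      have h7 := hreal (1 / t) h5
      rw [one_div_one_div] at h7
      rw [← h7]
      have h8 := pv_big_apply C Z (1 / t) p.1 p.2
      rw [one_div_one_div] at h8
      exact h8.symm) g (1 / x) (by
      rw [abs_of_pos (one_div_pos.2 hx0)]
      exact lt_of_lt_of_le (one_div_lt_one_div_of_lt hx₀ hx) hρ)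
  rw [ev_unb] at h4
  rw [← h4]
  congr 2
  funext o
  rcases o with _ | p
  · rfl
  · simp only [Option.elim_some]
    have h7 : ∀ σ, Rm n a (μ σ) m (1 / x) = C σ * Zc (Z σ) ((1 / x : ℝ) : ℂ) := fun σ => (congrFun (hreal x hx) σ).symm
    simp only [h7]
    unfold Pool.Agent.Y123.GN.gact
    rw [← bigM_mul, Matrix.mul_apply]
    refine sum_congr rfl fun b _ => ?_
    rw [pv_big_apply]

end Pool.Agent.K1H12.SE
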