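import Pool.Agent.K1H12.SE.Per

/-!
# Superelliptic periods: finite sequences of branch points
-/

set_option autoImplicit false

namespace Pool.Agent.K1H12.SE

open Finset MeasureTheory

variable {n : ℕ}

/-- the branch points: `t` inserted at place `p` in the sequence of the `a i` -/
noncomputable def brp (a : Fin n → ℝ) (p : Fin (n + 1)) (t : ℝ) : Fin (n + 1) → ℝ :=
  Fin.insertNth (α := fun _ => ℝ) p t a

/-- the matrix of the periods -/
noncomputable def prd (a : Fin n → ℝ) (p : Fin (n + 1)) (μ : ℝ) (t : ℝ) : Matrix (Fin n) (Fin n) ℂ :=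
  Matrix.of fun l j => ((∫ x in (brp a p t l.castSucc)..(brp a p t l.succ),
    x ^ (j : ℕ) * ((∏ i, |x - a i| ^ (-μ)) * |x - t| ^ (μ - 1)) : ℝ) : ℂ)

/-- the extension to an infinite sequence -/
noncomputable def exq (a : Fin n → ℝ) (k : ℕ) : ℝ := if h : k < n then a ⟨k, h⟩ else (∑ i, |a i|) + k

theorem exq_lt (a : Fin n → ℝ) (i : Fin n) : exq a i = a i := by
  unfold exq
  rw [dif_pos i.2]

theorem exq_mono {a : Fin n → ℝ} (ha : StrictMono a) : StrictMono (exq a) := by
  refine strictMono_nat_of_lt_succ fun k => ?_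
  unfold exq
  by_cases h1 : k + 1 < n
  · rw [dif_pos (by omega : k < n), dif_pos h1]
    exact ha (by simp)
  · rw [dif_neg h1]
    by_cases h2 : k < n
    · rw [dif_pos h2]
      have h3 : |a ⟨k, h2⟩| ≤ ∑ i, |a i| := Finset.single_le_sum (f := fun i => |a i|) (fun i _ => abs_nonneg _) (mem_univ (⟨k, h2⟩ : Fin n))
      have h4 := le_abs_self (a ⟨k, h2⟩)
      push_cast
      have h5 : (0 : ℝ) ≤ k := Nat.cast_nonneg k
      linarith
    · rw [dif_neg h2]
      push_cast
      linarith

theorem brp_eq (a : Fin n → ℝ) (p : Fin (n + 1)) (t : ℝ) (l : Fin (n + 1)) : brp a p t l = er (exq a) p t l := by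
  unfold brp
  rcases lt_trichotomy l p with h | h | h
  · have h0 : (l : ℕ) < n := by
      have h1 : (l : ℕ) < p := h
      have := p.2
      omega
    have h1 : l = p.succAbove ⟨l, h0⟩ := by
      rw [Fin.succAbove_of_castSucc_lt]
      · rfl
      · exact h
    rw [er_lt (by exact h : (l : ℕ) < p)]
    conv_lhs => rw [h1]
    rw [Fin.insertNth_apply_succAbove]
    exact (exq_lt a ⟨l, h0⟩).symm
  · subst h
    rw [Fin.insertNth_apply_same, er_eq]
  · have h0 : (p : ℕ) < l := h
    have h2 : (l : ℕ) - 1 < n := by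
      have := l.2
      omega
    have h1 : l = p.succAbove ⟨(l : ℕ) - 1, h2⟩ := by
      rw [Fin.succAbove_of_le_castSucc]
      · ext
        simp only [Fin.val_succ]
        omega
      · rw [Fin.le_def]
        simp only [Fin.val_castSucc]
        omega
    rw [er_gt h0]
    conv_lhs => rw [h1]
    rw [Fin.insertNth_apply_succAbove]
    exact (exq_lt a ⟨(l : ℕ) - 1, h2⟩).symm

theorem brp_mono {a : Fin n → ℝ} (ha : StrictMono a) {p : Fin (n + 1)} {t : ℝ} (hg : Gap n (exq a) p t) :
    StrictMono (brp a p t) := by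
  rw [Fin.strictMono_iff_lt_succ]
  intro i
  rw [brp_eq, brp_eq]
  exact er_step (exq_mono ha) hg i.2

theorem mono_of_brp {a : Fin n → ℝ} {p : Fin (n + 1)} {t : ℝ} (h : StrictMono (brp a p t)) : StrictMono a := by
  have h1 : a = fun i => brp a p t (p.succAbove i) := by
    funext i
    unfold brp
    rw [Fin.insertNth_apply_succAbove]
  rw [h1]
  exact h.comp (Fin.strictMono_succAbove p)

theorem gap_of_brp {a : Fin n → ℝ} {p : Fin (n + 1)} {t : ℝ} (h : StrictMono (brp a p t)) : Gap n (exq a) p t := by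
  have ha : ∀ i : Fin n, brp a p t (p.succAbove i) = a i := by
    intro i
    unfold brp
    rw [Fin.insertNth_apply_succAbove]
  have ht : brp a p t p = t := by
    unfold brp
    rw [Fin.insertNth_apply_same]
  refine ⟨by have := p.2; omega, fun k hk => ?_, fun k hk hk' => ?_⟩
  · have hkn : k < n := by have := p.2; omega
    have h1 : p.succAbove ⟨k, hkn⟩ < p := by
      rw [Fin.succAbove_of_castSucc_lt _ _ (by rw [Fin.lt_def]; simpa using hk), Fin.lt_def]
      simpa using hk
    have h2 := h h1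
    rw [ha, ht] at h2
    have h3 := exq_lt a ⟨k, hkn⟩
    simp only at h3
    rw [h3]
    exact h2
  · have h1 : p < p.succAbove ⟨k, hk'⟩ := by
      rw [Fin.succAbove_of_le_castSucc _ _ (by rw [Fin.le_def]; simpa using hk), Fin.lt_def]
      simp only [Fin.val_succ]
      omega
    have h2 := h h1
    rw [ha, ht] at h2
    have h3 := exq_lt a ⟨k, hk'⟩
    simp only at h3
    rw [h3]
    exact h2

theorem prd_eq (a : Fin n → ℝ) (p : Fin (n + 1)) (μ : ℝ) (t : ℝ) : prd a p μ t = Rm n (exq a) μ p t := by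
  ext l j
  unfold prd Rm Rf
  rw [Matrix.of_apply, Matrix.of_apply, brp_eq, brp_eq]
  congr 1
  have h1 : ∀ x : ℝ, (∏ i, |x - a i| ^ (-μ)) * |x - t| ^ (μ - 1) = Wr n (exq a) μ t x := by
    intro x
    unfold Wr
    congr 1
    rw [← Fin.prod_univ_eq_prod_range (fun k => |x - exq a k| ^ (-μ)) n]
    exact prod_congr rfl fun i _ => by rw [exq_lt]
  simp only [h1]
  rfl

theorem cfg_of {a : Fin n → ℝ} (ha : StrictMono a) {f : Polynomial ℚ}
    (hf : f.map (algebraMap ℚ ℝ) = ∏ i, (Polynomial.X - Polynomial.C (a i))) : Cfg n (exq a) f := by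
  refine ⟨exq_mono ha, ?_, ?_⟩
  · rw [← Polynomial.natDegree_map (algebraMap ℚ ℝ), hf, Polynomial.natDegree_prod_of_monic _ _ fun i _ => Polynomial.monic_X_sub_C _]
    simp
  · rw [hf, ← Fin.prod_univ_eq_prod_range (fun k => Polynomial.X - Polynomial.C (exq a k)) n]
    exact prod_congr rfl fun i _ => by rw [exq_lt]

end Pool.Agent.K1H12.SE
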