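import Pool.Agent.K1H12.SE.Loc2

/-!
# Superelliptic periods: relations and the crossing of a gap
-/

set_option autoImplicit false

namespace Pool.Agent.K1H12.SE

open Filter Topology Finset
open Pool.Agent.Y113

variable {n s : ℕ}

/-- the value of a polynomial -/
noncomputable def ev (F : MvPolynomial (Option (Fin s × Fin n × Fin n)) ℂ) (t : ℂ)
    (X : Fin s → Matrix (Fin n) (Fin n) ℂ) : ℂ :=
  MvPolynomial.eval (fun o => o.elim t fun p => X p.1 p.2.1 p.2.2) F

/-- substitution -/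
noncomputable def sub (t₀ : ℂ) (g : Fin s → Matrix (Fin n) (Fin n) ℂ) (Q : Matrix (Fin n) (Fin n) ℂ)
    (F : MvPolynomial (Option (Fin s × Fin n × Fin n)) ℂ) : MvPolynomial (Option (Fin s × Fin n × Fin n)) ℂ :=
  MvPolynomial.bind₁ (fun o => o.elim (MvPolynomial.X none + MvPolynomial.C t₀) fun p =>
    ∑ k, ∑ l, MvPolynomial.C (g p.1 p.2.1 k * Q l p.2.2) * MvPolynomial.X (some (p.1, k, l))) F

theorem ev_sub (t₀ : ℂ) (g : Fin s → Matrix (Fin n) (Fin n) ℂ) (Q : Matrix (Fin n) (Fin n) ℂ)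
    (F : MvPolynomial (Option (Fin s × Fin n × Fin n)) ℂ) (t : ℂ) (X : Fin s → Matrix (Fin n) (Fin n) ℂ) :
    ev (sub t₀ g Q F) t X = ev F (t + t₀) (fun σ => g σ * X σ * Q) := by
  unfold ev sub
  rw [← MvPolynomial.coe_aeval_eq_eval, ← MvPolynomial.coe_aeval_eq_eval]
  simp only [RingHom.coe_coe]
  rw [MvPolynomial.aeval_bind₁]
  congr 2
  funext o
  rcases o with _ | p
  · simp
  · simp only [Option.elim_some, map_sum, map_mul, MvPolynomial.aeval_C, MvPolynomial.aeval_X, Algebra.algebraMap_self,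
      RingHom.id_apply, Matrix.mul_apply, sum_mul]
    rw [sum_comm]
    refine sum_congr rfl fun k _ => sum_congr rfl fun l _ => by ring

/-- complex conjugation of a matrix -/
noncomputable def cj (A : Matrix (Fin n) (Fin n) ℂ) : Matrix (Fin n) (Fin n) ℂ := A.map (starRingEnd ℂ)

theorem cj_mul (A B : Matrix (Fin n) (Fin n) ℂ) : cj (A * B) = cj A * cj B := Matrix.map_mul

theorem cj_cj (A : Matrix (Fin n) (Fin n) ℂ) : cj (cj A) = A := by
  ext i j
  simp [cj]

theorem cj_one : cj (1 : Matrix (Fin n) (Fin n) ℂ) = 1 := by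
  unfold cj
  exact Matrix.map_one _ (map_zero _) (map_one _)

/-- conjugation of the coefficients -/
noncomputable def bar (F : MvPolynomial (Option (Fin s × Fin n × Fin n)) ℂ) :
    MvPolynomial (Option (Fin s × Fin n × Fin n)) ℂ := MvPolynomial.map (starRingEnd ℂ) F

theorem ev_bar (F : MvPolynomial (Option (Fin s × Fin n × Fin n)) ℂ) (t : ℂ) (X : Fin s → Matrix (Fin n) (Fin n) ℂ) :
    ev (bar F) t X = (starRingEnd ℂ) (ev F ((starRingEnd ℂ) t) fun σ => cj (X σ)) := by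
  unfold ev bar
  rw [MvPolynomial.eval_map]
  have h1 := MvPolynomial.eval₂_comp_left (starRingEnd ℂ) (RingHom.id ℂ)
    (fun o : Option (Fin s × Fin n × Fin n) => o.elim ((starRingEnd ℂ) t) fun p => cj (X p.1) p.2.1 p.2.2) F
  have h2 : MvPolynomial.eval (fun o : Option (Fin s × Fin n × Fin n) => o.elim ((starRingEnd ℂ) t) fun p => cj (X p.1) p.2.1 p.2.2) F =
    MvPolynomial.eval₂ (RingHom.id ℂ) (fun o : Option (Fin s × Fin n × Fin n) => o.elim ((starRingEnd ℂ) t) fun p => cj (X p.1) p.2.1 p.2.2) F := rfl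
  rw [h2, h1, RingHom.comp_id]
  congr 1
  funext o
  rcases o with _ | p
  · simp
  · simp [cj]

/-- differentiability of the values -/
theorem ev_diff {F : MvPolynomial (Option (Fin s × Fin n × Fin n)) ℂ} {X : ℂ → Fin s → Matrix (Fin n) (Fin n) ℂ} {t : ℂ}
    (h : ∀ σ i j, DifferentiableAt ℂ (fun t => X t σ i j) t) : DifferentiableAt ℂ (fun t => ev F t (X t)) t := by
  unfold ev
  induction F using MvPolynomial.induction_on with
  | C c => simp
  | add p q hp hq =>
    simp only [map_add]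
    exact hp.add hq
  | mul_X p o hp =>
    simp only [map_mul, MvPolynomial.eval_X]
    refine hp.mul ?_
    rcases o with _ | p
    · exact differentiableAt_id
    · exact h _ _ _

/-- the relations between the integrals -/
def Rel (n : ℕ) {s : ℕ} (a : ℕ → ℝ) (μ : Fin s → ℝ) (F : MvPolynomial (Option (Fin s × Fin n × Fin n)) ℂ) : Prop :=
  ∀ t : ℂ, 0 < t.im → ev F t (fun σ => Jm n a (μ σ) t) = 0

variable {a : ℕ → ℝ} {m : ℕ}

theorem cj_tht_zpow (μ : ℝ) (z : ℤ) : (starRingEnd ℂ) ((tht μ) ^ z) = (tht μ) ^ (-z) := by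
  rw [map_zpow₀, conj_tht, inv_zpow, zpow_neg]

theorem cj_Mz (i l : ℕ) : (starRingEnd ℂ) (Mz m i l) = Mz m i l := by
  unfold Mz
  split_ifs
  · exact map_one _
  · exact map_zero _

theorem cj_Rm (μ : ℝ) (t : ℝ) : cj (Rm n a μ m t) = Rm n a μ m t := by
  ext i j
  simp [cj, Rm]

/-- the coefficients of the inverse -/
def Nz (m l i : ℕ) : ℂ := (if i = l then 1 else 0) - (if i = l + 1 ∧ l + 1 < m then 1 else 0) - (if i + 1 = l ∧ m < l then 1 else 0)

theorem Nz_Mz (hm : m ≤ n) (l l' : Fin n) : ∑ i : Fin n, Nz m l i * Mz m i l' = if l = l' then 1 else 0 := by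
  have h1 : ∑ i : Fin n, Nz m l i * Mz m i l' = Mz m l l' - (if (l : ℕ) + 1 < m then Mz m (l + 1) l' else 0) -
      (if m < (l : ℕ) then Mz m (l - 1) l' else 0) := by
    rw [Fin.sum_univ_eq_sum_range (fun i => Nz m l i * Mz m i l') n]
    have e1 : ∀ i : ℕ, Nz m l i * Mz m i l' = (if i = (l : ℕ) then Mz m l l' else 0) -
        (if i = (l : ℕ) + 1 then (if (l : ℕ) + 1 < m then Mz m (l + 1) l' else 0) else 0) -
        (if i + 1 = (l : ℕ) then (if m < (l : ℕ) then Mz m (l - 1) l' else 0) else 0) := by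
      intro i
      unfold Nz
      rcases (by omega : i = (l : ℕ) ∨ i = (l : ℕ) + 1 ∨ i + 1 = (l : ℕ) ∨ (i ≠ (l : ℕ) ∧ i ≠ (l : ℕ) + 1 ∧ i + 1 ≠ (l : ℕ))) with h | h | h | h
      · rw [h]
        split_ifs <;> first | (exfalso; omega) | ring
      · rw [h]
        split_ifs <;> first | (exfalso; omega) | ring
      · have h' : (l : ℕ) - 1 = i := by omega
        rw [h']
        split_ifs <;> first | (exfalso; omega) | ring
      · split_ifs <;> first | (exfalso; omega) | ring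
    rw [sum_congr rfl fun i _ => e1 i, sum_sub_distrib, sum_sub_distrib]
    congr 1
    · congr 1
      · rw [sum_ite_eq' , if_pos (mem_range.2 l.2)]
      · rw [sum_ite_eq']
        split_ifs with h2 h3 h3
        · rfl
        · rfl
        · rw [mem_range] at h2
          omega
        · rfl
    · by_cases h2 : m < (l : ℕ)
      · have e2 : ∀ i : ℕ, (if i + 1 = (l : ℕ) then (if m < (l : ℕ) then Mz m ((l : ℕ) - 1) l' else 0) else 0) =
            if i = (l : ℕ) - 1 then Mz m ((l : ℕ) - 1) l' else 0 := by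
          intro i
          rw [if_pos h2]
          by_cases h3 : i + 1 = (l : ℕ)
          · rw [if_pos h3, if_pos (by omega)]
          · rw [if_neg h3, if_neg (by omega)]
        have := l.2
        rw [sum_congr rfl fun i _ => e2 i, sum_ite_eq', if_pos (mem_range.2 (by omega)), if_pos h2]
      · rw [if_neg h2]
        refine sum_eq_zero fun i _ => ?_
        split_ifs <;> rfl
  rw [h1]
  unfold Mz
  simp only [Fin.ext_iff]
  have := l.2
  have := l'.2
  rcases lt_or_ge (l : ℕ) m with h | h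
  · rw [if_neg (by omega : ¬ m < (l : ℕ)), sub_zero]
    rcases lt_or_ge ((l : ℕ) + 1) m with h2 | h2
    · rw [if_pos h2]
      rcases lt_trichotomy (l : ℕ) (l' : ℕ) with h3 | h3 | h3
      · rw [if_neg (by omega : ¬ (l : ℕ) = l')]
        by_cases h4 : (l' : ℕ) < m
        · rw [if_pos (Or.inl ⟨by omega, h4⟩), if_pos (Or.inl ⟨by omega, h4⟩), sub_self]
        · rw [if_neg (by omega), if_neg (by omega), sub_self]
      · rw [if_pos (Or.inl ⟨by omega, by omega⟩), if_neg (by omega), if_pos h3, sub_zero]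
      · rw [if_neg (by omega), if_neg (by omega), if_neg (by omega), sub_self]
    · rw [if_neg (by omega : ¬ (l : ℕ) + 1 < m), sub_zero]
      by_cases h3 : (l : ℕ) = l'
      · rw [if_pos (Or.inl ⟨by omega, by omega⟩), if_pos h3]
      · rw [if_neg (by omega), if_neg h3]
  · rw [if_neg (by omega : ¬ (l : ℕ) + 1 < m), sub_zero]
    rcases lt_or_ge m (l : ℕ) with h2 | h2
    · rw [if_pos h2]
      rcases lt_trichotomy (l : ℕ) (l' : ℕ) with h3 | h3 | h3
      · rw [if_neg (by omega), if_neg (by omega), if_neg (by omega), sub_self]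
      · rw [if_pos (Or.inr ⟨by omega, by omega⟩), if_neg (by omega), if_pos h3, sub_zero]
      · rw [if_neg (by omega : ¬ (l : ℕ) = l')]
        by_cases h4 : m ≤ (l' : ℕ)
        · rw [if_pos (Or.inr ⟨h4, by omega⟩), if_pos (Or.inr ⟨h4, by omega⟩), sub_self]
        · rw [if_neg (by omega), if_neg (by omega), sub_self]
    · rw [if_neg (by omega : ¬ m < (l : ℕ)), sub_zero]
      by_cases h3 : (l : ℕ) = l'
      · rw [if_pos (Or.inr ⟨by omega, by omega⟩), if_pos h3]
      · rw [if_neg (by omega), if_neg h3]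

/-- the inverse of `Sm` -/
noncomputable def Si (n : ℕ) (μ : ℝ) (m : ℕ) : Matrix (Fin n) (Fin n) ℂ :=
  Matrix.of fun l i => Nz m l i * (tht μ) ^ (((l : ℕ) : ℤ) - ((i : ℕ) : ℤ))

theorem Si_Sm (hm : m ≤ n) (μ : ℝ) : Si n μ m * Sm n μ m = 1 := by
  ext l l'
  rw [Matrix.mul_apply, Matrix.one_apply]
  have h1 : ∀ i : Fin n, Si n μ m l i * Sm n μ m i l' = (Nz m l i * Mz m i l') * (tht μ) ^ (((l : ℕ) : ℤ) - ((l' : ℕ) : ℤ)) := by
    intro i
    unfold Si Sm
    simp only [Matrix.of_apply]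
    have h2 : (tht μ) ^ (((l : ℕ) : ℤ) - ((l' : ℕ) : ℤ)) = (tht μ) ^ (((l : ℕ) : ℤ) - ((i : ℕ) : ℤ)) *
        (tht μ) ^ (((i : ℕ) : ℤ) - ((l' : ℕ) : ℤ)) := by
      rw [← zpow_add₀ (tht_ne μ)]
      congr 1
      ring
    rw [h2]
    ring
  rw [sum_congr rfl fun i _ => h1 i, ← sum_mul, Nz_Mz hm]
  by_cases h : l = l'
  · rw [if_pos h, h, sub_self, zpow_zero, mul_one]
  · rw [if_neg h, zero_mul]

theorem Sm_Si (hm : m ≤ n) (μ : ℝ) : Sm n μ m * Si n μ m = 1 := mul_eq_one_comm.1 (Si_Sm hm μ)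

/-- the transition -/
noncomputable def Tm (n : ℕ) (μ : ℝ) (m : ℕ) : Matrix (Fin n) (Fin n) ℂ := cj (Sm n μ m) * Si n μ m

/-- crossing at the origin -/
theorem cross0 {f : Polynomial ℚ} (hc : Cfg n a f) {μ : Fin s → ℝ} {ν : Fin s → ℚ} (hν : ∀ σ, (ν σ : ℝ) = 1 - μ σ)
    (h0 : ∀ σ, 0 < μ σ) (h1 : ∀ σ, μ σ < 1) (hg : Gap n a m 0) {F : MvPolynomial (Option (Fin s × Fin n × Fin n)) ℂ}
    (hF : Rel n a μ F) : Rel n a μ (sub 0 (fun σ => Tm n (μ σ) m) 1 (bar F)) := by
  have hf0 := coeff0_ne hc hg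
  have hform : ∀ σ, ∃ Z : Matrix (Fin n) (Fin n) (PowerSeries ℚ), Fsol n (ν σ) f Z := by
    intro σ
    have e1 : (0 : ℚ) < ν σ := by
      have : (0 : ℝ) < ν σ := by rw [hν]; linarith [h1 σ]
      exact_mod_cast this
    have e2 : ν σ < 1 := by
      have : (ν σ : ℝ) < 1 := by rw [hν]; linarith [h0 σ]
      exact_mod_cast this
    obtain ⟨Y, hY1, hY2, hY3⟩ := exists_form e1 e2 n f hc.deg hf0
    exact ⟨Matrix.of Y, hY1, hY2, hY3⟩
  choose Z hZ using hform
  have hloc := fun σ => local_structure hc (hν σ) (h0 σ) (h1 σ) hg (hZ σ)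
  choose ρ' hρ' C hgap hdiff hunit hJ hreal using hloc
  -- the common radius
  obtain ⟨ρ, hρ0, hρ⟩ : ∃ ρ > 0, ∀ σ, ρ ≤ ρ' σ := by
    have h2 : ∀ᶠ r : ℝ in 𝓝[>] 0, ∀ σ, r ≤ ρ' σ := by
      rw [Filter.eventually_all]
      intro σ
      exact mem_nhdsWithin_of_mem_nhds (Iic_mem_nhds (hρ' σ))
    obtain ⟨r, hr, hr0⟩ := (h2.and self_mem_nhdsWithin).exists
    exact ⟨r, hr0, hr⟩
  have hCS : ∀ σ, cj (C σ) = Tm n (μ σ) m * C σ := by
    intro σ
    have e1 := hreal σ 0 (by rw [abs_zero]; exact hρ' σ)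
    have e2 : Zc (Z σ) ((0 : ℝ) : ℂ) = 1 := by
      ext i j
      unfold Zc
      rw [Matrix.of_apply, Complex.ofReal_zero, Ec_zero, (hZ σ).one, Matrix.one_apply]
      split_ifs <;> simp
    rw [e2, Matrix.mul_one] at e1
    rw [← e1, cj_mul, cj_Rm]
    unfold Tm
    rw [Matrix.mul_assoc (cj _), ← Matrix.mul_assoc (Si _ _ _), Si_Sm hg.1, Matrix.one_mul]
  -- the function near the origin
  set Y : ℂ → Fin s → Matrix (Fin n) (Fin n) ℂ := fun t σ => C σ * Zc (Z σ) t with hY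
  have hYd : ∀ t : ℂ, ‖t‖ < ρ → ∀ σ i j, DifferentiableAt ℂ (fun t => Y t σ i j) t := by
    intro t ht σ i j
    simp only [hY, Matrix.mul_apply]
    refine DifferentiableAt.fun_sum fun k _ => ?_
    exact (hdiff σ t (lt_of_lt_of_le ht (hρ σ)) k j).const_mul _
  have hUp : ∀ t : ℂ, ‖t‖ < ρ → 0 < t.im → (fun σ => Jm n a (μ σ) t) = Y t := by
    intro t ht ht0
    funext σ
    exact hJ σ t (lt_of_lt_of_le ht (hρ σ)) ht0
  have hzero : ∀ t : ℂ, ‖t‖ < ρ → ev F t (Y t) = 0 := by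
    have hd : DifferentiableOn ℂ (fun t => ev F t (Y t)) (Metric.ball 0 ρ) := fun t ht =>
      (ev_diff (hYd t (by rwa [mem_ball_zero_iff] at ht))).differentiableWithinAt
    have ha := hd.analyticOnNhd Metric.isOpen_ball
    set t₁ : ℂ := ((ρ / 2 : ℝ) : ℂ) * Complex.I with ht₁
    have hn1 : ‖t₁‖ < ρ := by
      rw [ht₁, norm_mul, Complex.norm_I, mul_one, Complex.norm_real, Real.norm_of_nonneg (by positivity)]
      linarith
    have him : 0 < t₁.im := by
      rw [ht₁, Complex.mul_I_im, Complex.ofReal_re]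
      positivity
    have hev : (fun t => ev F t (Y t)) =ᶠ[𝓝 t₁] 0 := by
      have e1 : ∀ᶠ t : ℂ in 𝓝 t₁, ‖t‖ < ρ := (isOpen_lt continuous_norm continuous_const).mem_nhds hn1
      have e2 : ∀ᶠ t : ℂ in 𝓝 t₁, 0 < t.im := (isOpen_lt continuous_const Complex.continuous_im).mem_nhds him
      filter_upwards [e1, e2] with t ht1 ht2
      rw [← hUp t ht1 ht2]
      exact hF t ht2
    have := ha.eqOn_zero_of_preconnected_of_eventuallyEq_zero (convex_ball _ _).isPreconnected
      (by rwa [mem_ball_zero_iff] : t₁ ∈ Metric.ball 0 ρ) hev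
    intro t ht
    exact this (by rwa [mem_ball_zero_iff])
  -- the new relation on the upper half disc
  have hnew : ∀ t : ℂ, ‖t‖ < ρ → 0 < t.im → ev (sub 0 (fun σ => Tm n (μ σ) m) 1 (bar F)) t (fun σ => Jm n a (μ σ) t) = 0 := by
    intro t ht ht0
    rw [ev_sub, ev_bar, add_zero]
    have e1 : (fun σ => cj (Tm n (μ σ) m * Jm n a (μ σ) t * 1)) = Y ((starRingEnd ℂ) t) := by
      funext σ
      rw [Matrix.mul_one, hJ σ t (lt_of_lt_of_le ht (hρ σ)) ht0, ← Matrix.mul_assoc, ← hCS, cj_mul, cj_cj]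
      simp only [hY]
      congr 1
      ext i j
      simp only [cj, Matrix.map_apply, Zc, Matrix.of_apply]
      rw [conj_Ec]
    rw [e1, hzero _ (by rwa [Complex.norm_conj]), map_zero]
  -- everywhere
  intro t ht
  have hd : DifferentiableOn ℂ (fun t => ev (sub 0 (fun σ => Tm n (μ σ) m) 1 (bar F)) t (fun σ => Jm n a (μ σ) t))
      {t : ℂ | 0 < t.im} := fun t ht =>
    (ev_diff (X := fun t σ => Jm n a (μ σ) t) fun σ i j =>
      (hasDerivAt_Jf hc.mono (h0 σ) (h1 σ) (j : ℕ) ht).differentiableAt).differentiableWithinAt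
  have ha := hd.analyticOnNhd (isOpen_lt continuous_const Complex.continuous_im)
  set t₁ : ℂ := ((ρ / 2 : ℝ) : ℂ) * Complex.I with ht₁
  have hn1 : ‖t₁‖ < ρ := by
    rw [ht₁, norm_mul, Complex.norm_I, mul_one, Complex.norm_real, Real.norm_of_nonneg (by positivity)]
    linarith
  have him : 0 < t₁.im := by
    rw [ht₁, Complex.mul_I_im, Complex.ofReal_re]
    positivity
  have hev : (fun t => ev (sub 0 (fun σ => Tm n (μ σ) m) 1 (bar F)) t (fun σ => Jm n a (μ σ) t)) =ᶠ[𝓝 t₁] 0 := by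
    have e1 : ∀ᶠ t : ℂ in 𝓝 t₁, ‖t‖ < ρ := (isOpen_lt continuous_norm continuous_const).mem_nhds hn1
    have e2 : ∀ᶠ t : ℂ in 𝓝 t₁, 0 < t.im := (isOpen_lt continuous_const Complex.continuous_im).mem_nhds him
    filter_upwards [e1, e2] with t ht1 ht2
    exact hnew t ht1 ht2
  exact ha.eqOn_zero_of_preconnected_of_eventuallyEq_zero (convex_halfSpace_im_gt 0).isPreconnected him hev ht

end Pool.Agent.K1H12.SE
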