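import Pool.Agent.H463R3.PSLn

/-!
# Superelliptic periods: the group generated by the transvections
-/

set_option autoImplicit false

namespace Pool.Agent.K1H12.SE

open Matrix Finset

variable {n : ℕ}

theorem r1_mul (u v w x : Fin n → ℂ) : vecMulVec u v * vecMulVec w x = (v ⬝ᵥ w) • vecMulVec u x := by
  ext i j
  rw [Matrix.mul_apply, Matrix.smul_apply, smul_eq_mul]
  simp only [vecMulVec_apply, dotProduct]
  rw [sum_mul]
  exact sum_congr rfl fun k _ => by ring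

/-- the transvections of the direction `v ⊗ ψ` are in `G` -/
def PP (G : Submonoid (Matrix (Fin n) (Fin n) ℂ)) (v ψ : Fin n → ℂ) : Prop :=
  ψ ⬝ᵥ v = 0 ∧ ∀ c : ℂ, 1 + c • vecMulVec v ψ ∈ G

/-- closed in the sense of lines -/
def LCl (G : Submonoid (Matrix (Fin n) (Fin n) ℂ)) : Prop :=
  ∀ A B : Matrix (Fin n) (Fin n) ℂ, {s : ℂ | A + s • B ∈ G}.Infinite → ∀ s : ℂ, A + s • B ∈ G

variable {G : Submonoid (Matrix (Fin n) (Fin n) ℂ)}

theorem tr_mul {v ψ : Fin n → ℂ} (h : ψ ⬝ᵥ v = 0) (c d : ℂ) :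
    (1 + c • vecMulVec v ψ) * (1 + d • vecMulVec v ψ) = 1 + (c + d) • vecMulVec v ψ := by
  rw [mul_add, add_mul, add_mul, mul_one, one_mul, mul_one, smul_mul_smul_comm, r1_mul, h, zero_smul, smul_zero, add_zero,
    add_smul, add_assoc]

theorem S1 (hcl : LCl G) {v ψ : Fin n → ℂ} (h : ψ ⬝ᵥ v = 0) (hG : 1 + vecMulVec v ψ ∈ G) : PP G v ψ := by
  refine ⟨h, hcl 1 _ ?_⟩
  have h1 : ∀ s : ℕ, 1 + (s : ℂ) • vecMulVec v ψ ∈ G := by
    intro s
    induction s with
    | zero => simp [G.one_mem]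
    | succ s ih =>
      have h2 := G.mul_mem ih hG
      have h3 := tr_mul h (s : ℂ) 1
      rw [one_smul] at h3
      rw [h3] at h2
      push_cast
      exact h2
  refine Set.Infinite.mono ?_ (Set.infinite_range_of_injective (Nat.cast_injective (R := ℂ)))
  rintro _ ⟨s, rfl⟩
  exact h1 s

theorem S2 {v φ w ψ : Fin n → ℂ} (h : PP G v φ) (h' : PP G w ψ) (t : ℂ) :
    PP G (w + (t * (φ ⬝ᵥ w)) • v) (ψ - (t * (ψ ⬝ᵥ v)) • φ) := by
  obtain ⟨h1, h2⟩ := h
  obtain ⟨h3, h4⟩ := h'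
  refine ⟨?_, fun c => ?_⟩
  · rw [sub_dotProduct, dotProduct_add, dotProduct_add, smul_dotProduct, smul_dotProduct, dotProduct_smul, dotProduct_smul,
      h1, h3]
    simp only [smul_eq_mul]
    ring
  · have h5 := G.mul_mem (G.mul_mem (h2 t) (h4 c)) (h2 (-t))
    have h6 : (1 + t • vecMulVec v φ) * (1 + c • vecMulVec w ψ) * (1 + (-t) • vecMulVec v φ) =
        1 + c • vecMulVec (w + (t * (φ ⬝ᵥ w)) • v) (ψ - (t * (ψ ⬝ᵥ v)) • φ) := by
      have e1 : vecMulVec (w + (t * (φ ⬝ᵥ w)) • v) (ψ - (t * (ψ ⬝ᵥ v)) • φ) =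
          vecMulVec w ψ + (t * (φ ⬝ᵥ w)) • vecMulVec v ψ - (t * (ψ ⬝ᵥ v)) • vecMulVec w φ -
            ((t * (φ ⬝ᵥ w)) * (t * (ψ ⬝ᵥ v))) • vecMulVec v φ := by
        ext i j
        simp only [vecMulVec_apply, Pi.add_apply, Pi.sub_apply, Pi.smul_apply, Matrix.add_apply, Matrix.sub_apply,
          Matrix.smul_apply, smul_eq_mul]
        ring
      rw [e1]
      simp only [mul_add, add_mul, mul_one, one_mul, smul_mul_assoc, mul_smul_comm, r1_mul, h1, smul_smul]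
      module
    rw [h6] at h5
    exact h5

theorem S3 (hcl : LCl G) {v ψ₀ ψ₁ : Fin n → ℂ} (h : ∀ t : ℂ, PP G v (ψ₀ + t • ψ₁)) : PP G v ψ₁ := by
  have h0 : ψ₀ ⬝ᵥ v = 0 := by
    have := (h 0).1
    rwa [zero_smul, add_zero] at this
  have h1 : ψ₁ ⬝ᵥ v = 0 := by
    have := (h 1).1
    rwa [one_smul, add_dotProduct, h0, zero_add] at this
  refine ⟨h1, fun c => ?_⟩
  have h2 := hcl (1 + c • vecMulVec v ψ₁) (vecMulVec v ψ₀) ?_ 0
  · rwa [zero_smul, add_zero] at h2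
  · refine Set.Infinite.mono ?_ (Set.Finite.infinite_compl (Set.finite_singleton (0 : ℂ)))
    intro s hs
    have hs0 : s ≠ 0 := hs
    have h3 := (h (c / s)).2 s
    have h4 : 1 + s • vecMulVec v (ψ₀ + (c / s) • ψ₁) = 1 + c • vecMulVec v ψ₁ + s • vecMulVec v ψ₀ := by
      ext i j
      simp only [vecMulVec_apply, Pi.add_apply, Pi.smul_apply, Matrix.add_apply, Matrix.smul_apply, smul_eq_mul]
      field_simp
      ring
    rw [h4] at h3
    exact h3

theorem PP.smul {v ψ : Fin n → ℂ} (h : PP G v ψ) (c : ℂ) : PP G (c • v) ψ := by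
  refine ⟨by rw [dotProduct_smul, h.1, smul_zero], fun d => ?_⟩
  have h1 := h.2 (d * c)
  rwa [← smul_smul, ← smul_vecMulVec] at h1

theorem PP.smul' {v ψ : Fin n → ℂ} (h : PP G v ψ) (c : ℂ) : PP G v (c • ψ) := by
  refine ⟨by rw [smul_dotProduct, h.1, smul_zero], fun d => ?_⟩
  have h1 := h.2 (d * c)
  rwa [← smul_smul, ← vecMulVec_smul] at h1

theorem PP.add {v w ψ : Fin n → ℂ} (h : PP G v ψ) (h' : PP G w ψ) : PP G (v + w) ψ := by
  refine ⟨by rw [dotProduct_add, h.1, h'.1, add_zero], fun c => ?_⟩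
  have h1 := G.mul_mem (h.2 c) (h'.2 c)
  rw [mul_add, add_mul, add_mul, mul_one, one_mul, mul_one, smul_mul_smul_comm, r1_mul, h'.1, zero_smul, smul_zero,
    add_zero] at h1
  rwa [add_vecMulVec, smul_add, ← add_assoc]

theorem PP.zero (ψ : Fin n → ℂ) : PP G 0 ψ := by
  refine ⟨dotProduct_zero _, fun c => ?_⟩
  rw [zero_vecMulVec, smul_zero, add_zero]
  exact G.one_mem

theorem PP.sum {ι : Type*} (s : Finset ι) (v : ι → Fin n → ℂ) (ψ : Fin n → ℂ) (h : ∀ i ∈ s, PP G (v i) ψ) :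
    PP G (∑ i ∈ s, v i) ψ := by
  classical
  induction s using Finset.induction_on with
  | empty => rw [sum_empty]; exact PP.zero ψ
  | insert a s ha ih =>
    rw [sum_insert ha]
    exact (h a (mem_insert_self _ _)).add (ih fun i hi => h i (mem_insert_of_mem hi))

/-- the coordinate forms -/
def ee (k : Fin n) : Fin n → ℂ := Pi.single k 1

theorem ee_dot (k : Fin n) (v : Fin n → ℂ) : ee k ⬝ᵥ v = v k := by
  unfold ee
  simp

/-- the third direction -/
theorem S4 (hcl : LCl G) {v : Fin n → Fin n → ℂ} (hv : ∀ m, PP G (v m) (ee m)) {i j k : Fin n}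
    (hji : v i j ≠ 0) (hkj : v j k ≠ 0)
    (hcyc : v i k * v j i * v k j + v j k * v i j * v k i ≠ 0) :
    PP G (v i - (v i k / v j k) • v j) (ee k) := by
  -- `t` with `t * v i j = - v i k / v j k`
  set t : ℂ := -(v i k / v j k) / v i j with ht
  have h1 := S2 (hv j) (hv i) t
  rw [ee_dot, ee_dot] at h1
  have e1 : t * v i j = -(v i k / v j k) := by rw [ht]; field_simp
  rw [e1, neg_smul, ← sub_eq_add_neg] at h1
  have h2 : ∀ s : ℂ, PP G (v i - (v i k / v j k) • v j)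
      ((ee i - (t * v j i) • ee j) + s • (-((ee i - (t * v j i) • ee j) ⬝ᵥ v k) • ee k)) := by
    intro s
    have h3 := S2 (hv k) h1 s
    have e2 : ee k ⬝ᵥ (v i - (v i k / v j k) • v j) = 0 := by
      rw [ee_dot]
      simp only [Pi.sub_apply, Pi.smul_apply, smul_eq_mul]
      field_simp
      ring
    rw [e2, mul_zero, zero_smul, add_zero] at h3
    have e3 : ((ee i - (t * v j i) • ee j) + s • (-((ee i - (t * v j i) • ee j) ⬝ᵥ v k) • ee k)) =
        (ee i - (t * v j i) • ee j) - (s * ((ee i - (t * v j i) • ee j) ⬝ᵥ v k)) • ee k := by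
      rw [smul_smul, sub_eq_add_neg (_ - _), ← neg_smul]
      congr 2
      ring
    rw [e3]
    exact h3
  have h3 := S3 hcl h2
  have e4 : -((ee i - (t * v j i) • ee j) ⬝ᵥ v k) ≠ 0 := by
    rw [sub_dotProduct, smul_dotProduct, ee_dot, ee_dot, ht, smul_eq_mul]
    intro h0
    apply hcyc
    field_simp at h0
    linear_combination (-1 : ℂ) * h0
  have h4 := h3.smul' (-((ee i - (t * v j i) • ee j) ⬝ᵥ v k))⁻¹
  rwa [smul_smul, inv_mul_cancel₀ e4, one_smul] at h4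

/-! ### the vectors -/

/-- the directions of the transvections -/
noncomputable def wv (q : ℂ) (m : Fin n) : Fin n → ℂ := fun k => if k < m then q - 1 else if m < k then 1 - q⁻¹ else 0

theorem wv_self (q : ℂ) (m : Fin n) : wv q m m = 0 := by
  simp [wv]

theorem wv_ne {q : ℂ} (hq0 : q ≠ 0) (hq1 : q ≠ 1) {m k : Fin n} (h : m ≠ k) : wv q m k ≠ 0 := by
  unfold wv
  rcases lt_or_gt_of_ne h with h1 | h1
  · rw [if_neg h1.le.not_gt, if_pos h1]
    intro h2
    apply hq1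
    field_simp at h2
    linear_combination h2
  · rw [if_pos h1]
    exact sub_ne_zero.2 hq1

/-- the matrix of the vectors is injective -/
theorem wv_inj {q : ℂ} (hq0 : q ≠ 0) (hq1 : q ≠ 1) (hn : 1 ≤ n) (hqn : q ^ (n - 1) ≠ 1) (c : Fin n → ℂ)
    (h : ∀ k, ∑ m, c m * wv q m k = 0) : c = 0 := by
  -- consecutive rows
  have h1 : ∀ k : ℕ, ∀ (hk : k + 1 < n), q * c ⟨k + 1, hk⟩ = c ⟨k, by omega⟩ := by
    intro k hk
    have h2 : ∑ m, c m * (wv q m ⟨k, by omega⟩ - wv q m ⟨k + 1, hk⟩) = 0 := by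
      simp only [mul_sub, sum_sub_distrib]
      rw [h, h, sub_zero]
    have h3 : ∀ m : Fin n, c m * (wv q m ⟨k, by omega⟩ - wv q m ⟨k + 1, hk⟩) =
        (if m = ⟨k + 1, hk⟩ then c ⟨k + 1, hk⟩ * (q - 1) else 0) - (if m = ⟨k, by omega⟩ then c ⟨k, by omega⟩ * (1 - q⁻¹) else 0) := by
      intro m
      unfold wv
      simp only [Fin.lt_def, Fin.ext_iff]
      rcases lt_trichotomy (m : ℕ) k with h4 | h4 | h4
      · rw [if_neg (by omega), if_pos h4, if_neg (by omega), if_pos (by omega), if_neg (by omega), if_neg (by omega)]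
        ring
      · have h5 : c m = c ⟨k, by omega⟩ := congrArg c (Fin.ext h4)
        rw [if_neg (by omega), if_neg (by omega), if_neg (by omega), if_pos (by omega), if_neg (by omega), if_pos h4, h5]
        ring
      · rcases (by omega : (m : ℕ) = k + 1 ∨ k + 1 < m) with h5 | h5
        · have h6 : c m = c ⟨k + 1, hk⟩ := congrArg c (Fin.ext h5)
          rw [if_pos (by omega), if_neg (by omega), if_neg (by omega), if_pos h5, if_neg (by omega), h6]
          ring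
        · rw [if_pos (by omega), if_pos h5, if_neg (by omega), if_neg (by omega)]
          ring
    rw [sum_congr rfl fun m _ => h3 m, sum_sub_distrib, sum_ite_eq' , sum_ite_eq', if_pos (mem_univ _), if_pos (mem_univ _)] at h2
    have hq1' : q - 1 ≠ 0 := sub_ne_zero.2 hq1
    apply mul_left_cancel₀ hq1'
    have h7 : q * ((c ⟨k + 1, hk⟩ * (q - 1)) - c ⟨k, by omega⟩ * (1 - q⁻¹)) = 0 := by rw [h2, mul_zero]
    field_simp at h7
    linear_combination h7
  have h2 : ∀ k : ℕ, ∀ hk : k < n, c ⟨k, hk⟩ = (q⁻¹) ^ k * c ⟨0, by omega⟩ := by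
    intro k
    induction k with
    | zero => intro hk; rw [pow_zero, one_mul]
    | succ k ih =>
      intro hk
      have h3 := h1 k hk
      rw [ih (by omega)] at h3
      rw [pow_succ]
      field_simp at h3 ⊢
      linear_combination h3
  -- the first row
  have h3 := h ⟨0, by omega⟩
  have h4 : ∀ m : Fin n, c m * wv q m ⟨0, by omega⟩ = (if (m : ℕ) = 0 then 0 else (q⁻¹) ^ (m : ℕ)) * (c ⟨0, by omega⟩ * (q - 1)) := by
    intro m
    have h5 := h2 m m.2
    unfold wv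
    simp only [Fin.lt_def]
    by_cases h6 : (m : ℕ) = 0
    · rw [if_neg (by omega), if_neg (by omega), if_pos h6]
      ring
    · rw [if_pos (by omega), if_neg h6]
      rw [show c m = c ⟨(m : ℕ), m.2⟩ from rfl, h5]
      ring
  rw [sum_congr rfl fun m _ => h4 m, ← sum_mul,
    Fin.sum_univ_eq_sum_range (fun m : ℕ => (if m = 0 then (0 : ℂ) else (q⁻¹) ^ m)) n] at h3
  have h5 : ∑ m ∈ range n, (if m = 0 then (0 : ℂ) else (q⁻¹) ^ m) = ∑ m ∈ range n, (q⁻¹) ^ m - 1 := by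
    obtain ⟨n', rfl⟩ : ∃ n', n = n' + 1 := ⟨n - 1, by omega⟩
    rw [sum_range_succ', sum_range_succ']
    simp
  have hqi : q⁻¹ ≠ 1 := fun h6 => hq1 (by rw [← inv_inv q, h6, inv_one])
  have h6 : ∑ m ∈ range n, (if m = 0 then (0 : ℂ) else (q⁻¹) ^ m) ≠ 0 := by
    rw [h5, geom_sum_eq hqi]
    intro h7
    apply hqn
    have h8 : q⁻¹ - 1 ≠ 0 := sub_ne_zero.2 hqi
    rw [sub_eq_zero, div_eq_one_iff_eq h8] at h7
    have h9 : (q⁻¹) ^ n = q⁻¹ := by linear_combination h7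
    obtain ⟨n', rfl⟩ : ∃ n', n = n' + 1 := ⟨n - 1, by omega⟩
    rw [pow_succ] at h9
    have h10 : (q⁻¹) ^ n' = 1 := by
      apply mul_right_cancel₀ (inv_ne_zero hq0)
      rw [h9, one_mul]
    rw [Nat.add_sub_cancel]
    rw [inv_pow] at h10
    rw [← inv_inv (q ^ n'), h10, inv_one]
  have h7 : c ⟨0, by omega⟩ = 0 := by
    have h8 := (mul_eq_zero.1 h3).resolve_left h6
    exact (mul_eq_zero.1 h8).resolve_right (sub_ne_zero.2 hq1)
  funext m
  have h8 := h2 m m.2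
  rw [h7, mul_zero] at h8
  exact h8

/-- the matrix of the vectors -/
noncomputable def Gm (n : ℕ) (q : ℂ) : Matrix (Fin n) (Fin n) ℂ := Matrix.of fun k m => wv q m k

theorem Gm_unit {q : ℂ} (hq0 : q ≠ 0) (hq1 : q ≠ 1) (hn : 1 ≤ n) (hqn : q ^ (n - 1) ≠ 1) : IsUnit (Gm n q) := by
  rw [← Matrix.mulVec_injective_iff_isUnit]
  have h1 : Function.Injective (Matrix.mulVecLin (Gm n q)) := by
    rw [injective_iff_map_eq_zero]
    intro c hc
    refine wv_inj hq0 hq1 hn hqn c fun k => ?_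
    have h2 : (Gm n q *ᵥ c) k = 0 := congrFun hc k
    rw [← h2]
    simp only [Matrix.mulVec, dotProduct, Gm, Matrix.of_apply]
    exact sum_congr rfl fun m _ => mul_comm _ _
  exact h1

theorem cyc_ne {q : ℂ} (hq0 : q ≠ 0) (hq1 : q ≠ 1) (hq2 : q ≠ -1) {i j k : Fin n} (hij : i ≠ j) (hik : i ≠ k) (hjk : j ≠ k) :
    wv q i k * wv q j i * wv q k j + wv q j k * wv q i j * wv q k i ≠ 0 := by
  have h0 : (q - 1) * (1 - q⁻¹) * ((q - 1) + (1 - q⁻¹)) ≠ 0 := by
    have h1 : (q - 1) * (1 - q⁻¹) * ((q - 1) + (1 - q⁻¹)) = (q - 1) ^ 3 * (q + 1) / q ^ 2 := by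
      field_simp
    rw [h1]
    refine div_ne_zero (mul_ne_zero (pow_ne_zero _ (sub_ne_zero.2 hq1)) ?_) (pow_ne_zero _ hq0)
    intro h
    exact hq2 (by linear_combination h)
  intro h
  apply h0
  rw [← h]
  unfold wv
  have e1 := Fin.val_ne_of_ne hij
  have e2 := Fin.val_ne_of_ne hik
  have e3 := Fin.val_ne_of_ne hjk
  simp only [Fin.lt_def]
  rcases (by omega : ((i : ℕ) < j ∧ (j : ℕ) < k) ∨ ((i : ℕ) < k ∧ (k : ℕ) < j) ∨ ((j : ℕ) < i ∧ (i : ℕ) < k) ∨
    ((j : ℕ) < k ∧ (k : ℕ) < i) ∨ ((k : ℕ) < i ∧ (i : ℕ) < j) ∨ ((k : ℕ) < j ∧ (j : ℕ) < i)) with h | h | h | h | h | h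
  all_goals
    obtain ⟨h1, h2⟩ := h
    have h3 := h1.trans h2
    simp only [h1, h2, h3, h1.not_gt, h2.not_gt, h3.not_gt, if_true, if_false]
    ring

/-- all elementary transvections -/
theorem gen (hn : 3 ≤ n) (hcl : LCl G) {q : ℂ} (hq0 : q ≠ 0) (hq1 : q ≠ 1) (hq2 : q ≠ -1) (hqn : q ^ (n - 1) ≠ 1)
    (hG : ∀ m : Fin n, 1 + vecMulVec (wv q m) (ee m) ∈ G) (i k : Fin n) (hik : i ≠ k) : PP G (ee i) (ee k) := by
  have hv : ∀ m : Fin n, PP G (wv q m) (ee m) := fun m => S1 hcl (by rw [ee_dot, wv_self]) (hG m)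
  -- the coefficients of `ee i`
  obtain ⟨u, hu⟩ := Gm_unit hq0 hq1 (by omega : 1 ≤ n) hqn
  set c : Fin n → ℂ := (↑u⁻¹ : Matrix (Fin n) (Fin n) ℂ) *ᵥ ee i with hc
  have hc1 : Gm n q *ᵥ c = ee i := by
    rw [hc, ← hu, Matrix.mulVec_mulVec, u.mul_inv, Matrix.one_mulVec]
  have hc2 : ∀ l, ∑ m, c m * wv q m l = ee i l := by
    intro l
    rw [← hc1]
    simp only [Matrix.mulVec, dotProduct, Gm, Matrix.of_apply]
    exact sum_congr rfl fun m _ => mul_comm _ _
  -- an index different from `k`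
  obtain ⟨j₀, hj₀⟩ : ∃ j₀ : Fin n, j₀ ≠ k := ⟨i, hik⟩
  have hk0 : ∑ m, c m * wv q m k = 0 := by
    rw [hc2]
    unfold ee
    rw [Pi.single_eq_of_ne (Ne.symm hik)]
  have hj0 : wv q j₀ k ≠ 0 := wv_ne hq0 hq1 hj₀
  have key : ee i = c k • wv q k + ∑ m ∈ univ.erase k, c m • (wv q m - (wv q m k / wv q j₀ k) • wv q j₀) := by
    funext l
    rw [← hc2 l]
    simp only [Pi.add_apply, Pi.smul_apply, smul_eq_mul, Finset.sum_apply, Pi.sub_apply, mul_sub, sum_sub_distrib]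
    rw [← Finset.add_sum_erase _ _ (mem_univ k)]
    have h1 : ∑ m ∈ univ.erase k, c m * (wv q m k / wv q j₀ k * wv q j₀ l) =
        (∑ m ∈ univ.erase k, c m * wv q m k) * (wv q j₀ l / wv q j₀ k) := by
      rw [sum_mul]
      refine sum_congr rfl fun m _ => ?_
      field_simp
    have h2 : ∑ m ∈ univ.erase k, c m * wv q m k = 0 := by
      rw [← Finset.add_sum_erase _ _ (mem_univ k), wv_self, mul_zero, zero_add] at hk0
      exact hk0
    rw [h1, h2, zero_mul, sub_zero]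
  rw [key]
  refine ((hv k).smul _).add (PP.sum _ _ _ fun m hm => PP.smul ?_ _)
  rw [mem_erase] at hm
  by_cases hmj : m = j₀
  · rw [hmj, div_self hj0, one_smul, sub_self]
    exact PP.zero _
  · exact S4 hcl hv (wv_ne hq0 hq1 hmj) hj0 (cyc_ne hq0 hq1 hq2 hmj hm.1 hj₀)

end Pool.Agent.K1H12.SE
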