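import Pool.Agent.K1H12.SE.Cross
import Pool.Agent.K1H12.SE.Grp

/-!
# Superelliptic periods: translation, crossing of all gaps, the monoid of the substitutions which preserve the relations
-/

set_option autoImplicit false

namespace Pool.Agent.K1H12.SE

open Filter Topology Finset
open Pool.Agent.Y113

variable {n s : ℕ} {a : ℕ → ℝ} {m : ℕ}

/-- translated roots -/
def tra (a : ℕ → ℝ) (t₀ : ℝ) : ℕ → ℝ := fun k => a k - t₀

theorem phi_shift (μ : ℝ) (i : ℕ) (t₀ : ℝ) (x : ℂ) : phi n a μ i (x + t₀) = phi n (tra a t₀) μ i x := by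
  unfold phi
  refine prod_congr rfl fun k _ => ?_
  unfold fac tra
  push_cast
  split_ifs
  · congr 1
    ring
  · congr 1
    ring

theorem xp_shift (i : ℕ) (t₀ : ℝ) (t : ℂ) (r : ℝ) : xp a i (t + t₀) r = xp (tra a t₀) i t r + t₀ := by
  unfold xp tra
  push_cast
  ring

theorem Jf_shift (ha : StrictMono a) {μ : ℝ} (h0 : 0 < μ) (h1 : μ < 1) (i j : ℕ) (t₀ : ℝ) {t : ℂ} (ht : 0 < t.im) :
    Jf n a μ i j (t + t₀) = ∑ k ∈ range (j + 1), Jf n (tra a t₀) μ i k t * ((t₀ : ℂ) ^ (j - k) * (j.choose k : ℂ)) := by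
  have ha' : StrictMono (tra a t₀) := fun x y h => by
    unfold tra
    linarith [ha h]
  unfold Jf
  have h2 : ∀ r : ℝ, Hf n a μ i j (xp a i (t + t₀) r) * (wt μ r : ℂ) =
      ∑ k ∈ range (j + 1), (Hf n (tra a t₀) μ i k (xp (tra a t₀) i t r) * (wt μ r : ℂ)) * ((t₀ : ℂ) ^ (j - k) * (j.choose k : ℂ)) := by
    intro r
    rw [xp_shift]
    unfold Hf
    rw [phi_shift, add_pow, sum_mul, sum_mul]
    refine sum_congr rfl fun k _ => ?_
    ring
  simp only [h2]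
  rw [intervalIntegral.integral_finsetSum]
  · refine sum_congr rfl fun k _ => ?_
    rw [intervalIntegral.integral_mul_const]
  · intro k _
    exact (mul_wt_int h0 h1 (contOn_path ha' ht fun x hx => (hasDerivAt_Hf hx k).continuousAt)).mul_const _

/-- the matrix of the translation -/
noncomputable def Qm (n : ℕ) (t₀ : ℝ) : Matrix (Fin n) (Fin n) ℂ :=
  Matrix.of fun k j => (t₀ : ℂ) ^ ((j : ℕ) - (k : ℕ)) * ((j : ℕ).choose k : ℂ)

theorem Jm_shift (ha : StrictMono a) {μ : ℝ} (h0 : 0 < μ) (h1 : μ < 1) (t₀ : ℝ) {t : ℂ} (ht : 0 < t.im) :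
    Jm n a μ (t + t₀) = Jm n (tra a t₀) μ t * Qm n t₀ := by
  ext i j
  rw [Matrix.mul_apply]
  unfold Jm
  rw [Matrix.of_apply, Jf_shift ha h0 h1 i j t₀ ht]
  have h2 : ∑ k ∈ range ((j : ℕ) + 1), Jf n (tra a t₀) μ i k t * ((t₀ : ℂ) ^ ((j : ℕ) - k) * ((j : ℕ).choose k : ℂ)) =
      ∑ k ∈ range n, Jf n (tra a t₀) μ i k t * ((t₀ : ℂ) ^ ((j : ℕ) - k) * ((j : ℕ).choose k : ℂ)) := by
    have := j.2
    apply sum_subset
    · intro k hk
      rw [mem_range] at hk ⊢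
      omega
    · intro k _ hk
      rw [mem_range] at hk
      rw [Nat.choose_eq_zero_of_lt (by omega)]
      simp
  rw [h2, ← Fin.sum_univ_eq_sum_range (fun k => Jf n (tra a t₀) μ i k t * ((t₀ : ℂ) ^ ((j : ℕ) - k) * ((j : ℕ).choose k : ℂ))) n]
  rfl

theorem cj_Qm (t₀ : ℝ) : cj (Qm n t₀) = Qm n t₀ := by
  ext i j
  simp [cj, Qm]

theorem Cfg.shift {f : Polynomial ℚ} (hc : Cfg n a f) (t₀ : ℚ) :
    Cfg n (tra a t₀) (f.comp (Polynomial.X + Polynomial.C t₀)) := by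
  refine ⟨fun x y h => ?_, ?_, ?_⟩
  · unfold tra
    linarith [hc.mono h]
  · rw [Polynomial.natDegree_comp, Polynomial.natDegree_X_add_C, mul_one]
    exact hc.deg
  · rw [Polynomial.map_comp, hc.map, Polynomial.map_add, Polynomial.map_X, Polynomial.map_C, Polynomial.prod_comp]
    refine prod_congr rfl fun k _ => ?_
    rw [Polynomial.sub_comp, Polynomial.X_comp, Polynomial.C_comp]
    unfold tra
    rw [map_sub, eq_ratCast]
    ring

theorem Gap.shift {t₀ : ℝ} (hg : Gap n a m t₀) : Gap n (tra a t₀) m 0 := by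
  refine ⟨hg.1, fun k hk => ?_, fun k hk hk' => ?_⟩
  · unfold tra
    linarith [hg.2.1 k hk]
  · unfold tra
    linarith [hg.2.2 k hk hk']

theorem exists_gap_point (ha : StrictMono a) (hm : m ≤ n) : ∃ t₀ : ℚ, Gap n a m t₀ := by
  rcases Nat.eq_zero_or_pos m with h | h
  · obtain ⟨t₀, ht₀⟩ := exists_rat_lt (a 0)
    refine ⟨t₀, hm, fun k hk => by omega, fun k _ _ => lt_of_lt_of_le ht₀ (ha.monotone (Nat.zero_le k))⟩
  · obtain ⟨t₀, ht₀, ht₀'⟩ := exists_rat_btwn (ha (show m - 1 < m by omega))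
    refine ⟨t₀, hm, fun k hk => lt_of_le_of_lt (ha.monotone (by omega)) ht₀, fun k hk _ => lt_of_lt_of_le ht₀' (ha.monotone hk)⟩

/-- crossing of a gap -/
theorem cross_gap {f : Polynomial ℚ} (hc : Cfg n a f) {μ : Fin s → ℝ} {ν : Fin s → ℚ} (hν : ∀ σ, (ν σ : ℝ) = 1 - μ σ)
    (h0 : ∀ σ, 0 < μ σ) (h1 : ∀ σ, μ σ < 1) (hm : m ≤ n) {F : MvPolynomial (Option (Fin s × Fin n × Fin n)) ℂ}
    (hF : Rel n a μ F) : Rel n a μ (sub 0 (fun σ => Tm n (μ σ) m) 1 (bar F)) := by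
  obtain ⟨t₀, ht₀⟩ := exists_gap_point hc.mono hm
  have hc' := hc.shift t₀
  have hF' : Rel n (tra a t₀) μ (sub ((t₀ : ℝ) : ℂ) 1 (Qm n t₀) F) := by
    intro t ht
    rw [ev_sub]
    have h2 : (fun σ => (1 : Fin s → Matrix (Fin n) (Fin n) ℂ) σ * Jm n (tra a t₀) (μ σ) t * Qm n t₀) =
        fun σ => Jm n a (μ σ) (t + (t₀ : ℝ)) := by
      funext σ
      rw [Pi.one_apply, Matrix.one_mul, Jm_shift hc.mono (h0 σ) (h1 σ) t₀ ht]
    rw [h2]
    refine hF _ ?_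
    simpa using ht
  have h2 := cross0 hc' hν h0 h1 ht₀.shift hF'
  intro t ht
  have ht' : 0 < (t - (t₀ : ℝ)).im := by simpa using ht
  have h3 := h2 (t - (t₀ : ℝ)) ht'
  rw [ev_sub, ev_bar, add_zero, ev_sub] at h3
  rw [ev_sub, ev_bar, add_zero]
  rw [← h3]
  congr 2
  · rw [map_sub, Complex.conj_ofReal]
    ring
  · funext σ
    rw [Pi.one_apply, Matrix.one_mul, Matrix.mul_one, Matrix.mul_one]
    have h4 := Jm_shift (n := n) hc.mono (h0 σ) (h1 σ) t₀ ht'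
    rw [sub_add_cancel] at h4
    rw [h4, ← Matrix.mul_assoc, cj_mul (_ * _) (Qm n t₀), cj_Qm]

/-- the monoid of the substitutions which preserve the relations -/
def GR (n : ℕ) {s : ℕ} (a : ℕ → ℝ) (μ : Fin s → ℝ) : Submonoid (Fin s → Matrix (Fin n) (Fin n) ℂ) where
  carrier := {g | ∀ F, Rel n a μ F → Rel n a μ (sub 0 g 1 F)}
  one_mem' := by
    intro F hF t ht
    rw [ev_sub, add_zero]
    simp only [Pi.one_apply, Matrix.one_mul, Matrix.mul_one]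
    exact hF t ht
  mul_mem' := by
    intro g h hg hh F hF t ht
    have h1 := hh _ (hg F hF) t ht
    rw [ev_sub, ev_sub, add_zero, add_zero] at h1
    rw [ev_sub, add_zero]
    simp only [Matrix.mul_one] at h1 ⊢
    simp only [Pi.mul_apply, Matrix.mul_assoc]
    exact h1

theorem mem_GR {μ : Fin s → ℝ} {g : Fin s → Matrix (Fin n) (Fin n) ℂ} :
    g ∈ GR n a μ ↔ ∀ F, Rel n a μ F → ∀ t : ℂ, 0 < t.im → ev F t (fun σ => g σ * Jm n a (μ σ) t) = 0 := by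
  constructor
  · intro h F hF t ht
    have h1 := h F hF t ht
    rw [ev_sub, add_zero] at h1
    simpa only [Matrix.mul_one] using h1
  · intro h F hF t ht
    rw [ev_sub, add_zero]
    simpa only [Matrix.mul_one] using h F hF t ht

/-- the transvection of the crossing -/
noncomputable def Nm (μ : ℝ) (m : Fin n) : Matrix (Fin n) (Fin n) ℂ :=
  Matrix.vecMulVec (fun i : Fin n => (tht μ) ^ (((i : ℕ) : ℤ) - ((m : ℕ) : ℤ)) * wv ((tht μ) ^ 2) m i) (ee m)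

/-- auxiliary vectors -/
def uv (m : Fin n) : Fin n → ℂ := fun i => if i < m then 1 else if m < i then -1 else 0

def rv (m : Fin n) : Fin n → ℂ := fun l => (if (l : ℕ) + 1 = m then 1 else 0) - (if (l : ℕ) = m + 1 then 1 else 0)

theorem Mz_succ (m i l : Fin n) : Mz ((m : ℕ) + 1) i l = Mz m i l + if l = m then uv m i else 0 := by
  unfold Mz uv
  simp only [Fin.ext_iff, Fin.lt_def]
  split_ifs <;> first | (exfalso; omega) | ring

theorem Mz_self (m l : Fin n) : Mz ((m : ℕ) + 1) m l = if l = m then 1 else 0 := by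
  unfold Mz
  simp only [Fin.ext_iff]
  split_ifs <;> first | (exfalso; omega) | rfl

/-- the sum against the vector `rv` -/
theorem sum_rv (m i : Fin n) (g : ℤ → ℂ) : ∑ l : Fin n, Mz m i l * g ((l : ℕ) : ℤ) * rv m l =
    (if i < m then g (((m : ℕ) : ℤ) - 1) else 0) - (if m < i then g (((m : ℕ) : ℤ) + 1) else 0) := by
  unfold rv
  rw [Fin.sum_univ_eq_sum_range (fun l => Mz m i l * g ((l : ℕ) : ℤ) *
    ((if (l : ℕ) + 1 = (m : ℕ) then 1 else 0) - (if (l : ℕ) = (m : ℕ) + 1 then 1 else 0))) n]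
  have h1 : ∀ l : ℕ, Mz m i l * g (l : ℤ) * ((if l + 1 = (m : ℕ) then 1 else 0) - (if l = (m : ℕ) + 1 then 1 else 0)) =
      (if l + 1 = (m : ℕ) then (if i < m then g (((m : ℕ) : ℤ) - 1) else 0) else 0) -
      (if l = (m : ℕ) + 1 then (if m < i then g (((m : ℕ) : ℤ) + 1) else 0) else 0) := by
    intro l
    by_cases h2 : l + 1 = (m : ℕ)
    · have h3 : ((m : ℕ) : ℤ) - 1 = (l : ℤ) := by omega
      rw [if_pos h2, if_pos h2, if_neg (by omega : ¬ l = (m : ℕ) + 1), if_neg (by omega : ¬ l = (m : ℕ) + 1), h3]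
      unfold Mz
      simp only [Fin.lt_def]
      split_ifs <;> first | (exfalso; omega) | ring
    · rw [if_neg h2, if_neg h2]
      by_cases h3 : l = (m : ℕ) + 1
      · have h4 : ((m : ℕ) : ℤ) + 1 = (l : ℤ) := by omega
        rw [if_pos h3, if_pos h3, h4]
        unfold Mz
        simp only [Fin.lt_def]
        split_ifs <;> first | (exfalso; omega) | ring
      · rw [if_neg h3, if_neg h3]
        ring
  rw [sum_congr rfl fun l _ => h1 l, sum_sub_distrib]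
  have hm := m.2
  have hi := i.2
  congr 1
  · by_cases h2 : i < m
    · have h3 : ∀ l : ℕ, (if l + 1 = (m : ℕ) then (if i < m then g (((m : ℕ) : ℤ) - 1) else 0) else 0) =
          if l = (m : ℕ) - 1 then g (((m : ℕ) : ℤ) - 1) else 0 := by
        intro l
        rw [if_pos h2]
        rw [Fin.lt_def] at h2
        split_ifs <;> first | (exfalso; omega) | rfl
      rw [sum_congr rfl fun l _ => h3 l, sum_ite_eq', if_pos (mem_range.2 (by omega)), if_pos h2]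
    · simp only [if_neg h2]
      refine sum_eq_zero fun l _ => ?_
      split_ifs <;> rfl
  · by_cases h2 : m < i
    · simp only [if_pos h2]
      rw [Fin.lt_def] at h2
      rw [sum_ite_eq', if_pos (mem_range.2 (by omega))]
    · simp only [if_neg h2]
      refine sum_eq_zero fun l _ => ?_
      split_ifs <;> rfl

theorem zpow_split (μ : ℝ) (x y z : ℤ) (h : x = y + z) : (tht μ) ^ x = (tht μ) ^ y * (tht μ) ^ z := by
  rw [h, zpow_add₀ (tht_ne μ)]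

/-- the middle factor -/
noncomputable def Ym (μ : ℝ) (m : Fin n) : Matrix (Fin n) (Fin n) ℂ :=
  1 + Matrix.vecMulVec (fun l : Fin n => (tht μ) ^ (((m : ℕ) : ℤ) - ((l : ℕ) : ℤ)) * rv m l) (ee m)

theorem mul_one_add_vec (A : Matrix (Fin n) (Fin n) ℂ) (v : Fin n → ℂ) (m i l : Fin n) :
    (A * (1 + Matrix.vecMulVec v (ee m))) i l = A i l + if l = m then ∑ k, A i k * v k else 0 := by
  rw [Matrix.mul_add, Matrix.mul_one, Matrix.add_apply, Matrix.mul_apply]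
  congr 1
  unfold ee
  by_cases h : l = m
  · rw [if_pos h]
    refine sum_congr rfl fun k _ => ?_
    rw [Matrix.vecMulVec_apply, h, Pi.single_eq_same, mul_one]
  · rw [if_neg h]
    refine sum_eq_zero fun k _ => ?_
    rw [Matrix.vecMulVec_apply, Pi.single_eq_of_ne h, mul_zero, mul_zero]

theorem cross_a (μ : ℝ) (m : Fin n) : cj (Sm n μ m) * Ym μ m = cj (Sm n μ ((m : ℕ) + 1)) := by
  ext i l
  have e0 : ∀ (m' : ℕ) (i l : Fin n), cj (Sm n μ m') i l = Mz m' i l * (tht μ) ^ (((l : ℕ) : ℤ) - ((i : ℕ) : ℤ)) := by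
    intro m' i l
    unfold cj Sm
    rw [Matrix.map_apply, Matrix.of_apply, map_mul, cj_Mz, cj_tht_zpow, neg_sub]
  unfold Ym
  rw [mul_one_add_vec, e0, e0, Mz_succ]
  by_cases h : l = m
  · rw [if_pos h, if_pos h]
    have h2 := sum_rv m i (fun x => (tht μ) ^ (((m : ℕ) : ℤ) - ((i : ℕ) : ℤ)))
    have h3 : ∑ k, cj (Sm n μ m) i k * ((tht μ) ^ (((m : ℕ) : ℤ) - ((k : ℕ) : ℤ)) * rv m k) =
        ∑ k : Fin n, Mz m i k * (tht μ) ^ (((m : ℕ) : ℤ) - ((i : ℕ) : ℤ)) * rv m k := by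
      refine sum_congr rfl fun k _ => ?_
      rw [e0, zpow_split μ (((m : ℕ) : ℤ) - ((i : ℕ) : ℤ)) (((k : ℕ) : ℤ) - ((i : ℕ) : ℤ)) (((m : ℕ) : ℤ) - ((k : ℕ) : ℤ)) (by ring)]
      ring
    rw [h3, h2, h]
    unfold uv
    split_ifs <;> first | (exfalso; omega) | ring
  · rw [if_neg h, if_neg h, add_zero, add_zero]

theorem cross_b (μ : ℝ) (m : Fin n) : (1 + Nm μ m) * Sm n μ ((m : ℕ) + 1) = Sm n μ m * Ym μ m := by
  ext i l
  unfold Ym
  rw [mul_one_add_vec, Matrix.add_mul, Matrix.one_mul, Matrix.add_apply]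
  have e1 : (Nm μ m * Sm n μ ((m : ℕ) + 1)) i l =
      (tht μ) ^ (((i : ℕ) : ℤ) - ((m : ℕ) : ℤ)) * wv ((tht μ) ^ 2) m i * Sm n μ ((m : ℕ) + 1) m l := by
    unfold Nm
    rw [Matrix.vecMulVec_mul, Matrix.vecMulVec_apply]
    congr 1
    unfold ee
    rw [Matrix.single_one_vecMul]
    rfl
  rw [e1]
  unfold Sm
  simp only [Matrix.of_apply]
  rw [Mz_succ, Mz_self]
  by_cases h : l = m
  · rw [if_pos h, if_pos h, if_pos h, h, sub_self, zpow_zero]
    have h2 := sum_rv m i (fun x => (tht μ) ^ (((i : ℕ) : ℤ) + ((m : ℕ) : ℤ) - 2 * x))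
    have h3 : ∑ k : Fin n, (Mz m i k * (tht μ) ^ (((i : ℕ) : ℤ) - ((k : ℕ) : ℤ))) * ((tht μ) ^ (((m : ℕ) : ℤ) - ((k : ℕ) : ℤ)) * rv m k) =
        ∑ k : Fin n, Mz m i k * (tht μ) ^ (((i : ℕ) : ℤ) + ((m : ℕ) : ℤ) - 2 * ((k : ℕ) : ℤ)) * rv m k := by
      refine sum_congr rfl fun k _ => ?_
      rw [zpow_split μ (((i : ℕ) : ℤ) + ((m : ℕ) : ℤ) - 2 * ((k : ℕ) : ℤ)) (((i : ℕ) : ℤ) - ((k : ℕ) : ℤ)) (((m : ℕ) : ℤ) - ((k : ℕ) : ℤ)) (by ring)]
      ring
    rw [h3, h2]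
    have e2 : (tht μ) ^ (((i : ℕ) : ℤ) + ((m : ℕ) : ℤ) - 2 * (((m : ℕ) : ℤ) - 1)) =
        (tht μ) ^ (((i : ℕ) : ℤ) - ((m : ℕ) : ℤ)) * (tht μ) ^ 2 := by
      rw [zpow_split μ _ (((i : ℕ) : ℤ) - ((m : ℕ) : ℤ)) 2 (by ring)]
      rfl
    have e3 : (tht μ) ^ (((i : ℕ) : ℤ) + ((m : ℕ) : ℤ) - 2 * (((m : ℕ) : ℤ) + 1)) =
        (tht μ) ^ (((i : ℕ) : ℤ) - ((m : ℕ) : ℤ)) * ((tht μ) ^ 2)⁻¹ := by
      rw [zpow_split μ _ (((i : ℕ) : ℤ) - ((m : ℕ) : ℤ)) (-2) (by ring), zpow_neg]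
      rfl
    rw [e2, e3]
    unfold uv wv
    split_ifs <;> first | (exfalso; omega) | ring
  · rw [if_neg h, if_neg h, if_neg h]
    ring

/-- the transvections -/
theorem Nm_mem {f : Polynomial ℚ} (hc : Cfg n a f) {μ : Fin s → ℝ} {ν : Fin s → ℚ} (hν : ∀ σ, (ν σ : ℝ) = 1 - μ σ)
    (h0 : ∀ σ, 0 < μ σ) (h1 : ∀ σ, μ σ < 1) (m : Fin n) : (fun σ => 1 + Nm (μ σ) m) ∈ GR n a μ := by
  rw [mem_GR]
  intro F hF t ht
  have h2 := cross_gap hc hν h0 h1 (m := m) (le_of_lt m.2) hF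
  have h3 := cross_gap hc hν h0 h1 (m := (m : ℕ) + 1) m.2 h2 t ht
  rw [ev_sub, ev_bar, ev_sub, ev_bar] at h3
  simp only [add_zero, Matrix.mul_one, Complex.conj_conj] at h3
  rw [← h3]
  congr 1
  funext σ
  rw [cj_mul, cj_cj, ← Matrix.mul_assoc]
  congr 1
  unfold Tm
  have e1 := cross_a (μ σ) m
  have e2 := cross_b (μ σ) m
  have e3 : (1 + Nm (μ σ) m) = (Sm n (μ σ) m * Ym (μ σ) m) * Si n (μ σ) ((m : ℕ) + 1) := by
    rw [← e2, Matrix.mul_assoc, Sm_Si (by have := m.2; omega), Matrix.mul_one]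
  have e4 : cj (Si n (μ σ) m) * cj (Sm n (μ σ) ((m : ℕ) + 1)) = Ym (μ σ) m := by
    rw [← e1, ← Matrix.mul_assoc, ← cj_mul, Si_Sm (le_of_lt m.2), cj_one, Matrix.one_mul]
  rw [cj_mul, cj_cj, ← Matrix.mul_assoc, Matrix.mul_assoc (Sm n (μ σ) m), e4, e3]

end Pool.Agent.K1H12.SE
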