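import Pool.Agent.K1H12.SE.Loc

/-!
# Superelliptic periods: the matrices of the real integrals are invertible
-/

set_option autoImplicit false

namespace Pool.Agent.K1H12.SE

open MeasureTheory Filter Topology Finset

variable {n : ℕ} {a : ℕ → ℝ} {μ : ℝ} {m : ℕ} {t : ℝ}

theorem Wr_pos {x : ℝ} (hx : ∀ k < n, x ≠ a k) (hxt : x ≠ t) : 0 < Wr n a μ t x := by
  unfold Wr
  refine mul_pos (prod_pos fun k hk => Real.rpow_pos_of_pos (abs_pos.2 (sub_ne_zero.2 (hx k (mem_range.1 hk)))) _)
    (Real.rpow_pos_of_pos (abs_pos.2 (sub_ne_zero.2 hxt)) _)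

/-- a point of an open segment is not a branch point -/
theorem seg_ne (ha : StrictMono a) (hg : Gap n a m t) {l : ℕ} (hl : l < n) {x : ℝ}
    (hx : x ∈ Set.Ioo (er a m t l) (er a m t (l + 1))) : (∀ k < n, x ≠ a k) ∧ x ≠ t := by
  obtain ⟨h1, h2⟩ := hx
  constructor
  · intro k hk h
    rcases lt_or_ge k l with h3 | h3
    · have := seg_left (t := t) ha hg h3
      linarith
    · rcases lt_or_ge l m with h4 | h4
      · -- left of `t`
        rw [er_lt h4] at h1
        rcases lt_or_ge (l + 1) m with h5 | h5
        · rw [er_lt h5] at h2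
          rcases eq_or_lt_of_le h3 with h6 | h6
          · rw [← h6] at h
            linarith
          · have : a (l + 1) ≤ a k := ha.monotone (by omega)
            linarith
        · have h6 : l + 1 = m := by omega
          rw [h6, er_eq] at h2
          rcases eq_or_lt_of_le h3 with h7 | h7
          · rw [← h7] at h
            linarith
          · have := hg.2.2 k (by omega) hk
            linarith
      · rw [er_gt (by omega : m < l + 1), Nat.add_sub_cancel] at h2
        have : a l ≤ a k := ha.monotone h3
        linarith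
  · intro h
    rcases lt_or_ge l m with h4 | h4
    · rcases lt_or_ge (l + 1) m with h5 | h5
      · rw [er_lt h5] at h2
        have := hg.2.1 (l + 1) h5
        linarith
      · have h6 : l + 1 = m := by omega
        rw [h6, er_eq] at h2
        linarith
    · rcases eq_or_lt_of_le h4 with h5 | h5
      · rw [← h5, er_eq] at h1
        linarith
      · rw [er_gt h5] at h1
        have := hg.2.2 (l - 1) (by omega) (by omega)
        linarith

/-- a polynomial with vanishing integral over a segment has a root there -/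
theorem root_of_int (ha : StrictMono a) (h0 : 0 < μ) (h1 : μ < 1) (hg : Gap n a m t) {l : ℕ} (hl : l < n) (p : Polynomial ℝ)
    (hp : ∫ x in (er a m t l)..(er a m t (l + 1)), p.eval x * Wr n a μ t x = 0) :
    ∃ x ∈ Set.Ioo (er a m t l) (er a m t (l + 1)), p.eval x = 0 := by
  by_contra hcon
  push Not at hcon
  have hlt := er_step ha hg hl
  have hint : IntervalIntegrable (fun x => p.eval x * Wr n a μ t x) volume (er a m t l) (er a m t (l + 1)) :=
    (Wr_int ha h0 h1 (fun k hk => hg.ne hk) _ _).continuousOn_mul p.continuous.continuousOn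
  have hmid : (er a m t l + er a m t (l + 1)) / 2 ∈ Set.Ioo (er a m t l) (er a m t (l + 1)) := ⟨by linarith, by linarith⟩
  have hsign : (∀ x ∈ Set.Ioo (er a m t l) (er a m t (l + 1)), 0 < p.eval x) ∨
      ∀ x ∈ Set.Ioo (er a m t l) (er a m t (l + 1)), p.eval x < 0 := by
    have hpre : IsPreconnected (Set.Ioo (er a m t l) (er a m t (l + 1))) := isPreconnected_Ioo
    rcases lt_or_gt_of_ne (hcon _ hmid) with h | h
    · right
      intro x hx
      by_contra h2
      push Not at h2
      obtain ⟨y, hy, hy'⟩ := hpre.intermediate_value hmid hx p.continuous.continuousOn ⟨h.le, h2⟩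
      exact hcon y hy hy'
    · left
      intro x hx
      by_contra h2
      push Not at h2
      obtain ⟨y, hy, hy'⟩ := hpre.intermediate_value hx hmid p.continuous.continuousOn ⟨h2, h.le⟩
      exact hcon y hy hy'
  rcases hsign with h | h
  · have h2 := intervalIntegral.intervalIntegral_pos_of_pos_on hint (fun x hx => mul_pos (h x hx)
      (Wr_pos (seg_ne ha hg hl hx).1 (seg_ne ha hg hl hx).2)) hlt
    linarith
  · have h2 := intervalIntegral.intervalIntegral_pos_of_pos_on hint.neg (fun x hx => by
      have := mul_pos (neg_pos.2 (h x hx)) (Wr_pos (μ := μ) (seg_ne ha hg hl hx).1 (seg_ne ha hg hl hx).2)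
      simpa using this) hlt
    simp only [Pi.neg_apply, intervalIntegral.integral_neg] at h2
    linarith

/-- the real matrix -/
noncomputable def Rr (n : ℕ) (a : ℕ → ℝ) (μ : ℝ) (m : ℕ) (t : ℝ) : Matrix (Fin n) (Fin n) ℝ :=
  Matrix.of fun l j => Rf n a μ m j l t

theorem Rm_eq : Rm n a μ m t = (Rr n a μ m t).map (Complex.ofRealHom) := by
  ext l j
  rfl

theorem Rr_det (ha : StrictMono a) (h0 : 0 < μ) (h1 : μ < 1) (hg : Gap n a m t) : (Rr n a μ m t).det ≠ 0 := by
  intro hdet
  obtain ⟨v, hv, hv0⟩ := Matrix.exists_mulVec_eq_zero_iff.2 hdet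
  set p : Polynomial ℝ := ∑ j : Fin n, Polynomial.C (v j) * Polynomial.X ^ (j : ℕ) with hp
  have hpe : ∀ x, p.eval x = ∑ j : Fin n, v j * x ^ (j : ℕ) := by
    intro x
    rw [hp, Polynomial.eval_finsetSum]
    refine sum_congr rfl fun j _ => ?_
    simp
  have hroot : ∀ l : Fin n, ∃ x ∈ Set.Ioo (er a m t l) (er a m t (l + 1)), p.eval x = 0 := by
    intro l
    refine root_of_int ha h0 h1 hg l.2 p ?_
    have h2 : ∫ x in (er a m t l)..(er a m t (l + 1)), p.eval x * Wr n a μ t x =
        ∑ j : Fin n, v j * ∫ x in (er a m t l)..(er a m t (l + 1)), x ^ (j : ℕ) * Wr n a μ t x := by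
      have h3 : ∀ x, p.eval x * Wr n a μ t x = ∑ j : Fin n, v j * (x ^ (j : ℕ) * Wr n a μ t x) := by
        intro x
        rw [hpe, sum_mul]
        exact sum_congr rfl fun j _ => by ring
      simp only [h3]
      rw [intervalIntegral.integral_finsetSum]
      · exact sum_congr rfl fun j _ => intervalIntegral.integral_const_mul _ _
      · intro j _
        exact ((Wr_int ha h0 h1 (fun k hk => hg.ne hk) _ _).continuousOn_mul (continuous_pow _).continuousOn).const_mul _
    rw [h2]
    have h4 := congrFun hv0 l
    rw [Matrix.mulVec, dotProduct, Pi.zero_apply] at h4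
    rw [← h4]
    exact sum_congr rfl fun j _ => mul_comm _ _
  choose x hx hx0 using hroot
  have hmono : StrictMono x := by
    have h2 : ∀ l l' : Fin n, l < l' → x l < x l' := by
      intro l l' hll
      have h3 : er a m t (l + 1) ≤ er a m t l' := by
        have h4 : ∀ d : ℕ, (l : ℕ) + 1 + d < n + 1 → er a m t (l + 1) ≤ er a m t (l + 1 + d) := by
          intro d
          induction d with
          | zero => intro _; exact le_rfl
          | succ d ih =>
            intro hd
            exact (ih (by omega)).trans (er_step ha hg (by omega)).le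
        have h5 : (l : ℕ) < l' := hll
        have h6 := h4 ((l' : ℕ) - (l + 1)) (by have := l'.2; omega)
        rwa [show (l : ℕ) + 1 + ((l' : ℕ) - (l + 1)) = l' by omega] at h6
      exact lt_of_lt_of_le (hx l).2 (h3.trans (hx l').1.le)
    exact fun l l' h => h2 l l' h
  have hn : 0 < n := by
    rcases Nat.eq_zero_or_pos n with h | h
    · subst h
      exact absurd (Subsingleton.elim v 0) hv
    · exact h
  have hp0 : p = 0 := by
    refine Polynomial.eq_zero_of_degree_lt_of_eval_finset_eq_zero (s := univ.image x) ?_ ?_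
    · rw [card_image_of_injective _ hmono.injective, card_univ, Fintype.card_fin]
      rw [hp]
      exact Polynomial.degree_sum_fin_lt v
    · intro y hy
      obtain ⟨l, -, rfl⟩ := mem_image.1 hy
      exact hx0 l
  apply hv
  funext j
  have h2 : p.coeff (j : ℕ) = v j := by
    rw [hp, Polynomial.finsetSum_coeff, Finset.sum_eq_single j]
    · simp
    · intro i _ hi
      rw [Polynomial.coeff_C_mul, Polynomial.coeff_X_pow, if_neg (fun h => hi (Fin.ext h.symm)), mul_zero]
    · intro h
      exact absurd (mem_univ j) h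
  rw [← h2, hp0, Polynomial.coeff_zero]
  rfl

theorem Rm_det (ha : StrictMono a) (h0 : 0 < μ) (h1 : μ < 1) (hg : Gap n a m t) : (Rm n a μ m t).det ≠ 0 := by
  rw [Rm_eq, ← RingHom.mapMatrix_apply, ← RingHom.map_det]
  intro h
  refine Rr_det ha h0 h1 hg ?_
  exact Complex.ofReal_eq_zero.1 h

end Pool.Agent.K1H12.SE
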