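import Pool.Agent.K1H12.SE.Grp3
import Pool.Agent.K1H12.SE.Pos

/-!
# Superelliptic periods: the real integrals near a point of a gap
-/

set_option autoImplicit false

namespace Pool.Agent.K1H12.SE

open Filter Topology Finset
open Pool.Agent.Y113

variable {n s : ℕ} {a : ℕ → ℝ} {m : ℕ}

theorem sr_mono_prod {ι : Type*} (S : Finset ι) {r : ℝ} (hr : 0 ≤ r) {F : ι → PowerSeries ℚ} (h : ∀ i ∈ S, Pool.Agent.Y37.GF.SR r (F i)) :
    Pool.Agent.Y37.GF.SR r (∏ i ∈ S, F i) := by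
  classical
  induction S using Finset.induction_on with
  | empty =>
    rw [Finset.prod_empty]
    have h1 := Pool.Agent.Y37.GF.SR.C 1 r
    rwa [map_one] at h1
  | insert i S hi ih =>
    rw [Finset.prod_insert hi]
    exact (h i (Finset.mem_insert_self _ _)).mul hr (ih fun k hk => h k (Finset.mem_insert_of_mem hk))

theorem Ec_prod {ι : Type*} (S : Finset ι) {r : ℝ} (hr : 0 ≤ r) {F : ι → PowerSeries ℚ} (h : ∀ i ∈ S, Pool.Agent.Y37.GF.SR r (F i)) {z : ℂ}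
    (hz : ‖z‖ ≤ r) : GG.Ec (∏ i ∈ S, F i) z = ∏ i ∈ S, GG.Ec (F i) z := by
  classical
  induction S using Finset.induction_on with
  | empty =>
    rw [Finset.prod_empty, Finset.prod_empty]
    exact GG.Ec_one z
  | insert i S hi ih =>
    rw [Finset.prod_insert hi, Finset.prod_insert hi, GG.Ec_mul (h i (Finset.mem_insert_self _ _))
      (sr_mono_prod S hr fun k hk => h k (Finset.mem_insert_of_mem hk)) hz,
      ih fun k hk => h k (Finset.mem_insert_of_mem hk)]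

/-- the determinant is one near the origin -/
theorem det_Zc {f : Polynomial ℚ} (hfn : f.natDegree ≤ n) (hf0 : f.coeff 0 ≠ 0) {ν : ℚ}
    {Z : Matrix (Fin n) (Fin n) (PowerSeries ℚ)} (hZ : Fsol n ν f Z) :
    ∃ ρ > 0, ∀ z : ℂ, ‖z‖ < ρ → (Zc Z z).det = 1 := by
  obtain ⟨-, -, hdat⟩ := hZ.dat hfn hf0
  have hdet := det_form hfn hf0 hZ.one hZ.sys
  obtain ⟨C, hC, hbZ, -⟩ := hdat.bound
  refine ⟨1 / (2 * C), by positivity, fun z hz => ?_⟩
  have hsr : ∀ i j, Pool.Agent.Y37.GF.SR ‖z‖ (Z i j) := by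
    intro i j
    refine sr_bound hC (hbZ i j) (norm_nonneg z) ?_
    rw [lt_div_iff₀ (by positivity)] at hz
    nlinarith [norm_nonneg z]
  have h1 : GG.Ec Z.det z = (Zc Z z).det := by
    rw [Matrix.det_apply, Matrix.det_apply, Ec_sum (r := ‖z‖) univ ?_ le_rfl]
    · refine sum_congr rfl fun σ _ => ?_
      have e1 : Equiv.Perm.sign σ • ∏ i, Z (σ i) i = ((Polynomial.C ((Equiv.Perm.sign σ : ℤ) : ℚ) : Polynomial ℚ) : PowerSeries ℚ) * ∏ i, Z (σ i) i := by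
        rw [Units.smul_def, zsmul_eq_mul, Polynomial.coe_C]
        congr 1
        simp
      rw [e1, GG.Ec_mul (r := ‖z‖) (Pool.Agent.Y37.GF.SR.poly _ _) (sr_mono_prod univ (norm_nonneg z) fun i _ => hsr _ _) le_rfl, Ec_poly,
        Ec_prod (r := ‖z‖) univ (norm_nonneg z) (fun i _ => hsr _ _) le_rfl, Polynomial.aeval_C, Units.smul_def, zsmul_eq_mul]
      congr 1
    · intro σ _
      have e1 : Equiv.Perm.sign σ • ∏ i, Z (σ i) i = ((Polynomial.C ((Equiv.Perm.sign σ : ℤ) : ℚ) : Polynomial ℚ) : PowerSeries ℚ) * ∏ i, Z (σ i) i := by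
        rw [Units.smul_def, zsmul_eq_mul, Polynomial.coe_C]
        congr 1
        simp
      rw [e1]
      exact (Pool.Agent.Y37.GF.SR.poly _ _).mul (norm_nonneg z) (sr_mono_prod univ (norm_nonneg z) fun i _ => hsr _ _)
  rw [← h1, hdet, GG.Ec_one]

/-- all the data near the origin -/
structure Near (n : ℕ) {s : ℕ} (a : ℕ → ℝ) (μ : Fin s → ℝ) (m : ℕ) (Z : Fin s → Matrix (Fin n) (Fin n) (PowerSeries ℚ))
    (C : Fin s → Matrix (Fin n) (Fin n) ℂ) (ρ : ℝ) : Prop where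
  pos : 0 < ρ
  gap : ∀ t : ℝ, |t| < ρ → Gap n a m t
  diff : ∀ z : ℂ, ‖z‖ < ρ → ∀ σ i j, DifferentiableAt ℂ (GG.Ec (Z σ i j)) z
  det : ∀ z : ℂ, ‖z‖ < ρ → ∀ σ, (Zc (Z σ) z).det = 1
  up : ∀ t : ℂ, ‖t‖ < ρ → 0 < t.im → ∀ σ, Jm n a (μ σ) t = Sm n (μ σ) m * (C σ * Zc (Z σ) t)
  real : ∀ t : ℝ, |t| < ρ → ∀ σ, Rm n a (μ σ) m t = C σ * Zc (Z σ) t

theorem exists_near {f : Polynomial ℚ} (hc : Cfg n a f) {μ : Fin s → ℝ} {ν : Fin s → ℚ} (hν : ∀ σ, (ν σ : ℝ) = 1 - μ σ)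
    (h0 : ∀ σ, 0 < μ σ) (h1 : ∀ σ, μ σ < 1) (hg : Gap n a m 0) :
    ∃ Z : Fin s → Matrix (Fin n) (Fin n) (PowerSeries ℚ), (∀ σ, Fsol n (ν σ) f (Z σ)) ∧
      ∃ ρ : ℝ, Near n a μ m Z (fun σ => Rm n a (μ σ) m 0) ρ := by
  have hf0 := coeff0_ne hc hg
  have hform : ∀ σ, ∃ Z : Matrix (Fin n) (Fin n) (PowerSeries ℚ), Fsol n (ν σ) f Z := by
    intro σ
    have e1 : (0 : ℚ) < ν σ := by
      have : (0 : ℝ) < ν σ := by rw [hν]; linarith [h1 σ]
      exact_mod_cast this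
    have e2 : ν σ < 1 := by
      have : (ν σ : ℝ) < 1 := by rw [hν]; linarith [h0 σ]
      exact_mod_cast this
    obtain ⟨Y, hY1, hY2, hY3⟩ := exists_form e1 e2 n f hc.deg hf0
    exact ⟨Matrix.of Y, hY1, hY2, hY3⟩
  choose Z hZ using hform
  have hloc := fun σ => local_structure hc (hν σ) (h0 σ) (h1 σ) hg (hZ σ)
  choose ρ' hρ' C hgap hdiff hunit hJ hreal using hloc
  have hdet := fun σ => det_Zc hc.deg hf0 (hZ σ)
  choose ρ'' hρ'' hdet' using hdet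
  obtain ⟨ρ₁, hρ₁, hgap₁⟩ := hg.near
  obtain ⟨ρ, hρ0, hρ⟩ : ∃ ρ > 0, ρ ≤ ρ₁ ∧ ∀ σ, ρ ≤ ρ' σ ∧ ρ ≤ ρ'' σ := by
    have h2 : ∀ᶠ r : ℝ in 𝓝[>] 0, r ≤ ρ₁ ∧ ∀ σ, r ≤ ρ' σ ∧ r ≤ ρ'' σ := by
      have e0 : ∀ {x : ℝ}, 0 < x → ∀ᶠ r : ℝ in 𝓝[>] 0, r ≤ x := fun hx => mem_nhdsWithin_of_mem_nhds (Iic_mem_nhds hx)
      refine (e0 hρ₁).and ?_
      rw [Filter.eventually_all]
      intro σ
      exact (e0 (hρ' σ)).and (e0 (hρ'' σ))
    obtain ⟨r, hr, hr0⟩ := (h2.and self_mem_nhdsWithin).exists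
    exact ⟨r, hr0, hr⟩
  have hC : ∀ σ, C σ = Sm n (μ σ) m * Rm n a (μ σ) m 0 := by
    intro σ
    have e1 := hreal σ 0 (by rw [abs_zero]; exact hρ' σ)
    have e2 : Zc (Z σ) ((0 : ℝ) : ℂ) = 1 := by
      ext i j
      unfold Zc
      rw [Matrix.of_apply, Complex.ofReal_zero, Ec_zero, (hZ σ).one, Matrix.one_apply]
      split_ifs <;> simp
    rw [e2, Matrix.mul_one] at e1
    exact e1.symm
  refine ⟨Z, hZ, ρ, hρ0, fun t ht => hgap₁ t (lt_of_lt_of_le ht hρ.1),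
    fun z hz σ => hdiff σ z (lt_of_lt_of_le hz (hρ.2 σ).1), fun z hz σ => hdet' σ z (lt_of_lt_of_le hz (hρ.2 σ).2),
    fun t ht ht0 σ => ?_, fun t ht σ => ?_⟩
  · rw [hJ σ t (lt_of_lt_of_le ht (hρ.2 σ).1) ht0, hC, Matrix.mul_assoc]
  · have e1 := hreal σ t (lt_of_lt_of_le ht (hρ.2 σ).1)
    rw [hC] at e1
    have e2 : Si n (μ σ) m * (Sm n (μ σ) m * Rm n a (μ σ) m t) = Si n (μ σ) m * (Sm n (μ σ) m * Rm n a (μ σ) m 0 * Zc (Z σ) t) := by
      rw [e1]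
    rw [← Matrix.mul_assoc, ← Matrix.mul_assoc, ← Matrix.mul_assoc, Si_Sm hg.1, Matrix.one_mul, Matrix.one_mul] at e2
    exact e2

/-- identity theorem on a disc, from a real interval -/
theorem ident_real {g : ℂ → ℂ} {ρ : ℝ} (hd : DifferentiableOn ℂ g (Metric.ball 0 ρ)) {u v : ℝ} (hu : 0 ≤ u) (huv : u < v) (hv : v ≤ ρ)
    (h : ∀ t : ℝ, u < t → t < v → g t = 0) : ∀ z : ℂ, ‖z‖ < ρ → g z = 0 := by
  have ha := hd.analyticOnNhd Metric.isOpen_ball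
  set t₁ : ℝ := (u + v) / 2 with ht₁
  have hmem : ((t₁ : ℝ) : ℂ) ∈ Metric.ball (0 : ℂ) ρ := by
    rw [mem_ball_zero_iff, Complex.norm_real, Real.norm_of_nonneg (by rw [ht₁]; linarith)]
    rw [ht₁]
    linarith
  have hfreq : ∃ᶠ z in 𝓝[≠] ((t₁ : ℝ) : ℂ), g z = 0 := by
    have h1 : Filter.Tendsto (fun t : ℝ => (t : ℂ)) (𝓝[≠] t₁) (𝓝[≠] ((t₁ : ℝ) : ℂ)) := by
      refine tendsto_nhdsWithin_of_tendsto_nhds_of_eventually_within _ ?_ ?_
      · exact (Complex.continuous_ofReal.tendsto t₁).mono_left nhdsWithin_le_nhds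
      · filter_upwards [self_mem_nhdsWithin] with t ht
        exact fun h2 => ht (Complex.ofReal_injective h2)
    refine h1.frequently ?_
    refine Filter.Eventually.frequently ?_
    have h2 : ∀ᶠ t : ℝ in 𝓝 t₁, u < t ∧ t < v := by
      refine (lt_mem_nhds ?_).and (gt_mem_nhds ?_)
      · rw [ht₁]; linarith
      · rw [ht₁]; linarith
    filter_upwards [nhdsWithin_le_nhds h2] with t ht
    exact h t ht.1 ht.2
  have h2 := ha.eqOn_zero_of_preconnected_of_frequently_eq_zero (convex_ball _ _).isPreconnected hmem hfreq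
  intro z hz
  exact h2 (by rwa [mem_ball_zero_iff])

theorem real_rel (hn : 2 ≤ n) {f : Polynomial ℚ} (hc : Cfg n a f) {μ : Fin s → ℝ} {ν : Fin s → ℚ} (hν : ∀ σ, (ν σ : ℝ) = 1 - μ σ)
    (h0 : ∀ σ, 0 < μ σ) (h1 : ∀ σ, μ σ < 1) (hμ : Function.Injective μ) (hμ' : ∀ σ τ, σ ≠ τ → μ σ + μ τ ≠ 1)
    (h2 : 3 ≤ n → ∀ σ, 2 * μ σ ≠ 1) (h3 : 3 ≤ n → ∀ σ, ∀ k : ℤ, ((n - 1 : ℕ) : ℝ) * μ σ ≠ k)
    (hg : Gap n a m 0) {Z : Fin s → Matrix (Fin n) (Fin n) (PowerSeries ℚ)} {C : Fin s → Matrix (Fin n) (Fin n) ℂ} {ρ : ℝ}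
    (hN : Near n a μ m Z C ρ) {F : MvPolynomial (Option (Fin s × Fin n × Fin n)) ℂ} {v : ℝ} (hv : 0 < v) (hv' : v ≤ ρ)
    (hF : ∀ t : ℝ, 0 < t → t < v → ev F t (fun σ => Rm n a (μ σ) m t) = 0)
    (g : Fin s → Matrix.SpecialLinearGroup (Fin n) ℂ) :
    ∀ t : ℝ, |t| < ρ → ev F t (fun σ => (g σ).1 * Rm n a (μ σ) m t) = 0 := by
  -- the functions near the origin
  have hYd : ∀ (B : Fin s → Matrix (Fin n) (Fin n) ℂ) (t : ℂ), ‖t‖ < ρ → ∀ σ i j,
      DifferentiableAt ℂ (fun t => (B σ * (C σ * Zc (Z σ) t)) i j) t := by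
    intro B t ht σ i j
    simp only [Matrix.mul_apply]
    refine DifferentiableAt.fun_sum fun k _ => DifferentiableAt.const_mul (DifferentiableAt.fun_sum fun l _ => ?_) _
    exact (hN.diff t ht σ l j).const_mul _
  have hdB : ∀ (B : Fin s → Matrix (Fin n) (Fin n) ℂ), DifferentiableOn ℂ (fun t => ev F t (fun σ => B σ * (C σ * Zc (Z σ) t)))
      (Metric.ball 0 ρ) := by
    intro B t ht
    rw [mem_ball_zero_iff] at ht
    exact (ev_diff (X := fun t σ => B σ * (C σ * Zc (Z σ) t)) (hYd B t ht)).differentiableWithinAt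
  have hzero : ∀ z : ℂ, ‖z‖ < ρ → ev F z (fun σ => 1 * (C σ * Zc (Z σ) z)) = 0 := by
    refine ident_real (hdB fun _ => 1) le_rfl hv hv' fun t ht0 htv => ?_
    have h4 := hF t ht0 htv
    have h5 : (fun σ => Rm n a (μ σ) m t) = fun σ => 1 * (C σ * Zc (Z σ) t) := by
      funext σ
      rw [hN.real t (by rw [abs_of_pos ht0]; linarith) σ, Matrix.one_mul]
    rw [← h5]
    exact h4
  -- the relation between the integrals
  have hrel : Rel n a μ (sub 0 (fun σ => Si n (μ σ) m) 1 F) := by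
    intro t ht
    have hd : DifferentiableOn ℂ (fun t => ev (sub 0 (fun σ => Si n (μ σ) m) 1 F) t (fun σ => Jm n a (μ σ) t))
        {t : ℂ | 0 < t.im} := fun t ht =>
      (ev_diff (X := fun t σ => Jm n a (μ σ) t) fun σ i j =>
        (hasDerivAt_Jf hc.mono (h0 σ) (h1 σ) (j : ℕ) ht).differentiableAt).differentiableWithinAt
    have ha := hd.analyticOnNhd (isOpen_lt continuous_const Complex.continuous_im)
    set t₁ : ℂ := ((ρ / 2 : ℝ) : ℂ) * Complex.I with ht₁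
    have hρ := hN.pos
    have hn1 : ‖t₁‖ < ρ := by
      rw [ht₁, norm_mul, Complex.norm_I, mul_one, Complex.norm_real, Real.norm_of_nonneg (by positivity)]
      linarith
    have him : 0 < t₁.im := by
      rw [ht₁, Complex.mul_I_im, Complex.ofReal_re]
      positivity
    have hev : (fun t => ev (sub 0 (fun σ => Si n (μ σ) m) 1 F) t (fun σ => Jm n a (μ σ) t)) =ᶠ[𝓝 t₁] 0 := by
      have e1 : ∀ᶠ t : ℂ in 𝓝 t₁, ‖t‖ < ρ := (isOpen_lt continuous_norm continuous_const).mem_nhds hn1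
      have e2 : ∀ᶠ t : ℂ in 𝓝 t₁, 0 < t.im := (isOpen_lt continuous_const Complex.continuous_im).mem_nhds him
      filter_upwards [e1, e2] with t ht1 ht2
      rw [ev_sub, add_zero, Pi.zero_apply]
      have e3 : (fun σ => Si n (μ σ) m * Jm n a (μ σ) t * 1) = fun σ => 1 * (C σ * Zc (Z σ) t) := by
        funext σ
        rw [Matrix.mul_one, Matrix.one_mul, hN.up t ht1 ht2 σ, ← Matrix.mul_assoc, Si_Sm hg.1, Matrix.one_mul]
      rw [e3]
      exact hzero t ht1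
    exact ha.eqOn_zero_of_preconnected_of_eventuallyEq_zero (convex_halfSpace_im_gt 0).isPreconnected him hev ht
  -- the conjugate elements
  have hdet1 : ∀ σ, (Sm n (μ σ) m * (g σ).1 * Si n (μ σ) m).det = 1 := by
    intro σ
    rw [Matrix.det_mul, Matrix.det_mul, (g σ).2, mul_one, ← Matrix.det_mul, Sm_Si hg.1, Matrix.det_one]
  have hmem := GR_all hn (qcl_GR a μ) h0 h1 hμ hμ' h2 h3 (Nm_mem hc hν h0 h1) fun σ => ⟨_, hdet1 σ⟩
  have hnew := (mem_GR.1 hmem) _ hrel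
  -- back to the real line
  have hfin : ∀ z : ℂ, ‖z‖ < ρ → ev F z (fun σ => (g σ).1 * (C σ * Zc (Z σ) z)) = 0 := by
    have ha := (hdB fun σ => (g σ).1).analyticOnNhd Metric.isOpen_ball
    set t₁ : ℂ := ((ρ / 2 : ℝ) : ℂ) * Complex.I with ht₁
    have hρ := hN.pos
    have hn1 : ‖t₁‖ < ρ := by
      rw [ht₁, norm_mul, Complex.norm_I, mul_one, Complex.norm_real, Real.norm_of_nonneg (by positivity)]
      linarith
    have him : 0 < t₁.im := by
      rw [ht₁, Complex.mul_I_im, Complex.ofReal_re]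
      positivity
    have hev : (fun t => ev F t (fun σ => (g σ).1 * (C σ * Zc (Z σ) t))) =ᶠ[𝓝 t₁] 0 := by
      have e1 : ∀ᶠ t : ℂ in 𝓝 t₁, ‖t‖ < ρ := (isOpen_lt continuous_norm continuous_const).mem_nhds hn1
      have e2 : ∀ᶠ t : ℂ in 𝓝 t₁, 0 < t.im := (isOpen_lt continuous_const Complex.continuous_im).mem_nhds him
      filter_upwards [e1, e2] with t ht1 ht2
      have e4 := hnew t ht2
      rw [ev_sub, add_zero] at e4
      have e3 : (fun σ => Si n (μ σ) m * ((Sm n (μ σ) m * (g σ).1 * Si n (μ σ) m) * Jm n a (μ σ) t) * 1) =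
          fun σ => (g σ).1 * (C σ * Zc (Z σ) t) := by
        funext σ
        rw [Matrix.mul_one, hN.up t ht1 ht2 σ]
        calc Si n (μ σ) m * (Sm n (μ σ) m * (g σ).1 * Si n (μ σ) m * (Sm n (μ σ) m * (C σ * Zc (Z σ) t)))
            = (Si n (μ σ) m * Sm n (μ σ) m) * (g σ).1 * (Si n (μ σ) m * Sm n (μ σ) m) * (C σ * Zc (Z σ) t) := by
              simp only [Matrix.mul_assoc]
          _ = _ := by rw [Si_Sm hg.1, Matrix.one_mul, Matrix.mul_one]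
      rw [e3] at e4
      exact e4
    intro z hz
    exact ha.eqOn_zero_of_preconnected_of_eventuallyEq_zero (convex_ball _ _).isPreconnected
      (by rwa [mem_ball_zero_iff] : t₁ ∈ Metric.ball 0 ρ) hev (by rwa [mem_ball_zero_iff])
  intro t ht
  have h4 := hfin (t : ℂ) (by rwa [Complex.norm_real, Real.norm_eq_abs])
  have h5 : (fun σ => (g σ).1 * Rm n a (μ σ) m t) = fun σ => (g σ).1 * (C σ * Zc (Z σ) t) := by
    funext σ
    rw [hN.real t ht σ]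
  rw [h5]
  exact h4

end Pool.Agent.K1H12.SE
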