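import Pool.Agent.K1H12.SE.Form
import Pool.Agent.H461R3.Jacobi

/-!
# Superelliptic periods: the determinant of the formal solution
-/

set_option autoImplicit false

namespace Pool.Agent.K1H12.SE

open Pool.Agent.Y113 Finset

/-- the trace of the connection matrix -/
theorem trace_cA (ν : ℚ) (n : ℕ) (f : Polynomial ℚ) (hfn : f.natDegree ≤ n) : ∑ j : Fin n, cA ν n f j j = 0 := by
  have h1 : ∀ j : Fin n, cA ν n f j j = Polynomial.C ν * (Polynomial.C ((((j : ℕ) : ℚ) + 1) * f.coeff ((j : ℕ) + 1)) *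
      Polynomial.X ^ (j : ℕ) - ∑ c ∈ Ioc (j : ℕ) n, Polynomial.C (f.coeff c) * Polynomial.X ^ (c - 1)) := by
    intro j
    unfold cA
    rw [if_neg (lt_irrefl _), add_zero]
    have h2 : ∑ c ∈ Ioc (j : ℕ) n, Polynomial.C (f.coeff c) * Polynomial.X ^ (c - 1) =
        Polynomial.X ^ (j : ℕ) * ∑ c ∈ Ioc (j : ℕ) n, Polynomial.C (f.coeff c) * Polynomial.X ^ (c - 1 - (j : ℕ)) := by
      rw [mul_sum]
      refine sum_congr rfl fun c hc => ?_
      rw [mem_Ioc] at hc
      have : c - 1 = (j : ℕ) + (c - 1 - (j : ℕ)) := by omega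
      conv_lhs => rw [this, pow_add]
      ring
    rw [h2]
    ring
  rw [sum_congr rfl fun j _ => h1 j, ← mul_sum, sum_sub_distrib]
  have h3 : ∑ j : Fin n, Polynomial.C ((((j : ℕ) : ℚ) + 1) * f.coeff ((j : ℕ) + 1)) * Polynomial.X ^ (j : ℕ) =
      ∑ j ∈ range n, Polynomial.C (((j : ℚ) + 1) * f.coeff (j + 1)) * Polynomial.X ^ j :=
    Fin.sum_univ_eq_sum_range (fun j => Polynomial.C (((j : ℚ) + 1) * f.coeff (j + 1)) * (Polynomial.X : Polynomial ℚ) ^ j) n
  have h4 : ∑ j : Fin n, ∑ c ∈ Ioc (j : ℕ) n, Polynomial.C (f.coeff c) * Polynomial.X ^ (c - 1) =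
      ∑ j ∈ range n, Polynomial.C (((j : ℚ) + 1) * f.coeff (j + 1)) * Polynomial.X ^ j := by
    rw [Fin.sum_univ_eq_sum_range (fun j => ∑ c ∈ Ioc j n, Polynomial.C (f.coeff c) * (Polynomial.X : Polynomial ℚ) ^ (c - 1)) n]
    have h5 : ∑ j ∈ range n, ∑ c ∈ Ioc j n, Polynomial.C (f.coeff c) * (Polynomial.X : Polynomial ℚ) ^ (c - 1) =
        ∑ c ∈ Ioc 0 n, ∑ j ∈ range c, Polynomial.C (f.coeff c) * (Polynomial.X : Polynomial ℚ) ^ (c - 1) := by
      apply sum_comm'
      intro x y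
      rw [mem_range, mem_Ioc, mem_range, mem_Ioc]
      omega
    rw [h5]
    have h6 : ∀ c ∈ Ioc 0 n, ∑ j ∈ range c, Polynomial.C (f.coeff c) * (Polynomial.X : Polynomial ℚ) ^ (c - 1) =
        Polynomial.C ((c : ℚ) * f.coeff c) * (Polynomial.X : Polynomial ℚ) ^ (c - 1) := by
      intro c _
      rw [sum_const, card_range, nsmul_eq_mul, map_mul, map_natCast, mul_assoc]
    rw [sum_congr rfl h6]
    have h7 : Ioc 0 n = (range n).image (fun x => x + 1) := by
      ext x
      simp only [mem_Ioc, mem_image, mem_range]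
      constructor
      · intro h
        exact ⟨x - 1, by omega, by omega⟩
      · rintro ⟨y, hy, rfl⟩
        omega
    rw [h7, sum_image (fun a _ b _ h => by simpa using h)]
    refine sum_congr rfl fun x _ => ?_
    push_cast
    rfl
  rw [h3, h4, sub_self, mul_zero]

theorem coe_ne_zero {f : Polynomial ℚ} (hf0 : f.coeff 0 ≠ 0) : (f : PowerSeries ℚ) ≠ 0 := by
  intro h
  apply hf0
  have := congrArg (PowerSeries.coeff 0) h
  rwa [Polynomial.coeff_coe, map_zero] at this

/-- the determinant of the solution matrix is one -/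
theorem det_form {ν : ℚ} {n : ℕ} {f : Polynomial ℚ} (hfn : f.natDegree ≤ n) (hf0 : f.coeff 0 ≠ 0)
    {Y : Matrix (Fin n) (Fin n) (PowerSeries ℚ)}
    (hY0 : ∀ i j, PowerSeries.constantCoeff (Y i j) = if i = j then 1 else 0)
    (hY : ∀ i j, (f : PowerSeries ℚ) * PowerSeries.derivative ℚ (Y i j) = ∑ k, Y i k * (cA ν n f j k : PowerSeries ℚ)) :
    Y.det = 1 := by
  apply PowerSeries.derivative.ext
  · have h1 : (f : PowerSeries ℚ) * PowerSeries.derivative ℚ Y.det = 0 := by
      have h2 : (f : PowerSeries ℚ) • (Y.map (PowerSeries.derivative ℚ)) =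
          Y * Matrix.of fun k j => (cA ν n f j k : PowerSeries ℚ) := by
        ext1 i j
        rw [Matrix.smul_apply, Matrix.map_apply, smul_eq_mul, hY, Matrix.mul_apply]
        rfl
      rw [Pool.Agent.H461R3.deriv_det, ← smul_eq_mul, ← Matrix.trace_smul, ← Matrix.mul_smul, h2, ← mul_assoc,
        Matrix.adjugate_mul, Matrix.smul_mul, one_mul, Matrix.trace_smul]
      have h3 : (Matrix.of fun k j => (cA ν n f j k : PowerSeries ℚ)).trace = 0 := by
        have h4 : ((∑ j : Fin n, cA ν n f j j : Polynomial ℚ) : PowerSeries ℚ) = ((0 : Polynomial ℚ) : PowerSeries ℚ) :=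
          congrArg (fun p : Polynomial ℚ => (p : PowerSeries ℚ)) (trace_cA ν n f hfn)
        rw [Matrix.trace]
        simp only [Matrix.diag_apply, Matrix.of_apply]
        rw [Polynomial.coe_zero] at h4
        have h5 : ((∑ j : Fin n, cA ν n f j j : Polynomial ℚ) : PowerSeries ℚ) =
            ∑ j : Fin n, (cA ν n f j j : PowerSeries ℚ) :=
          map_sum (Polynomial.coeToPowerSeries.ringHom (R := ℚ)) (fun j => cA ν n f j j) Finset.univ
        rw [← h5, h4]
      rw [h3, smul_zero]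
    rw [PowerSeries.derivative_one]
    exact (mul_eq_zero.1 h1).resolve_left (coe_ne_zero hf0)
  · rw [map_one]
    have h1 : PowerSeries.constantCoeff (R := ℚ) Y.det = (Y.map (PowerSeries.constantCoeff (R := ℚ))).det :=
      RingHom.map_det _ _
    rw [h1]
    have h2 : Y.map (PowerSeries.constantCoeff (R := ℚ)) = 1 := by
      ext1 i j
      rw [Matrix.map_apply, hY0, Matrix.one_apply]
    rw [h2, Matrix.det_one]

theorem SDc_prod {ι : Type*} (s : Finset ι) (F : ι → PowerSeries ℚ) (h : ∀ i ∈ s, SDc (F i)) :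
    SDc (∏ i ∈ s, F i) := by
  classical
  induction s using Finset.induction_on with
  | empty => rw [prod_empty]; exact SDc.one
  | insert a s ha ih =>
    rw [prod_insert ha]
    exact (h a (mem_insert_self _ _)).mul (ih fun i hi => h i (mem_insert_of_mem hi))

theorem SDc_det {n : ℕ} {Y : Matrix (Fin n) (Fin n) (PowerSeries ℚ)} (h : ∀ i j, SDc (Y i j)) : SDc Y.det := by
  rw [Matrix.det_apply]
  refine Pool.Agent.Y655.HG.SDc_sum _ _ fun σ _ => ?_
  have h1 : SDc (∏ i, Y (σ i) i) := SDc_prod _ _ fun i _ => h _ _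
  rcases Int.units_eq_one_or (Equiv.Perm.sign σ) with h2 | h2
  · rw [h2, one_smul]
    exact h1
  · rw [h2]
    have h3 : ((-1 : ℤˣ) • ∏ i, Y (σ i) i : PowerSeries ℚ) = PowerSeries.C (-1) * ∏ i, Y (σ i) i := by
      rw [Units.neg_smul, one_smul, map_neg, map_one, neg_one_mul]
    rw [h3]
    exact (Pool.Agent.Y655.HG.SDc_const _).mul h1

theorem SDc_adj {n : ℕ} {Y : Matrix (Fin n) (Fin n) (PowerSeries ℚ)} (h : ∀ i j, SDc (Y i j)) (i j : Fin n) :
    SDc (Y.adjugate i j) := by
  rw [Matrix.adjugate_apply]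
  refine SDc_det fun a b => ?_
  rw [Matrix.updateRow_apply]
  split_ifs
  · rw [Pi.single_apply]
    split_ifs
    · exact SDc.one
    · exact Pool.Agent.Y655.HG.SDc_zero
  · exact h _ _

end Pool.Agent.K1H12.SE
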