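import Pool.Agent.Y123.GN.B3
import Pool.Agent.Y123.GN.B4

/-!
# Arbitrary families: the main theorem with a larger bound for the points
-/

set_option autoImplicit false
set_option linter.unusedSectionVars false

open Matrix

namespace Pool.Agent.K1H12.SE

open Pool.Agent.TH127.PT Pool.Agent.Y123.ST Pool.Agent.Y123.SR Pool.Agent.Y113 Pool.Agent.Y113.GG Pool.Agent.Y118.HG
open Pool.Agent.Y123.GN

/-- the conclusions for a tuple: relations of degree `≤ δ` over `V` are functional, all subtorsors are stable, the points are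
large -/
def Good {n k : ℕ} (K : Subfield ℂ) {B₀ : Type} [Fintype B₀] [DecidableEq B₀] (c₀ : Matrix B₀ B₀ ℂ)
    (Ω : Matrix (Fin n) (Fin n) ℂ) (Z : Fin n → Fin n → PowerSeries ℚ) (x₀ : ℝ) (d : ℕ) (m : Fin k → ℕ) : Prop :=
  (∀ l, x₀ < (m l : ℝ)) ∧ Fullness K c₀ Ω Z x₀ m ∧
  ∃ W : Submodule ℚ ℂ, (∀ a ∈ K, a ∈ W) ∧ (∀ a b, c₀ a b ∈ W) ∧ Spec Ω Z x₀ d (W ^ (d + 1)) m

open Classical in
/-- **Main theorem** -/
theorem eng {n : ℕ} {f : Polynomial ℚ} {A : Fin n → Fin n → Polynomial ℚ} {Z W : Fin n → Fin n → PowerSeries ℚ}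
    (h : Dat f A Z W) (x₂ : ℕ) : ∃ x₀ G₀ : ℕ, x₂ ≤ x₀ ∧ ∀ k D r e : ℕ,
      (∃ M : ℕ, ∃ c : ℝ, 0 < c ∧ ∀ Ω Θ : Matrix (Fin n) (Fin n) ℂ, Ω * Θ = 1 → Θ * Ω = 1 →
        ∀ K : Subfield ℂ, FiniteDimensional ℚ K → Module.finrank ℚ K ≤ D →
        ∀ (B₀ : Type) [Fintype B₀] [DecidableEq B₀] (c₀ : Matrix B₀ B₀ ℂ), Fintype.card B₀ ≤ r → ∀ N : ℕ, 1 ≤ N →
        ∃ S : Finset ℕ, S.card ≤ M ∧ ∀ m : Fin k → ℕ, SepN G₀ m →
          (∀ i, N ≤ m i ∧ (m i : ℝ) ≤ N + (N : ℝ) ^ c ∧ m i ∉ S) → Good K c₀ Ω Z x₀ e m) ∧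
      ∃ c : ℝ, 0 < c ∧ ∃ C : ℝ, ∀ Ω Θ : Matrix (Fin n) (Fin n) ℂ, Ω * Θ = 1 → Θ * Ω = 1 →
        ∀ K : Subfield ℂ, FiniteDimensional ℚ K → Module.finrank ℚ K ≤ D →
        ∀ (B₀ : Type) [Fintype B₀] [DecidableEq B₀] (c₀ : Matrix B₀ B₀ ℂ), Fintype.card B₀ ≤ r → ∀ T : ℕ, 1 ≤ T →
        (((Fintype.piFinset fun _ : Fin k => Finset.Icc 2 T).filter fun m => ¬ Good K c₀ Ω Z x₀ e m).card : ℝ) ≤
          C * (T : ℝ) ^ ((k : ℝ) - c) := by
  obtain ⟨x₀', G₀, hmain⟩ := Y113.GG.main h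
  set x₀ := max x₀' x₂ with hx₀
  have hle0 : (x₀' : ℝ) ≤ x₀ := by exact_mod_cast le_max_left x₀' x₂
  refine ⟨x₀, G₀, le_max_right _ _, fun k D r e => ?_⟩
  obtain ⟨d, hd⟩ := full_of_spec n k r
  -- the common degree
  set d' := max d e with hd'
  obtain ⟨⟨M, E, hwin⟩, c, hc, C, hcount⟩ := hmain d' k ((D + r * r + 1) ^ (d' + 1))
  -- the space
  have hsp : ∀ K : Subfield ℂ, FiniteDimensional ℚ K → Module.finrank ℚ K ≤ D →
      ∀ (B₀ : Type) [Fintype B₀] [DecidableEq B₀] (c₀ : Matrix B₀ B₀ ℂ), Fintype.card B₀ ≤ r →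
      ∃ V : Submodule ℚ ℂ, Module.Finite ℚ V ∧ Module.finrank ℚ V ≤ (D + r * r + 1) ^ (d' + 1) ∧
        ∀ (Ω : Matrix (Fin n) (Fin n) ℂ), IsUnit Ω → ∀ (m : Fin k → ℕ), Spec Ω Z x₀' d' V m →
          (∀ l, (x₀ : ℝ) < (m l : ℝ)) → Good K c₀ Ω Z x₀ e m := by
    intro K hKf hKD B₀ _ _ c₀ hr
    obtain ⟨W, hW1, hW2, hKW, hW3⟩ := exists_W' K (fun b : B₀ × B₀ => c₀ b.1 b.2)
    obtain ⟨hp1, hp2⟩ := finrank_pow_le W (d' + 1)
    refine ⟨W ^ (d' + 1), hp1, hp2.trans (Nat.pow_le_pow_left ?_ _), fun Ω hΩ m hs hm => ?_⟩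
    · refine hW2.trans ?_
      rw [Fintype.card_prod]
      have := Nat.mul_le_mul hr hr
      omega
    · have h1W : (1 : ℂ) ∈ W := hKW 1 K.one_mem
      have hmono : ∀ {i j : ℕ}, i ≤ j → W ^ i ≤ W ^ j := by
        intro i j hij
        have h1 : (1 : Submodule ℚ ℂ) ≤ W := Submodule.one_le.2 h1W
        exact pow_le_pow_right' h1 hij
      have hspec : ∀ e' : ℕ, e' ≤ d' → Spec Ω Z x₀ e' (W ^ (e' + 1)) m := by
        intro e' he'
        have h2 := spec_mono hle0 hs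
        intro P h3 h4 h5
        exact h2 P (h3.trans he') (fun b => hmono (by omega) (h4 b)) h5
      refine ⟨hm, ?_, W, hKW, fun a b => hW3 (a, b), hspec e (le_max_right _ _)⟩
      refine hd B₀ hr K ?_ W hKW c₀ (fun a b => hW3 (a, b)) Ω Z x₀ m (hspec d (le_max_left _ _)) hm
      intro x hx
      have : NumberField K := { to_charZero := inferInstance, to_finiteDimensional := hKf }
      have h6 : IsAlgebraic ℚ (⟨x, hx⟩ : K) := Algebra.IsAlgebraic.isAlgebraic _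
      exact h6.algebraMap (A := ℂ)
  refine ⟨?_, min c 1, lt_min hc one_pos, C + k * (x₀ + 1), ?_⟩
  · obtain ⟨c', hc', hconv⟩ := Y113.GG.conv k G₀ E M
    refine ⟨M + 3 + (x₀ + 1), c', hc', ?_⟩
    intro Ω Θ h1 h2 K hKf hKD B₀ _ _ c₀ hr N hN
    obtain ⟨V, hV1, hV2, hV3⟩ := hsp K hKf hKD B₀ c₀ hr
    obtain ⟨S, hS, hS'⟩ := hconv _ (hwin Ω Θ h1 h2 V hV1 hV2) N hN
    refine ⟨S ∪ Finset.range (x₀ + 1), ?_, fun m hm hmS => ?_⟩
    · refine (Finset.card_union_le _ _).trans ?_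
      rw [Finset.card_range]
      omega
    · refine hV3 Ω (IsUnit.of_mul_eq_one Θ h1) m (hS' m hm fun i => ⟨(hmS i).1, (hmS i).2.1, fun hi => (hmS i).2.2 (Finset.mem_union_left _ hi)⟩) ?_
      intro l
      have h3 := (hmS l).2.2
      rw [Finset.mem_union, Finset.mem_range, not_or] at h3
      have h4 : x₀ < m l := by omega
      exact_mod_cast h4
  · intro Ω Θ h1 h2 K hKf hKD B₀ _ _ c₀ hr T hT
    obtain ⟨V, hV1, hV2, hV3⟩ := hsp K hKf hKD B₀ c₀ hr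
    have h3 := hcount Ω Θ h1 h2 V hV1 hV2 T hT
    have h4 := card_small k x₀ T hT
    have hsub : ((Fintype.piFinset fun _ : Fin k => Finset.Icc 2 T).filter fun m => ¬ Good K c₀ Ω Z x₀ e m) ⊆
        ((Fintype.piFinset fun _ : Fin k => Finset.Icc 2 T).filter fun m => ¬ Spec Ω Z x₀' d' V m) ∪
        ((Fintype.piFinset fun _ : Fin k => Finset.Icc 2 T).filter fun m => ∃ l, m l ≤ x₀) := by
      intro m hm
      rw [Finset.mem_filter] at hm
      rw [Finset.mem_union, Finset.mem_filter, Finset.mem_filter]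
      by_contra hcon
      obtain ⟨h5, h6⟩ := not_or.1 hcon
      refine hm.2 (hV3 Ω (IsUnit.of_mul_eq_one Θ h1) m (by_contra fun h7 => h5 ⟨hm.1, h7⟩) fun l => ?_)
      have h7 : x₀ < m l := by
        by_contra h8
        exact h6 ⟨hm.1, l, by omega⟩
      exact_mod_cast h7
    have h5 : (((Fintype.piFinset fun _ : Fin k => Finset.Icc 2 T).filter fun m => ¬ Good K c₀ Ω Z x₀ e m).card : ℝ) ≤
        C * (T : ℝ) ^ ((k : ℝ) - c) + (k * (x₀ + 1) : ℝ) * (T : ℝ) ^ ((k : ℝ) - 1) := by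
      refine le_trans ?_ (add_le_add h3 h4)
      have := (Finset.card_le_card hsub).trans (Finset.card_union_le _ _)
      exact_mod_cast this
    have hT1 : (1 : ℝ) ≤ T := by exact_mod_cast hT
    have hC : 0 ≤ C := by
      have h6 := hcount Ω Θ h1 h2 V hV1 hV2 1 le_rfl
      rw [Nat.cast_one, Real.one_rpow, mul_one] at h6
      exact le_trans (Nat.cast_nonneg _) h6
    refine h5.trans ?_
    rw [add_mul]
    refine add_le_add ?_ ?_
    · refine mul_le_mul_of_nonneg_left ?_ hC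
      exact Real.rpow_le_rpow_of_exponent_le hT1 (by linarith [min_le_left c 1])
    · refine mul_le_mul_of_nonneg_left ?_ (by positivity)
      exact Real.rpow_le_rpow_of_exponent_le hT1 (by linarith [min_le_right c 1])

end Pool.Agent.K1H12.SE
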