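import Pool.Agent.Y655.HG.Form

/-!
# Superelliptic periods: the formal solution at a regular point, general exponent

`ν ∈ (0, 1)` rational; the functions `∫ x^j f(x)^(ν-1) (x - t)^(-ν) dx`, expanded at `t = 0`.
-/

set_option autoImplicit false

namespace Pool.Agent.K1H12.SE

open Pool.Agent.Y113 PowerSeries Finset
open Pool.Agent.Y655.HG (Had coeff_Had SDc_had SDc_const SDc_pow SDc_zero SDc_sum SDc_subst exists_KN th coeff_th th_mul
  Sg Sg_succ coeff_Sg_succ coeff_Sg fz sum_ext)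

lemma fact_dvd (p q j : ℕ) : j.factorial ∣ q ^ j * ∏ i ∈ range j, (p + q * i) := by
  rw [Nat.dvd_iff_prime_pow_dvd_dvd]
  intro l k hl hk
  by_cases hq : l ∣ q
  · have : Fact l.Prime := ⟨hl⟩
    have hkj : k ≤ j := by
      have h1 : k ≤ padicValNat l j.factorial := (padicValNat_dvd_iff_le (Nat.factorial_ne_zero j)).1 hk
      have h2 := sub_one_mul_padicValNat_factorial (p := l) j
      have h3 : 1 ≤ l - 1 := by have := hl.two_le; omega
      have h4 : padicValNat l j.factorial ≤ (l - 1) * padicValNat l j.factorial := Nat.le_mul_of_pos_left _ h3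
      omega
    exact ((pow_dvd_pow_of_dvd hq k).trans (pow_dvd_pow q hkj)).mul_right _
  · have hc : Nat.Coprime q (l ^ k) := (Nat.Coprime.pow_left k ((Nat.Prime.coprime_iff_not_dvd hl).2 hq)).symm
    have hmul : (q : ZMod (l ^ k)) * (q : ZMod (l ^ k))⁻¹ = 1 := ZMod.coe_mul_inv_eq_one q hc
    set p' : ZMod (l ^ k) := (q : ZMod (l ^ k))⁻¹ * p with hp'
    have hl0 : NeZero (l ^ k) := ⟨pow_ne_zero _ hl.ne_zero⟩
    have hp'' : ((p'.val : ℕ) : ZMod (l ^ k)) = p' := ZMod.natCast_zmod_val p'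
    have h1 : ((∏ i ∈ range j, (p'.val + i) : ℕ) : ZMod (l ^ k)) = 0 := by
      rw [ZMod.natCast_eq_zero_iff]
      refine hk.trans ?_
      rw [← Nat.ascFactorial_eq_prod_range]
      exact Nat.factorial_dvd_ascFactorial _ _
    rw [← ZMod.natCast_eq_zero_iff]
    push_cast
    push_cast at h1
    have h2 : ∏ i ∈ range j, ((p : ZMod (l ^ k)) + q * i) = q ^ j * ∏ i ∈ range j, (((p'.val : ℕ) : ZMod (l ^ k)) + i) := by
      have h3 : (q : ZMod (l ^ k)) ^ j = ∏ i ∈ range j, (q : ZMod (l ^ k)) := by rw [prod_const, card_range]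
      rw [h3, ← prod_mul_distrib]
      refine prod_congr rfl fun i _ => ?_
      rw [hp'', hp']
      linear_combination (-(p : ZMod (l ^ k))) * hmul
    rw [h2, h1]
    ring

/-- the series of `(1 - X) ^ (-ν)` -/
noncomputable def Bs (ν : ℚ) : ℚ⟦X⟧ := PowerSeries.mk fun m => ∏ i ∈ range m, ((ν + i) / (i + 1))

lemma Bs_rec (ν : ℚ) (m : ℕ) : (coeff (m + 1) (Bs ν)) * ((m : ℚ) + 1) = ((m : ℚ) + ν) * coeff m (Bs ν) := by
  simp only [Bs, coeff_mk, prod_range_succ]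
  have : (m : ℚ) + 1 ≠ 0 := by positivity
  field_simp
  ring

lemma Bs_zero (ν : ℚ) : coeff 0 (Bs ν) = 1 := by
  simp [Bs]

lemma SDc_Bs {ν : ℚ} (h0 : 0 < ν) (h1 : ν < 1) : SDc (Bs ν) := by
  obtain ⟨p, q, hq, hν⟩ : ∃ p q : ℕ, 0 < q ∧ ν = p / q := by
    refine ⟨ν.num.natAbs, ν.den, ν.pos, ?_⟩
    have h2 : ((ν.num.natAbs : ℕ) : ℤ) = ν.num := Int.natAbs_of_nonneg (Rat.num_nonneg.2 h0.le)
    have h3 : ((ν.num.natAbs : ℕ) : ℚ) = ν.num := by
      rw [← Int.cast_natCast, h2]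
    rw [h3, Rat.num_div_den]
  obtain ⟨a, ha⟩ : ∃ a : ℕ, ((q : ℝ) ^ 2) ≤ 2 ^ a := by
    obtain ⟨a, ha⟩ := pow_unbounded_of_one_lt ((q : ℝ) ^ 2) (show (1 : ℝ) < 2 by norm_num)
    exact ⟨a, ha.le⟩
  have hq1 : (1 : ℝ) ≤ q := by exact_mod_cast hq
  have hq0 : (q : ℚ) ≠ 0 := by positivity
  refine ⟨a, fun m => ?_, fun m => ⟨q ^ (2 * m), by positivity, ?_, fun j hj => ?_⟩⟩
  · have e1 : (0 : ℚ) ≤ coeff m (Bs ν) ∧ coeff m (Bs ν) ≤ 1 := by
      simp only [Bs, coeff_mk]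
      constructor
      · exact prod_nonneg fun i _ => by positivity
      · refine prod_le_one (fun i _ => by positivity) fun i _ => ?_
        rw [div_le_one (by positivity)]
        linarith
    have e2 : |((coeff m (Bs ν) : ℚ) : ℝ)| ≤ 1 := by
      rw [abs_le]
      constructor
      · have : (0 : ℝ) ≤ ((coeff m (Bs ν) : ℚ) : ℝ) := by exact_mod_cast e1.1
        linarith
      · exact_mod_cast e1.2
    exact e2.trans (one_le_pow₀ (one_le_pow₀ (by norm_num)))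
  · push_cast
    rw [pow_mul]
    exact (pow_le_pow_left₀ (by positivity) ha _).trans (pow_le_pow_right₀ (one_le_pow₀ (by norm_num)) (by omega))
  · obtain ⟨b, hb⟩ := fact_dvd p q j
    refine ⟨((q ^ (2 * (m - j)) * b : ℕ) : ℤ), ?_⟩
    have hf : ((j.factorial : ℕ) : ℚ) ≠ 0 := by exact_mod_cast Nat.factorial_ne_zero j
    have e1 : coeff j (Bs ν) = ((∏ i ∈ range j, (p + q * i) : ℕ) : ℚ) / ((q : ℚ) ^ j * (j.factorial : ℕ)) := by
      simp only [Bs, coeff_mk]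
      rw [← prod_range_add_one_eq_factorial]
      push_cast
      have e3 : (q : ℚ) ^ j = ∏ i ∈ range j, (q : ℚ) := by rw [prod_const, card_range]
      rw [e3, ← prod_mul_distrib, ← prod_div_distrib]
      refine prod_congr rfl fun i _ => ?_
      rw [hν]
      have : (i : ℚ) + 1 ≠ 0 := by positivity
      field_simp
    have hb' : ((q : ℚ) ^ j * ((∏ i ∈ range j, (p + q * i) : ℕ) : ℚ)) = (j.factorial : ℕ) * (b : ℚ) := by exact_mod_cast hb
    rw [e1]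
    obtain ⟨r, rfl⟩ : ∃ r, m = j + r := ⟨m - j, by omega⟩
    rw [show j + r - j = r by omega]
    push_cast
    have e4 : (q : ℚ) ^ (2 * (j + r)) = (q : ℚ) ^ (2 * r) * (q : ℚ) ^ j * (q : ℚ) ^ j := by ring
    rw [e4]
    push_cast at hb'
    have hqj : (q : ℚ) ^ j ≠ 0 := pow_ne_zero _ hq0
    field_simp
    linear_combination hb'

lemma Bs_deriv (ν : ℚ) : (1 - X) * d⁄dX ℚ (Bs ν) = C ν * Bs ν := by
  ext m
  have e : (1 - X) * d⁄dX ℚ (Bs ν) = d⁄dX ℚ (Bs ν) - th (Bs ν) := by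
    unfold th
    ring
  rw [e, map_sub, coeff_derivative, coeff_th, Bs_rec, coeff_C_mul]
  ring

lemma Bs_mul (ν : ℚ) : Bs ν * Bs (1 - ν) * (1 - X) = 1 := by
  have h1 := Bs_deriv ν
  have h2 := Bs_deriv (1 - ν)
  apply PowerSeries.derivative.ext
  · rw [Derivation.leibniz, Derivation.leibniz, map_sub, derivative_X, derivative_one]
    simp only [smul_eq_mul]
    have h3 : (C (1 - ν) : ℚ⟦X⟧) = 1 - C ν := by rw [map_sub, map_one]
    rw [h3] at h2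
    linear_combination (Bs (1 - ν)) * h1 + Bs ν * h2
  · have h3 : ∀ r : ℚ, constantCoeff (Bs r) = 1 := fun r => by
      rw [← coeff_zero_eq_constantCoeff_apply]
      exact Bs_zero r
    simp [h3]

/-- `1 / (s + ν)` -/
noncomputable def Os (ν : ℚ) : ℚ⟦X⟧ := PowerSeries.mk fun s => 1 / ((s : ℚ) + ν)

lemma SDc_Os {ν : ℚ} (h0 : 0 < ν) (h1 : ν < 1) : SDc (Os ν) := by
  obtain ⟨p, q, hp, hpq, hν⟩ : ∃ p q : ℕ, 0 < p ∧ p ≤ q ∧ ν = p / q := by
    have h2 : ((ν.num.natAbs : ℕ) : ℤ) = ν.num := Int.natAbs_of_nonneg (Rat.num_nonneg.2 h0.le)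
    have h3 : ((ν.num.natAbs : ℕ) : ℚ) = ν.num := by
      rw [← Int.cast_natCast, h2]
    have h4 : ν = (ν.num.natAbs : ℕ) / (ν.den : ℕ) := by rw [h3, Rat.num_div_den]
    refine ⟨ν.num.natAbs, ν.den, Int.natAbs_pos.2 (Rat.num_pos.2 h0).ne', ?_, h4⟩
    have h5 : (ν.num.natAbs : ℚ) / (ν.den : ℕ) < 1 := by rw [← h4]; exact h1
    rw [div_lt_one (by exact_mod_cast ν.pos)] at h5
    exact_mod_cast h5.le
  have hq : 0 < q := by omega
  have hq0 : (q : ℚ) ≠ 0 := by positivity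
  have hp0 : (p : ℚ) ≠ 0 := by positivity
  obtain ⟨c, hc⟩ : ∃ c : ℕ, (1 / ν : ℝ) ≤ 2 ^ c := by
    obtain ⟨a, ha⟩ := pow_unbounded_of_one_lt (1 / ν : ℝ) (show (1 : ℝ) < 2 by norm_num)
    exact ⟨a, ha.le⟩
  refine ⟨c + 16 * q + 8, fun m => ?_, fun m => ⟨Nat.lcmUpto (2 * (q * m + q) + 1), Nat.lcmUpto_pos _, ?_, fun j hj => ?_⟩⟩
  · simp only [Os, coeff_mk]
    have h0' : (0 : ℝ) < ν := by exact_mod_cast h0
    push_cast
    rw [abs_of_nonneg (by positivity)]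
    have e1 : 1 / ((m : ℝ) + ν) ≤ 1 / ν := one_div_le_one_div_of_le h0' (by linarith [show (0 : ℝ) ≤ m by positivity])
    refine e1.trans (hc.trans ?_)
    rw [← pow_mul]
    refine pow_le_pow_right₀ (by norm_num) ?_
    nlinarith
  · refine (lcm_bound _).trans ?_
    rw [← pow_mul, ← pow_mul]
    refine pow_le_pow_right₀ (by norm_num) ?_
    nlinarith
  · simp only [Os, coeff_mk]
    obtain ⟨a, ha⟩ := lcm_div (j := q * j + p) (n := 2 * (q * m + q) + 1) (by nlinarith) (by nlinarith)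
    refine ⟨q * a, ?_⟩
    rw [hν]
    push_cast
    rw [← ha]
    have : (q : ℚ) * j + p ≠ 0 := by positivity
    push_cast
    field_simp

lemma exists_psi {ν : ℚ} (h0 : 0 < ν) (h1 : ν < 1) (f : Polynomial ℚ) (hf0 : f.coeff 0 ≠ 0) (R : ℚ⟦X⟧) (hR : SDc R) :
    ∃ ψ : ℚ⟦X⟧, SDc ψ ∧ (f : ℚ⟦X⟧) * th ψ +
      (C ν * (f : ℚ⟦X⟧) + C (1 - ν) * th (f : ℚ⟦X⟧)) * ψ = R := by
  set F : ℚ⟦X⟧ := (f : ℚ⟦X⟧) with hF
  have hFc : ∀ m, coeff m F = f.coeff m := fun m => by rw [hF, Polynomial.coeff_coe]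
  set P : ℚ⟦X⟧ := 1 - C ((f.coeff 0)⁻¹) * F with hP
  have hPc : ∀ m, coeff m P = (if m = 0 then 1 else 0) - (f.coeff 0)⁻¹ * f.coeff m := by
    intro m
    rw [hP, map_sub, coeff_one, coeff_C_mul, hFc]
  have hP0 : coeff 0 P = 0 := by
    rw [hPc, if_pos rfl, inv_mul_cancel₀ hf0, sub_self]
  have hP0' : constantCoeff P = 0 := by
    rw [← coeff_zero_eq_constantCoeff_apply]; exact hP0
  obtain ⟨K, N, hK, hN, hPK, hPN⟩ := exists_KN P f.natDegree (by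
    intro m hm
    rw [hPc, if_neg (by omega), Polynomial.coeff_eq_zero_of_natDegree_lt hm]
    simp) hP0
  have ha := PowerSeries.HasSubst.of_constantCoeff_zero' hP0'
  set h : ℚ⟦X⟧ := (Bs (1 - ν)).subst P with hh
  set h' : ℚ⟦X⟧ := (Bs ν).subst P with hh'
  have hhS : SDc h := SDc_subst hP0' hK hPK hN hPN (SDc_Bs (by linarith) (by linarith))
  have hhS' : SDc h' := SDc_subst hP0' hK hPK hN hPN (SDc_Bs h0 h1)
  have A4 : (C ((f.coeff 0)⁻¹) : ℚ⟦X⟧) * C (f.coeff 0) = 1 := by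
    rw [← map_mul, inv_mul_cancel₀ hf0, map_one]
  have h2 : (1 : ℚ⟦X⟧) - P = C ((f.coeff 0)⁻¹) * F := by rw [hP]; ring
  have A3 : h' * h * F = C (f.coeff 0) := by
    have h3 := congrArg (PowerSeries.substAlgHom (R := ℚ) ha) (Bs_mul ν)
    rw [map_mul, map_mul, map_sub, map_one, substAlgHom_X, coe_substAlgHom ha, h2] at h3
    calc h' * h * F = C (f.coeff 0) * ((h' * h) * (C ((f.coeff 0)⁻¹) * F)) := by
          linear_combination (-(h' * h * F)) * A4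
      _ = _ := by rw [h3, mul_one]
  have A1 : F * th h + C (1 - ν) * h * th F = 0 := by
    have h3 := congrArg (PowerSeries.substAlgHom (R := ℚ) ha) (Bs_deriv (1 - ν))
    rw [map_mul, map_mul, map_sub, map_one, substAlgHom_X, coe_substAlgHom ha, h2] at h3
    have h4 : d⁄dX ℚ h = (d⁄dX ℚ (Bs (1 - ν))).subst P * d⁄dX ℚ P := derivative_subst ha
    have h5 : d⁄dX ℚ P = - (C ((f.coeff 0)⁻¹) * d⁄dX ℚ F) := by
      rw [hP, map_sub, derivative_one, Derivation.leibniz, derivative_C]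
      simp
    have h6 : (C (1 - ν) : ℚ⟦X⟧).subst P = C (1 - ν) := by
      have h7 : (C (1 - ν) : ℚ⟦X⟧) = (1 - ν) • (1 : ℚ⟦X⟧) := by
        rw [smul_eq_C_mul, mul_one]
      rw [← coe_substAlgHom ha, h7, map_smul, map_one]
    rw [h6] at h3
    unfold th
    rw [h4, h5]
    linear_combination (-(X * d⁄dX ℚ F)) * h3
  set v : ℚ⟦X⟧ := Had (C ((f.coeff 0)⁻¹) * (R * h')) (Os ν) with hv
  have hvS : SDc v := SDc_had ((SDc_const _).mul (hR.mul hhS')) (SDc_Os h0 h1)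
  have A2 : th v + C ν * v = C ((f.coeff 0)⁻¹) * (R * h') := by
    ext s
    rw [map_add, coeff_th, coeff_C_mul, hv, coeff_Had, coeff_C_mul]
    simp only [Os, coeff_mk]
    have : ((s : ℚ) + ν) ≠ 0 := by positivity
    field_simp
  refine ⟨h * v, hhS.mul hvS, ?_⟩
  rw [th_mul]
  linear_combination v * A1 + F * h * A2 + C ((f.coeff 0)⁻¹) * R * A3 + R * A4

section main

variable (ν : ℚ) (ψ : ℚ⟦X⟧) (i : ℕ)

/-- the solutions -/
noncomputable def Ec (c : ℕ) : ℚ⟦X⟧ := Had (Bs ν) (Sg ψ i c)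

lemma rel1 (c : ℕ) : d⁄dX ℚ (Ec ν ψ i (c + 1)) =
    X * d⁄dX ℚ (Ec ν ψ i c) + C ν * Ec ν ψ i c := by
  ext m
  have h1 : X * d⁄dX ℚ (Ec ν ψ i c) = th (Ec ν ψ i c) := rfl
  rw [h1, map_add, coeff_derivative, coeff_th, coeff_C_mul]
  unfold Ec
  rw [coeff_Had, coeff_Had, coeff_Sg_succ]
  linear_combination coeff m (Sg ψ i c) * Bs_rec ν m

lemma rel3 (c : ℕ) : d⁄dX ℚ (Ec ν ψ i c) = X ^ c * d⁄dX ℚ (Ec ν ψ i 0) +
    C ν * ∑ k ∈ range c, X ^ (c - 1 - k) * Ec ν ψ i k := by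
  induction c with
  | zero => simp
  | succ c ih =>
    rw [rel1, ih, sum_range_succ]
    have h1 : ∑ k ∈ range c, X ^ (c + 1 - 1 - k) * Ec ν ψ i k =
        X * ∑ k ∈ range c, X ^ (c - 1 - k) * Ec ν ψ i k := by
      rw [mul_sum]
      refine sum_congr rfl fun k hk => ?_
      rw [mem_range] at hk
      rw [show c + 1 - 1 - k = (c - 1 - k) + 1 by omega]
      ring
    rw [h1, show c + 1 - 1 - c = 0 by omega]
    ring

variable (n : ℕ) (f : Polynomial ℚ) (hfn : f.natDegree ≤ n)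

/-- the coefficients of the right-hand side -/
noncomputable def rr (m : ℕ) : ℚ := f.coeff (m + 1 + i) * (ν * ((m : ℚ) + 1 + i) - m - ν)

include hfn

lemma coeff_RR (k : ℕ) : coeff k (∑ m ∈ range n, C (rr ν i f m) * X ^ m : ℚ⟦X⟧) = rr ν i f k := by
  rw [map_sum]
  simp only [coeff_C_mul, coeff_X_pow]
  by_cases h : k < n
  · rw [sum_eq_single k]
    · rw [if_pos rfl, mul_one]
    · intro b _ hb
      rw [if_neg (Ne.symm hb), mul_zero]
    · intro h'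
      exact absurd (mem_range.2 h) h'
  · rw [sum_eq_zero]
    · unfold rr
      rw [fz n f hfn (by omega), zero_mul]
    · intro b hb
      rw [mem_range] at hb
      rw [if_neg (by omega), mul_zero]

lemma key (hψ : (f : ℚ⟦X⟧) * th ψ + (C ν * (f : ℚ⟦X⟧) + C (1 - ν) * th (f : ℚ⟦X⟧)) * ψ =
    ∑ m ∈ range n, C (rr ν i f m) * X ^ m) (m : ℕ) :
    ∑ c ∈ range (n + 1), f.coeff c * (((m : ℚ) + ν - ν * (c : ℚ)) *
      coeff (m + 1) (Sg ψ i c)) = 0 := by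
  have h1 := congrArg (coeff m) hψ
  rw [coeff_RR ν i n f hfn, map_add, coeff_mul, coeff_mul,
    ← sum_add_distrib] at h1
  have h2 : ∀ p ∈ antidiagonal m, coeff p.1 (f : ℚ⟦X⟧) * coeff p.2 (th ψ) +
      (coeff p.1 (C ν * (f : ℚ⟦X⟧) + C (1 - ν) * th (f : ℚ⟦X⟧)) * coeff p.2 ψ) =
      f.coeff p.1 * (((m : ℚ) + ν - ν * (p.1 : ℚ)) * coeff p.2 ψ) := by
    intro p hp
    rw [Finset.HasAntidiagonal.mem_antidiagonal] at hp
    rw [map_add, coeff_C_mul, coeff_C_mul, coeff_th, coeff_th, Polynomial.coeff_coe, ← hp]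
    push_cast
    ring
  rw [sum_congr rfl h2, Finset.Nat.sum_antidiagonal_eq_sum_range_succ_mk] at h1
  simp only at h1
  -- the sum over the large range
  rw [sum_ext n f hfn _ (n + m + 1 + i) (by omega)]
  have h3 : ∀ c ∈ range (n + m + 1 + i + 1), f.coeff c * (((m : ℚ) + ν - ν * (c : ℚ)) *
      coeff (m + 1) (Sg ψ i c)) = (if c = m + 1 + i then f.coeff c *
        ((m : ℚ) + ν - ν * (c : ℚ)) else 0) +
      (if c ≤ m then f.coeff c * (((m : ℚ) + ν - ν * (c : ℚ)) * coeff (m - c) ψ) else 0) := by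
    intro c _
    rw [coeff_Sg]
    split_ifs <;> ring
  rw [sum_congr rfl h3, sum_add_distrib, sum_ite_eq' , if_pos (mem_range.2 (by omega)),
    ← sum_filter]
  have h4 : (range (n + m + 1 + i + 1)).filter (fun c => c ≤ m) = range m.succ := by
    ext c
    rw [mem_filter, mem_range, mem_range]
    omega
  rw [h4, h1]
  unfold rr
  push_cast
  ring

lemma rel2 (hψ : (f : ℚ⟦X⟧) * th ψ + (C ν * (f : ℚ⟦X⟧) + C (1 - ν) * th (f : ℚ⟦X⟧)) * ψ =
    ∑ m ∈ range n, C (rr ν i f m) * X ^ m) :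
    ∑ c ∈ range (n + 1), C (f.coeff c) * d⁄dX ℚ (Ec ν ψ i c) =
      C ν * ∑ k ∈ range n, C (((k : ℚ) + 1) * f.coeff (k + 1)) * Ec ν ψ i k := by
  ext m
  rw [map_sum, coeff_C_mul, map_sum]
  simp only [coeff_C_mul, coeff_derivative]
  unfold Ec
  simp only [coeff_Had]
  have h1 := key ν ψ i n f hfn hψ m
  have h2 : ∑ k ∈ range n, ((k : ℚ) + 1) * f.coeff (k + 1) * (coeff m (Bs ν) * coeff m (Sg ψ i k)) =
      ∑ c ∈ range (n + 1), (c : ℚ) * f.coeff c * (coeff m (Bs ν) * coeff (m + 1) (Sg ψ i c)) := by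
    rw [sum_range_succ']
    simp only [Nat.cast_zero, zero_mul, add_zero, coeff_Sg_succ]
    push_cast
    rfl
  rw [h2, mul_sum]
  have h3 : ∑ c ∈ range (n + 1), f.coeff c * (coeff (m + 1) (Bs ν) * coeff (m + 1) (Sg ψ i c) *
      ((m : ℚ) + 1)) - ∑ c ∈ range (n + 1), ν * ((c : ℚ) * f.coeff c *
        (coeff m (Bs ν) * coeff (m + 1) (Sg ψ i c))) =
      coeff m (Bs ν) * ∑ c ∈ range (n + 1), f.coeff c * (((m : ℚ) + ν - ν * (c : ℚ)) *
      coeff (m + 1) (Sg ψ i c)) := by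
    rw [← sum_sub_distrib, mul_sum]
    refine sum_congr rfl fun c _ => ?_
    linear_combination f.coeff c * coeff (m + 1) (Sg ψ i c) * Bs_rec ν m
  rw [h1, mul_zero] at h3
  linarith

/-- the first row of the connection matrix -/
lemma row0 (hψ : (f : ℚ⟦X⟧) * th ψ + (C ν * (f : ℚ⟦X⟧) + C (1 - ν) * th (f : ℚ⟦X⟧)) * ψ =
    ∑ m ∈ range n, C (rr ν i f m) * X ^ m) :
    (f : ℚ⟦X⟧) * d⁄dX ℚ (Ec ν ψ i 0) = C ν *
      ∑ k ∈ range n, (C (((k : ℚ) + 1) * f.coeff (k + 1)) -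
        ∑ c ∈ Ioc k n, C (f.coeff c) * X ^ (c - 1 - k)) * Ec ν ψ i k := by
  have h1 := rel2 ν ψ i n f hfn hψ
  have h2 : (f : ℚ⟦X⟧) = ∑ c ∈ range (n + 1), C (f.coeff c) * X ^ c := by
    ext m
    rw [Polynomial.coeff_coe, map_sum]
    simp only [coeff_C_mul, coeff_X_pow]
    by_cases h : m < n + 1
    · rw [sum_eq_single m]
      · rw [if_pos rfl, mul_one]
      · intro b _ hb
        rw [if_neg (Ne.symm hb), mul_zero]
      · intro h'
        exact absurd (mem_range.2 h) h'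
    · rw [sum_eq_zero, fz n f hfn (by omega)]
      intro b hb
      rw [mem_range] at hb
      rw [if_neg (by omega), mul_zero]
  have h3 : ∑ c ∈ range (n + 1), C (f.coeff c) * d⁄dX ℚ (Ec ν ψ i c) =
      (f : ℚ⟦X⟧) * d⁄dX ℚ (Ec ν ψ i 0) + C ν * ∑ c ∈ range (n + 1),
        ∑ k ∈ range c, C (f.coeff c) * X ^ (c - 1 - k) * Ec ν ψ i k := by
    rw [h2, sum_mul, mul_sum, ← sum_add_distrib]
    refine sum_congr rfl fun c _ => ?_
    rw [rel3 ν ψ i c]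
    have : ∑ k ∈ range c, C (f.coeff c) * X ^ (c - 1 - k) * Ec ν ψ i k =
        C (f.coeff c) * ∑ k ∈ range c, X ^ (c - 1 - k) * Ec ν ψ i k := by
      rw [mul_sum]
      exact sum_congr rfl fun k _ => by ring
    rw [this]
    ring
  have h4 : ∑ c ∈ range (n + 1), ∑ k ∈ range c, C (f.coeff c) * X ^ (c - 1 - k) * Ec ν ψ i k =
      ∑ k ∈ range n, ∑ c ∈ Ioc k n, C (f.coeff c) * X ^ (c - 1 - k) * Ec ν ψ i k := by
    apply sum_comm'
    intro c k
    rw [mem_range, mem_range, mem_range, mem_Ioc]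
    omega
  rw [h3, h4] at h1
  have h5 : ∑ k ∈ range n, (C (((k : ℚ) + 1) * f.coeff (k + 1)) -
        ∑ c ∈ Ioc k n, C (f.coeff c) * X ^ (c - 1 - k)) * Ec ν ψ i k =
      ∑ k ∈ range n, C (((k : ℚ) + 1) * f.coeff (k + 1)) * Ec ν ψ i k -
        ∑ k ∈ range n, ∑ c ∈ Ioc k n, C (f.coeff c) * X ^ (c - 1 - k) * Ec ν ψ i k := by
    rw [← sum_sub_distrib]
    refine sum_congr rfl fun k _ => ?_
    rw [sub_mul, sum_mul]
  rw [h5]
  linear_combination h1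

end main

/-- the connection matrix: `f P_j' = ∑_k cA_(jk) P_k` -/
noncomputable def cA (ν : ℚ) (n : ℕ) (f : Polynomial ℚ) (j k : Fin n) : Polynomial ℚ :=
  Polynomial.X ^ (j : ℕ) * (Polynomial.C ν * (Polynomial.C ((((k : ℕ) : ℚ) + 1) * f.coeff ((k : ℕ) + 1)) -
    ∑ c ∈ Finset.Ioc (k : ℕ) n, Polynomial.C (f.coeff c) * Polynomial.X ^ (c - 1 - (k : ℕ)))) +
  (if (k : ℕ) < (j : ℕ) then Polynomial.C ν * f * Polynomial.X ^ ((j : ℕ) - 1 - (k : ℕ)) else 0)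

section main2

variable (ν : ℚ) (ψ : ℚ⟦X⟧) (i : ℕ) (n : ℕ) (f : Polynomial ℚ) (hfn : f.natDegree ≤ n)

include hfn

/-- the differential equation -/
lemma ode (hψ : (f : ℚ⟦X⟧) * th ψ + (C ν * (f : ℚ⟦X⟧) + C (1 - ν) * th (f : ℚ⟦X⟧)) * ψ =
    ∑ m ∈ range n, C (rr ν i f m) * X ^ m) (j : Fin n) :
    (f : ℚ⟦X⟧) * d⁄dX ℚ (Ec ν ψ i j) = ∑ k : Fin n, Ec ν ψ i k *
      (cA ν n f j k : ℚ⟦X⟧) := by
  have h0 := row0 ν ψ i n f hfn hψ
  rw [rel3 ν ψ i j]
  have h1 : ∀ k : Fin n, Ec ν ψ i k * (cA ν n f j k : ℚ⟦X⟧) =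
      X ^ (j : ℕ) * (C ν * ((C ((((k : ℕ) : ℚ) + 1) * f.coeff ((k : ℕ) + 1)) -
        ∑ c ∈ Ioc (k : ℕ) n, C (f.coeff c) * X ^ (c - 1 - (k : ℕ))) * Ec ν ψ i k)) +
      C ν * ((f : ℚ⟦X⟧) *
        (if (k : ℕ) < (j : ℕ) then X ^ ((j : ℕ) - 1 - (k : ℕ)) * Ec ν ψ i k else 0)) := by
    intro k
    unfold cA
    have e1 : ∀ (s : Finset ℕ) (G : ℕ → Polynomial ℚ), ((∑ c ∈ s, G c : Polynomial ℚ) : ℚ⟦X⟧) =
        ∑ c ∈ s, (G c : ℚ⟦X⟧) := fun s G => map_sum (Polynomial.coeToPowerSeries.ringHom) G s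
    split_ifs with h
    · simp only [Polynomial.coe_add, Polynomial.coe_mul, Polynomial.coe_sub, Polynomial.coe_pow,
        Polynomial.coe_X, Polynomial.coe_C, e1]
      ring
    · simp only [Polynomial.coe_add, Polynomial.coe_mul, Polynomial.coe_sub, Polynomial.coe_pow,
        Polynomial.coe_X, Polynomial.coe_C, e1, Polynomial.coe_zero]
      ring
  rw [sum_congr rfl fun k _ => h1 k, sum_add_distrib, ← mul_sum, ← mul_sum, ← mul_sum, ← mul_sum]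
  rw [Finset.sum_fin_eq_sum_range, Finset.sum_fin_eq_sum_range]
  have h2 : ∑ k ∈ range n, (if h : k < n then (C (((((⟨k, h⟩ : Fin n) : ℕ) : ℚ) + 1) *
      f.coeff (((⟨k, h⟩ : Fin n) : ℕ) + 1)) -
        ∑ c ∈ Ioc ((⟨k, h⟩ : Fin n) : ℕ) n, C (f.coeff c) * X ^ (c - 1 - ((⟨k, h⟩ : Fin n) : ℕ))) *
          Ec ν ψ i ((⟨k, h⟩ : Fin n) : ℕ) else 0) =
      ∑ k ∈ range n, (C (((k : ℚ) + 1) * f.coeff (k + 1)) -
        ∑ c ∈ Ioc k n, C (f.coeff c) * X ^ (c - 1 - k)) * Ec ν ψ i k := by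
    refine sum_congr rfl fun k hk => ?_
    rw [mem_range] at hk
    rw [dif_pos hk]
  have h3 : ∑ k ∈ range n, (if h : k < n then (if ((⟨k, h⟩ : Fin n) : ℕ) < (j : ℕ) then
      X ^ ((j : ℕ) - 1 - ((⟨k, h⟩ : Fin n) : ℕ)) * Ec ν ψ i ((⟨k, h⟩ : Fin n) : ℕ) else 0) else 0) =
      ∑ k ∈ range (j : ℕ), X ^ ((j : ℕ) - 1 - k) * Ec ν ψ i k := by
    have e2 : (range n).filter (fun k => k < (j : ℕ)) = range (j : ℕ) := by
      ext k
      rw [mem_filter, mem_range, mem_range]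
      have := j.2
      omega
    rw [← e2, sum_filter]
    refine sum_congr rfl fun k hk => ?_
    rw [mem_range] at hk
    rw [dif_pos hk]
  rw [h2, h3, ← h0]
  ring

end main2

/-- the formal solution at `0`: it is a matrix of G-functions -/
theorem exists_form {ν : ℚ} (h0 : 0 < ν) (h1 : ν < 1) (n : ℕ) (f : Polynomial ℚ) (hfn : f.natDegree ≤ n)
    (hf0 : f.coeff 0 ≠ 0) : ∃ Y : Fin n → Fin n → PowerSeries ℚ,
    (∀ i j, PowerSeries.constantCoeff (Y i j) = if i = j then 1 else 0) ∧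
    (∀ i j, (f : PowerSeries ℚ) * PowerSeries.derivative ℚ (Y i j) = ∑ k, Y i k * (cA ν n f j k : PowerSeries ℚ)) ∧
    ∀ i j, SDc (Y i j) := by
  choose ψ hψS hψ using fun i : ℕ => exists_psi h0 h1 f hf0 (∑ m ∈ range n, C (rr ν i f m) * X ^ m)
    (SDc_sum _ _ fun m _ => (SDc_const _).mul (SDc_pow m))
  refine ⟨fun i j => Ec ν (ψ i) i j, ?_, ?_, ?_⟩
  · intro i j
    rw [← coeff_zero_eq_constantCoeff_apply]
    unfold Ec Sg
    rw [coeff_Had, Bs_zero, one_mul, map_add]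
    have h1 : coeff 0 (X ^ ((j : ℕ) + 1) * ψ i : ℚ⟦X⟧) = 0 := by
      rw [coeff_X_pow_mul', if_neg (by omega)]
    rw [h1, add_zero]
    by_cases h : (i : ℕ) ≤ j
    · rw [if_pos h, coeff_X_pow]
      by_cases h2 : i = j
      · rw [if_pos (by rw [h2]; omega), if_pos h2]
      · rw [if_neg (fun h3 => h2 (Fin.ext (by omega))), if_neg h2]
    · rw [if_neg h, map_zero, if_neg (fun h2 => h (by rw [h2]))]
  · intro i j
    exact ode ν (ψ i) i n f hfn (hψ i) j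
  · intro i j
    refine SDc_had (SDc_Bs h0 h1) (SDc.add ?_ ((SDc_pow _).mul (hψS i)))
    split_ifs
    · exact SDc_pow _
    · exact SDc_zero

end Pool.Agent.K1H12.SE
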