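import Pool.Agent.K1H12.SE.Cross3

/-!
# Superelliptic periods: the determinant is constant
-/

set_option autoImplicit false

namespace Pool.Agent.K1H12.SE

open Filter Topology Finset

variable {n : ℕ} {a : ℕ → ℝ} {μ : ℝ}

theorem det_J_const {f : Polynomial ℚ} (hc : Cfg n a f) {ν : ℚ} (hν : (ν : ℝ) = 1 - μ)
    (h0 : 0 < μ) (h1 : μ < 1) {p : ℕ} (hg : Gap n a p 0) :
    ∃ κ : ℂ, ∀ t : ℂ, 0 < t.im → (Jm n a μ t).det = κ := by
  obtain ⟨Z, hZ, ρ, hN⟩ := exists_near (s := 1) hc (μ := fun _ => μ) (ν := fun _ => ν) (fun _ => hν) (fun _ => h0) (fun _ => h1) hg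
  set κ : ℂ := (Sm n μ p).det * (Rm n a μ p 0).det with hκ
  refine ⟨κ, ?_⟩
  have hd : DifferentiableOn ℂ (fun t => (Jm n a μ t).det - κ) {t : ℂ | 0 < t.im} := by
    intro t ht
    have h2 : DifferentiableAt ℂ (fun t => (Jm n a μ t).det) t := by
      simp only [Matrix.det_apply]
      refine DifferentiableAt.fun_sum fun σ _ => DifferentiableAt.const_smul ?_ _
      have h3 : ∀ i, DifferentiableAt ℂ (fun t => Jm n a μ t (σ i) i) t := fun i =>
        (hasDerivAt_Jf hc.mono h0 h1 (i : ℕ) ht).differentiableAt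
      exact DifferentiableAt.fun_finsetProd fun i _ => h3 i
    exact (h2.sub_const κ).differentiableWithinAt
  have ha := hd.analyticOnNhd (isOpen_lt continuous_const Complex.continuous_im)
  set t₁ : ℂ := ((ρ / 2 : ℝ) : ℂ) * Complex.I with ht₁
  have hρ := hN.pos
  have hn1 : ‖t₁‖ < ρ := by
    rw [ht₁, norm_mul, Complex.norm_I, mul_one, Complex.norm_real, Real.norm_of_nonneg (by positivity)]
    linarith
  have him : 0 < t₁.im := by
    rw [ht₁, Complex.mul_I_im, Complex.ofReal_re]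
    positivity
  have hev : (fun t => (Jm n a μ t).det - κ) =ᶠ[𝓝 t₁] 0 := by
    have e1 : ∀ᶠ t : ℂ in 𝓝 t₁, ‖t‖ < ρ := (isOpen_lt continuous_norm continuous_const).mem_nhds hn1
    have e2 : ∀ᶠ t : ℂ in 𝓝 t₁, 0 < t.im := (isOpen_lt continuous_const Complex.continuous_im).mem_nhds him
    filter_upwards [e1, e2] with t ht1 ht2
    have e3 := hN.up t ht1 ht2 0
    rw [e3, Matrix.det_mul, Matrix.det_mul, hN.det t ht1 0, mul_one, hκ, sub_self]
    rfl
  intro t ht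
  have := ha.eqOn_zero_of_preconnected_of_eventuallyEq_zero (convex_halfSpace_im_gt 0).isPreconnected him hev ht
  exact sub_eq_zero.1 this

theorem det_R_const {f : Polynomial ℚ} (hc : Cfg n a f) {ν : ℚ} (hν : (ν : ℝ) = 1 - μ)
    (h0 : 0 < μ) (h1 : μ < 1) {p : ℕ} (hg : Gap n a p 0) :
    ∃ κ : ℂ, ∀ (m : ℕ) (t : ℝ), Gap n a m t → (Sm n μ m).det * (Rm n a μ m t).det = κ := by
  obtain ⟨κ, hκ⟩ := det_J_const hc hν h0 h1 hg
  refine ⟨κ, fun m t hgt => ?_⟩
  have h2 : Tendsto (fun y : ℝ => Jm n a μ (t + y * Complex.I)) (𝓝[>] 0) (𝓝 (Sm n μ m * Rm n a μ m t)) := by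
    refine tendsto_pi_nhds.2 fun i => tendsto_pi_nhds.2 fun j => ?_
    have h3 := lim_J hc.mono h0 h1 i.2 hgt (j : ℕ)
    have e1 : ∑ l ∈ range n, Mz m i l * (tht μ) ^ (((i : ℕ) : ℤ) - l) * (Rf n a μ m j l t : ℂ) = (Sm n μ m * Rm n a μ m t) i j := by
      rw [Matrix.mul_apply, ← Fin.sum_univ_eq_sum_range (fun l => Mz m i l * (tht μ) ^ (((i : ℕ) : ℤ) - l) * (Rf n a μ m j l t : ℂ)) n]
      rfl
    rw [e1] at h3
    exact h3
  have h3 : Tendsto (fun y : ℝ => (Jm n a μ (t + y * Complex.I)).det) (𝓝[>] 0) (𝓝 ((Sm n μ m * Rm n a μ m t).det)) :=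
    ((continuous_id.matrix_det).tendsto _).comp h2
  have h4 : Tendsto (fun y : ℝ => (Jm n a μ (t + y * Complex.I)).det) (𝓝[>] 0) (𝓝 κ) := by
    refine tendsto_const_nhds.congr' ?_
    filter_upwards [self_mem_nhdsWithin] with y hy
    rw [hκ]
    have hy' : (0 : ℝ) < y := hy
    simpa using hy'
  rw [← Matrix.det_mul]
  exact tendsto_nhds_unique h3 h4

end Pool.Agent.K1H12.SE
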