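import Pool.Agent.K1H12.SE.Cross2

/-!
# Superelliptic periods: all products of elements of `SL_n` preserve the relations
-/

set_option autoImplicit false

namespace Pool.Agent.K1H12.SE

open Matrix Finset

variable {n s : ℕ}

/-- closed in the sense of curves of degree two -/
def QCl (G : Submonoid (Fin s → Matrix (Fin n) (Fin n) ℂ)) : Prop :=
  ∀ A B C : Fin s → Matrix (Fin n) (Fin n) ℂ, {x : ℂ | (fun σ => A σ + x • B σ + (x ^ 2) • C σ) ∈ G}.Infinite →
    ∀ x : ℂ, (fun σ => A σ + x • B σ + (x ^ 2) • C σ) ∈ G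

theorem ev_poly (F : MvPolynomial (Option (Fin s × Fin n × Fin n)) ℂ) (t : ℂ) (A B C J : Fin s → Matrix (Fin n) (Fin n) ℂ) :
    ∃ P : Polynomial ℂ, ∀ x : ℂ, P.eval x = ev F t (fun σ => (A σ + x • B σ + (x ^ 2) • C σ) * J σ) := by
  unfold ev
  induction F using MvPolynomial.induction_on with
  | C c => exact ⟨Polynomial.C c, fun x => by simp⟩
  | add p q hp hq =>
    obtain ⟨P, hP⟩ := hp
    obtain ⟨Q, hQ⟩ := hq
    exact ⟨P + Q, fun x => by rw [Polynomial.eval_add, hP, hQ, map_add]⟩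
  | mul_X p o hp =>
    obtain ⟨P, hP⟩ := hp
    obtain ⟨Q, hQ⟩ : ∃ Q : Polynomial ℂ, ∀ x : ℂ, Q.eval x = (fun o : Option (Fin s × Fin n × Fin n) =>
        o.elim t fun p => ((A p.1 + x • B p.1 + (x ^ 2) • C p.1) * J p.1) p.2.1 p.2.2) o := by
      rcases o with _ | q
      · exact ⟨Polynomial.C t, fun x => by simp⟩
      · refine ⟨Polynomial.C ((A q.1 * J q.1) q.2.1 q.2.2) + Polynomial.X * Polynomial.C ((B q.1 * J q.1) q.2.1 q.2.2) +
          Polynomial.X ^ 2 * Polynomial.C ((C q.1 * J q.1) q.2.1 q.2.2), fun x => ?_⟩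
        simp only [Polynomial.eval_add, Polynomial.eval_mul, Polynomial.eval_pow, Polynomial.eval_X, Polynomial.eval_C,
          Option.elim_some, Matrix.add_mul, Matrix.smul_mul, Matrix.add_apply, Matrix.smul_apply, smul_eq_mul]
    refine ⟨P * Q, fun x => ?_⟩
    rw [Polynomial.eval_mul, hP, hQ, map_mul, MvPolynomial.eval_X]

theorem qcl_GR (a : ℕ → ℝ) (μ : Fin s → ℝ) : QCl (GR n a μ) := by
  intro A B C hinf x
  rw [mem_GR]
  intro F hF t ht
  obtain ⟨P, hP⟩ := ev_poly F t A B C (fun σ => Jm n a (μ σ) t)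
  have h1 : P = 0 := by
    refine Polynomial.eq_zero_of_infinite_isRoot P (hinf.mono ?_)
    intro y hy
    change P.IsRoot y
    rw [Polynomial.IsRoot.def, hP]
    exact (mem_GR.1 hy) F hF t ht
  rw [← hP x, h1, Polynomial.eval_zero]

/-- families of directions -/
def PF (G : Submonoid (Fin s → Matrix (Fin n) (Fin n) ℂ)) (v ψ : Fin s → Fin n → ℂ) : Prop :=
  (∀ σ, ψ σ ⬝ᵥ v σ = 0) ∧ ∀ c : ℂ, (fun σ => 1 + c • vecMulVec (v σ) (ψ σ)) ∈ G

variable {G : Submonoid (Fin s → Matrix (Fin n) (Fin n) ℂ)}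

theorem PF1 (hcl : QCl G) {v ψ : Fin s → Fin n → ℂ} (h : ∀ σ, ψ σ ⬝ᵥ v σ = 0)
    (hG : (fun σ => 1 + vecMulVec (v σ) (ψ σ)) ∈ G) : PF G v ψ := by
  have h1 : ∀ k : ℕ, (fun σ => 1 + (k : ℂ) • vecMulVec (v σ) (ψ σ)) ∈ G := by
    intro k
    induction k with
    | zero =>
      have : (fun σ => 1 + ((0 : ℕ) : ℂ) • vecMulVec (v σ) (ψ σ)) = (1 : Fin s → Matrix (Fin n) (Fin n) ℂ) := by
        funext σ
        simp
      rw [this]
      exact G.one_mem
    | succ k ih =>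
      have h2 := G.mul_mem ih hG
      have h3 : (fun σ => 1 + (k : ℂ) • vecMulVec (v σ) (ψ σ)) * (fun σ => 1 + vecMulVec (v σ) (ψ σ)) =
          fun σ => 1 + (((k + 1 : ℕ)) : ℂ) • vecMulVec (v σ) (ψ σ) := by
        funext σ
        rw [Pi.mul_apply]
        have h4 := tr_mul (h σ) (k : ℂ) 1
        rw [one_smul] at h4
        rw [h4]
        push_cast
        rfl
      rw [h3] at h2
      exact h2
  refine ⟨h, fun c => ?_⟩
  have h2 := hcl (fun _ => 1) (fun σ => vecMulVec (v σ) (ψ σ)) (fun _ => 0) ?_ c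
  · simpa only [smul_zero, add_zero] using h2
  · refine Set.Infinite.mono ?_ (Set.infinite_range_of_injective (Nat.cast_injective (R := ℂ)))
    rintro _ ⟨k, rfl⟩
    change (fun σ => (1 : Matrix (Fin n) (Fin n) ℂ) + (k : ℂ) • vecMulVec (v σ) (ψ σ) +
      ((k : ℂ) ^ 2) • (0 : Matrix (Fin n) (Fin n) ℂ)) ∈ G
    simpa only [smul_zero, add_zero] using h1 k

/-- the double commutator -/
theorem PF2 (hcl : QCl G) {v ψ w φ : Fin s → Fin n → ℂ} (h : PF G v ψ) (h' : PF G w φ) :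
    PF G (fun σ => ((ψ σ ⬝ᵥ w σ) * (φ σ ⬝ᵥ v σ)) • v σ) ψ := by
  refine ⟨fun σ => by rw [dotProduct_smul, h.1, smul_zero], fun d => ?_⟩
  have h2 := hcl (fun σ => 1 + d • vecMulVec (((ψ σ ⬝ᵥ w σ) * (φ σ ⬝ᵥ v σ)) • v σ) (ψ σ))
    (fun σ => (-d) • ((ψ σ ⬝ᵥ w σ) • vecMulVec (v σ) (φ σ) - (φ σ ⬝ᵥ v σ) • vecMulVec (w σ) (ψ σ)))
    (fun σ => (-d) • vecMulVec (w σ) (φ σ)) ?_ 0
  · simpa only [zero_smul, add_zero, ne_eq, OfNat.ofNat_ne_zero, not_false_eq_true, zero_pow] using h2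
  · refine Set.Infinite.mono ?_ (Set.Finite.infinite_compl (Set.finite_singleton (0 : ℂ)))
    intro x hx
    have hx0 : x ≠ 0 := hx
    have h3 := G.mul_mem (G.mul_mem (h.2 (1 / x)) (h'.2 (-(d * x ^ 2)))) (h.2 (-(1 / x)))
    have h4 : (fun σ => 1 + (1 / x) • vecMulVec (v σ) (ψ σ)) * (fun σ => 1 + (-(d * x ^ 2)) • vecMulVec (w σ) (φ σ)) *
        (fun σ => 1 + (-(1 / x)) • vecMulVec (v σ) (ψ σ)) = fun σ => 1 + d • vecMulVec (((ψ σ ⬝ᵥ w σ) * (φ σ ⬝ᵥ v σ)) • v σ) (ψ σ) +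
          x • ((-d) • ((ψ σ ⬝ᵥ w σ) • vecMulVec (v σ) (φ σ) - (φ σ ⬝ᵥ v σ) • vecMulVec (w σ) (ψ σ))) +
            (x ^ 2) • ((-d) • vecMulVec (w σ) (φ σ)) := by
      funext σ
      rw [Pi.mul_apply, Pi.mul_apply]
      have e0 := h.1 σ
      simp only [mul_add, add_mul, mul_one, one_mul, smul_mul_assoc, mul_smul_comm, r1_mul, e0, smul_smul, smul_vecMulVec]
      match_scalars <;> field_simp <;> ring
    rw [h4] at h3
    exact h3

theorem PF.smul {v ψ : Fin s → Fin n → ℂ} (h : PF G v ψ) (c : ℂ) : PF G (fun σ => c • v σ) ψ := by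
  refine ⟨fun σ => by rw [dotProduct_smul, h.1, smul_zero], fun d => ?_⟩
  have h1 := h.2 (d * c)
  simpa only [smul_smul, smul_vecMulVec] using h1

theorem PF.add {v w ψ : Fin s → Fin n → ℂ} (h : PF G v ψ) (h' : PF G w ψ) : PF G (fun σ => v σ + w σ) ψ := by
  refine ⟨fun σ => by rw [dotProduct_add, h.1, h'.1, add_zero], fun c => ?_⟩
  have h1 := G.mul_mem (h.2 c) (h'.2 c)
  have h2 : (fun σ => 1 + c • vecMulVec (v σ) (ψ σ)) * (fun σ => 1 + c • vecMulVec (w σ) (ψ σ)) =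
      fun σ => 1 + c • vecMulVec (v σ + w σ) (ψ σ) := by
    funext σ
    have e0 := h'.1 σ
    simp only [Pi.mul_apply, mul_add, add_mul, mul_one, one_mul, smul_mul_assoc, mul_smul_comm, r1_mul, e0, zero_smul,
      smul_zero, add_vecMulVec, smul_add]
    module
  rwa [h2] at h1

/-- powers of the coefficients -/
theorem PF.pow (hcl : QCl G) {v ψ w φ : Fin s → Fin n → ℂ} {κ : Fin s → ℂ} (hκ : ∀ σ, κ σ = (ψ σ ⬝ᵥ w σ) * (φ σ ⬝ᵥ v σ))
    (h : PF G v ψ) (h' : PF G w φ) (r : ℕ) : PF G (fun σ => (κ σ ^ r) • v σ) ψ ∧ PF G (fun σ => (κ σ ^ r) • w σ) φ := by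
  induction r with
  | zero => simpa only [pow_zero, one_smul] using ⟨h, h'⟩
  | succ r ih =>
    have h1 := PF2 hcl h ih.2
    have h2 := PF2 hcl h' ih.1
    have e1 : ∀ σ, (ψ σ ⬝ᵥ ((κ σ ^ r) • w σ)) * (φ σ ⬝ᵥ v σ) = κ σ ^ (r + 1) := by
      intro σ
      rw [dotProduct_smul, smul_eq_mul, pow_succ]
      nth_rewrite 3 [hκ σ]
      ring
    have e2 : ∀ σ, (φ σ ⬝ᵥ ((κ σ ^ r) • v σ)) * (ψ σ ⬝ᵥ w σ) = κ σ ^ (r + 1) := by
      intro σ
      rw [dotProduct_smul, smul_eq_mul, pow_succ]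
      nth_rewrite 3 [hκ σ]
      ring
    simp only [e1] at h1
    simp only [e2] at h2
    exact ⟨h1, h2⟩

theorem PF.poly (hcl : QCl G) {v ψ w φ : Fin s → Fin n → ℂ} {κ : Fin s → ℂ} (hκ : ∀ σ, κ σ = (ψ σ ⬝ᵥ w σ) * (φ σ ⬝ᵥ v σ))
    (h : PF G v ψ) (h' : PF G w φ) (p : Polynomial ℂ) : PF G (fun σ => (p.eval (κ σ)) • v σ) ψ := by
  induction p using Polynomial.induction_on' with
  | add p q hp hq =>
    have h1 := hp.add hq
    simpa only [Polynomial.eval_add, add_smul] using h1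
  | monomial r c =>
    have h1 := ((PF.pow hcl hκ h h' r).1).smul c
    simpa only [Polynomial.eval_monomial, smul_smul] using h1

/-- separation of the components -/
theorem PF.single (hcl : QCl G) {v ψ w φ : Fin s → Fin n → ℂ} {κ : Fin s → ℂ} (hκ : ∀ σ, κ σ = (ψ σ ⬝ᵥ w σ) * (φ σ ⬝ᵥ v σ))
    (hinj : Function.Injective κ) (h : PF G v ψ) (h' : PF G w φ) (σ₀ : Fin s) :
    PF G (fun σ => (if σ = σ₀ then (1 : ℂ) else 0) • v σ) ψ := by
  set p : Polynomial ℂ := ∏ τ ∈ univ.erase σ₀, (Polynomial.C ((κ σ₀ - κ τ)⁻¹) * (Polynomial.X - Polynomial.C (κ τ))) with hp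
  have h1 := PF.poly hcl hκ h h' p
  have h2 : ∀ σ, p.eval (κ σ) = if σ = σ₀ then (1 : ℂ) else 0 := by
    intro σ
    rw [hp, Polynomial.eval_prod]
    split_ifs with h3
    · rw [h3]
      refine prod_eq_one fun τ hτ => ?_
      have h4 : κ σ₀ - κ τ ≠ 0 := sub_ne_zero.2 fun h5 => (mem_erase.1 hτ).1 (hinj h5).symm
      simp only [Polynomial.eval_mul, Polynomial.eval_C, Polynomial.eval_sub, Polynomial.eval_X]
      exact inv_mul_cancel₀ h4
    · refine prod_eq_zero (mem_erase.2 ⟨h3, mem_univ σ⟩) ?_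
      simp
  simpa only [h2] using h1

/-- the component `σ₀` -/
noncomputable def Gs (G : Submonoid (Fin s → Matrix (Fin n) (Fin n) ℂ)) (σ₀ : Fin s) (U V : Matrix (Fin n) (Fin n) ℂ)
    (hVU : V * U = 1) : Submonoid (Matrix (Fin n) (Fin n) ℂ) where
  carrier := {g | (fun σ => if σ = σ₀ then U * g * V else 1) ∈ G}
  one_mem' := by
    have hUV : U * V = 1 := mul_eq_one_comm.1 hVU
    have h1 : (fun σ => if σ = σ₀ then U * 1 * V else 1) = (1 : Fin s → Matrix (Fin n) (Fin n) ℂ) := by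
      funext σ
      rw [mul_one, hUV, ite_self]
      rfl
    change (fun σ => if σ = σ₀ then U * 1 * V else 1) ∈ G
    rw [h1]
    exact G.one_mem
  mul_mem' := by
    intro g h hg hh
    have h1 := G.mul_mem hg hh
    have h2 : (fun σ => if σ = σ₀ then U * g * V else 1) * (fun σ => if σ = σ₀ then U * h * V else 1) =
        fun σ => if σ = σ₀ then U * (g * h) * V else (1 : Matrix (Fin n) (Fin n) ℂ) := by
      funext σ
      rw [Pi.mul_apply]
      split_ifs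
      · calc U * g * V * (U * h * V) = U * g * (V * U) * h * V := by noncomm_ring
          _ = U * (g * h) * V := by rw [hVU]; noncomm_ring
      · rw [mul_one]
    rw [h2] at h1
    exact h1

theorem mem_Gs {σ₀ : Fin s} {U V : Matrix (Fin n) (Fin n) ℂ} {hVU : V * U = 1} {g : Matrix (Fin n) (Fin n) ℂ} :
    g ∈ Gs G σ₀ U V hVU ↔ (fun σ => if σ = σ₀ then U * g * V else 1) ∈ G := Iff.rfl

theorem lcl_Gs (hcl : QCl G) (σ₀ : Fin s) {U V : Matrix (Fin n) (Fin n) ℂ} (hVU : V * U = 1) : LCl (Gs G σ₀ U V hVU) := by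
  intro A B hinf x
  have key : ∀ y : ℂ, (fun σ => if σ = σ₀ then U * (A + y • B) * V else 1) =
      fun σ => (if σ = σ₀ then U * A * V else 1) + y • (if σ = σ₀ then U * B * V else 0) +
        (y ^ 2) • (0 : Matrix (Fin n) (Fin n) ℂ) := by
    intro y
    funext σ
    split_ifs
    · rw [smul_zero, add_zero, mul_add, add_mul, mul_smul_comm, smul_mul_assoc]
    · rw [smul_zero, smul_zero, add_zero, add_zero]
  have h0 : (fun σ => if σ = σ₀ then U * (A + x • B) * V else 1) ∈ G := by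
    rw [key]
    refine hcl _ _ (fun _ => 0) (hinf.mono fun y hy => ?_) x
    have h1 : (fun σ => if σ = σ₀ then U * (A + y • B) * V else 1) ∈ G := hy
    rw [key] at h1
    exact h1
  exact h0

end Pool.Agent.K1H12.SE
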