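import Pool.Agent.K1H12.SE.Grp2
import Pool.Agent.H463R3.PSLn

/-!
# Superelliptic periods: all products of elements of `SL_n` preserve the relations
-/

set_option autoImplicit false

namespace Pool.Agent.K1H12.SE

open Matrix Finset

variable {n s : ℕ}

theorem exp_real_eq_one {x : ℝ} (h : Complex.exp (-(2 * Real.pi * x * Complex.I)) = 1) : ∃ k : ℤ, x = k := by
  rw [Complex.exp_eq_one_iff] at h
  obtain ⟨k, hk⟩ := h
  refine ⟨-k, ?_⟩
  have h1 : (2 * Real.pi * Complex.I : ℂ) ≠ 0 := Complex.two_pi_I_ne_zero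
  have h2 : (2 * Real.pi * Complex.I : ℂ) * (x : ℂ) = (2 * Real.pi * Complex.I : ℂ) * ((-k : ℤ) : ℂ) := by
    push_cast
    linear_combination (-1 : ℂ) * hk
  have h3 := mul_left_cancel₀ h1 h2
  exact_mod_cast h3

theorem tht_sq_pow (μ : ℝ) (r : ℕ) : ((tht μ) ^ 2) ^ r = Complex.exp (-(2 * Real.pi * ((r : ℝ) * μ : ℝ) * Complex.I)) := by
  unfold tht
  rw [← pow_mul, ← Complex.exp_nat_mul]
  congr 1
  push_cast
  ring

theorem tht_sq_mul (μ μ' : ℝ) : (tht μ) ^ 2 * (tht μ') ^ 2 = Complex.exp (-(2 * Real.pi * (μ + μ' : ℝ) * Complex.I)) := by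
  unfold tht
  rw [← Complex.exp_nat_mul, ← Complex.exp_nat_mul, ← Complex.exp_add]
  congr 1
  push_cast
  ring

theorem tht_sq_div (μ μ' : ℝ) : (tht μ) ^ 2 / (tht μ') ^ 2 = Complex.exp (-(2 * Real.pi * (μ - μ' : ℝ) * Complex.I)) := by
  unfold tht
  rw [← Complex.exp_nat_mul, ← Complex.exp_nat_mul, ← Complex.exp_sub]
  congr 1
  push_cast
  ring

theorem q_ne_one {μ : ℝ} (h0 : 0 < μ) (h1 : μ < 1) : (tht μ) ^ 2 ≠ 1 := by
  intro h
  have h2 := tht_sq_pow μ 1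
  rw [pow_one, h] at h2
  obtain ⟨k, hk⟩ := exp_real_eq_one h2.symm
  push_cast at hk
  rw [one_mul] at hk
  rw [hk] at h0 h1
  have h3 : 0 < k := by exact_mod_cast h0
  have h4 : k < 1 := by exact_mod_cast h1
  omega

theorem q_pow_ne_one {μ : ℝ} {r : ℕ} (h : ∀ k : ℤ, (r : ℝ) * μ ≠ k) : ((tht μ) ^ 2) ^ r ≠ 1 := by
  intro h'
  rw [tht_sq_pow] at h'
  obtain ⟨k, hk⟩ := exp_real_eq_one h'
  exact h k hk

theorem q_ne_neg_one {μ : ℝ} (h0 : 0 < μ) (h1 : μ < 1) (h2 : 2 * μ ≠ 1) : (tht μ) ^ 2 ≠ -1 := by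
  intro h
  have h3 : ((tht μ) ^ 2) ^ 2 = 1 := by rw [h]; norm_num
  refine q_pow_ne_one ?_ h3
  intro k hk
  push_cast at hk
  have h4 : (0 : ℝ) < k := by rw [← hk]; linarith
  have h5 : (k : ℝ) < 2 := by rw [← hk]; linarith
  have h6 : 0 < k := by exact_mod_cast h4
  have h7 : k < 2 := by exact_mod_cast h5
  have h8 : k = 1 := by omega
  rw [h8] at hk
  push_cast at hk
  exact h2 hk

/-- the scalar of a pair of crossings -/
noncomputable def kap (μ : ℝ) : ℂ := ((tht μ) ^ 2 - 1) * (1 - ((tht μ) ^ 2)⁻¹)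

theorem kap_inj {μ μ' : ℝ} (h0 : 0 < μ) (h1 : μ < 1) (h0' : 0 < μ') (h1' : μ' < 1) (hne : μ + μ' ≠ 1)
    (h : kap μ = kap μ') : μ = μ' := by
  unfold kap at h
  have hq : (tht μ) ^ 2 ≠ 0 := pow_ne_zero _ (tht_ne μ)
  have hq' : (tht μ') ^ 2 ≠ 0 := pow_ne_zero _ (tht_ne μ')
  have h2 : ((tht μ) ^ 2 - (tht μ') ^ 2) * ((tht μ) ^ 2 * (tht μ') ^ 2 - 1) = 0 := by
    generalize (tht μ) ^ 2 = u at h hq
    generalize (tht μ') ^ 2 = v at h hq'
    have e1 : (u - 1) * (1 - u⁻¹) * (u * v) = (v - 1) * (1 - v⁻¹) * (u * v) := by rw [h]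
    have e2 : (u - 1) * (1 - u⁻¹) * (u * v) = (u - 1) ^ 2 * v := by
      field_simp
    have e3 : (v - 1) * (1 - v⁻¹) * (u * v) = (v - 1) ^ 2 * u := by
      field_simp
    rw [e2, e3] at e1
    linear_combination e1
  rcases mul_eq_zero.1 h2 with h3 | h3
  · have h4 : (tht μ) ^ 2 / (tht μ') ^ 2 = 1 := by
      rw [div_eq_one_iff_eq hq']
      exact sub_eq_zero.1 h3
    rw [tht_sq_div] at h4
    obtain ⟨k, hk⟩ := exp_real_eq_one h4
    have h5 : (-1 : ℝ) < k := by rw [← hk]; linarith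
    have h6 : (k : ℝ) < 1 := by rw [← hk]; linarith
    have h7 : -1 < k := by exact_mod_cast h5
    have h8 : k < 1 := by exact_mod_cast h6
    have h9 : k = 0 := by omega
    rw [h9] at hk
    push_cast at hk
    linarith
  · exfalso
    have h4 : (tht μ) ^ 2 * (tht μ') ^ 2 = 1 := sub_eq_zero.1 h3
    rw [tht_sq_mul] at h4
    obtain ⟨k, hk⟩ := exp_real_eq_one h4
    have h5 : (0 : ℝ) < k := by rw [← hk]; linarith
    have h6 : (k : ℝ) < 2 := by rw [← hk]; linarith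
    have h7 : 0 < k := by exact_mod_cast h5
    have h8 : k < 2 := by exact_mod_cast h6
    have h9 : k = 1 := by omega
    rw [h9] at hk
    push_cast at hk
    exact hne hk

/-- the directions of the crossings -/
noncomputable def nv (μ : ℝ) (m : Fin n) : Fin n → ℂ :=
  fun i : Fin n => (tht μ) ^ (((i : ℕ) : ℤ) - ((m : ℕ) : ℤ)) * wv ((tht μ) ^ 2) m i

theorem Nm_eq (μ : ℝ) (m : Fin n) : Nm μ m = vecMulVec (nv μ m) (ee m) := rfl

theorem nv_self (μ : ℝ) (m : Fin n) : nv μ m m = 0 := by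
  unfold nv
  rw [wv_self, mul_zero]

theorem nv_nv (μ : ℝ) {m m' : Fin n} (h : m ≠ m') : nv μ m' m * nv μ m m' = kap μ := by
  have hq : (tht μ) ^ 2 ≠ 0 := pow_ne_zero _ (tht_ne μ)
  unfold nv kap
  have h1 : (tht μ) ^ (((m : ℕ) : ℤ) - ((m' : ℕ) : ℤ)) * (tht μ) ^ (((m' : ℕ) : ℤ) - ((m : ℕ) : ℤ)) = 1 := by
    rw [← zpow_add₀ (tht_ne μ)]
    simp
  have h2 : wv ((tht μ) ^ 2) m' m * wv ((tht μ) ^ 2) m m' = ((tht μ) ^ 2 - 1) * (1 - ((tht μ) ^ 2)⁻¹) := by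
    unfold wv
    rcases lt_or_gt_of_ne h with h3 | h3
    · rw [if_pos h3, if_neg h3.le.not_gt, if_pos h3]
    · rw [if_neg h3.le.not_gt, if_pos h3, if_pos h3]
      ring
  calc (tht μ) ^ (((m : ℕ) : ℤ) - ((m' : ℕ) : ℤ)) * wv ((tht μ) ^ 2) m' m *
        ((tht μ) ^ (((m' : ℕ) : ℤ) - ((m : ℕ) : ℤ)) * wv ((tht μ) ^ 2) m m')
      = ((tht μ) ^ (((m : ℕ) : ℤ) - ((m' : ℕ) : ℤ)) * (tht μ) ^ (((m' : ℕ) : ℤ) - ((m : ℕ) : ℤ))) *
        (wv ((tht μ) ^ 2) m' m * wv ((tht μ) ^ 2) m m') := by ring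
    _ = _ := by rw [h1, h2, one_mul]

/-- one component of one crossing -/
theorem single_mem (hn : 2 ≤ n) {G : Submonoid (Fin s → Matrix (Fin n) (Fin n) ℂ)} (hcl : QCl G) {μ : Fin s → ℝ}
    (h0 : ∀ σ, 0 < μ σ) (h1 : ∀ σ, μ σ < 1) (hμ : Function.Injective μ) (hμ' : ∀ σ τ, σ ≠ τ → μ σ + μ τ ≠ 1)
    (hG : ∀ m : Fin n, (fun σ => 1 + Nm (μ σ) m) ∈ G) (σ₀ : Fin s) (m : Fin n) :
    (fun σ => if σ = σ₀ then 1 + Nm (μ σ₀) m else 1) ∈ G := by
  obtain ⟨m', hm'⟩ : ∃ m' : Fin n, m ≠ m' := by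
    have : Nontrivial (Fin n) := Fin.nontrivial_iff_two_le.2 hn
    obtain ⟨m', h⟩ := exists_ne m
    exact ⟨m', h.symm⟩
  have hpf : ∀ k : Fin n, PF G (fun σ => nv (μ σ) k) (fun _ => ee k) := fun k =>
    PF1 hcl (fun σ => by rw [ee_dot, nv_self]) (hG k)
  have hinj : Function.Injective fun σ => kap (μ σ) := by
    intro σ τ h
    by_contra hne
    exact hne (hμ (kap_inj (h0 σ) (h1 σ) (h0 τ) (h1 τ) (hμ' σ τ hne) h))
  have h2 := PF.single (κ := fun σ => kap (μ σ)) hcl (fun σ => ?_) hinj (hpf m) (hpf m') σ₀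
  · have h3 := h2.2 1
    have h4 : (fun σ => 1 + (1 : ℂ) • vecMulVec ((if σ = σ₀ then (1 : ℂ) else 0) • nv (μ σ) m) (ee m)) =
        fun σ => if σ = σ₀ then 1 + Nm (μ σ₀) m else 1 := by
      funext σ
      split_ifs with h5
      · rw [one_smul, one_smul, h5, Nm_eq]
      · rw [one_smul, zero_smul, zero_vecMulVec, add_zero]
    rw [h4] at h3
    exact h3
  · rw [ee_dot, ee_dot, nv_nv _ hm']

theorem diag_conj {θ : ℂ} (hθ : θ ≠ 0) :
    Matrix.diagonal (fun i : Fin n => θ⁻¹ ^ (i : ℕ)) * Matrix.diagonal (fun i : Fin n => θ ^ (i : ℕ)) = 1 := by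
  rw [Matrix.diagonal_mul_diagonal, ← Matrix.diagonal_one]
  congr 1
  funext i
  rw [← mul_pow, inv_mul_cancel₀ hθ, one_pow]

theorem conj_wv (μ : ℝ) (m : Fin n) :
    Matrix.diagonal (fun i : Fin n => tht μ ^ (i : ℕ)) * (1 + vecMulVec (wv ((tht μ) ^ 2) m) (ee m)) *
      Matrix.diagonal (fun i : Fin n => (tht μ)⁻¹ ^ (i : ℕ)) = 1 + Nm μ m := by
  have h1 : Matrix.diagonal (fun i : Fin n => tht μ ^ (i : ℕ)) * Matrix.diagonal (fun i : Fin n => (tht μ)⁻¹ ^ (i : ℕ)) = 1 :=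
    mul_eq_one_comm.1 (diag_conj (tht_ne μ))
  rw [mul_add, add_mul, mul_one, h1]
  congr 1
  ext i j
  rw [Matrix.mul_diagonal, Matrix.diagonal_mul, Nm, vecMulVec_apply, vecMulVec_apply]
  unfold ee
  by_cases h : j = m
  · subst h
    rw [Pi.single_eq_same, zpow_sub₀ (tht_ne μ), zpow_natCast, zpow_natCast]
    rw [inv_pow]
    field_simp
  · rw [Pi.single_eq_of_ne h, mul_zero, mul_zero, zero_mul, mul_zero]

/-- the transvections -/
theorem PP_Gs (hn : 2 ≤ n) {G : Submonoid (Fin s → Matrix (Fin n) (Fin n) ℂ)} (hcl : QCl G) {μ : Fin s → ℝ}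
    (h0 : ∀ σ, 0 < μ σ) (h1 : ∀ σ, μ σ < 1) (hμ : Function.Injective μ) (hμ' : ∀ σ τ, σ ≠ τ → μ σ + μ τ ≠ 1)
    (h2 : 3 ≤ n → ∀ σ, 2 * μ σ ≠ 1) (h3 : 3 ≤ n → ∀ σ, ∀ k : ℤ, ((n - 1 : ℕ) : ℝ) * μ σ ≠ k)
    (hG : ∀ m : Fin n, (fun σ => 1 + Nm (μ σ) m) ∈ G) (σ₀ : Fin s) (i k : Fin n) (hik : i ≠ k) :
    PP (Gs G σ₀ (Matrix.diagonal (fun i : Fin n => tht (μ σ₀) ^ (i : ℕ)))
      (Matrix.diagonal (fun i : Fin n => (tht (μ σ₀))⁻¹ ^ (i : ℕ))) (diag_conj (tht_ne _))) (ee i) (ee k) := by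
  have hcl' := lcl_Gs hcl σ₀ (diag_conj (n := n) (tht_ne (μ σ₀)))
  have hq0 : (tht (μ σ₀)) ^ 2 ≠ 0 := pow_ne_zero _ (tht_ne _)
  have hq1 := q_ne_one (h0 σ₀) (h1 σ₀)
  have hmem : ∀ m : Fin n, 1 + vecMulVec (wv ((tht (μ σ₀)) ^ 2) m) (ee m) ∈
      Gs G σ₀ (Matrix.diagonal (fun i : Fin n => tht (μ σ₀) ^ (i : ℕ)))
        (Matrix.diagonal (fun i : Fin n => (tht (μ σ₀))⁻¹ ^ (i : ℕ))) (diag_conj (tht_ne _)) := by
    intro m
    rw [mem_Gs, conj_wv]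
    exact single_mem hn hcl h0 h1 hμ hμ' hG σ₀ m
  rcases Nat.lt_or_ge n 3 with h | h
  · have hn2 : n = 2 := by omega
    subst hn2
    have h5 := S1 hcl' (by rw [ee_dot, wv_self]) (hmem k)
    have h6 : ee i = (wv ((tht (μ σ₀)) ^ 2) k i)⁻¹ • wv ((tht (μ σ₀)) ^ 2) k := by
      funext l
      rw [Pi.smul_apply, smul_eq_mul]
      unfold ee
      by_cases hl : l = i
      · rw [hl, Pi.single_eq_same, inv_mul_cancel₀ (wv_ne hq0 hq1 hik.symm)]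
      · have : l = k := by
          have := l.2
          have := i.2
          have := k.2
          omega
        rw [Pi.single_eq_of_ne hl, this, wv_self, mul_zero]
    rw [h6]
    exact h5.smul _
  · exact gen h hcl' hq0 hq1 (q_ne_neg_one (h0 σ₀) (h1 σ₀) (h2 h σ₀)) (q_pow_ne_one (h3 h σ₀)) hmem i k hik

theorem Gs_all (hn : 2 ≤ n) {G : Submonoid (Fin s → Matrix (Fin n) (Fin n) ℂ)} (hcl : QCl G) {μ : Fin s → ℝ}
    (h0 : ∀ σ, 0 < μ σ) (h1 : ∀ σ, μ σ < 1) (hμ : Function.Injective μ) (hμ' : ∀ σ τ, σ ≠ τ → μ σ + μ τ ≠ 1)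
    (h2 : 3 ≤ n → ∀ σ, 2 * μ σ ≠ 1) (h3 : 3 ≤ n → ∀ σ, ∀ k : ℤ, ((n - 1 : ℕ) : ℝ) * μ σ ≠ k)
    (hG : ∀ m : Fin n, (fun σ => 1 + Nm (μ σ) m) ∈ G) (σ₀ : Fin s) (g : SpecialLinearGroup (Fin n) ℂ) :
    g.1 ∈ Gs G σ₀ (Matrix.diagonal (fun i : Fin n => tht (μ σ₀) ^ (i : ℕ)))
      (Matrix.diagonal (fun i : Fin n => (tht (μ σ₀))⁻¹ ^ (i : ℕ))) (diag_conj (tht_ne _)) := by
  have : Nontrivial (Fin n) := Fin.nontrivial_iff_two_le.2 hn
  refine Pool.Agent.H463R3.PSLn.transvection_induction (fun g => g.1 ∈ Gs G σ₀ _ _ _) (fun i j hij c => ?_) (fun A B hA hB => ?_) g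
  · have h5 := (PP_Gs hn hcl h0 h1 hμ hμ' h2 h3 hG σ₀ i j hij).2 c
    have h6 : (SpecialLinearGroup.transvection hij c : SpecialLinearGroup (Fin n) ℂ).1 = 1 + c • vecMulVec (ee i) (ee j) := by
      rw [SpecialLinearGroup.transvection_coe]
      congr 1
      ext k l
      unfold ee
      rw [Matrix.smul_apply, vecMulVec_apply, Matrix.single_apply, Pi.single_apply, Pi.single_apply, smul_eq_mul]
      by_cases hk : i = k
      · by_cases hl : j = l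
        · simp [hk, hl]
        · simp [hl, Ne.symm hl]
      · simp [hk, Ne.symm hk]
    rw [h6]
    exact h5
  · have h5 := Submonoid.mul_mem _ hA hB
    exact h5

/-- everything preserves the relations -/
theorem GR_all (hn : 2 ≤ n) {G : Submonoid (Fin s → Matrix (Fin n) (Fin n) ℂ)} (hcl : QCl G) {μ : Fin s → ℝ}
    (h0 : ∀ σ, 0 < μ σ) (h1 : ∀ σ, μ σ < 1) (hμ : Function.Injective μ) (hμ' : ∀ σ τ, σ ≠ τ → μ σ + μ τ ≠ 1)
    (h2 : 3 ≤ n → ∀ σ, 2 * μ σ ≠ 1) (h3 : 3 ≤ n → ∀ σ, ∀ k : ℤ, ((n - 1 : ℕ) : ℝ) * μ σ ≠ k)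
    (hG : ∀ m : Fin n, (fun σ => 1 + Nm (μ σ) m) ∈ G) (g : Fin s → SpecialLinearGroup (Fin n) ℂ) :
    (fun σ => (g σ).1) ∈ G := by
  have h4 : ∀ σ₀ : Fin s, ∀ g : SpecialLinearGroup (Fin n) ℂ, (fun σ => if σ = σ₀ then g.1 else 1) ∈ G := by
    intro σ₀ g
    have hd : ∀ θ : ℂ, θ ≠ 0 → (Matrix.diagonal (fun i : Fin n => θ⁻¹ ^ (i : ℕ))).det *
        (Matrix.diagonal (fun i : Fin n => θ ^ (i : ℕ))).det = 1 := by
      intro θ hθ
      rw [← Matrix.det_mul, diag_conj hθ, Matrix.det_one]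
    have h5 := Gs_all hn hcl h0 h1 hμ hμ' h2 h3 hG σ₀ ⟨Matrix.diagonal (fun i : Fin n => (tht (μ σ₀))⁻¹ ^ (i : ℕ)) * g.1 *
      Matrix.diagonal (fun i : Fin n => (tht (μ σ₀)) ^ (i : ℕ)), by
        rw [Matrix.det_mul, Matrix.det_mul, g.2, mul_one, hd _ (tht_ne _)]⟩
    rw [mem_Gs] at h5
    have h6 : Matrix.diagonal (fun i : Fin n => tht (μ σ₀) ^ (i : ℕ)) * Matrix.diagonal (fun i : Fin n => (tht (μ σ₀))⁻¹ ^ (i : ℕ)) = 1 :=
      mul_eq_one_comm.1 (diag_conj (tht_ne _))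
    have h7 : Matrix.diagonal (fun i : Fin n => tht (μ σ₀) ^ (i : ℕ)) *
        (Matrix.diagonal (fun i : Fin n => (tht (μ σ₀))⁻¹ ^ (i : ℕ)) * g.1 * Matrix.diagonal (fun i : Fin n => (tht (μ σ₀)) ^ (i : ℕ))) *
          Matrix.diagonal (fun i : Fin n => (tht (μ σ₀))⁻¹ ^ (i : ℕ)) = g.1 := by
      rw [← Matrix.mul_assoc, ← Matrix.mul_assoc, h6, Matrix.one_mul, Matrix.mul_assoc, h6, Matrix.mul_one]
    simp only [h7] at h5
    exact h5
  have h5 : ∀ S : Finset (Fin s), (fun σ => if σ ∈ S then (g σ).1 else 1) ∈ G := by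
    intro S
    induction S using Finset.induction_on with
    | empty =>
      simp only [Finset.notMem_empty, if_false]
      exact G.one_mem
    | insert a S ha ih =>
      have h6 := G.mul_mem (h4 a (g a)) ih
      have h7 : (fun σ => if σ = a then (g a).1 else 1) * (fun σ => if σ ∈ S then (g σ).1 else 1) =
          fun σ => if σ ∈ insert a S then (g σ).1 else (1 : Matrix (Fin n) (Fin n) ℂ) := by
        funext σ
        rw [Pi.mul_apply]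
        by_cases h8 : σ = a
        · subst h8
          rw [if_pos rfl, if_neg ha, if_pos (Finset.mem_insert_self _ _), mul_one]
        · rw [if_neg h8, one_mul]
          simp only [Finset.mem_insert, h8, false_or]
      rw [h7] at h6
      exact h6
  have h6 := h5 Finset.univ
  simpa only [Finset.mem_univ, if_true] using h6

end Pool.Agent.K1H12.SE
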