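import Mathlib

/-!
# Superelliptic periods: integrability of products of powers
-/

set_option autoImplicit false

namespace Pool.Agent.K1H12.SE

open Set MeasureTheory

theorem int_abs0 {r : ℝ} (hr : -1 < r) (v : ℝ) : IntervalIntegrable (fun x : ℝ => |x| ^ r) volume 0 v := by
  have h1 : ∀ v : ℝ, 0 ≤ v → IntervalIntegrable (fun x : ℝ => |x| ^ r) volume 0 v := by
    intro v hv
    refine (intervalIntegral.intervalIntegrable_rpow' hr (a := 0) (b := v)).congr ?_
    intro x hx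
    rw [uIoc_of_le hv] at hx
    simp only
    rw [abs_of_pos hx.1]
  rcases le_total 0 v with hv | hv
  · exact h1 v hv
  · have h2 := (h1 (-v) (by linarith)).comp_mul_left (c := -1)
    simp only [neg_mul, one_mul, abs_neg] at h2
    simpa using h2

theorem int_abs {r : ℝ} (hr : -1 < r) (c u v : ℝ) : IntervalIntegrable (fun x : ℝ => |x - c| ^ r) volume u v := by
  have h1 : IntervalIntegrable (fun x : ℝ => |x| ^ r) volume (u - c) (v - c) := (int_abs0 hr _).symm.trans (int_abs0 hr _)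
  have h2 := h1.comp_sub_right c
  simpa using h2

theorem two_bound {c c' r r' : ℝ} (hc : c ≠ c') (hr : r ≤ 0) (hr' : r' ≤ 0) : ∃ D : ℝ, 0 ≤ D ∧ ∀ x : ℝ,
    |x - c| ^ r * |x - c'| ^ r' ≤ D * (|x - c| ^ r + |x - c'| ^ r') := by
  set δ := |c - c'| / 2 with hδ
  have hδ0 : 0 < δ := by
    have := abs_pos.2 (sub_ne_zero.2 hc)
    positivity
  refine ⟨δ ^ r + δ ^ r', by positivity, fun x => ?_⟩
  have hA : 0 ≤ |x - c| ^ r := Real.rpow_nonneg (abs_nonneg _) _
  have hB : 0 ≤ |x - c'| ^ r' := Real.rpow_nonneg (abs_nonneg _) _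
  have h1 : 0 ≤ δ ^ r := Real.rpow_nonneg hδ0.le _
  have h2 : 0 ≤ δ ^ r' := Real.rpow_nonneg hδ0.le _
  by_cases h : δ ≤ |x - c|
  · have h3 : |x - c| ^ r ≤ δ ^ r := Real.rpow_le_rpow_of_nonpos hδ0 h hr
    nlinarith
  · have h4 : δ ≤ |x - c'| := by
      have h5 : |c - c'| ≤ |x - c| + |x - c'| := by
        have h6 := abs_sub_le c x c'
        rw [abs_sub_comm c x] at h6
        exact h6
      have h6 : |c - c'| = 2 * δ := by rw [hδ]; ring
      rw [not_le] at h
      linarith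
    have h3 : |x - c'| ^ r' ≤ δ ^ r' := Real.rpow_le_rpow_of_nonpos hδ0 h4 hr'
    nlinarith

theorem prod_bound (S : Finset ℕ) (c r : ℕ → ℝ) (hc : ∀ k ∈ S, ∀ l ∈ S, k ≠ l → c k ≠ c l)
    (hr : ∀ k ∈ S, r k ≤ 0) : ∃ C : ℝ, 0 ≤ C ∧ ∀ x : ℝ, ∏ k ∈ S, |x - c k| ^ (r k) ≤
      C * (1 + ∑ k ∈ S, |x - c k| ^ (r k)) := by
  classical
  induction S using Finset.induction_on with
  | empty => exact ⟨1, by norm_num, fun x => by simp⟩
  | insert a S ha ih =>
    obtain ⟨C, hC, h⟩ := ih (fun k hk l hl => hc k (Finset.mem_insert_of_mem hk) l (Finset.mem_insert_of_mem hl))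
      (fun k hk => hr k (Finset.mem_insert_of_mem hk))
    have h2 : ∀ k ∈ S, ∃ D : ℝ, 0 ≤ D ∧ ∀ x : ℝ,
        |x - c a| ^ (r a) * |x - c k| ^ (r k) ≤ D * (|x - c a| ^ (r a) + |x - c k| ^ (r k)) := fun k hk =>
      two_bound (hc a (Finset.mem_insert_self _ _) k (Finset.mem_insert_of_mem hk) (fun h => ha (h ▸ hk)))
        (hr a (Finset.mem_insert_self _ _)) (hr k (Finset.mem_insert_of_mem hk))
    choose! D hD0 hD using h2
    refine ⟨C * (1 + ∑ k ∈ S, D k), mul_nonneg hC (add_nonneg zero_le_one (Finset.sum_nonneg fun k hk => hD0 k hk)), fun x => ?_⟩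
    rw [Finset.prod_insert ha, Finset.sum_insert ha]
    have hA : 0 ≤ |x - c a| ^ (r a) := Real.rpow_nonneg (abs_nonneg _) _
    have hB : ∀ k, 0 ≤ |x - c k| ^ (r k) := fun k => Real.rpow_nonneg (abs_nonneg _) _
    have hS : 0 ≤ ∑ k ∈ S, |x - c k| ^ (r k) := Finset.sum_nonneg fun k _ => hB k
    have h3 : |x - c a| ^ (r a) * ∑ k ∈ S, |x - c k| ^ (r k) ≤
        (∑ k ∈ S, D k) * (|x - c a| ^ (r a) + ∑ k ∈ S, |x - c k| ^ (r k)) := by
      rw [Finset.mul_sum, Finset.sum_mul]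
      refine Finset.sum_le_sum fun k hk => (hD k hk x).trans ?_
      refine mul_le_mul_of_nonneg_left ?_ (hD0 k hk)
      have := Finset.single_le_sum (f := fun k => |x - c k| ^ (r k)) (fun k _ => hB k) hk
      linarith
    have hD' : 0 ≤ ∑ k ∈ S, D k := Finset.sum_nonneg fun k hk => hD0 k hk
    calc |x - c a| ^ (r a) * ∏ k ∈ S, |x - c k| ^ (r k)
        ≤ |x - c a| ^ (r a) * (C * (1 + ∑ k ∈ S, |x - c k| ^ (r k))) := mul_le_mul_of_nonneg_left (h x) hA
      _ = C * (|x - c a| ^ (r a) + |x - c a| ^ (r a) * ∑ k ∈ S, |x - c k| ^ (r k)) := by ring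
      _ ≤ C * (|x - c a| ^ (r a) + (∑ k ∈ S, D k) * (|x - c a| ^ (r a) + ∑ k ∈ S, |x - c k| ^ (r k))) :=
          mul_le_mul_of_nonneg_left (by linarith) hC
      _ ≤ C * ((1 + ∑ k ∈ S, D k) * (1 + (|x - c a| ^ (r a) + ∑ k ∈ S, |x - c k| ^ (r k)))) := by
          refine mul_le_mul_of_nonneg_left ?_ hC
          nlinarith
      _ = _ := by ring

theorem measurable_prodpow (S : Finset ℕ) (c r : ℕ → ℝ) : Measurable fun x : ℝ => ∏ k ∈ S, |x - c k| ^ (r k) := by
  refine Finset.measurable_fun_prod S fun k _ => ?_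
  exact ((measurable_id.sub_const _).abs).pow_const _

theorem int_prod (S : Finset ℕ) (c r : ℕ → ℝ) (hc : ∀ k ∈ S, ∀ l ∈ S, k ≠ l → c k ≠ c l)
    (hr : ∀ k ∈ S, -1 < r k ∧ r k ≤ 0) (u v : ℝ) :
    IntervalIntegrable (fun x : ℝ => ∏ k ∈ S, |x - c k| ^ (r k)) volume u v := by
  obtain ⟨C, hC, h⟩ := prod_bound S c r hc fun k hk => (hr k hk).2
  have h1 : IntervalIntegrable (fun x : ℝ => C * (1 + ∑ k ∈ S, |x - c k| ^ (r k))) volume u v := by
    refine IntervalIntegrable.const_mul ?_ C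
    refine intervalIntegrable_const.add ?_
    have h2 := IntervalIntegrable.sum S (f := fun k => fun x : ℝ => |x - c k| ^ (r k)) (μ := volume) (a := u) (b := v)
      fun k hk => int_abs (hr k hk).1 (c k) u v
    have h3 : (∑ k ∈ S, fun x : ℝ => |x - c k| ^ (r k)) = fun x : ℝ => ∑ k ∈ S, |x - c k| ^ (r k) := by
      funext x
      simp
    rw [← h3]
    exact h2
  refine h1.mono_fun' (measurable_prodpow S c r).aestronglyMeasurable ?_
  refine Filter.Eventually.of_forall fun x => ?_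
  simp only
  rw [Real.norm_of_nonneg (Finset.prod_nonneg fun k _ => Real.rpow_nonneg (abs_nonneg _) _)]
  exact h x

end Pool.Agent.K1H12.SE
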