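import Pool.Agent.K1H12.SE.Int
import Pool.Agent.K1H12.SE.Form

/-!
# Superelliptic periods: the integrals from a branch point to `t` in the upper half plane, and their differential equation
-/

set_option autoImplicit false

namespace Pool.Agent.K1H12.SE

open Set MeasureTheory Filter Topology Finset

/-- one factor -/
noncomputable def fac (a : ℕ → ℝ) (μ : ℝ) (i k : ℕ) (x : ℂ) : ℂ :=
  if k < i then (x - a k) ^ (-(μ : ℂ)) else ((a k : ℂ) - x) ^ (-(μ : ℂ))

/-- the product of the factors of index `≠ i` -/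
noncomputable def phi (n : ℕ) (a : ℕ → ℝ) (μ : ℝ) (i : ℕ) (x : ℂ) : ℂ := ∏ k ∈ (Finset.range n).erase i, fac a μ i k x

/-- the logarithmic derivative -/
noncomputable def Lg (n : ℕ) (a : ℕ → ℝ) (i : ℕ) (x : ℂ) : ℂ := ∑ k ∈ (Finset.range n).erase i, 1 / (x - a k)

/-- the polynomial without the factor `i` -/
noncomputable def gi (n : ℕ) (a : ℕ → ℝ) (i : ℕ) (x : ℂ) : ℂ := ∏ k ∈ (Finset.range n).erase i, (x - a k)

/-- the factors are regular at `x` -/
def InD (n : ℕ) (a : ℕ → ℝ) (i : ℕ) (x : ℂ) : Prop :=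
  ∀ k ∈ (Finset.range n).erase i, (k < i → x - a k ∈ Complex.slitPlane) ∧ (¬ k < i → (a k : ℂ) - x ∈ Complex.slitPlane)

variable {n : ℕ} {a : ℕ → ℝ} {μ : ℝ} {i : ℕ}

theorem InD.ne {x : ℂ} (h : InD n a i x) {k : ℕ} (hk : k ∈ (Finset.range n).erase i) : x - a k ≠ 0 := by
  intro h0
  by_cases hki : k < i
  · exact Complex.slitPlane_ne_zero ((h k hk).1 hki) h0
  · apply Complex.slitPlane_ne_zero ((h k hk).2 hki)
    linear_combination -h0

theorem hasDerivAt_fac {x : ℂ} (h : InD n a i x) {k : ℕ} (hk : k ∈ (Finset.range n).erase i) :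
    HasDerivAt (fac a μ i k) (fac a μ i k x * (-μ / (x - a k))) x := by
  have hne := h.ne hk
  by_cases hki : k < i
  · have h1 : fac a μ i k = fun x : ℂ => (x - a k) ^ (-(μ : ℂ)) := by
      funext y
      simp only [fac, if_pos hki]
    rw [h1]
    have h2 := ((hasDerivAt_id x).sub_const (a k : ℂ)).cpow_const (c := -(μ : ℂ)) ((h k hk).1 hki)
    refine h2.congr_deriv ?_
    simp only [id]
    rw [Complex.cpow_sub _ _ hne, Complex.cpow_one]
    ring
  · have h1 : fac a μ i k = fun x : ℂ => ((a k : ℂ) - x) ^ (-(μ : ℂ)) := by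
      funext y
      simp only [fac, if_neg hki]
    rw [h1]
    have h2 := ((hasDerivAt_id x).const_sub (a k : ℂ)).cpow_const (c := -(μ : ℂ)) ((h k hk).2 hki)
    refine h2.congr_deriv ?_
    simp only [id]
    have hne' : (a k : ℂ) - x ≠ 0 := fun h0 => hne (by linear_combination -h0)
    rw [Complex.cpow_sub _ _ hne', Complex.cpow_one]
    field_simp
    ring

theorem hasDerivAt_phi {x : ℂ} (h : InD n a i x) :
    HasDerivAt (phi n a μ i) (phi n a μ i x * (-μ * Lg n a i x)) x := by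
  have h1 := HasDerivAt.fun_finsetProd (u := (Finset.range n).erase i) (f := fun k => fac a μ i k) (x := x)
    (f' := fun k => fac a μ i k x * (-μ / (x - a k))) fun k hk => hasDerivAt_fac h hk
  refine h1.congr_deriv ?_
  unfold Lg
  rw [Finset.mul_sum, Finset.mul_sum]
  refine Finset.sum_congr rfl fun k hk => ?_
  rw [smul_eq_mul]
  have h2 : phi n a μ i x = (∏ j ∈ ((Finset.range n).erase i).erase k, fac a μ i j x) * fac a μ i k x := by
    unfold phi
    rw [Finset.prod_erase_mul _ _ hk]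
  rw [h2]
  ring

theorem hasDerivAt_gi {x : ℂ} (h : ∀ k ∈ (Finset.range n).erase i, x - a k ≠ 0) :
    HasDerivAt (gi n a i) (gi n a i x * Lg n a i x) x := by
  have h1 := HasDerivAt.fun_finsetProd (u := (Finset.range n).erase i) (f := fun k (y : ℂ) => y - a k) (x := x)
    (f' := fun _ => 1) fun k _ => (hasDerivAt_id x).sub_const (a k : ℂ)
  refine h1.congr_deriv ?_
  unfold Lg
  rw [Finset.mul_sum]
  refine Finset.sum_congr rfl fun k hk => ?_
  rw [smul_eq_mul]
  have h2 : gi n a i x = (∏ j ∈ ((Finset.range n).erase i).erase k, (x - a j)) * (x - a k) := by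
    unfold gi
    rw [Finset.prod_erase_mul _ _ hk]
  rw [h2]
  have h3 := h k hk
  field_simp

/-- the path -/
noncomputable def xp (a : ℕ → ℝ) (i : ℕ) (t : ℂ) (s : ℝ) : ℂ := a i + s * (t - a i)

theorem InD_path (ha : StrictMono a) {t : ℂ} (ht : 0 < t.im) {s : ℝ} (hs : 0 ≤ s) : InD n a i (xp a i t s) := by
  intro k hk
  rw [Finset.mem_erase] at hk
  have him : (xp a i t s).im = s * t.im := by
    unfold xp
    simp
  rcases hs.eq_or_lt with rfl | hs
  · have h0 : xp a i t 0 = a i := by simp [xp]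
    rw [h0]
    refine ⟨fun h => ?_, fun h => ?_⟩
    · rw [← Complex.ofReal_sub, Complex.ofReal_mem_slitPlane]
      linarith [ha h]
    · rw [← Complex.ofReal_sub, Complex.ofReal_mem_slitPlane]
      have : i < k := by omega
      linarith [ha this]
  · have h1 : 0 < (xp a i t s).im := by rw [him]; positivity
    refine ⟨fun _ => ?_, fun _ => ?_⟩
    · rw [Complex.mem_slitPlane_iff]
      right
      simp only [Complex.sub_im, Complex.ofReal_im, sub_zero]
      exact h1.ne'
    · rw [Complex.mem_slitPlane_iff]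
      right
      simp only [Complex.sub_im, Complex.ofReal_im, zero_sub]
      exact (neg_neg_of_pos h1).ne

/-- the integrand -/
noncomputable def Hf (n : ℕ) (a : ℕ → ℝ) (μ : ℝ) (i j : ℕ) (x : ℂ) : ℂ := x ^ j * phi n a μ i x

/-- its derivative -/
noncomputable def dHf (n : ℕ) (a : ℕ → ℝ) (μ : ℝ) (i j : ℕ) (x : ℂ) : ℂ :=
  (j * x ^ (j - 1) - μ * x ^ j * Lg n a i x) * phi n a μ i x

theorem hasDerivAt_Hf {x : ℂ} (h : InD n a i x) (j : ℕ) : HasDerivAt (Hf n a μ i j) (dHf n a μ i j x) x := by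
  have h1 := (hasDerivAt_pow j x).mul (hasDerivAt_phi (μ := μ) h)
  refine h1.congr_deriv ?_
  unfold dHf
  ring

theorem continuousAt_dHf {x : ℂ} (h : InD n a i x) (j : ℕ) : ContinuousAt (dHf n a μ i j) x := by
  unfold dHf
  refine ContinuousAt.mul ?_ (hasDerivAt_phi h).continuousAt
  have h1 : ContinuousAt (Lg n a i) x := by
    unfold Lg
    refine tendsto_finsetSum _ fun k hk => ?_
    exact ContinuousAt.div continuousAt_const (continuousAt_id.sub continuousAt_const) (h.ne hk)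
  fun_prop

/-- the weight -/
noncomputable def wt (μ : ℝ) (s : ℝ) : ℝ := s ^ (-μ) * (1 - s) ^ (μ - 1)

theorem wt_nonneg {s : ℝ} (h0 : 0 ≤ s) (h1 : s ≤ 1) : 0 ≤ wt μ s :=
  mul_nonneg (Real.rpow_nonneg h0 _) (Real.rpow_nonneg (by linarith) _)

theorem measurable_wt (μ : ℝ) : Measurable (wt μ) := by
  unfold wt
  fun_prop

theorem wt_int (h0 : 0 < μ) (h1 : μ < 1) : IntervalIntegrable (wt μ) volume 0 1 := by
  have h2 := int_prod (Finset.range 2) (fun k => (k : ℝ)) (fun k => if k = 0 then -μ else μ - 1)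
    (fun k _ l _ h => by simpa using h) (fun k _ => by
      split_ifs <;> constructor <;> linarith) 0 1
  refine h2.congr ?_
  intro s hs
  rw [uIoc_of_le zero_le_one] at hs
  simp only [Finset.prod_range_succ, Finset.prod_range_zero, one_mul, if_true, Nat.cast_zero, sub_zero, Nat.cast_one,
    one_ne_zero, if_false]
  unfold wt
  rw [abs_of_pos hs.1, abs_of_nonpos (by linarith [hs.2]), neg_sub]

/-- the integral from `a i` to `t` -/
noncomputable def Jf (n : ℕ) (a : ℕ → ℝ) (μ : ℝ) (i j : ℕ) (t : ℂ) : ℂ :=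
  ∫ s in (0 : ℝ)..1, Hf n a μ i j (xp a i t s) * (wt μ s : ℂ)

theorem continuous_xp : Continuous fun p : ℂ × ℝ => xp a i p.1 p.2 := by
  unfold xp
  fun_prop

theorem mul_wt_int (h0 : 0 < μ) (h1 : μ < 1) {F : ℝ → ℂ} (hF : ContinuousOn F (Set.Icc 0 1)) :
    IntervalIntegrable (fun s => F s * (wt μ s : ℂ)) volume 0 1 := by
  have h2 : IntervalIntegrable (fun s => ((wt μ s : ℝ) : ℂ)) volume 0 1 :=
    ⟨(wt_int h0 h1).1.ofReal, (wt_int h0 h1).2.ofReal⟩
  refine IntervalIntegrable.continuousOn_mul h2 ?_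
  rwa [Set.uIcc_of_le zero_le_one]

theorem contOn_path (ha : StrictMono a) {t : ℂ} (ht : 0 < t.im) {F : ℂ → ℂ} (hF : ∀ x, InD n a i x → ContinuousAt F x) :
    ContinuousOn (fun s : ℝ => F (xp a i t s)) (Set.Icc 0 1) := by
  intro s hs
  have h1 : ContinuousAt (fun s : ℝ => xp a i t s) s := by
    unfold xp
    fun_prop
  exact (ContinuousAt.comp (f := fun s : ℝ => xp a i t s) (hF _ (InD_path ha ht hs.1)) h1).continuousWithinAt

theorem hasDerivAt_Jf (ha : StrictMono a) (h0 : 0 < μ) (h1 : μ < 1) (j : ℕ) {t : ℂ} (ht : 0 < t.im) :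
    HasDerivAt (Jf n a μ i j) (∫ s in (0 : ℝ)..1, (s * dHf n a μ i j (xp a i t s)) * (wt μ s : ℂ)) t := by
  obtain ⟨ε, hε, hball⟩ : ∃ ε > 0, Metric.closedBall t ε ⊆ {z : ℂ | 0 < z.im} := by
    have h2 : {z : ℂ | 0 < z.im} ∈ 𝓝 t := (isOpen_lt continuous_const Complex.continuous_im).mem_nhds ht
    exact Metric.nhds_basis_closedBall.mem_iff.1 h2
  -- a bound
  obtain ⟨C, hC⟩ : ∃ C : ℝ, ∀ p ∈ (Metric.closedBall t ε) ×ˢ (Set.Icc (0 : ℝ) 1),
      ‖(p.2 : ℂ) * dHf n a μ i j (xp a i p.1 p.2)‖ ≤ C := by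
    refine ((isCompact_closedBall t ε).prod isCompact_Icc).exists_bound_of_continuousOn ?_
    intro p hp
    refine ContinuousAt.continuousWithinAt ?_
    refine ContinuousAt.mul (by fun_prop) ?_
    exact ContinuousAt.comp (f := fun p : ℂ × ℝ => xp a i p.1 p.2)
      (continuousAt_dHf (InD_path ha (hball hp.1) hp.2.1) j) continuous_xp.continuousAt
  have key := intervalIntegral.hasDerivAt_integral_of_dominated_loc_of_deriv_le (μ := volume) (a := (0 : ℝ)) (b := 1)
    (F := fun (t : ℂ) (s : ℝ) => Hf n a μ i j (xp a i t s) * (wt μ s : ℂ))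
    (F' := fun (t : ℂ) (s : ℝ) => ((s : ℂ) * dHf n a μ i j (xp a i t s)) * (wt μ s : ℂ))
    (x₀ := t) (s := Metric.closedBall t ε) (bound := fun s => C * wt μ s) (Metric.closedBall_mem_nhds t hε) ?_ ?_ ?_ ?_ ?_ ?_
  · exact key.2
  · filter_upwards [(isOpen_lt continuous_const Complex.continuous_im).mem_nhds ht] with z hz
    exact (mul_wt_int h0 h1 (contOn_path ha hz fun x hx => (hasDerivAt_Hf hx j).continuousAt)).def'.1
  · exact mul_wt_int h0 h1 (contOn_path ha ht fun x hx => (hasDerivAt_Hf hx j).continuousAt)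
  · refine (mul_wt_int h0 h1 (F := fun s => (s : ℂ) * dHf n a μ i j (xp a i t s)) ?_).def'.1
    exact ContinuousOn.mul (by fun_prop) (contOn_path ha ht fun x hx => continuousAt_dHf hx j)
  · refine Eventually.of_forall fun s hs z hz => ?_
    rw [uIoc_of_le zero_le_one] at hs
    rw [norm_mul, Complex.norm_real, Real.norm_of_nonneg (wt_nonneg hs.1.le hs.2)]
    exact mul_le_mul_of_nonneg_right (hC (z, s) ⟨hz, hs.1.le, hs.2⟩) (wt_nonneg hs.1.le hs.2)
  · exact (wt_int h0 h1).const_mul C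
  · refine Eventually.of_forall fun s hs z hz => ?_
    rw [uIoc_of_le zero_le_one] at hs
    refine HasDerivAt.mul_const ?_ _
    have h3 : HasDerivAt (fun t : ℂ => xp a i t s) (s : ℂ) z := by
      unfold xp
      have := (((hasDerivAt_id z).sub_const (a i : ℂ)).const_mul (s : ℂ)).const_add (a i : ℂ)
      simpa using this
    have h4 := HasDerivAt.comp z (h₂ := Hf n a μ i j) (hasDerivAt_Hf (InD_path ha (hball hz) hs.1.le) j) h3
    refine h4.congr_deriv ?_
    ring

end Pool.Agent.K1H12.SE
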