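import Pool.Agent.K1H12.SE.Jint

/-!
# Superelliptic periods: boundary values on the real axis
-/

set_option autoImplicit false

namespace Pool.Agent.K1H12.SE

open MeasureTheory Filter Topology Finset

/-- the phase -/
noncomputable def tht (μ : ℝ) : ℂ := Complex.exp (-(Real.pi * μ * Complex.I))

theorem tht_ne (μ : ℝ) : tht μ ≠ 0 := Complex.exp_ne_zero _

theorem conj_tht (μ : ℝ) : (starRingEnd ℂ) (tht μ) = (tht μ)⁻¹ := by
  unfold tht
  rw [← Complex.exp_conj, ← Complex.exp_neg]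
  congr 1
  simp

theorem cpow_real_pos {r μ : ℝ} (hr : 0 < r) : (r : ℂ) ^ (-(μ : ℂ)) = ((|r| ^ (-μ) : ℝ) : ℂ) := by
  rw [abs_of_pos hr, Complex.ofReal_cpow hr.le]
  push_cast
  rfl

theorem tendsto_path_up (r : ℝ) {s : ℝ} : Tendsto (fun y : ℝ => (r : ℂ) + s * (y * Complex.I)) (𝓝[>] 0) (𝓝 (r : ℂ)) := by
  have h1 : Continuous fun y : ℝ => (r : ℂ) + s * (y * Complex.I) := by fun_prop
  have h2 := (h1.tendsto 0).mono_left (nhdsWithin_le_nhds (s := Set.Ioi 0))
  simpa using h2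

theorem lim_up {r μ : ℝ} (hr : r ≠ 0) {s : ℝ} (hs : 0 < s) :
    Tendsto (fun y : ℝ => ((r : ℂ) + s * (y * Complex.I)) ^ (-(μ : ℂ))) (𝓝[>] 0)
      (𝓝 (((|r| ^ (-μ) : ℝ) : ℂ) * if 0 < r then 1 else tht μ)) := by
  rcases lt_or_gt_of_ne hr with h | h
  · rw [if_neg (by linarith)]
    have h2 := Complex.tendsto_log_nhdsWithin_im_nonneg_of_re_neg_of_im_zero (z := (r : ℂ)) (by simpa using h) (by simp)
    have h3 : Tendsto (fun y : ℝ => (r : ℂ) + s * (y * Complex.I)) (𝓝[>] 0) (𝓝[{z : ℂ | 0 ≤ z.im}] (r : ℂ)) := by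
      refine tendsto_nhdsWithin_iff.2 ⟨tendsto_path_up r, ?_⟩
      filter_upwards [self_mem_nhdsWithin] with y hy
      change 0 ≤ ((r : ℂ) + s * (y * Complex.I)).im
      have : ((r : ℂ) + s * (y * Complex.I)).im = s * y := by simp
      rw [this]
      exact (mul_pos hs hy).le
    have h4 := (Complex.continuous_exp.tendsto _).comp ((h2.comp h3).mul_const (-(μ : ℂ)))
    have h5 : Complex.exp (((Real.log ‖(r : ℂ)‖ : ℝ) + Real.pi * Complex.I) * (-(μ : ℂ))) =
        ((|r| ^ (-μ) : ℝ) : ℂ) * tht μ := by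
      rw [add_mul, Complex.exp_add, Complex.norm_real, Real.norm_eq_abs, Real.rpow_def_of_pos (abs_pos.2 hr)]
      unfold tht
      push_cast
      congr 2
      ring
    rw [h5] at h4
    refine h4.congr' ?_
    filter_upwards [self_mem_nhdsWithin] with y hy
    simp only [Function.comp]
    rw [Complex.cpow_def_of_ne_zero]
    intro h0
    have h6 := congrArg Complex.re h0
    simp at h6
    exact hr h6
  · rw [if_pos h, mul_one, ← cpow_real_pos h]
    have h2 : ContinuousAt (fun z : ℂ => z ^ (-(μ : ℂ))) (r : ℂ) := by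
      refine continuousAt_cpow_const ?_
      simpa using h
    exact h2.tendsto.comp (tendsto_path_up r)

theorem lim_dn {r μ : ℝ} (hr : r ≠ 0) {s : ℝ} (hs : 0 < s) :
    Tendsto (fun y : ℝ => ((r : ℂ) - s * (y * Complex.I)) ^ (-(μ : ℂ))) (𝓝[>] 0)
      (𝓝 (((|r| ^ (-μ) : ℝ) : ℂ) * if 0 < r then 1 else (tht μ)⁻¹)) := by
  have h1 := (Complex.continuous_conj.tendsto _).comp (lim_up (μ := μ) hr hs)
  have h2 : (starRingEnd ℂ) (((|r| ^ (-μ) : ℝ) : ℂ) * if 0 < r then 1 else tht μ) =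
      ((|r| ^ (-μ) : ℝ) : ℂ) * if 0 < r then 1 else (tht μ)⁻¹ := by
    rw [map_mul, Complex.conj_ofReal]
    split_ifs
    · rw [map_one]
    · rw [conj_tht]
  rw [h2] at h1
  refine h1.congr' ?_
  filter_upwards [self_mem_nhdsWithin] with y hy
  simp only [Function.comp]
  have h3 : (r : ℂ) - s * (y * Complex.I) = (starRingEnd ℂ) ((r : ℂ) + s * (y * Complex.I)) := by
    simp [sub_eq_add_neg]
  have h4 : Complex.arg ((r : ℂ) + s * (y * Complex.I)) ≠ Real.pi := by
    intro h5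
    rw [Complex.arg_eq_pi_iff] at h5
    have h6 : ((r : ℂ) + s * (y * Complex.I)).im = s * y := by simp
    rw [h6] at h5
    exact (mul_pos hs hy).ne' h5.2
  rw [h3, Complex.conj_cpow _ _ h4]
  congr 2
  simp

variable {n : ℕ} {a : ℕ → ℝ} {μ : ℝ} {i : ℕ}

/-- phase of a factor -/
noncomputable def pf (a : ℕ → ℝ) (μ : ℝ) (i k : ℕ) (x : ℝ) : ℂ :=
  if k < i then (if a k < x then 1 else tht μ) else (if x < a k then 1 else (tht μ)⁻¹)

theorem xp_real {t s : ℝ} (y : ℝ) : xp a i (t + y * Complex.I) s = ((a i + s * (t - a i) : ℝ) : ℂ) + s * (y * Complex.I) := by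
  unfold xp
  push_cast
  ring

theorem lim_fac {t s : ℝ} (hs : 0 < s) {k : ℕ} (hk : a i + s * (t - a i) ≠ a k) :
    Tendsto (fun y : ℝ => fac a μ i k (xp a i (t + y * Complex.I) s)) (𝓝[>] 0)
      (𝓝 (((|a i + s * (t - a i) - a k| ^ (-μ) : ℝ) : ℂ) * pf a μ i k (a i + s * (t - a i)))) := by
  set x := a i + s * (t - a i) with hx
  have hne : x - a k ≠ 0 := sub_ne_zero.2 hk
  by_cases hki : k < i
  · have h1 := lim_up (μ := μ) hne hs
    unfold fac pf
    simp only [if_pos hki, xp_real]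
    rw [← hx]
    have h2 : (if a k < x then (1 : ℂ) else tht μ) = if 0 < x - a k then 1 else tht μ := by
      simp only [sub_pos]
    rw [h2]
    refine h1.congr fun y => ?_
    congr 1
    push_cast
    ring
  · have hne' : a k - x ≠ 0 := sub_ne_zero.2 (Ne.symm hk)
    have h1 := lim_dn (μ := μ) hne' hs
    unfold fac pf
    simp only [if_neg hki, xp_real]
    rw [← hx]
    have h2 : (if x < a k then (1 : ℂ) else (tht μ)⁻¹) = if 0 < a k - x then 1 else (tht μ)⁻¹ := by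
      simp only [sub_pos]
    rw [h2, abs_sub_comm x (a k)]
    refine h1.congr fun y => ?_
    congr 1
    push_cast
    ring

theorem norm_fac_le {t s y : ℝ} {k : ℕ} (hμ : 0 < μ) (hk : a i + s * (t - a i) ≠ a k) :
    ‖fac a μ i k (xp a i (t + y * Complex.I) s)‖ ≤ |a i + s * (t - a i) - a k| ^ (-μ) := by
  have h0 : ∀ z : ℂ, z.re ≠ 0 → ‖z ^ (-(μ : ℂ))‖ ≤ |z.re| ^ (-μ) := by
    intro z hz
    have h1 : (-(μ : ℂ)) = ((-μ : ℝ) : ℂ) := by push_cast; rfl
    rw [h1, Complex.norm_cpow_real]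
    exact Real.rpow_le_rpow_of_nonpos (abs_pos.2 hz) (Complex.abs_re_le_norm z) (by linarith)
  unfold fac
  rw [xp_real]
  split_ifs
  · have h1 := h0 (((a i + s * (t - a i) : ℝ) : ℂ) + s * (y * Complex.I) - a k) (by
      simp
      intro h
      exact hk (by linarith))
    refine h1.trans (le_of_eq ?_)
    congr 2
    simp
  · have h1 := h0 ((a k : ℂ) - (((a i + s * (t - a i) : ℝ) : ℂ) + s * (y * Complex.I))) (by
      simp
      intro h
      exact hk (by linarith))
    refine h1.trans (le_of_eq ?_)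
    rw [abs_sub_comm (a i + s * (t - a i))]
    congr 2
    simp

end Pool.Agent.K1H12.SE
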