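import Pool.Agent.K1H12.SE.Lim

/-!
# Superelliptic periods: boundary values in terms of real integrals over segments
-/

set_option autoImplicit false

namespace Pool.Agent.K1H12.SE

open MeasureTheory Filter Topology Finset

/-- the real weight -/
noncomputable def Wr (n : ℕ) (a : ℕ → ℝ) (μ t x : ℝ) : ℝ := (∏ k ∈ range n, |x - a k| ^ (-μ)) * |x - t| ^ (μ - 1)

/-- `t` is in the gap number `m` -/
def Gap (n : ℕ) (a : ℕ → ℝ) (m : ℕ) (t : ℝ) : Prop := m ≤ n ∧ (∀ k, k < m → a k < t) ∧ ∀ k, m ≤ k → k < n → t < a k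

/-- the branch points in increasing order -/
noncomputable def er (a : ℕ → ℝ) (m : ℕ) (t : ℝ) (l : ℕ) : ℝ := if l < m then a l else if l = m then t else a (l - 1)

/-- the integral over a segment -/
noncomputable def Rf (n : ℕ) (a : ℕ → ℝ) (μ : ℝ) (m j l : ℕ) (t : ℝ) : ℝ :=
  ∫ x in (er a m t l)..(er a m t (l + 1)), x ^ j * Wr n a μ t x

variable {n : ℕ} {a : ℕ → ℝ} {μ : ℝ} {i m : ℕ} {t : ℝ}

theorem Gap.ne (h : Gap n a m t) {k : ℕ} (hk : k < n) : t ≠ a k := by
  rcases lt_or_ge k m with h1 | h1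
  · exact (h.2.1 k h1).ne'
  · exact (h.2.2 k h1 hk).ne

theorem Wr_int (ha : StrictMono a) (h0 : 0 < μ) (h1 : μ < 1) (ht : ∀ k < n, t ≠ a k) (u v : ℝ) :
    IntervalIntegrable (Wr n a μ t) volume u v := by
  have h2 := int_prod (range (n + 1)) (fun k => if k < n then a k else t) (fun k => if k < n then -μ else μ - 1)
    (fun k hk l hl hkl => by
      rw [mem_range] at hk hl
      split_ifs with h3 h4 h4
      · exact fun h => hkl (ha.injective h)
      · exact (ht k h3).symm
      · exact ht l h4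
      · omega) (fun k _ => by
      split_ifs <;> constructor <;> linarith) u v
  refine h2.congr ?_
  intro x _
  simp only
  rw [Finset.prod_range_succ, if_neg (lt_irrefl n), if_neg (lt_irrefl n)]
  unfold Wr
  congr 1
  refine Finset.prod_congr rfl fun k hk => ?_
  rw [mem_range] at hk
  rw [if_pos hk, if_pos hk]

theorem Wr_nonneg (x : ℝ) : 0 ≤ Wr n a μ t x :=
  mul_nonneg (prod_nonneg fun _ _ => Real.rpow_nonneg (abs_nonneg _) _) (Real.rpow_nonneg (abs_nonneg _) _)

theorem wt_eq (hi : i < n) (ht : t ≠ a i) {s : ℝ} (hs0 : 0 < s) (hs1 : s ≤ 1) :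
    (∏ k ∈ (range n).erase i, |a i + s * (t - a i) - a k| ^ (-μ)) * wt μ s = |t - a i| * Wr n a μ t (a i + s * (t - a i)) := by
  have hh : 0 < |t - a i| := abs_pos.2 (sub_ne_zero.2 ht)
  unfold Wr wt
  rw [← Finset.mul_prod_erase _ _ (mem_range.2 hi)]
  have e1 : |a i + s * (t - a i) - a i| = s * |t - a i| := by
    rw [show a i + s * (t - a i) - a i = s * (t - a i) by ring, abs_mul, abs_of_pos hs0]
  have e2 : |a i + s * (t - a i) - t| = (1 - s) * |t - a i| := by
    rw [show a i + s * (t - a i) - t = -((1 - s) * (t - a i)) by ring, abs_neg, abs_mul, abs_of_nonneg (by linarith)]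
  rw [e1, e2, Real.mul_rpow hs0.le hh.le, Real.mul_rpow (by linarith) hh.le]
  have e3 : |t - a i| ^ (-μ) * |t - a i| ^ (μ - 1) * |t - a i| = 1 := by
    rw [← Real.rpow_add hh, show -μ + (μ - 1) = -1 by ring, Real.rpow_neg_one, inv_mul_cancel₀ hh.ne']
  linear_combination (-(s ^ (-μ) * (1 - s) ^ (μ - 1) * ∏ k ∈ (range n).erase i, |a i + s * (t - a i) - a k| ^ (-μ))) * e3

theorem comp_int {E : Type*} [NormedAddCommGroup E] {g : ℝ → E} {c h : ℝ}
    (hg : IntervalIntegrable g volume c (c + h)) (hh : h ≠ 0) :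
    IntervalIntegrable (fun s : ℝ => g (c + s * h)) volume 0 1 := by
  have h1 := hg.comp_add_left c
  have h2 := h1.comp_mul_right (c := h)
  simpa [hh] using h2

/-- the phase function -/
noncomputable def ph (n : ℕ) (a : ℕ → ℝ) (μ : ℝ) (i : ℕ) (x : ℝ) : ℂ := ∏ k ∈ (range n).erase i, pf a μ i k x

/-- the limit as an integral -/
theorem lim_J1 (ha : StrictMono a) (h0 : 0 < μ) (h1 : μ < 1) (hi : i < n) (ht : ∀ k < n, t ≠ a k) (j : ℕ) :
    Tendsto (fun y : ℝ => Jf n a μ i j (t + y * Complex.I)) (𝓝[>] 0)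
      (𝓝 ((|t - a i| / (t - a i) : ℝ) • ∫ x in (a i)..t, ((x ^ j * Wr n a μ t x : ℝ) : ℂ) * ph n a μ i x)) := by
  have hti := ht i hi
  have hh : t - a i ≠ 0 := sub_ne_zero.2 hti
  set g : ℝ → ℂ := fun x => ((x ^ j * Wr n a μ t x : ℝ) : ℂ) * ph n a μ i x with hg
  have e1 : (|t - a i| / (t - a i) : ℝ) • ∫ x in (a i)..t, g x =
      ∫ s in (0 : ℝ)..1, |t - a i| • g (a i + s * (t - a i)) := by
    rw [intervalIntegral.integral_smul]
    have h2 := intervalIntegral.integral_comp_add_mul (a := 0) (b := 1) g hh (a i)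
    have h3 : (fun x : ℝ => g (a i + x * (t - a i))) = fun x : ℝ => g (a i + (t - a i) * x) := by
      funext x
      rw [mul_comm]
    rw [h3, h2, smul_smul]
    simp only [mul_zero, add_zero, mul_one, add_sub_cancel]
    rfl
  rw [e1]
  have hbd : IntervalIntegrable (fun s : ℝ => (|a i| + |t - a i| + 1) ^ j * (|t - a i| * Wr n a μ t (a i + s * (t - a i))))
      volume 0 1 := by
    refine IntervalIntegrable.const_mul (IntervalIntegrable.const_mul ?_ _) _
    exact comp_int (Wr_int ha h0 h1 ht _ _) hh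
  have hfin : ∀ᵐ s : ℝ, s ∉ ((range n).image fun k => (a k - a i) / (t - a i)) := by
    have h2 := (Finset.finite_toSet ((range n).image fun k => (a k - a i) / (t - a i))).measure_zero volume
    have h3 := measure_eq_zero_iff_ae_notMem.1 h2
    filter_upwards [h3] with s hs
    simpa using hs
  have hne : ∀ s : ℝ, s ∉ ((range n).image fun k => (a k - a i) / (t - a i)) → ∀ k < n, a i + s * (t - a i) ≠ a k := by
    intro s hs k hk h2
    apply hs
    rw [mem_image]
    refine ⟨k, mem_range.2 hk, ?_⟩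
    rw [← h2]
    field_simp
    ring
  refine intervalIntegral.tendsto_integral_filter_of_dominated_convergence
    (fun s : ℝ => (|a i| + |t - a i| + 1) ^ j * (|t - a i| * Wr n a μ t (a i + s * (t - a i)))) ?_ ?_ hbd ?_
  · filter_upwards [self_mem_nhdsWithin] with y hy
    have him : 0 < ((t : ℂ) + y * Complex.I).im := by
      simpa using hy
    exact (mul_wt_int h0 h1 (contOn_path ha him fun x hx => (hasDerivAt_Hf hx j).continuousAt)).def'.1
  · have hy1 : ∀ᶠ y : ℝ in 𝓝[>] 0, y ≤ 1 := by
      have : Set.Iic (1 : ℝ) ∈ 𝓝 (0 : ℝ) := Iic_mem_nhds one_pos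
      exact mem_nhdsWithin_of_mem_nhds this
    filter_upwards [self_mem_nhdsWithin, hy1] with y hy hy1
    filter_upwards [hfin] with s hs hs01
    rw [Set.uIoc_of_le zero_le_one] at hs01
    rw [norm_mul, Complex.norm_real, Real.norm_of_nonneg (wt_nonneg hs01.1.le hs01.2)]
    unfold Hf
    rw [norm_mul, norm_pow, mul_assoc]
    have hy0 : (0 : ℝ) < y := hy
    have h2 : ‖xp a i (t + y * Complex.I) s‖ ≤ |a i| + |t - a i| + 1 := by
      rw [xp_real]
      refine (norm_add_le _ _).trans ?_
      have h3 : ‖((a i + s * (t - a i) : ℝ) : ℂ)‖ ≤ |a i| + |t - a i| := by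
        rw [Complex.norm_real, Real.norm_eq_abs]
        refine (abs_add_le _ _).trans ?_
        rw [abs_mul, abs_of_pos hs01.1]
        have := mul_le_mul_of_nonneg_right hs01.2 (abs_nonneg (t - a i))
        linarith
      have h4 : ‖(s : ℂ) * (y * Complex.I)‖ ≤ 1 := by
        rw [norm_mul, norm_mul, Complex.norm_I, mul_one, Complex.norm_real, Complex.norm_real, Real.norm_of_nonneg hs01.1.le,
          Real.norm_of_nonneg hy0.le]
        nlinarith [hs01.1, hs01.2]
      linarith
    refine mul_le_mul (pow_le_pow_left₀ (norm_nonneg _) h2 j) ?_ (by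
      have := wt_nonneg (μ := μ) hs01.1.le hs01.2
      positivity) (by positivity)
    rw [← wt_eq hi hti hs01.1 hs01.2]
    refine mul_le_mul_of_nonneg_right ?_ (wt_nonneg hs01.1.le hs01.2)
    unfold phi
    rw [norm_prod]
    refine Finset.prod_le_prod (fun k _ => norm_nonneg _) fun k hk => ?_
    rw [mem_erase, mem_range] at hk
    exact norm_fac_le h0 (hne s hs k hk.2)
  · filter_upwards [hfin] with s hs hs01
    rw [Set.uIoc_of_le zero_le_one] at hs01
    have h2 : |t - a i| • g (a i + s * (t - a i)) = (((a i + s * (t - a i) : ℝ) : ℂ) ^ j *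
        ∏ k ∈ (range n).erase i, (((|a i + s * (t - a i) - a k| ^ (-μ) : ℝ) : ℂ) * pf a μ i k (a i + s * (t - a i)))) *
          (wt μ s : ℂ) := by
      rw [hg, Complex.real_smul, prod_mul_distrib]
      have h3 : (((∏ k ∈ (range n).erase i, |a i + s * (t - a i) - a k| ^ (-μ)) * wt μ s : ℝ) : ℂ) =
        ((|t - a i| * Wr n a μ t (a i + s * (t - a i)) : ℝ) : ℂ) :=
        congrArg (fun r : ℝ => (r : ℂ)) (wt_eq (μ := μ) hi hti hs01.1 hs01.2)
      rw [Complex.ofReal_mul, Complex.ofReal_mul, Complex.ofReal_prod] at h3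
      unfold ph
      beta_reduce
      rw [Complex.ofReal_mul (_ ^ _), Complex.ofReal_pow]
      linear_combination (-(((a i + s * (t - a i) : ℝ) : ℂ) ^ j * ∏ k ∈ (range n).erase i, pf a μ i k (a i + s * (t - a i)))) * h3
    rw [h2]
    refine Tendsto.mul_const _ ?_
    refine Tendsto.mul ?_ ?_
    · refine Tendsto.pow ?_ j
      simp only [xp_real]
      exact tendsto_path_up _
    · unfold phi
      refine tendsto_finsetProd _ fun k hk => ?_
      rw [mem_erase, mem_range] at hk
      exact lim_fac hs01.1 (hne s hs k hk.2)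

/-! ### segments -/

theorem er_lt {l : ℕ} (h : l < m) : er a m t l = a l := by simp only [er, if_pos h]

theorem er_eq : er a m t m = t := by simp [er]

theorem er_gt {l : ℕ} (h : m < l) : er a m t l = a (l - 1) := by
  simp only [er, if_neg (by omega : ¬ l < m), if_neg (by omega : ¬ l = m)]

theorem er_step (ha : StrictMono a) (hg : Gap n a m t) {l : ℕ} (hl : l < n) : er a m t l < er a m t (l + 1) := by
  rcases lt_trichotomy l m with h | h | h
  · rw [er_lt h]
    rcases (by omega : l + 1 < m ∨ l + 1 = m) with h' | h'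
    · rw [er_lt h']
      exact ha (Nat.lt_succ_self l)
    · rw [h', er_eq]
      exact hg.2.1 l h
  · subst h
    rw [er_eq, er_gt (by omega), Nat.add_sub_cancel]
    exact hg.2.2 l le_rfl hl
  · rw [er_gt h, er_gt (by omega), Nat.add_sub_cancel]
    exact ha (by omega)

theorem seg_right (ha : StrictMono a) (hg : Gap n a m t) {l k : ℕ} (hl : l < n) (hk : l < k) (hkn : k < n) :
    er a m t (l + 1) ≤ a k := by
  rcases lt_trichotomy (l + 1) m with h | h | h
  · rw [er_lt h]
    exact ha.monotone (by omega)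
  · rw [h, er_eq]
    exact (hg.2.2 k (by omega) hkn).le
  · rw [er_gt h, Nat.add_sub_cancel]
    exact ha.monotone (by omega)

theorem seg_left (ha : StrictMono a) (hg : Gap n a m t) {l k : ℕ} (hk : k < l) : a k ≤ er a m t l := by
  rcases lt_trichotomy l m with h | h | h
  · rw [er_lt h]
    exact ha.monotone (by omega)
  · subst h
    rw [er_eq]
    exact (hg.2.1 k hk).le
  · rw [er_gt h]
    exact ha.monotone (by omega)

/-- the phase on the segments to the right of `a i` -/
theorem ph_right (ha : StrictMono a) (hg : Gap n a m t) {l : ℕ} (hil : i ≤ l) (hlm : l < m) {x : ℝ}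
    (hx : x ∈ Set.Ioo (er a m t l) (er a m t (l + 1))) : ph n a μ i x = (tht μ) ^ ((i : ℤ) - l) := by
  have hln : l < n := lt_of_lt_of_le hlm hg.1
  have h1 : ∀ k ∈ (range n).erase i, pf a μ i k x = if i < k ∧ k ≤ l then (tht μ)⁻¹ else 1 := by
    intro k hk
    rw [mem_erase, mem_range] at hk
    unfold pf
    have hal : er a m t l = a l := er_lt hlm
    by_cases hki : k < i
    · have h2 : a k < x := lt_of_le_of_lt (by rw [← hal] at *; exact seg_left ha hg (by omega)) hx.1
      rw [if_pos hki, if_pos h2, if_neg (by omega)]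
    · rw [if_neg hki]
      by_cases hkl : k ≤ l
      · have h2 : a k < x := lt_of_le_of_lt (by rw [hal]; exact ha.monotone hkl) hx.1
        rw [if_neg (by linarith), if_pos ⟨by omega, hkl⟩]
      · have h2 : x < a k := lt_of_lt_of_le hx.2 (seg_right ha hg hln (by omega) hk.2)
        rw [if_pos h2, if_neg (by omega)]
  unfold ph
  rw [prod_congr rfl h1, ← prod_filter, prod_const]
  have h2 : ((range n).erase i).filter (fun k => i < k ∧ k ≤ l) = Finset.Ioc i l := by
    ext k
    simp only [mem_filter, mem_erase, mem_range, mem_Ioc]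
    omega
  rw [h2, Nat.card_Ioc, ← zpow_natCast, inv_zpow', Nat.cast_sub hil]
  congr 1
  ring

/-- the phase on the segments to the left of `a i` -/
theorem ph_left (ha : StrictMono a) (hg : Gap n a m t) (hi : i < n) {l : ℕ} (hml : m ≤ l) (hli : l ≤ i) {x : ℝ}
    (hx : x ∈ Set.Ioo (er a m t l) (er a m t (l + 1))) : ph n a μ i x = (tht μ) ^ ((i : ℤ) - l) := by
  have hal : er a m t (l + 1) = a l := by rw [er_gt (by omega), Nat.add_sub_cancel]
  have h1 : ∀ k ∈ (range n).erase i, pf a μ i k x = if l ≤ k ∧ k < i then tht μ else 1 := by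
    intro k hk
    rw [mem_erase, mem_range] at hk
    unfold pf
    by_cases hki : k < i
    · rw [if_pos hki]
      by_cases hkl : l ≤ k
      · have h2 : x < a k := lt_of_lt_of_le hx.2 (by rw [hal]; exact ha.monotone hkl)
        rw [if_neg (by linarith), if_pos ⟨hkl, hki⟩]
      · have h2 : a k < x := lt_of_le_of_lt (seg_left ha hg (by omega)) hx.1
        rw [if_pos h2, if_neg (by omega)]
    · have h2 : x < a k := lt_of_lt_of_le hx.2 (by rw [hal]; exact ha.monotone (by omega))
      rw [if_neg hki, if_pos h2, if_neg (by omega)]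
  unfold ph
  rw [prod_congr rfl h1, ← prod_filter, prod_const]
  have h2 : ((range n).erase i).filter (fun k => l ≤ k ∧ k < i) = Finset.Ico l i := by
    ext k
    simp only [mem_filter, mem_erase, mem_range, mem_Ico]
    omega
  rw [h2, Nat.card_Ico, ← zpow_natCast, Nat.cast_sub hli]

/-- the matrix of the paths in terms of the segments -/
def Mz (m i l : ℕ) : ℂ := if (i ≤ l ∧ l < m) ∨ (m ≤ l ∧ l ≤ i) then 1 else 0

/-- integration over adjacent segments with constant phases -/
theorem int_segments {e : ℕ → ℝ} {u v : ℕ} (huv : u ≤ v) {g : ℝ → ℂ} {K : ℝ → ℝ} {c : ℕ → ℂ}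
    (hK : ∀ x y, IntervalIntegrable K volume x y) (he : ∀ l ∈ Finset.Ico u v, e l ≤ e (l + 1))
    (hg : ∀ l ∈ Finset.Ico u v, ∀ x ∈ Set.Ioo (e l) (e (l + 1)), g x = c l * (K x : ℂ)) :
    ∫ x in (e u)..(e v), g x = ∑ l ∈ Finset.Ico u v, c l * ((∫ x in (e l)..(e (l + 1)), K x : ℝ) : ℂ) := by
  have hK' : ∀ x y, IntervalIntegrable (fun x => (K x : ℂ)) volume x y := fun x y => ⟨(hK x y).1.ofReal, (hK x y).2.ofReal⟩
  have hae : ∀ l ∈ Finset.Ico u v, ∀ᵐ x : ℝ, x ∈ Set.uIoc (e l) (e (l + 1)) → c l * (K x : ℂ) = g x := by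
    intro l hl
    have h1 : ∀ᵐ x : ℝ, x ≠ e (l + 1) := by
      rw [ae_iff]
      simp
    filter_upwards [h1] with x hx hx'
    rw [Set.uIoc_of_le (he l hl)] at hx'
    exact (hg l hl x ⟨hx'.1, lt_of_le_of_ne hx'.2 hx⟩).symm
  have hint : ∀ l ∈ Finset.Ico u v, IntervalIntegrable g volume (e l) (e (l + 1)) := by
    intro l hl
    have h1 : IntervalIntegrable (fun x => c l * (K x : ℂ)) volume (e l) (e (l + 1)) := (hK' _ _).const_mul _
    refine h1.congr_ae ?_
    rw [EventuallyEq, ae_restrict_iff' measurableSet_uIoc]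
    exact hae l hl
  have h2 := intervalIntegral.sum_integral_adjacent_intervals_Ico (a := e) huv (f := g) (μ := volume) fun k hk =>
    hint k (by rwa [mem_Ico] )
  rw [← h2]
  refine sum_congr rfl fun l hl => ?_
  rw [← intervalIntegral.integral_congr_ae (hae l hl), intervalIntegral.integral_const_mul, intervalIntegral.integral_ofReal]

theorem lim_J (ha : StrictMono a) (h0 : 0 < μ) (h1 : μ < 1) (hi : i < n) (hg : Gap n a m t) (j : ℕ) :
    Tendsto (fun y : ℝ => Jf n a μ i j (t + y * Complex.I)) (𝓝[>] 0)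
      (𝓝 (∑ l ∈ range n, Mz m i l * (tht μ) ^ ((i : ℤ) - l) * (Rf n a μ m j l t : ℂ))) := by
  have ht : ∀ k < n, t ≠ a k := fun k hk => hg.ne hk
  have h2 := lim_J1 ha h0 h1 hi ht j
  have hK : ∀ x y, IntervalIntegrable (fun x => x ^ j * Wr n a μ t x) volume x y := fun x y =>
    (Wr_int ha h0 h1 ht x y).continuousOn_mul (by fun_prop)
  have h3 : ((|t - a i| / (t - a i) : ℝ) • ∫ x in (a i)..t, ((x ^ j * Wr n a μ t x : ℝ) : ℂ) * ph n a μ i x) =
      ∑ l ∈ range n, Mz m i l * (tht μ) ^ ((i : ℤ) - l) * (Rf n a μ m j l t : ℂ) := by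
    rcases lt_or_ge i m with him | him
    · have h4 : 0 < t - a i := sub_pos.2 (hg.2.1 i him)
      rw [abs_of_pos h4, div_self h4.ne', one_smul]
      have h5 := int_segments (e := er a m t) (u := i) (v := m) him.le
        (g := fun x => ((x ^ j * Wr n a μ t x : ℝ) : ℂ) * ph n a μ i x) (c := fun l => (tht μ) ^ ((i : ℤ) - l)) hK
        (fun l hl => (er_step ha hg (lt_of_lt_of_le (mem_Ico.1 hl).2 hg.1)).le)
        (fun l hl x hx => by
          rw [ph_right ha hg (mem_Ico.1 hl).1 (mem_Ico.1 hl).2 hx]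
          ring)
      rw [er_lt him, er_eq] at h5
      rw [h5]
      have h6 : ∀ l ∈ range n, Mz m i l * (tht μ) ^ ((i : ℤ) - l) * (Rf n a μ m j l t : ℂ) =
          if l ∈ Finset.Ico i m then (tht μ) ^ ((i : ℤ) - l) * (Rf n a μ m j l t : ℂ) else 0 := by
        intro l _
        unfold Mz
        by_cases hl : l ∈ Finset.Ico i m
        · rw [if_pos hl, if_pos (Or.inl (mem_Ico.1 hl)), one_mul]
        · rw [if_neg hl, if_neg, zero_mul, zero_mul]
          rw [mem_Ico] at hl
          omega
      rw [sum_congr rfl h6, ← sum_filter]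
      refine sum_congr ?_ fun _ _ => rfl
      ext l
      have := hg.1
      simp only [mem_filter, mem_range, mem_Ico]
      omega
    · have h4 : t - a i < 0 := sub_neg.2 (hg.2.2 i him hi)
      rw [abs_of_neg h4, neg_div_self h4.ne, intervalIntegral.integral_symm, smul_neg, neg_smul, one_smul, neg_neg]
      have h5 := int_segments (e := er a m t) (u := m) (v := i + 1) (by omega)
        (g := fun x => ((x ^ j * Wr n a μ t x : ℝ) : ℂ) * ph n a μ i x) (c := fun l => (tht μ) ^ ((i : ℤ) - l)) hK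
        (fun l hl => (er_step ha hg (by have := (mem_Ico.1 hl).2; omega)).le)
        (fun l hl x hx => by
          rw [ph_left ha hg hi (mem_Ico.1 hl).1 (by have := (mem_Ico.1 hl).2; omega) hx]
          ring)
      rw [er_eq, er_gt (by omega : m < i + 1), Nat.add_sub_cancel] at h5
      rw [h5]
      have h6 : ∀ l ∈ range n, Mz m i l * (tht μ) ^ ((i : ℤ) - l) * (Rf n a μ m j l t : ℂ) =
          if l ∈ Finset.Ico m (i + 1) then (tht μ) ^ ((i : ℤ) - l) * (Rf n a μ m j l t : ℂ) else 0 := by
        intro l _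
        unfold Mz
        by_cases hl : l ∈ Finset.Ico m (i + 1)
        · have := mem_Ico.1 hl
          rw [if_pos hl, if_pos (Or.inr ⟨this.1, by omega⟩), one_mul]
        · rw [if_neg hl, if_neg, zero_mul, zero_mul]
          rw [mem_Ico] at hl
          omega
      rw [sum_congr rfl h6, ← sum_filter]
      refine sum_congr ?_ fun _ _ => rfl
      ext l
      simp only [mem_filter, mem_range, mem_Ico]
      omega
  rw [← h3]
  exact h2

end Pool.Agent.K1H12.SE
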