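import Pool.Agent.K1H12.SE.Jint

/-!
# Superelliptic periods: the differential equation of the integrals
-/

set_option autoImplicit false

namespace Pool.Agent.K1H12.SE

open MeasureTheory Filter Topology Finset

theorem aeval_cA (ν : ℚ) (n : ℕ) (f : Polynomial ℚ) (j k : Fin n) (t : ℂ) :
    Polynomial.aeval t (cA ν n f j k) = t ^ (j : ℕ) * ((ν : ℂ) * ((((k : ℕ) : ℂ) + 1) * (f.coeff ((k : ℕ) + 1) : ℂ) -
      ∑ c ∈ Finset.Ioc (k : ℕ) n, (f.coeff c : ℂ) * t ^ (c - 1 - (k : ℕ)))) +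
    (if (k : ℕ) < (j : ℕ) then (ν : ℂ) * Polynomial.aeval t f * t ^ ((j : ℕ) - 1 - (k : ℕ)) else 0) := by
  unfold cA
  rw [map_add, map_mul, map_pow, Polynomial.aeval_X, map_mul, Polynomial.aeval_C, map_sub, Polynomial.aeval_C, map_sum]
  congr 1
  · simp [eq_ratCast]
  · split_ifs
    · simp [eq_ratCast]
    · simp

theorem cA_id (ν : ℚ) (n : ℕ) (f : Polynomial ℚ) (hfn : f.natDegree ≤ n) (j : Fin n) (x t : ℂ) :
    (x - t) * ∑ k : Fin n, Polynomial.aeval t (cA ν n f j k) * x ^ (k : ℕ) =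
      ν * (t ^ (j : ℕ) * (x - t) * Polynomial.aeval x (Polynomial.derivative f) - t ^ (j : ℕ) * Polynomial.aeval x f +
        Polynomial.aeval t f * x ^ (j : ℕ)) := by
  have hn : 0 < n := j.pos
  have S1 : ∑ k ∈ range n, (((k : ℕ) : ℂ) + 1) * (f.coeff (k + 1) : ℂ) * x ^ k =
      Polynomial.aeval x (Polynomial.derivative f) := by
    rw [Polynomial.aeval_eq_sum_range' (n := n)]
    · refine sum_congr rfl fun k _ => ?_
      rw [Polynomial.coeff_derivative, Algebra.smul_def, eq_ratCast]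
      push_cast
      ring
    · have := Polynomial.natDegree_derivative_le f
      omega
  have S0 : ∀ y : ℂ, Polynomial.aeval y f = ∑ c ∈ range (n + 1), (f.coeff c : ℂ) * y ^ c := by
    intro y
    rw [Polynomial.aeval_eq_sum_range' (n := n + 1) (by omega)]
    refine sum_congr rfl fun k _ => ?_
    rw [Algebra.smul_def, eq_ratCast]
  have S2 : (x - t) * ∑ k ∈ range n, (∑ c ∈ Finset.Ioc k n, (f.coeff c : ℂ) * t ^ (c - 1 - k)) * x ^ k =
      Polynomial.aeval x f - Polynomial.aeval t f := by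
    have h1 : ∑ k ∈ range n, (∑ c ∈ Finset.Ioc k n, (f.coeff c : ℂ) * t ^ (c - 1 - k)) * x ^ k =
        ∑ c ∈ range (n + 1), (f.coeff c : ℂ) * ∑ k ∈ range c, x ^ k * t ^ (c - 1 - k) := by
      have h2 : ∑ k ∈ range n, (∑ c ∈ Finset.Ioc k n, (f.coeff c : ℂ) * t ^ (c - 1 - k)) * x ^ k =
          ∑ k ∈ range n, ∑ c ∈ Finset.Ioc k n, (f.coeff c : ℂ) * (x ^ k * t ^ (c - 1 - k)) := by
        refine sum_congr rfl fun k _ => ?_
        rw [sum_mul]
        exact sum_congr rfl fun c _ => by ring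
      rw [h2]
      have h3 : ∀ c ∈ range (n + 1), (f.coeff c : ℂ) * ∑ k ∈ range c, x ^ k * t ^ (c - 1 - k) =
          ∑ k ∈ range c, (f.coeff c : ℂ) * (x ^ k * t ^ (c - 1 - k)) := fun c _ => mul_sum _ _ _
      rw [sum_congr rfl h3]
      apply sum_comm'
      intro k c
      rw [mem_range, mem_range, mem_range, mem_Ioc]
      omega
    rw [h1, mul_sum, S0, S0, ← sum_sub_distrib]
    refine sum_congr rfl fun c _ => ?_
    have h2 := geom_sum₂_mul x t c
    linear_combination (f.coeff c : ℂ) * h2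
  have S3 : (x - t) * ∑ k ∈ range (j : ℕ), t ^ ((j : ℕ) - 1 - k) * x ^ k = x ^ (j : ℕ) - t ^ (j : ℕ) := by
    rw [← geom_sum₂_mul x t (j : ℕ), mul_comm]
    congr 1
    exact sum_congr rfl fun k _ => by ring
  have h1 : ∑ k : Fin n, Polynomial.aeval t (cA ν n f j k) * x ^ (k : ℕ) =
      ∑ k ∈ range n, ((t ^ (j : ℕ) * (ν : ℂ)) * ((((k : ℕ) : ℂ) + 1) * (f.coeff (k + 1) : ℂ) * x ^ k) -
        (t ^ (j : ℕ) * (ν : ℂ)) * ((∑ c ∈ Finset.Ioc k n, (f.coeff c : ℂ) * t ^ (c - 1 - k)) * x ^ k) +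
        (if k < (j : ℕ) then ((ν : ℂ) * Polynomial.aeval t f) * (t ^ ((j : ℕ) - 1 - k) * x ^ k) else 0)) := by
    rw [← Fin.sum_univ_eq_sum_range (fun k => ((t ^ (j : ℕ) * (ν : ℂ)) * ((((k : ℕ) : ℂ) + 1) * (f.coeff (k + 1) : ℂ) * x ^ k) -
        (t ^ (j : ℕ) * (ν : ℂ)) * ((∑ c ∈ Finset.Ioc k n, (f.coeff c : ℂ) * t ^ (c - 1 - k)) * x ^ k) +
        (if k < (j : ℕ) then ((ν : ℂ) * Polynomial.aeval t f) * (t ^ ((j : ℕ) - 1 - k) * x ^ k) else 0))) n]
    refine sum_congr rfl fun k _ => ?_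
    rw [aeval_cA]
    split_ifs <;> ring
  rw [h1, sum_add_distrib, sum_sub_distrib, ← mul_sum, ← mul_sum, S1]
  have h2 : ∑ k ∈ range n, (if k < (j : ℕ) then ((ν : ℂ) * Polynomial.aeval t f) * (t ^ ((j : ℕ) - 1 - k) * x ^ k) else 0) =
      ((ν : ℂ) * Polynomial.aeval t f) * ∑ k ∈ range (j : ℕ), t ^ ((j : ℕ) - 1 - k) * x ^ k := by
    rw [← sum_filter, mul_sum]
    refine sum_congr ?_ fun _ _ => rfl
    ext k
    rw [mem_filter, mem_range, mem_range]
    have := j.2
    omega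
  rw [h2]
  linear_combination (-(t ^ (j : ℕ) * (ν : ℂ))) * S2 + ((ν : ℂ) * Polynomial.aeval t f) * S3

theorem key_alg (s h R R' L g gx xj xj1 tj μ SA : ℂ) (hs : -(1 - s) * h ≠ 0) (e1 : -(1 - s) * h * R = g * xj - tj * gx)
    (e2 : R + -(1 - s) * h * R' = g * xj1 - tj * gx * L)
    (e3 : -(1 - s) * h * SA = (1 - μ) * (tj * (-(1 - s) * h) * (gx + s * h * gx * L) - tj * (s * h * gx) + h * g * xj)) :
    -h * ((1 - μ) * (1 - s) - μ * s) * R - s * (1 - s) * h ^ 2 * (-μ * L * R + R') =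
      s * (h * g) * (xj1 - μ * xj * L) - SA := by
  apply mul_left_cancel₀ hs
  linear_combination (-h * ((1 - μ) * (1 - s) - μ * s) - μ * s * h * (-(1 - s) * h) * L - s * h) * e1 +
    s * h * (-(1 - s) * h) * e2 + e3

variable {n : ℕ} {a : ℕ → ℝ} {μ : ℝ} {i : ℕ}

theorem aeval_prod {f : Polynomial ℚ} (hf : f.map (algebraMap ℚ ℝ) = ∏ k ∈ range n, (Polynomial.X - Polynomial.C (a k)))
    (x : ℂ) : Polynomial.aeval x f = ∏ k ∈ range n, (x - a k) := by
  have h1 : Polynomial.aeval x f = Polynomial.aeval x (f.map (algebraMap ℚ ℝ)) := by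
    rw [Polynomial.aeval_map_algebraMap]
  rw [h1, hf, map_prod]
  refine prod_congr rfl fun k _ => ?_
  simp

theorem aeval_gi {f : Polynomial ℚ} (hf : f.map (algebraMap ℚ ℝ) = ∏ k ∈ range n, (Polynomial.X - Polynomial.C (a k)))
    (hi : i < n) (x : ℂ) : Polynomial.aeval x f = (x - a i) * gi n a i x := by
  rw [aeval_prod hf, ← Finset.mul_prod_erase _ _ (mem_range.2 hi)]
  rfl

theorem aeval_deriv {f : Polynomial ℚ} (hf : f.map (algebraMap ℚ ℝ) = ∏ k ∈ range n, (Polynomial.X - Polynomial.C (a k)))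
    (hi : i < n) {x : ℂ} (hx : ∀ k ∈ (Finset.range n).erase i, x - a k ≠ 0) :
    Polynomial.aeval x (Polynomial.derivative f) = gi n a i x + (x - a i) * (gi n a i x * Lg n a i x) := by
  have h1 : HasDerivAt (fun x : ℂ => Polynomial.aeval x f) (Polynomial.aeval x (Polynomial.derivative f)) x :=
    Polynomial.hasDerivAt_aeval f x
  have h2 : HasDerivAt (fun x : ℂ => (x - a i) * gi n a i x) (1 * gi n a i x + (x - a i) * (gi n a i x * Lg n a i x)) x :=
    ((hasDerivAt_id x).sub_const (a i : ℂ)).mul (hasDerivAt_gi hx)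
  have h3 : (fun x : ℂ => Polynomial.aeval x f) = fun x : ℂ => (x - a i) * gi n a i x := by
    funext y
    exact aeval_gi hf hi y
  rw [h3] at h1
  have h4 := h1.unique h2
  rw [h4, one_mul]

/-- the divided polynomial -/
theorem exists_rho (n : ℕ) (a : ℕ → ℝ) (i j : ℕ) (t : ℂ) : ∃ ρ : Polynomial ℂ, ∀ x : ℂ,
    (x - t) * ρ.eval x = gi n a i t * x ^ j - t ^ j * gi n a i x := by
  set N : Polynomial ℂ := Polynomial.C (gi n a i t) * Polynomial.X ^ j -
    Polynomial.C (t ^ j) * ∏ k ∈ (range n).erase i, (Polynomial.X - Polynomial.C (a k : ℂ)) with hN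
  have hev : ∀ x, N.eval x = gi n a i t * x ^ j - t ^ j * gi n a i x := by
    intro x
    rw [hN]
    simp [Polynomial.eval_prod, gi]
  obtain ⟨ρ, hρ⟩ := Polynomial.dvd_iff_isRoot.2 (show N.IsRoot t by
    rw [Polynomial.IsRoot.def, hev]
    ring)
  refine ⟨ρ, fun x => ?_⟩
  rw [← hev, hρ]
  simp

theorem hasDerivAt_v {s : ℝ} (h0 : 0 < s) (h1 : s < 1) :
    HasDerivAt (fun s : ℝ => s ^ (1 - μ) * (1 - s) ^ μ) (wt μ s * ((1 - μ) * (1 - s) - μ * s)) s := by
  have h2 := (Real.hasDerivAt_rpow_const (x := s) (p := 1 - μ) (Or.inl h0.ne')).mul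
    ((Real.hasDerivAt_rpow_const (x := 1 - s) (p := μ) (Or.inl (by linarith : (1 : ℝ) - s ≠ 0))).comp s
      ((hasDerivAt_id s).const_sub 1))
  refine h2.congr_deriv ?_
  unfold wt
  have e1 : s ^ (1 - μ) = s * s ^ (-μ) := by
    rw [show 1 - μ = 1 + -μ by ring, Real.rpow_add h0, Real.rpow_one]
  have e2 : (1 - s) ^ μ = (1 - s) * (1 - s) ^ (μ - 1) := by
    have h3 : 0 < 1 - s := by linarith
    conv_lhs => rw [show μ = 1 + (μ - 1) by ring, Real.rpow_add h3, Real.rpow_one]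
  simp only [Function.comp]
  rw [e1, e2, show 1 - μ - 1 = -μ by ring]
  ring

theorem v_eq {s : ℝ} (h0 : 0 < s) (h1 : s < 1) : s ^ (1 - μ) * (1 - s) ^ μ = wt μ s * (s * (1 - s)) := by
  unfold wt
  have e1 : s ^ (1 - μ) = s * s ^ (-μ) := by
    rw [show 1 - μ = 1 + -μ by ring, Real.rpow_add h0, Real.rpow_one]
  have e2 : (1 - s) ^ μ = (1 - s) * (1 - s) ^ (μ - 1) := by
    have h3 : 0 < 1 - s := by linarith
    conv_lhs => rw [show μ = 1 + (μ - 1) by ring, Real.rpow_add h3, Real.rpow_one]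
  rw [e1, e2]
  ring

/-- the differential equation -/
theorem ode_J (ha : StrictMono a) {ν : ℚ} (hν : (ν : ℝ) = 1 - μ) (h0 : 0 < μ) (h1 : μ < 1) {f : Polynomial ℚ}
    (hfn : f.natDegree ≤ n)
    (hf : f.map (algebraMap ℚ ℝ) = ∏ k ∈ range n, (Polynomial.X - Polynomial.C (a k))) (hi : i < n) (j : Fin n)
    {t : ℂ} (ht : 0 < t.im) :
    Polynomial.aeval t f * (∫ s in (0 : ℝ)..1, (s * dHf n a μ i j (xp a i t s)) * (wt μ s : ℂ)) =
      ∑ k : Fin n, Jf n a μ i k t * Polynomial.aeval t (cA ν n f j k) := by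
  obtain ⟨ρ, hρ⟩ := exists_rho n a i j t
  set h : ℂ := t - a i with hh
  have hh0 : h ≠ 0 := by
    intro h2
    have := congrArg Complex.im h2
    simp only [hh, Complex.sub_im, Complex.ofReal_im, sub_zero, Complex.zero_im] at this
    exact ht.ne' this
  set G : ℝ → ℂ := fun s => -h * ((s ^ (1 - μ) * (1 - s) ^ μ : ℝ) : ℂ) * (phi n a μ i (xp a i t s) * ρ.eval (xp a i t s)) with hG
  set G' : ℝ → ℂ := fun s => (Polynomial.aeval t f) * ((s * dHf n a μ i j (xp a i t s)) * (wt μ s : ℂ)) -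
    ∑ k : Fin n, (Hf n a μ i k (xp a i t s) * (wt μ s : ℂ)) * Polynomial.aeval t (cA ν n f j k) with hG'
  have hcont : ContinuousOn G (Set.Icc 0 1) := by
    have c1 : ContinuousOn (fun s : ℝ => phi n a μ i (xp a i t s)) (Set.Icc 0 1) :=
      contOn_path ha ht fun x hx => (hasDerivAt_phi hx).continuousAt
    have c2 : Continuous (fun s : ℝ => ρ.eval (xp a i t s)) := by
      unfold xp
      fun_prop
    have c3 : Continuous (fun s : ℝ => ((s ^ (1 - μ) * (1 - s) ^ μ : ℝ) : ℂ)) := by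
      refine Complex.continuous_ofReal.comp ?_
      refine Continuous.mul ?_ ?_
      · exact Real.continuous_rpow_const (by linarith)
      · exact (Real.continuous_rpow_const h0.le).comp (continuous_const.sub continuous_id)
    exact (continuousOn_const.mul c3.continuousOn).mul (c1.mul c2.continuousOn)
  have hderiv : ∀ s ∈ Set.Ioo (0 : ℝ) 1, HasDerivAt G (G' s) s := by
    intro s hs
    have hD := InD_path (n := n) ha ht hs.1.le (i := i)
    set x := xp a i t s with hx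
    have hxp : HasDerivAt (fun s : ℝ => xp a i t s) h s := by
      unfold xp
      have := ((Complex.ofRealCLM.hasDerivAt (x := s)).mul_const (t - a i)).const_add (a i : ℂ)
      simpa using this
    have d1 : HasDerivAt (fun s : ℝ => phi n a μ i (xp a i t s)) (phi n a μ i x * (-μ * Lg n a i x) * h) s :=
      HasDerivAt.comp s (h₂ := phi n a μ i) (hasDerivAt_phi hD) hxp
    have d2 : HasDerivAt (fun s : ℝ => ρ.eval (xp a i t s)) (ρ.derivative.eval x * h) s :=
      HasDerivAt.comp s (h₂ := fun x => ρ.eval x) (ρ.hasDerivAt x) hxp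
    have d3 := (hasDerivAt_v (μ := μ) hs.1 hs.2).ofReal_comp
    have d4 := (d3.const_mul (-h)).mul (d1.mul d2)
    refine d4.congr_deriv ?_
    -- the algebraic identity
    have hs1 : (1 - (s : ℂ)) ≠ 0 := by
      intro h2
      have h3 : ((1 - s : ℝ) : ℂ) = 0 := by push_cast; exact h2
      rw [Complex.ofReal_eq_zero] at h3
      linarith [hs.2]
    have hq : -(1 - (s : ℂ)) * h ≠ 0 := mul_ne_zero (neg_ne_zero.2 hs1) hh0
    have hxt : x - t = -(1 - (s : ℂ)) * h := by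
      rw [hx, hh]
      unfold xp
      ring
    have hxa : x - a i = s * h := by
      rw [hx, hh]
      unfold xp
      ring
    have hne : ∀ k ∈ (Finset.range n).erase i, x - a k ≠ 0 := fun k hk => hD.ne hk
    have e1 : -(1 - (s : ℂ)) * h * ρ.eval x = gi n a i t * x ^ (j : ℕ) - t ^ (j : ℕ) * gi n a i x := by
      rw [← hxt]
      exact hρ x
    have e2 : ρ.eval x + -(1 - (s : ℂ)) * h * ρ.derivative.eval x =
        gi n a i t * ((j : ℕ) * x ^ ((j : ℕ) - 1)) - t ^ (j : ℕ) * gi n a i x * Lg n a i x := by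
      have f1 : HasDerivAt (fun x : ℂ => (x - t) * ρ.eval x) (1 * ρ.eval x + (x - t) * ρ.derivative.eval x) x :=
        ((hasDerivAt_id x).sub_const t).mul (ρ.hasDerivAt x)
      have f2 : HasDerivAt (fun x : ℂ => gi n a i t * x ^ (j : ℕ) - t ^ (j : ℕ) * gi n a i x)
          (gi n a i t * (((j : ℕ) : ℂ) * x ^ ((j : ℕ) - 1)) - t ^ (j : ℕ) * (gi n a i x * Lg n a i x)) x :=
        ((hasDerivAt_pow (j : ℕ) x).const_mul _).sub ((hasDerivAt_gi hne).const_mul _)
      have f3 : (fun x : ℂ => (x - t) * ρ.eval x) = fun x : ℂ => gi n a i t * x ^ (j : ℕ) - t ^ (j : ℕ) * gi n a i x :=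
        funext hρ
      rw [f3] at f1
      have f4 := f1.unique f2
      rw [← hxt]
      linear_combination f4
    set SA : ℂ := ∑ k : Fin n, Polynomial.aeval t (cA ν n f j k) * x ^ (k : ℕ) with hSA
    have hνC : (ν : ℂ) = 1 - (μ : ℂ) := by
      have : ((ν : ℝ) : ℂ) = ((1 - μ : ℝ) : ℂ) := by rw [hν]
      push_cast at this
      exact this
    have hft : Polynomial.aeval t f = h * gi n a i t := aeval_gi hf hi t
    have e3 : -(1 - (s : ℂ)) * h * SA = (1 - (μ : ℂ)) * (t ^ (j : ℕ) * (-(1 - (s : ℂ)) * h) *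
        (gi n a i x + s * h * gi n a i x * Lg n a i x) - t ^ (j : ℕ) * (s * h * gi n a i x) +
          h * gi n a i t * x ^ (j : ℕ)) := by
      have g1 := cA_id ν n f hfn j x t
      rw [hxt, aeval_deriv hf hi hne, aeval_gi hf hi x, hft, hxa, hνC] at g1
      rw [hSA, g1]
      ring
    have e4 := key_alg (s : ℂ) h (ρ.eval x) (ρ.derivative.eval x) (Lg n a i x) (gi n a i t) (gi n a i x) (x ^ (j : ℕ))
      ((j : ℕ) * x ^ ((j : ℕ) - 1)) (t ^ (j : ℕ)) μ SA hq e1 e2 e3
    have e5 : ∑ k : Fin n, (Hf n a μ i k x * (wt μ s : ℂ)) * Polynomial.aeval t (cA ν n f j k) =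
        phi n a μ i x * (wt μ s : ℂ) * SA := by
      rw [hSA, mul_sum]
      refine sum_congr rfl fun k _ => ?_
      unfold Hf
      ring
    rw [hG']
    simp only
    rw [← hx, e5, hft]
    have e6 : (((s ^ (1 - μ) * (1 - s) ^ μ : ℝ)) : ℂ) = (wt μ s : ℂ) * (s * (1 - s)) := by
      rw [v_eq hs.1 hs.2]
      push_cast
      ring
    simp only [Pi.mul_apply]
    rw [← hx, e6]
    unfold dHf
    push_cast
    linear_combination (phi n a μ i x * (wt μ s : ℂ)) * e4
  have I1 : IntervalIntegrable (fun s : ℝ => ((s : ℂ) * dHf n a μ i j (xp a i t s)) * (wt μ s : ℂ)) volume 0 1 := by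
    refine mul_wt_int h0 h1 (F := fun s => (s : ℂ) * dHf n a μ i j (xp a i t s)) ?_
    exact ContinuousOn.mul (by fun_prop) (contOn_path ha ht fun x hx => continuousAt_dHf hx j)
  have I2 : ∀ k : Fin n, IntervalIntegrable (fun s : ℝ => Hf n a μ i k (xp a i t s) * (wt μ s : ℂ)) volume 0 1 :=
    fun k => mul_wt_int h0 h1 (contOn_path ha ht fun x hx => (hasDerivAt_Hf hx k).continuousAt)
  have I3 : IntervalIntegrable (fun s : ℝ => ∑ k : Fin n, (Hf n a μ i k (xp a i t s) * (wt μ s : ℂ)) *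
      Polynomial.aeval t (cA ν n f j k)) volume 0 1 := by
    have h2 := IntervalIntegrable.sum (μ := volume) (a := (0 : ℝ)) (b := 1) (Finset.univ : Finset (Fin n))
      (f := fun k => fun s : ℝ => (Hf n a μ i k (xp a i t s) * (wt μ s : ℂ)) *
      Polynomial.aeval t (cA ν n f j k)) fun k _ => (I2 k).mul_const _
    have h3 : (∑ k : Fin n, fun s : ℝ => (Hf n a μ i k (xp a i t s) * (wt μ s : ℂ)) *
      Polynomial.aeval t (cA ν n f j k)) = fun s : ℝ => ∑ k : Fin n, (Hf n a μ i k (xp a i t s) * (wt μ s : ℂ)) *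
      Polynomial.aeval t (cA ν n f j k) := by
      funext x
      simp
    rw [← h3]
    exact h2
  have hint : IntervalIntegrable G' volume 0 1 := (I1.const_mul _).sub I3
  have hFTC := intervalIntegral.integral_eq_sub_of_hasDerivAt_of_le zero_le_one hcont hderiv hint
  have hG0 : G 0 = 0 := by
    rw [hG]
    simp only
    rw [Real.zero_rpow (by linarith : 1 - μ ≠ 0)]
    simp
  have hG1 : G 1 = 0 := by
    rw [hG]
    simp only
    rw [sub_self, Real.zero_rpow h0.ne']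
    simp
  rw [hG0, hG1, sub_zero, hG'] at hFTC
  rw [intervalIntegral.integral_sub (I1.const_mul _) I3, intervalIntegral.integral_const_mul,
    intervalIntegral.integral_finsetSum (fun k _ => (I2 k).mul_const _)] at hFTC
  rw [sub_eq_zero] at hFTC
  rw [hFTC]
  refine sum_congr rfl fun k _ => ?_
  rw [intervalIntegral.integral_mul_const]
  rfl

end Pool.Agent.K1H12.SE
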