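import Pool.Agent.K1H12.SE.Det
import Pool.Agent.K1H12.SE.Ode
import Pool.Agent.K1H12.SE.Lim2
import Pool.Agent.Y113.GG.Cx
import Pool.Agent.Y113.GG.Wk

/-!
# Superelliptic periods: the integrals near a regular point in a gap
-/

set_option autoImplicit false

namespace Pool.Agent.K1H12.SE

open Filter Topology Finset
open Pool.Agent.Y113
open Pool.Agent.Y113.GG (Ec_mul Ec_one hasSum_Ec analyticAt_Ec)
open Pool.Agent.Y37.GF (SR)

theorem sr_bound {g : PowerSeries ℚ} {C : ℝ} (hC : 1 ≤ C) (hg : ∀ m, |((PowerSeries.coeff m g : ℚ) : ℝ)| ≤ C ^ (m + 1))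
    {r : ℝ} (hr0 : 0 ≤ r) (hr : C * r < 1) : SR r g :=
  SR.of_bound (A := C) hr0 (by linarith) hr fun m => by
    rw [← pow_succ']
    exact hg m

theorem Ec_poly (P : Polynomial ℚ) (z : ℂ) : GG.Ec (P : PowerSeries ℚ) z = Polynomial.aeval z P := by
  unfold GG.Ec
  rw [Polynomial.aeval_eq_sum_range, tsum_eq_sum (s := Finset.range (P.natDegree + 1))]
  · refine Finset.sum_congr rfl fun m _ => ?_
    rw [Polynomial.coeff_coe, Rat.smul_def]
  · intro m hm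
    rw [Polynomial.coeff_coe, Polynomial.coeff_eq_zero_of_natDegree_lt (by
      simpa [Nat.lt_succ_iff] using hm)]
    simp

theorem Ec_sum {ι : Type*} (s : Finset ι) {r : ℝ} {F : ι → PowerSeries ℚ} (h : ∀ i ∈ s, SR r (F i)) {z : ℂ} (hz : ‖z‖ ≤ r) :
    GG.Ec (∑ i ∈ s, F i) z = ∑ i ∈ s, GG.Ec (F i) z := by
  have h1 : HasSum (fun m : ℕ => ∑ i ∈ s, ((PowerSeries.coeff m (F i) : ℚ) : ℂ) * z ^ m) (∑ i ∈ s, GG.Ec (F i) z) :=
    hasSum_sum fun i hi => hasSum_Ec (h i hi) hz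
  have h2 : (fun m : ℕ => ∑ i ∈ s, ((PowerSeries.coeff m (F i) : ℚ) : ℂ) * z ^ m) =
      fun m : ℕ => ((PowerSeries.coeff m (∑ i ∈ s, F i) : ℚ) : ℂ) * z ^ m := by
    funext m
    rw [map_sum]
    push_cast
    rw [sum_mul]
  rw [h2] at h1
  exact h1.tsum_eq

theorem hasDerivAt_Ec {g : PowerSeries ℚ} {C : ℝ} (hC : 1 ≤ C)
    (hg : ∀ m, |((PowerSeries.coeff m g : ℚ) : ℝ)| ≤ C ^ (m + 1)) {z : ℂ} (hz : ‖z‖ < 1 / (2 * C ^ 2)) :
    HasDerivAt (GG.Ec g) (GG.Ec (PowerSeries.derivative ℚ g) z) z := by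
  obtain ⟨ρ, hρ1, hρ2⟩ := exists_between hz
  have hρ0 : 0 ≤ ρ := (norm_nonneg z).trans hρ1.le
  have hC2 : 0 < 2 * C ^ 2 := by positivity
  have hCρ : 2 * C ^ 2 * ρ < 1 := by
    rw [lt_div_iff₀ hC2] at hρ2
    linarith
  have hu : Summable fun m : ℕ => |((PowerSeries.coeff m g : ℚ) : ℝ)| * (m * ρ ^ (m - 1)) := by
    rw [← summable_nat_add_iff 1]
    have h1 : Summable fun m : ℕ => (2 * C ^ 2) * (2 * C ^ 2 * ρ) ^ m := by
      refine Summable.mul_left _ ?_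
      exact summable_geometric_of_lt_one (by positivity) hCρ
    refine Summable.of_nonneg_of_le (fun m => by positivity) (fun m => ?_) h1
    rw [Nat.add_sub_cancel]
    have h2 : ((m + 1 : ℕ) : ℝ) ≤ 2 ^ (m + 1) := by
      exact_mod_cast (Nat.lt_two_pow_self (n := m + 1)).le
    have h3 : C ^ (m + 1 + 1) ≤ (C ^ 2) ^ (m + 1) := by
      rw [← pow_mul]
      exact pow_le_pow_right₀ hC (by omega)
    calc |((PowerSeries.coeff (m + 1) g : ℚ) : ℝ)| * (((m + 1 : ℕ) : ℝ) * ρ ^ m)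
        ≤ (C ^ 2) ^ (m + 1) * (2 ^ (m + 1) * ρ ^ m) := by
          refine mul_le_mul ((hg _).trans h3) (mul_le_mul_of_nonneg_right h2 (by positivity)) (by positivity) (by positivity)
      _ = (2 * C ^ 2) * (2 * C ^ 2 * ρ) ^ m := by
          rw [mul_pow (2 * C ^ 2) ρ, ← mul_assoc (2 * C ^ 2), ← pow_succ', mul_pow 2 (C ^ 2)]
          ring
  have h1 := hasDerivAt_tsum_of_isPreconnected (𝕜 := ℂ) (F := ℂ) (u := fun m : ℕ => |((PowerSeries.coeff m g : ℚ) : ℝ)| * (m * ρ ^ (m - 1)))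
    (g := fun (m : ℕ) (z : ℂ) => ((PowerSeries.coeff m g : ℚ) : ℂ) * z ^ m)
    (g' := fun (m : ℕ) (z : ℂ) => ((PowerSeries.coeff m g : ℚ) : ℂ) * (m * z ^ (m - 1)))
    (t := Metric.ball 0 ρ) (y₀ := 0) (y := z) hu Metric.isOpen_ball (convex_ball _ _).isPreconnected
    (fun m y _ => (hasDerivAt_pow m y).const_mul _) (fun m y hy => by
      rw [norm_mul, norm_mul, norm_pow, Pool.Agent.Y113.GG.norm_rat]
      have hy' : ‖y‖ ≤ ρ := by
        rw [mem_ball_zero_iff] at hy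
        exact hy.le
      have hm : ‖(m : ℂ)‖ = m := by simp
      rw [hm]
      gcongr) (Metric.mem_ball_self (lt_of_le_of_lt (norm_nonneg z) hρ1)) (by
      refine summable_of_ne_finset_zero (s := {0}) fun m hm => ?_
      rw [Finset.mem_singleton] at hm
      rw [zero_pow hm, mul_zero]) (by rwa [mem_ball_zero_iff])
  have h2 : ∑' m : ℕ, ((PowerSeries.coeff m g : ℚ) : ℂ) * (m * z ^ (m - 1)) = GG.Ec (PowerSeries.derivative ℚ g) z := by
    have hs : Summable fun m : ℕ => ((PowerSeries.coeff m g : ℚ) : ℂ) * (m * z ^ (m - 1)) := by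
      refine Summable.of_norm_bounded hu fun m => ?_
      rw [norm_mul, norm_mul, norm_pow, Pool.Agent.Y113.GG.norm_rat]
      have hm : ‖(m : ℂ)‖ = m := by simp
      rw [hm]
      gcongr
    rw [hs.tsum_eq_zero_add]
    simp only [Nat.cast_zero, zero_mul, mul_zero, zero_add]
    unfold GG.Ec
    congr 1
    funext m
    rw [PowerSeries.coeff_derivative, Nat.add_sub_cancel]
    push_cast
    ring
  rw [h2] at h1
  exact h1

theorem conj_Ec (g : PowerSeries ℚ) (z : ℂ) : GG.Ec g ((starRingEnd ℂ) z) = (starRingEnd ℂ) (GG.Ec g z) := by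
  unfold GG.Ec
  rw [Complex.conj_tsum]
  congr 1
  funext m
  rw [map_mul, map_pow]
  congr 1
  simp

theorem Ec_zero (g : PowerSeries ℚ) : GG.Ec g 0 = ((PowerSeries.constantCoeff g : ℚ) : ℂ) := by
  unfold GG.Ec
  rw [tsum_eq_single 0]
  · simp
  · intro m hm
    rw [zero_pow hm, mul_zero]

/-- the values of a matrix of power series -/
noncomputable def Zc {n : ℕ} (Z : Matrix (Fin n) (Fin n) (PowerSeries ℚ)) (z : ℂ) : Matrix (Fin n) (Fin n) ℂ :=
  Matrix.of fun i j => GG.Ec (Z i j) z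

variable {n : ℕ} {a : ℕ → ℝ} {μ : ℝ} {m : ℕ}

/-- the matrix of the integrals -/
noncomputable def Jm (n : ℕ) (a : ℕ → ℝ) (μ : ℝ) (t : ℂ) : Matrix (Fin n) (Fin n) ℂ :=
  Matrix.of fun i j => Jf n a μ i j t

/-- the matrix of the real integrals -/
noncomputable def Rm (n : ℕ) (a : ℕ → ℝ) (μ : ℝ) (m : ℕ) (t : ℝ) : Matrix (Fin n) (Fin n) ℂ :=
  Matrix.of fun l j => ((Rf n a μ m j l t : ℝ) : ℂ)

/-- the matrix which expresses the boundary values by the real integrals -/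
noncomputable def Sm (n : ℕ) (μ : ℝ) (m : ℕ) : Matrix (Fin n) (Fin n) ℂ :=
  Matrix.of fun i l => Mz m i l * (tht μ) ^ (((i : ℕ) : ℤ) - ((l : ℕ) : ℤ))

/-- the polynomial `f` with the roots `a k`, `k < n` -/
structure Cfg (n : ℕ) (a : ℕ → ℝ) (f : Polynomial ℚ) : Prop where
  mono : StrictMono a
  deg : f.natDegree ≤ n
  map : f.map (algebraMap ℚ ℝ) = ∏ k ∈ range n, (Polynomial.X - Polynomial.C (a k))

/-- the formal solution -/
structure Fsol (n : ℕ) (ν : ℚ) (f : Polynomial ℚ) (Z : Matrix (Fin n) (Fin n) (PowerSeries ℚ)) : Prop where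
  one : ∀ i j, PowerSeries.constantCoeff (Z i j) = if i = j then 1 else 0
  sys : ∀ i j, (f : PowerSeries ℚ) * PowerSeries.derivative ℚ (Z i j) = ∑ k, Z i k * (cA ν n f j k : PowerSeries ℚ)
  sd : ∀ i j, SDc (Z i j)

theorem coeff0_ne {f : Polynomial ℚ} (hc : Cfg n a f) (hg : Gap n a m 0) : f.coeff 0 ≠ 0 := by
  have h1 := aeval_prod hc.map 0
  intro h
  have h2 : Polynomial.aeval (0 : ℂ) f = ((f.coeff 0 : ℚ) : ℂ) := by
    rw [← Polynomial.coeff_zero_eq_aeval_zero' f]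
    rfl
  rw [h2, h, Rat.cast_zero] at h1
  have h3 : ∏ k ∈ range n, ((0 : ℂ) - a k) ≠ 0 := by
    rw [Finset.prod_ne_zero_iff]
    intro k hk
    rw [mem_range] at hk
    have := hg.ne hk
    rw [zero_sub]
    exact neg_ne_zero.2 (by exact_mod_cast this.symm)
  exact h3 h1.symm

theorem Fsol.dat {ν : ℚ} {f : Polynomial ℚ} {Z : Matrix (Fin n) (Fin n) (PowerSeries ℚ)} (hZ : Fsol n ν f Z)
    (hfn : f.natDegree ≤ n) (hf0 : f.coeff 0 ≠ 0) :
    Z.adjugate * Z = 1 ∧ Z * Z.adjugate = 1 ∧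
    Pool.Agent.Y113.GG.Dat f (fun k j => cA ν n f j k) (fun i j => Z i j) (fun i j => Z.adjugate i j) := by
  have hdet := det_form hfn hf0 hZ.one hZ.sys
  have h1 : Z.adjugate * Z = 1 := by rw [Matrix.adjugate_mul, hdet, one_smul]
  have h2 : Z * Z.adjugate = 1 := by rw [Matrix.mul_adjugate, hdet, one_smul]
  refine ⟨h1, h2, hf0, hZ.sys, fun i j => ?_, hZ.sd, fun i j => SDc_adj hZ.sd i j⟩
  have h3 : (Z.adjugate * Z) i j = (1 : Matrix (Fin n) (Fin n) (PowerSeries ℚ)) i j := by rw [h1]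
  rw [Matrix.mul_apply] at h3
  rw [h3, Matrix.one_apply]

theorem Gap.near (hg : Gap n a m 0) : ∃ ρ > 0, ∀ t : ℝ, |t| < ρ → Gap n a m t := by
  have h1 : ∀ᶠ t : ℝ in 𝓝 0, (∀ k ∈ range m, a k < t) ∧ ∀ k ∈ Finset.Ico m n, t < a k := by
    refine Filter.Eventually.and ?_ ?_
    · rw [Filter.eventually_all_finset]
      intro k hk
      exact lt_mem_nhds (hg.2.1 k (mem_range.1 hk))
    · rw [Filter.eventually_all_finset]
      intro k hk
      exact gt_mem_nhds (hg.2.2 k (mem_Ico.1 hk).1 (mem_Ico.1 hk).2)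
  obtain ⟨ρ, hρ, h2⟩ := Metric.eventually_nhds_iff.1 h1
  refine ⟨ρ, hρ, fun t ht => ?_⟩
  have h3 := h2 (y := t) (by rwa [Real.dist_eq, sub_zero])
  exact ⟨hg.1, fun k hk => h3.1 k (mem_range.2 hk), fun k hk hk' => h3.2 k (mem_Ico.2 ⟨hk, hk'⟩)⟩

end Pool.Agent.K1H12.SE
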