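import Pool.Agent.K1H12.SE.Loc

/-!
# Superelliptic periods: the integrals near a regular point in a gap, second part
-/

set_option autoImplicit false

namespace Pool.Agent.K1H12.SE

open Filter Topology Finset
open Pool.Agent.Y113
open Pool.Agent.Y113.GG (Ec_mul Ec_one hasSum_Ec analyticAt_Ec)
open Pool.Agent.Y37.GF (SR)

variable {n : ℕ} {a : ℕ → ℝ} {μ : ℝ} {m : ℕ}

/-- the connection matrix at a point -/
noncomputable def Am (ν : ℚ) (n : ℕ) (f : Polynomial ℚ) (z : ℂ) : Matrix (Fin n) (Fin n) ℂ :=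
  Matrix.of fun k j => Polynomial.aeval z (cA ν n f j k)

/-- the integrals near a regular point -/
theorem local_structure {f : Polynomial ℚ} (hc : Cfg n a f) {ν : ℚ} (hν : (ν : ℝ) = 1 - μ) (h0 : 0 < μ) (h1 : μ < 1)
    (hg : Gap n a m 0) {Z : Matrix (Fin n) (Fin n) (PowerSeries ℚ)} (hZ : Fsol n ν f Z) :
    ∃ ρ > 0, ∃ C : Matrix (Fin n) (Fin n) ℂ, (∀ t : ℝ, |t| < ρ → Gap n a m t) ∧
      (∀ z : ℂ, ‖z‖ < ρ → ∀ i j, DifferentiableAt ℂ (GG.Ec (Z i j)) z) ∧
      (∀ z : ℂ, ‖z‖ < ρ → IsUnit (Zc Z z)) ∧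
      (∀ t : ℂ, ‖t‖ < ρ → 0 < t.im → Jm n a μ t = C * Zc Z t) ∧
      ∀ t : ℝ, |t| < ρ → Sm n μ m * Rm n a μ m t = C * Zc Z t := by
  have hf0 := coeff0_ne hc hg
  obtain ⟨hWZ, hZW, hdat⟩ := hZ.dat hc.deg hf0
  set W := Z.adjugate with hW
  obtain ⟨C, hC, hbZ, hbW⟩ := hdat.bound
  obtain ⟨ρ₁, hρ₁, hgap⟩ := hg.near
  have hC2 : 0 < 2 * C ^ 2 := by positivity
  set ρ : ℝ := min ρ₁ (1 / (2 * C ^ 2)) with hρ
  have hρ0 : 0 < ρ := lt_min hρ₁ (by positivity)
  have hρC : ∀ z : ℂ, ‖z‖ < ρ → ‖z‖ < 1 / (2 * C ^ 2) := fun z hz => lt_of_lt_of_le hz (min_le_right _ _)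
  have hsr : ∀ z : ℂ, ‖z‖ < ρ → ∀ {g : PowerSeries ℚ}, (∀ m, |((PowerSeries.coeff m g : ℚ) : ℝ)| ≤ C ^ (m + 1)) →
      SR ‖z‖ g := by
    intro z hz g hg
    refine sr_bound hC hg (norm_nonneg z) ?_
    have h2 := hρC z hz
    rw [lt_div_iff₀ hC2] at h2
    have h3 : C ≤ 2 * C ^ 2 := by nlinarith
    have h4 := mul_le_mul_of_nonneg_right h3 (norm_nonneg z)
    linarith
  -- the derivatives
  have dZ : ∀ z : ℂ, ‖z‖ < ρ → ∀ i j, HasDerivAt (GG.Ec (Z i j)) (GG.Ec (PowerSeries.derivative ℚ (Z i j)) z) z :=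
    fun z hz i j => hasDerivAt_Ec hC (hbZ i j) (hρC z hz)
  have dW : ∀ z : ℂ, ‖z‖ < ρ → ∀ i j, HasDerivAt (GG.Ec (W i j)) (GG.Ec (PowerSeries.derivative ℚ (W i j)) z) z :=
    fun z hz i j => hasDerivAt_Ec hC (hbW i j) (hρC z hz)
  -- `W Z = 1`
  have mulc : ∀ (X Y : Matrix (Fin n) (Fin n) (PowerSeries ℚ)), (∀ i j m, |((PowerSeries.coeff m (X i j) : ℚ) : ℝ)| ≤ C ^ (m + 1)) →
      (∀ i j m, |((PowerSeries.coeff m (Y i j) : ℚ) : ℝ)| ≤ C ^ (m + 1)) → X * Y = 1 →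
      ∀ z : ℂ, ‖z‖ < ρ → Zc X z * Zc Y z = 1 := by
    intro X Y hX hY hXY z hz
    ext i j
    rw [Matrix.mul_apply]
    have e1 : ∀ k, Zc X z i k * Zc Y z k j = GG.Ec (X i k * Y k j) z := fun k =>
      (Ec_mul (hsr z hz (hX i k)) (hsr z hz (hY k j)) le_rfl).symm
    rw [sum_congr rfl fun k _ => e1 k, ← Ec_sum (r := ‖z‖) univ (fun k _ =>
      SR.mul (norm_nonneg z) (hsr z hz (hX i k)) (hsr z hz (hY k j))) le_rfl]
    have e2 : ∑ k, X i k * Y k j = (1 : Matrix (Fin n) (Fin n) (PowerSeries ℚ)) i j := by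
      rw [← hXY, Matrix.mul_apply]
    rw [e2, Matrix.one_apply, Matrix.one_apply]
    split_ifs
    · exact Ec_one z
    · rw [← map_zero (PowerSeries.C), ← Polynomial.coe_C, Ec_poly]
      simp
  have cWZ := mulc W Z hbW hbZ hWZ
  have cZW := mulc Z W hbZ hbW hZW
  set dZm : ℂ → Matrix (Fin n) (Fin n) ℂ := fun z => Matrix.of fun i j => GG.Ec (PowerSeries.derivative ℚ (Z i j)) z with hdZm
  set dWm : ℂ → Matrix (Fin n) (Fin n) ℂ := fun z => Matrix.of fun i j => GG.Ec (PowerSeries.derivative ℚ (W i j)) z with hdWm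
  -- the system for `Z`
  have odeZ : ∀ z : ℂ, ‖z‖ < ρ → (Polynomial.aeval z f) • dZm z = Zc Z z * Am ν n f z := by
    intro z hz
    ext i j
    rw [Matrix.smul_apply, smul_eq_mul, Matrix.mul_apply]
    have hder : ∀ g : PowerSeries ℚ, (∀ m, |((PowerSeries.coeff m g : ℚ) : ℝ)| ≤ C ^ (m + 1)) →
        SR ‖z‖ (PowerSeries.derivative ℚ g) := by
      intro g hg
      refine sr_bound (C := 2 * C ^ 2) (by nlinarith) (fun m => ?_) (norm_nonneg z) ?_
      · rw [PowerSeries.coeff_derivative]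
        push_cast
        have h2 : (((m + 1 : ℕ)) : ℝ) ≤ 2 ^ (m + 1) := by
          exact_mod_cast (Nat.lt_two_pow_self (n := m + 1)).le
        push_cast at h2
        have h3 : C ^ (m + 1 + 1) ≤ (C ^ 2) ^ (m + 1) := by
          rw [← pow_mul]
          exact pow_le_pow_right₀ hC (by omega)
        rw [abs_mul, abs_of_nonneg (by positivity : (0 : ℝ) ≤ (m : ℝ) + 1), mul_pow, mul_comm]
        exact mul_le_mul h2 ((hg _).trans h3) (abs_nonneg _) (by positivity)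
      · have h2 := hρC z hz
        rw [lt_div_iff₀ hC2] at h2
        linarith
    have e1 : Polynomial.aeval z f * dZm z i j = GG.Ec ((f : PowerSeries ℚ) * PowerSeries.derivative ℚ (Z i j)) z := by
      rw [Ec_mul (SR.poly f ‖z‖) (hder _ (hbZ i j)) le_rfl, Ec_poly]
      rfl
    rw [e1, hZ.sys, Ec_sum (r := ‖z‖) univ (fun k _ => SR.mul (norm_nonneg z) (hsr z hz (hbZ i k)) (SR.poly _ _)) le_rfl]
    refine sum_congr rfl fun k _ => ?_
    rw [Ec_mul (hsr z hz (hbZ i k)) (SR.poly _ _) le_rfl, Ec_poly]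
    rfl
  -- the derivative of `W`
  have hball : ∀ z : ℂ, ‖z‖ < ρ → ∀ᶠ w in 𝓝 z, ‖w‖ < ρ := fun z hz =>
    (isOpen_lt continuous_norm continuous_const).mem_nhds hz
  have relZW : ∀ z : ℂ, ‖z‖ < ρ → dZm z * Zc W z + Zc Z z * dWm z = 0 := by
    intro z hz
    ext i j
    rw [Matrix.add_apply, Matrix.mul_apply, Matrix.mul_apply, ← sum_add_distrib, Matrix.zero_apply]
    have e1 : HasDerivAt (fun w => ∑ k, GG.Ec (Z i k) w * GG.Ec (W k j) w)
        (∑ k, (dZm z i k * Zc W z k j + Zc Z z i k * dWm z k j)) z :=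
      HasDerivAt.fun_sum fun k _ => (dZ z hz i k).mul (dW z hz k j)
    have e2 : (fun w => ∑ k, GG.Ec (Z i k) w * GG.Ec (W k j) w) =ᶠ[𝓝 z] fun _ => (1 : Matrix (Fin n) (Fin n) ℂ) i j := by
      filter_upwards [hball z hz] with w hw
      rw [← cZW w hw, Matrix.mul_apply]
      rfl
    have e3 : HasDerivAt (fun w => ∑ k, GG.Ec (Z i k) w * GG.Ec (W k j) w) 0 z :=
      (hasDerivAt_const z _).congr_of_eventuallyEq e2
    exact e1.unique e3
  have odeW : ∀ z : ℂ, ‖z‖ < ρ → (Polynomial.aeval z f) • dWm z = -(Am ν n f z * Zc W z) := by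
    intro z hz
    have e1 : Zc Z z * dWm z = -(dZm z * Zc W z) := by
      rw [eq_neg_iff_add_eq_zero, add_comm]
      exact relZW z hz
    have e2 : dWm z = -(Zc W z * (dZm z * Zc W z)) := by
      rw [← Matrix.mul_neg, ← e1, ← Matrix.mul_assoc, cWZ z hz, Matrix.one_mul]
    rw [e2, smul_neg, ← Matrix.mul_smul, ← Matrix.smul_mul, odeZ z hz, Matrix.mul_assoc (Zc Z z), ← Matrix.mul_assoc (Zc W z),
      cWZ z hz, Matrix.one_mul]
  -- the constant matrix
  set U : Set ℂ := {t : ℂ | ‖t‖ < ρ ∧ 0 < t.im} with hU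
  have hUo : IsOpen U := (isOpen_lt continuous_norm continuous_const).inter (isOpen_lt continuous_const Complex.continuous_im)
  have hUc : Convex ℝ U := by
    have h2 : U = Metric.ball 0 ρ ∩ {t : ℂ | 0 < t.im} := by
      ext t
      simp [hU]
    rw [h2]
    exact (convex_ball _ _).inter (convex_halfSpace_im_gt 0)
  have hMd : ∀ t ∈ U, ∀ i j, HasDerivAt (fun t => (Jm n a μ t * Zc W t) i j) 0 t := by
    intro t ht i j
    set dJm : Matrix (Fin n) (Fin n) ℂ := Matrix.of fun i j : Fin n =>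
      (∫ s in (0 : ℝ)..1, ((s : ℂ) * dHf n a μ i j (xp a i t s)) * (wt μ s : ℂ)) with hdJm
    have odeJ : (Polynomial.aeval t f) • dJm = Jm n a μ t * Am ν n f t := by
      ext i j
      rw [Matrix.smul_apply, smul_eq_mul, Matrix.mul_apply]
      exact ode_J hc.mono hν h0 h1 hc.deg hc.map i.2 j ht.2
    have e1 : HasDerivAt (fun t => (Jm n a μ t * Zc W t) i j) (∑ k, (dJm i k * Zc W t k j + Jm n a μ t i k * dWm t k j)) t := by
      have e2 : (fun t => (Jm n a μ t * Zc W t) i j) = fun t => ∑ k : Fin n, Jf n a μ i k t * GG.Ec (W k j) t := by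
        funext t
        rw [Matrix.mul_apply]
        rfl
      rw [e2]
      exact HasDerivAt.fun_sum fun k _ => (hasDerivAt_Jf hc.mono h0 h1 k ht.2).mul (dW t ht.1 k j)
    have e3 : (∑ k, (dJm i k * Zc W t k j + Jm n a μ t i k * dWm t k j)) = (dJm * Zc W t + Jm n a μ t * dWm t) i j := by
      rw [Matrix.add_apply, Matrix.mul_apply, Matrix.mul_apply, ← sum_add_distrib]
    have hft : Polynomial.aeval t f ≠ 0 := by
      rw [aeval_prod hc.map, Finset.prod_ne_zero_iff]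
      intro k _ h2
      have := congrArg Complex.im h2
      simp only [Complex.sub_im, Complex.ofReal_im, sub_zero, Complex.zero_im] at this
      exact ht.2.ne' this
    have e4 : dJm * Zc W t + Jm n a μ t * dWm t = 0 := by
      have e5 : (Polynomial.aeval t f) • (dJm * Zc W t + Jm n a μ t * dWm t) = 0 := by
        rw [smul_add, ← Matrix.smul_mul, odeJ, ← Matrix.mul_smul, odeW t ht.1, Matrix.mul_neg, Matrix.mul_assoc, add_neg_cancel]
      exact (smul_eq_zero.1 e5).resolve_left hft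
    rw [e3, e4] at e1
    exact e1
  have hconst : ∀ i j, ∃ c : ℂ, ∀ t ∈ U, (Jm n a μ t * Zc W t) i j = c := by
    intro i j
    exact hUo.exists_is_const_of_deriv_eq_zero hUc.isPreconnected
      (fun t ht => (hMd t ht i j).differentiableAt.differentiableWithinAt) (fun t ht => (hMd t ht i j).deriv)
  choose c hcc using hconst
  have hJ : ∀ t : ℂ, ‖t‖ < ρ → 0 < t.im → Jm n a μ t = Matrix.of c * Zc Z t := by
    intro t ht1 ht2
    have e1 : Jm n a μ t * Zc W t = Matrix.of c := by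
      ext i j
      exact hcc i j t ⟨ht1, ht2⟩
    rw [← e1, Matrix.mul_assoc, cWZ t ht1, Matrix.mul_one]
  refine ⟨ρ, hρ0, Matrix.of c, fun t ht => hgap t (lt_of_lt_of_le ht (min_le_left _ _)), fun z hz i j =>
    (dZ z hz i j).differentiableAt, fun z hz => IsUnit.of_mul_eq_one_right (Zc W z) (cWZ z hz), hJ, ?_⟩
  -- the real points
  intro t ht
  have hgt := hgap t (lt_of_lt_of_le ht (min_le_left _ _))
  ext i j
  have l1 := lim_J hc.mono h0 h1 i.2 hgt (j : ℕ)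
  have e1 : ∑ l ∈ range n, Mz m i l * (tht μ) ^ ((i : ℤ) - l) * (Rf n a μ m j l t : ℂ) = (Sm n μ m * Rm n a μ m t) i j := by
    rw [Matrix.mul_apply, ← Fin.sum_univ_eq_sum_range (fun l => Mz m i l * (tht μ) ^ ((i : ℤ) - l) * (Rf n a μ m j l t : ℂ)) n]
    rfl
  rw [e1] at l1
  have htn : ‖(t : ℂ)‖ < ρ := by
    rw [Complex.norm_real]
    exact ht
  have l2 : Tendsto (fun y : ℝ => (Matrix.of c * Zc Z (t + y * Complex.I)) i j) (𝓝[>] 0) (𝓝 ((Matrix.of c * Zc Z t) i j)) := by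
    have h2 : Tendsto (fun y : ℝ => (t : ℂ) + y * Complex.I) (𝓝[>] 0) (𝓝 (t : ℂ)) := by
      have h3 : Continuous fun y : ℝ => (t : ℂ) + y * Complex.I := by fun_prop
      have h4 := (h3.tendsto 0).mono_left (nhdsWithin_le_nhds (s := Set.Ioi 0))
      simpa using h4
    simp only [Matrix.mul_apply]
    refine tendsto_finsetSum _ fun k _ => ?_
    refine Tendsto.const_mul _ ?_
    exact (dZ (t : ℂ) htn k j).continuousAt.tendsto.comp h2
  have l3 : (fun y : ℝ => Jf n a μ i j (t + y * Complex.I)) =ᶠ[𝓝[>] 0] fun y : ℝ => (Matrix.of c * Zc Z (t + y * Complex.I)) i j := by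
    have h2 : ∀ᶠ y : ℝ in 𝓝[>] 0, ‖(t : ℂ) + y * Complex.I‖ < ρ := by
      have h3 : Continuous fun y : ℝ => ‖(t : ℂ) + y * Complex.I‖ := by fun_prop
      have h4 := (h3.tendsto 0).mono_left (nhdsWithin_le_nhds (s := Set.Ioi 0))
      simp only [Complex.ofReal_zero, zero_mul, add_zero] at h4
      exact h4.eventually (gt_mem_nhds htn)
    filter_upwards [h2, self_mem_nhdsWithin] with y hy hy0
    have h3 := hJ _ hy (by simpa using hy0)
    have h4 := congrFun (congrFun h3 i) j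
    exact h4
  exact tendsto_nhds_unique (l1.congr' l3) l2

end Pool.Agent.K1H12.SE
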