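import Pool.Agent.Y123.ST.Out

/-!
# Subtorsors: the smallest one, inverse images
-/

set_option autoImplicit false

namespace Pool.Agent.K1H12.SE

open Finset Matrix
open Pool.Agent.Y123.ST (SubT)

variable {K : Subfield ℂ} {B B' : Type} [Fintype B] [DecidableEq B] [Fintype B'] [DecidableEq B']

/-- the intersection of all subtorsors containing `c` -/
def sm (K : Subfield ℂ) (c : Matrix B B ℂ) : Set (Matrix B B ℂ) := {x | ∀ T : Set (Matrix B B ℂ), SubT K T → c ∈ T → x ∈ T}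

theorem mem_sm_self (c : Matrix B B ℂ) : c ∈ sm K c := fun _ _ h => h

theorem inv_unit {y : Matrix B B ℂ} (hy : IsUnit y) : IsUnit y⁻¹ := (Matrix.isUnit_nonsing_inv_iff).2 hy

theorem sub_all : SubT K {x : Matrix B B ℂ | IsUnit x} := by
  refine ⟨fun x hx y hy z hz => (IsUnit.mul hx (inv_unit hy)).mul hz, ∅, fun x => ?_⟩
  simp

theorem sm_unit {c : Matrix B B ℂ} (hc : IsUnit c) {x : Matrix B B ℂ} (hx : x ∈ sm K c) : IsUnit x := hx _ sub_all hc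

theorem sm_sub {c : Matrix B B ℂ} (hc : IsUnit c) : SubT K (sm K c) := by
  refine ⟨fun x hx y hy z hz T hT hcT => hT.1 x (hx T hT hcT) y (hy T hT hcT) z (hz T hT hcT),
    {p | ∀ x ∈ sm K c, MvPolynomial.eval (fun b => x b.1 b.2) (MvPolynomial.map (algebraMap K ℂ) p) = 0}, fun x => ?_⟩
  constructor
  · intro hx
    exact ⟨sm_unit hc hx, fun p hp => hp x hx⟩
  · rintro ⟨hx, h⟩ T hT hcT
    obtain ⟨hT1, I, hI⟩ := hT
    rw [hI]
    refine ⟨hx, fun p hp => h p fun y hy => ?_⟩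
    exact ((hI y).1 (hy T ⟨hT1, I, hI⟩ hcT)).2 p hp

/-- inverse images -/
theorem comap_sub {S₀ : Set (Matrix B B ℂ)} (hS₀ : SubT K S₀) (Φ : Matrix B B ℂ → Matrix B' B' ℂ)
    (Pol : B' × B' → MvPolynomial (B × B) K)
    (hΦ : ∀ x ∈ S₀, ∀ b : B' × B', Φ x b.1 b.2 = MvPolynomial.eval (fun b => x b.1 b.2) (MvPolynomial.map (algebraMap K ℂ) (Pol b)))
    (hmul : ∀ x ∈ S₀, ∀ y ∈ S₀, ∀ z ∈ S₀, Φ (x * y⁻¹ * z) = Φ x * (Φ y)⁻¹ * Φ z) (hu : ∀ x ∈ S₀, IsUnit (Φ x))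
    {T : Set (Matrix B' B' ℂ)} (hT : SubT K T) : SubT K {x | x ∈ S₀ ∧ Φ x ∈ T} := by
  obtain ⟨h1, I₀, hI₀⟩ := hS₀
  obtain ⟨h2, I, hI⟩ := hT
  refine ⟨?_, I₀ ∪ (MvPolynomial.bind₁ Pol) '' I, fun x => ?_⟩
  · rintro x ⟨hx, hx'⟩ y ⟨hy, hy'⟩ z ⟨hz, hz'⟩
    refine ⟨h1 x hx y hy z hz, ?_⟩
    rw [hmul x hx y hy z hz]
    exact h2 _ hx' _ hy' _ hz'
  · have key : ∀ x ∈ S₀, ∀ p : MvPolynomial (B' × B') K, MvPolynomial.eval (fun b => x b.1 b.2) (MvPolynomial.map (algebraMap K ℂ)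
        (MvPolynomial.bind₁ Pol p)) = MvPolynomial.eval (fun b => Φ x b.1 b.2) (MvPolynomial.map (algebraMap K ℂ) p) := by
      intro x hx p
      have h3 := MvPolynomial.eval₂Hom_bind₁ (algebraMap K ℂ) (fun b : B × B => x b.1 b.2) Pol p
      simp only [MvPolynomial.coe_eval₂Hom] at h3
      rw [MvPolynomial.eval_map, MvPolynomial.eval_map, h3]
      congr 1
      funext b
      rw [hΦ x hx b, MvPolynomial.eval_map]
    constructor
    · rintro ⟨hx, hx'⟩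
      refine ⟨((hI₀ x).1 hx).1, ?_⟩
      rintro p (hp | ⟨p, hp, rfl⟩)
      · exact ((hI₀ x).1 hx).2 p hp
      · rw [key x hx]
        exact ((hI _).1 hx').2 p hp
    · rintro ⟨hx, h⟩
      have hx0 : x ∈ S₀ := (hI₀ x).2 ⟨hx, fun p hp => h p (Or.inl hp)⟩
      refine ⟨hx0, (hI _).2 ⟨hu x hx0, fun p hp => ?_⟩⟩
      rw [← key x hx0]
      exact h _ (Or.inr ⟨p, hp, rfl⟩)

omit [Fintype B] [DecidableEq B] in
/-- the polynomials in the entries of a matrix -/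
theorem eval_X' (x : Matrix B B ℂ) (b : B × B) :
    MvPolynomial.eval (fun b => x b.1 b.2) (MvPolynomial.map (algebraMap K ℂ) (MvPolynomial.X b)) = x b.1 b.2 := by
  rw [MvPolynomial.map_X, MvPolynomial.eval_X]

/-- reindexing -/
theorem reindex_sub (ε : B' ≃ B) {T : Set (Matrix B' B' ℂ)} (hT : SubT K T) :
    SubT K {x : Matrix B B ℂ | x.submatrix ε ε ∈ T} := by
  have h1 := comap_sub (K := K) (B := B) sub_all (fun x => x.submatrix ε ε) (fun b => MvPolynomial.X (ε b.1, ε b.2))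
    (fun x _ b => by rw [eval_X', Matrix.submatrix_apply]) (fun x hx y hy z hz => by
      rw [← Matrix.submatrix_mul_equiv (x * y⁻¹) z ε ε ε, ← Matrix.submatrix_mul_equiv x y⁻¹ ε ε ε, Matrix.inv_submatrix_equiv])
    (fun x hx => (Matrix.isUnit_submatrix_equiv ε ε).2 hx) hT
  have h2 : {x : Matrix B B ℂ | x.submatrix ε ε ∈ T} = {x | x ∈ {x : Matrix B B ℂ | IsUnit x} ∧ x.submatrix ε ε ∈ T} := by
    ext x
    constructor
    · intro h
      obtain ⟨-, I, hI⟩ := hT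
      exact ⟨(Matrix.isUnit_submatrix_equiv ε ε).1 ((hI _).1 h).1, h⟩
    · intro h
      exact h.2
  rw [h2]
  exact h1

section tot

variable {n r s k : ℕ}

/-- the index set -/
abbrev IX (n r s k : ℕ) : Type := Fin r ⊕ (Fin n × (Fin k × Fin s))

/-- `x ⊕ ⊕ X_lσ` -/
noncomputable def tot (x : Matrix (Fin r) (Fin r) ℂ) (X : Fin k → Fin s → Matrix (Fin n) (Fin n) ℂ) :
    Matrix (IX n r s k) (IX n r s k) ℂ :=
  Matrix.fromBlocks x 0 0 (Matrix.blockDiagonal fun p : Fin k × Fin s => X p.1 p.2)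

theorem tot_mul (x y : Matrix (Fin r) (Fin r) ℂ) (X Y : Fin k → Fin s → Matrix (Fin n) (Fin n) ℂ) :
    tot x X * tot y Y = tot (x * y) (fun l σ => X l σ * Y l σ) := by
  unfold tot
  rw [Matrix.fromBlocks_multiply, Matrix.blockDiagonal_mul]
  simp

theorem tot_one : tot (1 : Matrix (Fin r) (Fin r) ℂ) (fun _ _ => 1 : Fin k → Fin s → Matrix (Fin n) (Fin n) ℂ) = 1 := by
  unfold tot
  have h1 : (fun _ => 1 : Fin k × Fin s → Matrix (Fin n) (Fin n) ℂ) = 1 := rfl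
  rw [h1, Matrix.blockDiagonal_one, Matrix.fromBlocks_one]

theorem tot_det (x : Matrix (Fin r) (Fin r) ℂ) (X : Fin k → Fin s → Matrix (Fin n) (Fin n) ℂ) :
    (tot x X).det = x.det * ∏ p : Fin k × Fin s, (X p.1 p.2).det := by
  unfold tot
  rw [Matrix.det_fromBlocks_zero₂₁, Matrix.det_blockDiagonal]

theorem tot_unit {x : Matrix (Fin r) (Fin r) ℂ} {X : Fin k → Fin s → Matrix (Fin n) (Fin n) ℂ} :
    IsUnit (tot x X) ↔ IsUnit x ∧ ∀ l σ, IsUnit (X l σ) := by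
  simp only [Matrix.isUnit_iff_isUnit_det]
  rw [tot_det, IsUnit.mul_iff]
  refine and_congr_right fun _ => ?_
  simp only [isUnit_iff_ne_zero, ne_eq, Finset.prod_eq_zero_iff, not_exists, not_and, Finset.mem_univ, true_implies]
  exact ⟨fun h l σ => h (l, σ), fun h p => h p.1 p.2⟩

theorem tot_inv {x : Matrix (Fin r) (Fin r) ℂ} {X : Fin k → Fin s → Matrix (Fin n) (Fin n) ℂ} (h : IsUnit (tot x X)) :
    (tot x X)⁻¹ = tot x⁻¹ (fun l σ => (X l σ)⁻¹) := by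
  obtain ⟨h1, h2⟩ := tot_unit.1 h
  refine Matrix.inv_eq_right_inv ?_
  rw [tot_mul, Matrix.mul_nonsing_inv x ((Matrix.isUnit_iff_isUnit_det _).1 h1)]
  have h3 : (fun l σ => X l σ * (X l σ)⁻¹) = fun _ _ => 1 := by
    funext l σ
    exact Matrix.mul_nonsing_inv _ ((Matrix.isUnit_iff_isUnit_det _).1 (h2 l σ))
  rw [h3, tot_one]

/-- the blocks -/
def b0 (z : Matrix (IX n r s k) (IX n r s k) ℂ) : Matrix (Fin r) (Fin r) ℂ := Matrix.of fun i j => z (Sum.inl i) (Sum.inl j)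

def b1 (z : Matrix (IX n r s k) (IX n r s k) ℂ) (l : Fin k) (σ : Fin s) : Matrix (Fin n) (Fin n) ℂ :=
  Matrix.of fun i j => z (Sum.inr (i, (l, σ))) (Sum.inr (j, (l, σ)))

theorem b0_tot (x : Matrix (Fin r) (Fin r) ℂ) (X : Fin k → Fin s → Matrix (Fin n) (Fin n) ℂ) : b0 (tot x X) = x := by
  ext i j
  rfl

theorem b1_tot (x : Matrix (Fin r) (Fin r) ℂ) (X : Fin k → Fin s → Matrix (Fin n) (Fin n) ℂ) (l : Fin k) (σ : Fin s) :
    b1 (tot x X) l σ = X l σ := by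
  ext i j
  unfold b1 tot
  rw [Matrix.of_apply, Matrix.fromBlocks_apply₂₂, Matrix.blockDiagonal_apply, if_pos rfl]

/-- the pairs of indices outside of the blocks -/
def off (b : IX n r s k × IX n r s k) : Prop :=
  match b with
  | (Sum.inl _, Sum.inl _) => False
  | (Sum.inl _, Sum.inr _) => True
  | (Sum.inr _, Sum.inl _) => True
  | (Sum.inr p, Sum.inr q) => p.2 ≠ q.2

theorem tot_off (x : Matrix (Fin r) (Fin r) ℂ) (X : Fin k → Fin s → Matrix (Fin n) (Fin n) ℂ) {b : IX n r s k × IX n r s k}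
    (h : off b) : tot x X b.1 b.2 = 0 := by
  obtain ⟨b1, b2⟩ := b
  rcases b1 with i | p <;> rcases b2 with j | q
  · exact h.elim
  · rfl
  · rfl
  · unfold tot
    rw [Matrix.fromBlocks_apply₂₂, Matrix.blockDiagonal_apply, if_neg h]

theorem eq_tot {z : Matrix (IX n r s k) (IX n r s k) ℂ} (h : ∀ b, off b → z b.1 b.2 = 0) : z = tot (b0 z) (b1 z) := by
  ext b1 b2
  rcases b1 with i | p <;> rcases b2 with j | q
  · rfl
  · exact h (Sum.inl i, Sum.inr q) trivial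
  · exact h (Sum.inr p, Sum.inl j) trivial
  · by_cases hpq : p.2 = q.2
    · unfold tot
      rw [Matrix.fromBlocks_apply₂₂, Matrix.blockDiagonal_apply, if_pos hpq]
      obtain ⟨i, l, σ⟩ := p
      obtain ⟨j, l', τ⟩ := q
      simp only [Prod.mk.injEq] at hpq
      obtain ⟨rfl, rfl⟩ := hpq
      rfl
    · rw [tot_off (b := (Sum.inr p, Sum.inr q)) _ _ hpq]
      exact h (Sum.inr p, Sum.inr q) hpq

/-- the generic block -/
noncomputable def gb (K : Subfield ℂ) (l : Fin k) (σ : Fin s) : Matrix (Fin n) (Fin n) (MvPolynomial (IX n r s k × IX n r s k) K) :=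
  Matrix.of fun i j => MvPolynomial.X (Sum.inr (i, (l, σ)), Sum.inr (j, (l, σ)))

theorem gb_eval (z : Matrix (IX n r s k) (IX n r s k) ℂ) (l : Fin k) (σ : Fin s) :
    MvPolynomial.eval (fun b => z b.1 b.2) (MvPolynomial.map (algebraMap K ℂ) (gb K l σ).det) = (b1 z l σ).det := by
  have h1 : MvPolynomial.eval (fun b => z b.1 b.2) (MvPolynomial.map (algebraMap K ℂ) (gb K l σ).det) =
      ((MvPolynomial.eval (fun b : IX n r s k × IX n r s k => z b.1 b.2)).comp (MvPolynomial.map (algebraMap K ℂ))) (gb K l σ).det := rfl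
  rw [h1, RingHom.map_det]
  congr 1
  ext i j
  rw [RingHom.mapMatrix_apply, Matrix.map_apply]
  unfold gb b1
  rw [Matrix.of_apply, Matrix.of_apply, RingHom.comp_apply, MvPolynomial.map_X, MvPolynomial.eval_X]

/-- the torsor of the block matrices with the same determinants -/
def S0 (n r s k : ℕ) (l₀ : Fin k) : Set (Matrix (IX n r s k) (IX n r s k) ℂ) :=
  {z | ∃ (x : Matrix (Fin r) (Fin r) ℂ) (X : Fin k → Fin s → Matrix (Fin n) (Fin n) ℂ), z = tot x X ∧ IsUnit z ∧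
    ∀ l σ, (X l σ).det = (X l₀ σ).det}

theorem det_cinv {x y z : Matrix (Fin n) (Fin n) ℂ} : (x * y⁻¹ * z).det = x.det * y.det⁻¹ * z.det := by
  rw [Matrix.det_mul, Matrix.det_mul, Matrix.det_nonsing_inv, Ring.inverse_eq_inv']

theorem S0_sub (K : Subfield ℂ) (l₀ : Fin k) : SubT K (S0 n r s k l₀) := by
  refine ⟨?_, {p | (∃ b : IX n r s k × IX n r s k, off b ∧ p = MvPolynomial.X b) ∨ ∃ l σ, p = (gb K l σ).det - (gb K l₀ σ).det}, fun z => ?_⟩
  · rintro _ ⟨x, X, rfl, hx, hX⟩ _ ⟨y, Y, rfl, hy, hY⟩ _ ⟨z, Z, rfl, hz, hZ⟩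
    have h1 : tot x X * (tot y Y)⁻¹ * tot z Z = tot (x * y⁻¹ * z) (fun l σ => X l σ * (Y l σ)⁻¹ * Z l σ) := by
      rw [tot_inv hy, tot_mul, tot_mul]
    refine ⟨_, _, h1, (hx.mul (inv_unit hy)).mul hz, fun l σ => ?_⟩
    rw [det_cinv, det_cinv, hX l, hY l, hZ l]
  · constructor
    · rintro ⟨x, X, rfl, hx, hX⟩
      refine ⟨hx, ?_⟩
      rintro p (⟨b, hb, rfl⟩ | ⟨l, σ, rfl⟩)
      · rw [eval_X', tot_off _ _ hb]
      · rw [map_sub, map_sub, gb_eval, gb_eval, b1_tot, b1_tot, hX l, sub_self]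
    · rintro ⟨hz, h⟩
      have h1 := eq_tot (z := z) fun b hb => by
        have := h (MvPolynomial.X b) (Or.inl ⟨b, hb, rfl⟩)
        rwa [eval_X'] at this
      refine ⟨_, _, h1, hz, fun l σ => ?_⟩
      have h2 := h _ (Or.inr ⟨l, σ, rfl⟩)
      rw [map_sub, map_sub, gb_eval, gb_eval, sub_eq_zero] at h2
      exact h2

/-- `x ⊕ diag d` -/
noncomputable def bt (x : Matrix (Fin r) (Fin r) ℂ) (d : Fin s → ℂ) : Matrix (Fin r ⊕ Fin s) (Fin r ⊕ Fin s) ℂ :=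
  Matrix.fromBlocks x 0 0 (Matrix.diagonal d)

theorem bt_mul (x y : Matrix (Fin r) (Fin r) ℂ) (d e : Fin s → ℂ) : bt x d * bt y e = bt (x * y) (fun σ => d σ * e σ) := by
  unfold bt
  rw [Matrix.fromBlocks_multiply, Matrix.diagonal_mul_diagonal]
  simp

theorem bt_unit {x : Matrix (Fin r) (Fin r) ℂ} {d : Fin s → ℂ} : IsUnit (bt x d) ↔ IsUnit x ∧ ∀ σ, d σ ≠ 0 := by
  unfold bt
  simp only [Matrix.isUnit_iff_isUnit_det]
  rw [Matrix.det_fromBlocks_zero₂₁, Matrix.det_diagonal, IsUnit.mul_iff]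
  refine and_congr_right fun _ => ?_
  simp only [isUnit_iff_ne_zero, ne_eq, Finset.prod_eq_zero_iff, not_exists, not_and, Finset.mem_univ, true_implies]

theorem bt_inv {x : Matrix (Fin r) (Fin r) ℂ} {d : Fin s → ℂ} (h : IsUnit (bt x d)) :
    (bt x d)⁻¹ = bt x⁻¹ (fun σ => (d σ)⁻¹) := by
  obtain ⟨h1, h2⟩ := bt_unit.1 h
  refine Matrix.inv_eq_right_inv ?_
  rw [bt_mul, Matrix.mul_nonsing_inv x ((Matrix.isUnit_iff_isUnit_det _).1 h1)]
  have h3 : (fun σ => d σ * (d σ)⁻¹) = fun _ => 1 := by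
    funext σ
    exact mul_inv_cancel₀ (h2 σ)
  rw [h3]
  unfold bt
  rw [Matrix.diagonal_one, Matrix.fromBlocks_one]

/-- the torsor of the block matrices `x ⊕ diag d` -/
def S1s (r s : ℕ) : Set (Matrix (Fin r ⊕ Fin s) (Fin r ⊕ Fin s) ℂ) := {z | ∃ x d, z = bt x d ∧ IsUnit z}

theorem S1s_sub (K : Subfield ℂ) : SubT K (S1s r s) := by
  refine ⟨?_, {p | ∃ b : (Fin r ⊕ Fin s) × (Fin r ⊕ Fin s), (∀ (x : Matrix (Fin r) (Fin r) ℂ) (d : Fin s → ℂ), bt x d b.1 b.2 = 0) ∧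
    p = MvPolynomial.X b}, fun z => ?_⟩
  · rintro _ ⟨x, d, rfl, hx⟩ _ ⟨y, e, rfl, hy⟩ _ ⟨z, f, rfl, hz⟩
    refine ⟨x * y⁻¹ * z, fun σ => d σ * (e σ)⁻¹ * f σ, ?_, (hx.mul (inv_unit hy)).mul hz⟩
    rw [bt_inv hy, bt_mul, bt_mul]
  · constructor
    · rintro ⟨x, d, rfl, hx⟩
      refine ⟨hx, ?_⟩
      rintro p ⟨b, hb, rfl⟩
      rw [eval_X', hb]
    · rintro ⟨hz, h⟩
      refine ⟨Matrix.of fun i j => z (Sum.inl i) (Sum.inl j), fun σ => z (Sum.inr σ) (Sum.inr σ), ?_, hz⟩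
      have h1 : ∀ b : (Fin r ⊕ Fin s) × (Fin r ⊕ Fin s), (∀ (x : Matrix (Fin r) (Fin r) ℂ) (d : Fin s → ℂ), bt x d b.1 b.2 = 0) →
          z b.1 b.2 = 0 := by
        intro b hb
        have := h _ ⟨b, hb, rfl⟩
        rwa [eval_X'] at this
      ext b1 b2
      rcases b1 with i | σ <;> rcases b2 with j | τ
      · rfl
      · exact h1 (Sum.inl i, Sum.inr τ) fun x d => rfl
      · exact h1 (Sum.inr σ, Sum.inl j) fun x d => rfl
      · by_cases hst : σ = τ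
        · subst hst
          unfold bt
          rw [Matrix.fromBlocks_apply₂₂, Matrix.diagonal_apply_eq]
        · have h2 : ∀ (x : Matrix (Fin r) (Fin r) ℂ) (d : Fin s → ℂ), bt x d (Sum.inr σ) (Sum.inr τ) = 0 := by
            intro x d
            unfold bt
            rw [Matrix.fromBlocks_apply₂₂, Matrix.diagonal_apply_ne _ hst]
          rw [h2]
          exact h1 (Sum.inr σ, Sum.inr τ) h2

/-- the matrix `diag (e, 1, …, 1)` -/
noncomputable def Dg (n : ℕ) (e : ℂ) : Matrix (Fin n) (Fin n) ℂ := Matrix.diagonal fun i => if (i : ℕ) = 0 then e else 1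

theorem Dg_det (hn : 0 < n) (e : ℂ) : (Dg n e).det = e := by
  unfold Dg
  rw [Matrix.det_diagonal]
  rw [Finset.prod_eq_single (⟨0, hn⟩ : Fin n)]
  · simp
  · intro i _ hi
    rw [if_neg]
    intro h
    exact hi (Fin.ext h)
  · intro h
    exact absurd (Finset.mem_univ _) h

theorem Dg_mul (d e : ℂ) : Dg n d * Dg n e = Dg n (d * e) := by
  unfold Dg
  rw [Matrix.diagonal_mul_diagonal]
  congr 1
  funext i
  split_ifs
  · rfl
  · rw [one_mul]

theorem Dg_one : Dg n 1 = 1 := by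
  unfold Dg
  simp only [ite_self]
  exact Matrix.diagonal_one

theorem Dg_unit {e : ℂ} (he : e ≠ 0) : IsUnit (Dg n e) := by
  refine IsUnit.of_mul_eq_one (Dg n e⁻¹) ?_
  rw [Dg_mul, mul_inv_cancel₀ he, Dg_one]

theorem Dg_inv {e : ℂ} (he : e ≠ 0) : (Dg n e)⁻¹ = Dg n e⁻¹ := by
  refine Matrix.inv_eq_right_inv ?_
  rw [Dg_mul, mul_inv_cancel₀ he, Dg_one]

/-- the map `x ⊕ diag d ↦ x ⊕ ⊕ diag (d_σ, 1, …, 1)` -/
noncomputable def Ph (n r s k : ℕ) (z : Matrix (Fin r ⊕ Fin s) (Fin r ⊕ Fin s) ℂ) : Matrix (IX n r s k) (IX n r s k) ℂ :=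
  tot (Matrix.of fun i j => z (Sum.inl i) (Sum.inl j)) fun _ σ => Dg n (z (Sum.inr σ) (Sum.inr σ))

theorem Ph_bt (x : Matrix (Fin r) (Fin r) ℂ) (d : Fin s → ℂ) : Ph n r s k (bt x d) = tot x fun _ σ => Dg n (d σ) := by
  unfold Ph bt
  congr 1
  funext l σ
  rw [Matrix.fromBlocks_apply₂₂, Matrix.diagonal_apply_eq]

open Classical in
/-- the polynomials -/
noncomputable def PhP (K : Subfield ℂ) (n r s k : ℕ) (b : IX n r s k × IX n r s k) :
    MvPolynomial ((Fin r ⊕ Fin s) × (Fin r ⊕ Fin s)) K :=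
  match b with
  | (Sum.inl i, Sum.inl j) => MvPolynomial.X (Sum.inl i, Sum.inl j)
  | (Sum.inl _, Sum.inr _) => 0
  | (Sum.inr _, Sum.inl _) => 0
  | (Sum.inr p, Sum.inr q) => if p = q then (if (p.1 : ℕ) = 0 then MvPolynomial.X (Sum.inr p.2.2, Sum.inr p.2.2) else 1) else 0

theorem PhP_eval (z : Matrix (Fin r ⊕ Fin s) (Fin r ⊕ Fin s) ℂ) (b : IX n r s k × IX n r s k) :
    Ph n r s k z b.1 b.2 = MvPolynomial.eval (fun b => z b.1 b.2) (MvPolynomial.map (algebraMap K ℂ) (PhP K n r s k b)) := by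
  obtain ⟨b1, b2⟩ := b
  rcases b1 with i | p <;> rcases b2 with j | q
  · unfold PhP
    rw [eval_X']
    rfl
  · unfold PhP
    simp only [map_zero]
    rfl
  · unfold PhP
    simp only [map_zero]
    rfl
  · unfold PhP Ph tot
    simp only [Matrix.fromBlocks_apply₂₂, Matrix.blockDiagonal_apply]
    obtain ⟨i, l, σ⟩ := p
    obtain ⟨j, l', τ⟩ := q
    by_cases h : (l, σ) = (l', τ)
    · simp only [Prod.mk.injEq] at h
      obtain ⟨rfl, rfl⟩ := h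
      rw [if_pos rfl]
      unfold Dg
      by_cases hij : i = j
      · subst hij
        rw [Matrix.diagonal_apply_eq, if_pos rfl]
        split_ifs
        · rw [eval_X']
        · rw [map_one, map_one]
      · rw [Matrix.diagonal_apply_ne _ hij, if_neg (fun h => hij (congrArg Prod.fst h)), map_zero, map_zero]
    · rw [if_neg h, if_neg (fun h' => h (congrArg Prod.snd h')), map_zero, map_zero]

/-- the map `x ⊕ ⊕ X_lσ ↦ x ⊕ diag (det X_l₀σ)` -/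
noncomputable def Qh (n r s k : ℕ) (l₀ : Fin k) (z : Matrix (IX n r s k) (IX n r s k) ℂ) : Matrix (Fin r ⊕ Fin s) (Fin r ⊕ Fin s) ℂ :=
  bt (b0 z) fun σ => (b1 z l₀ σ).det

open Classical in
/-- the polynomials -/
noncomputable def QhP (K : Subfield ℂ) (n r s k : ℕ) (l₀ : Fin k) (b : (Fin r ⊕ Fin s) × (Fin r ⊕ Fin s)) :
    MvPolynomial (IX n r s k × IX n r s k) K :=
  match b with
  | (Sum.inl i, Sum.inl j) => MvPolynomial.X (Sum.inl i, Sum.inl j)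
  | (Sum.inl _, Sum.inr _) => 0
  | (Sum.inr _, Sum.inl _) => 0
  | (Sum.inr σ, Sum.inr τ) => if σ = τ then (gb K l₀ σ).det else 0

theorem QhP_eval (l₀ : Fin k) (z : Matrix (IX n r s k) (IX n r s k) ℂ) (b : (Fin r ⊕ Fin s) × (Fin r ⊕ Fin s)) :
    Qh n r s k l₀ z b.1 b.2 = MvPolynomial.eval (fun b => z b.1 b.2) (MvPolynomial.map (algebraMap K ℂ) (QhP K n r s k l₀ b)) := by
  obtain ⟨b1, b2⟩ := b
  rcases b1 with i | σ <;> rcases b2 with j | τ
  · unfold QhP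
    rw [eval_X']
    rfl
  · unfold QhP
    simp only [map_zero]
    rfl
  · unfold QhP
    simp only [map_zero]
    rfl
  · unfold QhP Qh bt
    simp only [Matrix.fromBlocks_apply₂₂]
    by_cases h : σ = τ
    · subst h
      rw [Matrix.diagonal_apply_eq, if_pos rfl, gb_eval]
    · rw [Matrix.diagonal_apply_ne _ h, if_neg h, map_zero, map_zero]

/-- **the smallest subtorsor in terms of the determinants** -/
theorem smallest_tot (hn : 0 < n) (hk : 0 < k) {C₀ : Matrix (Fin r) (Fin r) ℂ} (hC₀ : IsUnit C₀)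
    {P : Fin k → Fin s → Matrix (Fin n) (Fin n) ℂ} {δ : Fin s → ℂ} (hδ : ∀ σ, δ σ ≠ 0) (hP : ∀ l σ, (P l σ).det = δ σ)
    (hst : ∀ T : Set (Matrix (IX n r s k) (IX n r s k) ℂ), SubT K T → tot C₀ P ∈ T →
      ∀ g : Fin k → Fin s → Matrix (Fin n) (Fin n) ℂ, (∀ l σ, (g l σ).det = 1) → ∀ x ∈ T, tot 1 g * x ∈ T) :
    sm K (tot C₀ P) = {z | ∃ (x : Matrix (Fin r) (Fin r) ℂ) (X : Fin k → Fin s → Matrix (Fin n) (Fin n) ℂ) (d : Fin s → ℂ),
      z = tot x X ∧ bt x d ∈ sm K (bt C₀ δ) ∧ ∀ l σ, (X l σ).det = d σ} := by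
  have hu1 : IsUnit (bt C₀ δ) := bt_unit.2 ⟨hC₀, hδ⟩
  have hPu : ∀ l σ, IsUnit (P l σ) := fun l σ => (Matrix.isUnit_iff_isUnit_det _).2 (by rw [hP]; exact isUnit_iff_ne_zero.2 (hδ σ))
  have hu2 : IsUnit (tot C₀ P) := tot_unit.2 ⟨hC₀, hPu⟩
  set l₀ : Fin k := ⟨0, hk⟩ with hl₀
  -- the right hand side is a subtorsor
  have hS : {z | ∃ (x : Matrix (Fin r) (Fin r) ℂ) (X : Fin k → Fin s → Matrix (Fin n) (Fin n) ℂ) (d : Fin s → ℂ),
      z = tot x X ∧ bt x d ∈ sm K (bt C₀ δ) ∧ ∀ l σ, (X l σ).det = d σ} =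
      {z | z ∈ S0 n r s k l₀ ∧ Qh n r s k l₀ z ∈ sm K (bt C₀ δ)} := by
    ext z
    constructor
    · rintro ⟨x, X, d, rfl, h1, h2⟩
      have h3 := bt_unit.1 (sm_unit hu1 h1)
      refine ⟨⟨x, X, rfl, tot_unit.2 ⟨h3.1, fun l σ => (Matrix.isUnit_iff_isUnit_det _).2 (by
        rw [h2]; exact isUnit_iff_ne_zero.2 (h3.2 σ))⟩, fun l σ => by rw [h2, h2]⟩, ?_⟩
      unfold Qh
      rw [b0_tot]
      have h4 : (fun σ => (b1 (tot x X) l₀ σ).det) = d := by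
        funext σ
        rw [b1_tot, h2]
      rw [h4]
      exact h1
    · rintro ⟨⟨x, X, rfl, h1, h2⟩, h3⟩
      unfold Qh at h3
      rw [b0_tot] at h3
      simp only [b1_tot] at h3
      exact ⟨x, X, fun σ => (X l₀ σ).det, rfl, h3, h2⟩
  have hSsub : SubT K {z | z ∈ S0 n r s k l₀ ∧ Qh n r s k l₀ z ∈ sm K (bt C₀ δ)} := by
    refine comap_sub (S0_sub K l₀) (Qh n r s k l₀) (QhP K n r s k l₀) (fun z _ b => QhP_eval l₀ z b) ?_ ?_ (sm_sub hu1)
    · rintro _ ⟨x, X, rfl, hx, hX⟩ _ ⟨y, Y, rfl, hy, hY⟩ _ ⟨z, Z, rfl, hz, hZ⟩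
      have h1 : ∀ (x : Matrix (Fin r) (Fin r) ℂ) (X : Fin k → Fin s → Matrix (Fin n) (Fin n) ℂ), Qh n r s k l₀ (tot x X) = bt x fun σ => (X l₀ σ).det := by
        intro x X
        unfold Qh
        rw [b0_tot]
        simp only [b1_tot]
      have hY0 : IsUnit (bt y fun σ => (Y l₀ σ).det) := by
        have h2 := tot_unit.1 hy
        exact bt_unit.2 ⟨h2.1, fun σ => ((Matrix.isUnit_iff_isUnit_det _).1 (h2.2 l₀ σ)).ne_zero⟩
      rw [tot_inv hy, tot_mul, tot_mul, h1, h1, h1, h1, bt_inv hY0, bt_mul, bt_mul]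
      congr 1
      funext σ
      rw [det_cinv]
    · rintro _ ⟨x, X, rfl, hx, hX⟩
      have h2 := tot_unit.1 hx
      unfold Qh
      rw [b0_tot]
      simp only [b1_tot]
      exact bt_unit.2 ⟨h2.1, fun σ => ((Matrix.isUnit_iff_isUnit_det _).1 (h2.2 l₀ σ)).ne_zero⟩
  refine Set.Subset.antisymm ?_ ?_
  · intro z hz
    refine hz _ (by rw [hS]; exact hSsub) ⟨C₀, P, δ, rfl, mem_sm_self _, hP⟩
  · rintro _ ⟨x, X, d, rfl, h1, h2⟩ T hT hcT
    -- change of the blocks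
    have hchange : ∀ (x : Matrix (Fin r) (Fin r) ℂ) (X Y : Fin k → Fin s → Matrix (Fin n) (Fin n) ℂ),
        (∀ l σ, (X l σ).det = (Y l σ).det) → tot x X ∈ T → tot x Y ∈ T := by
      intro x X Y hXY hX
      obtain ⟨hT1, I, hI⟩ := id hT
      have h3 := tot_unit.1 ((hI _).1 hX).1
      have h4 := hst T hT hcT (fun l σ => Y l σ * (X l σ)⁻¹) (fun l σ => by
        rw [Matrix.det_mul, Matrix.det_nonsing_inv, Ring.inverse_eq_inv', hXY]
        refine mul_inv_cancel₀ ?_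
        rw [← hXY]
        exact ((Matrix.isUnit_iff_isUnit_det _).1 (h3.2 l σ)).ne_zero) _ hX
      rw [tot_mul, one_mul] at h4
      have h5 : (fun l σ => Y l σ * (X l σ)⁻¹ * X l σ) = Y := by
        funext l σ
        rw [Matrix.mul_assoc, Matrix.nonsing_inv_mul _ ((Matrix.isUnit_iff_isUnit_det _).1 (h3.2 l σ)), Matrix.mul_one]
      rwa [h5] at h4
    have hT1 : SubT K {z | z ∈ S1s r s ∧ Ph n r s k z ∈ T} := by
      refine comap_sub (S1s_sub K) (Ph n r s k) (PhP K n r s k) (fun z _ b => PhP_eval z b) ?_ ?_ hT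
      · rintro _ ⟨x, d, rfl, hx⟩ _ ⟨y, e, rfl, hy⟩ _ ⟨z, f, rfl, hz⟩
        have h3 := bt_unit.1 hy
        have h4 : IsUnit (tot y fun (_ : Fin k) σ => Dg n (e σ)) := tot_unit.2 ⟨h3.1, fun l σ => Dg_unit (h3.2 σ)⟩
        rw [bt_inv hy, bt_mul, bt_mul, Ph_bt, Ph_bt, Ph_bt, Ph_bt, tot_inv h4, tot_mul, tot_mul]
        congr 1
        funext l σ
        rw [Dg_inv (h3.2 σ), Dg_mul, Dg_mul]
      · rintro _ ⟨x, d, rfl, hx⟩
        have h3 := bt_unit.1 hx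
        rw [Ph_bt]
        exact tot_unit.2 ⟨h3.1, fun l σ => Dg_unit (h3.2 σ)⟩
    have h3 : bt C₀ δ ∈ {z | z ∈ S1s r s ∧ Ph n r s k z ∈ T} := by
      refine ⟨⟨C₀, δ, rfl, hu1⟩, ?_⟩
      rw [Ph_bt]
      refine hchange C₀ P _ (fun l σ => ?_) hcT
      rw [hP, Dg_det hn]
    obtain ⟨-, h4⟩ := h1 _ hT1 h3
    rw [Ph_bt] at h4
    refine hchange x _ X (fun l σ => ?_) h4
    rw [Dg_det hn, h2]

end tot

end Pool.Agent.K1H12.SE
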