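import Pool.Agent.K1H12.SE.Conv
import Pool.Agent.K1H12.SE.Tor

/-!
# Superelliptic periods: almost all tuples of fibres
-/

set_option autoImplicit false

namespace Pool.Agent.K1H12.SE

open Finset Matrix
open Pool.Agent.Y123.GN Pool.Agent.Y123.SR Pool.Agent.Y123.ST
open Pool.Agent.Y113

variable {n r s k : ℕ}

/-- the two index sets -/
def eps (n r s k : ℕ) : (Fin r ⊕ (Fin (n * s) × Fin k)) ≃ IX n r s k :=
  Equiv.sumCongr (Equiv.refl _) ⟨fun p => ((finProdFinEquiv.symm p.1).1, (p.2, (finProdFinEquiv.symm p.1).2)),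
    fun q => (finProdFinEquiv (q.1, q.2.2), q.2.1), fun p => Prod.ext (Equiv.apply_symm_apply _ _) rfl,
    fun q => by simp only [Equiv.symm_apply_apply]⟩

theorem eps_inr (i : Fin n) (σ : Fin s) (l : Fin k) : eps n r s k (Sum.inr (finProdFinEquiv (i, σ), l)) = Sum.inr (i, (l, σ)) := by
  change Sum.inr ((finProdFinEquiv.symm (finProdFinEquiv (i, σ))).1, (l, (finProdFinEquiv.symm (finProdFinEquiv (i, σ))).2)) = _
  rw [Equiv.symm_apply_apply]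

theorem E2_eq (x : Matrix (Fin r) (Fin r) ℂ) (X : Fin k → Fin s → Matrix (Fin n) (Fin n) ℂ) :
    E2 x (fun l => bigM (X l)) = (tot x X).submatrix (eps n r s k) (eps n r s k) := by
  ext b1 b2
  rcases b1 with i | ⟨p, l⟩ <;> rcases b2 with j | ⟨q, l'⟩
  · rfl
  · rfl
  · rfl
  · obtain ⟨⟨i, σ⟩, rfl⟩ := finProdFinEquiv.surjective p
    obtain ⟨⟨j, τ⟩, rfl⟩ := finProdFinEquiv.surjective q
    rw [Matrix.submatrix_apply, eps_inr, eps_inr]
    unfold E2 tot bd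
    rw [Matrix.fromBlocks_apply₂₂, Matrix.fromBlocks_apply₂₂, Matrix.blockDiagonal_apply, Matrix.blockDiagonal_apply]
    simp only [Prod.mk.injEq]
    by_cases hl : l = l'
    · rw [if_pos hl, bigM_apply]
      simp only [hl, true_and]
    · rw [if_neg hl, if_neg (fun h => hl h.1)]

/-- the conclusion for a tuple of fibres -/
def Cn (K : Subfield ℂ) (C₀ : Matrix (Fin r) (Fin r) ℂ) (a : Fin n → ℝ) (p : Fin (n + 1)) (μ : Fin s → ℝ) (δ : Fin s → ℂ)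
    (e : ℕ) (m : Fin k → ℕ) : Prop :=
  (∀ l, StrictMono (brp a p (1 / (m l : ℝ)))) ∧
  (∀ l σ, (prd a p (μ σ) (1 / (m l : ℝ))).det = δ σ) ∧
  (∀ T : Set (Matrix (IX n r s k) (IX n r s k) ℂ), SubT K T → tot C₀ (fun l σ => prd a p (μ σ) (1 / (m l : ℝ))) ∈ T →
    ∀ g : Fin k → Fin s → Matrix (Fin n) (Fin n) ℂ, (∀ l σ, (g l σ).det = 1) → ∀ x ∈ T, tot 1 g * x ∈ T) ∧
  ∀ R : MvPolynomial (IX n r s k × IX n r s k) K, R.totalDegree ≤ e →
    MvPolynomial.eval (fun b => tot C₀ (fun l σ => prd a p (μ σ) (1 / (m l : ℝ))) b.1 b.2) (MvPolynomial.map (algebraMap K ℂ) R) = 0 →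
    ∀ g : Fin k → Fin s → Matrix (Fin n) (Fin n) ℂ, (∀ l σ, (g l σ).det = 1) →
    MvPolynomial.eval (fun b => (tot 1 g * tot C₀ (fun l σ => prd a p (μ σ) (1 / (m l : ℝ))) :
      Matrix (IX n r s k) (IX n r s k) ℂ) b.1 b.2) (MvPolynomial.map (algebraMap K ℂ) R) = 0

theorem cn_of {a : Fin n → ℝ} {p : Fin (n + 1)} (ha : StrictMono a) {μ : Fin s → ℝ} (hn : 2 ≤ n)
    {Z : Fin s → Matrix (Fin n) (Fin n) (PowerSeries ℚ)} {ρ : ℝ}
    (hN : Near n (exq a) μ p Z (fun σ => Rm n (exq a) (μ σ) p 0) ρ) {x₀ : ℕ} (hx₀ : 0 < x₀) (hρ : 1 / (x₀ : ℝ) ≤ ρ)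
    (hgal1 : ∀ N ∈ NN n s, ∀ t : ℂ, Gal (bigM fun σ => Rm n (exq a) (μ σ) p 0) (fun i j => bigM Z i j) x₀ (IsNilpotent.exp (t • N)))
    (hgal2 : ∀ g : Fin s → SpecialLinearGroup (Fin n) ℂ, Gal (bigM fun σ => Rm n (exq a) (μ σ) p 0) (fun i j => bigM Z i j) x₀
      (bigM fun σ => (g σ).1))
    {K : Subfield ℂ} {C₀ : Matrix (Fin r) (Fin r) ℂ} {e : ℕ} {m : Fin k → ℕ}
    (hG : Good K C₀ (bigM fun σ => Rm n (exq a) (μ σ) p 0) (fun i j => bigM Z i j) x₀ e m) :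
    Cn K C₀ a p μ (fun σ => (Rm n (exq a) (μ σ) p 0).det) e m := by
  obtain ⟨hm, hfull, W, hKW, hW, hspec⟩ := hG
  have hx₀' : (0 : ℝ) < x₀ := by exact_mod_cast hx₀
  have hsmall : ∀ l, |1 / (m l : ℝ)| < ρ := by
    intro l
    rw [abs_of_pos (one_div_pos.2 (hx₀'.trans (hm l)))]
    exact lt_of_lt_of_le (one_div_lt_one_div_of_lt hx₀' (hm l)) hρ
  have hreal : ∀ l σ, prd a p (μ σ) (1 / (m l : ℝ)) = Rm n (exq a) (μ σ) p 0 * Zc (Z σ) ((1 / (m l : ℝ) : ℝ) : ℂ) := by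
    intro l σ
    rw [prd_eq]
    exact hN.real _ (hsmall l) σ
  have hblk : ∀ l, (Pool.Agent.Y123.GN.blk (fun q : Fin k × (Fin (n * s) × Fin (n * s)) =>
      GG.pv (bigM fun σ => Rm n (exq a) (μ σ) p 0) (fun i j => bigM Z i j) (m q.1) q.2) l) =
      bigM fun σ => prd a p (μ σ) (1 / (m l : ℝ)) := by
    intro l
    have h1 := pv_big (fun σ => Rm n (exq a) (μ σ) p 0) Z (m l)
    have h2 : (fun σ => prd a p (μ σ) (1 / (m l : ℝ))) = fun σ => Rm n (exq a) (μ σ) p 0 * Zc (Z σ) ((1 / (m l : ℝ) : ℝ) : ℂ) := by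
      funext σ
      exact hreal l σ
    rw [h2, ← h1]
    rfl
  have hE : E2 C₀ (Pool.Agent.Y123.GN.blk (fun q : Fin k × (Fin (n * s) × Fin (n * s)) =>
      GG.pv (bigM fun σ => Rm n (exq a) (μ σ) p 0) (fun i j => bigM Z i j) (m q.1) q.2)) =
      (tot C₀ (fun l σ => prd a p (μ σ) (1 / (m l : ℝ)))).submatrix (eps n r s k) (eps n r s k) := by
    rw [← E2_eq]
    congr 1
    funext l
    exact hblk l
  refine ⟨fun l => ?_, fun l σ => ?_, ?_, ?_⟩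
  · exact brp_mono ha (hN.gap _ (hsmall l))
  · rw [hreal l σ, Matrix.det_mul, hN.det _ (by rw [Complex.norm_real, Real.norm_eq_abs]; exact hsmall l), mul_one]
  · intro T hT hcT g hg x hx
    have hT' := reindex_sub (K := K) (eps n r s k).symm hT
    have h1 := hfull _ (subT_iff.1 hT') (by
      rw [hE]
      change ((tot C₀ (fun l σ => prd a p (μ σ) (1 / (m l : ℝ)))).submatrix (eps n r s k) (eps n r s k)).submatrix
        (eps n r s k).symm (eps n r s k).symm ∈ T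
      rw [Matrix.submatrix_submatrix, Equiv.self_comp_symm, Matrix.submatrix_id_id]
      exact hcT)
    have h2 := h1.1 (NN n s) (fun N hN => ⟨2, NN_sq hN⟩) hgal1 NN_perf (fun l => bigM (g l))
      (fun l => EG_NN hn fun σ => ⟨g l σ, hg l σ⟩) (x.submatrix (eps n r s k) (eps n r s k)) (by
        change ((x.submatrix (eps n r s k) (eps n r s k)).submatrix (eps n r s k).symm (eps n r s k).symm ∈ T)
        rw [Matrix.submatrix_submatrix, Equiv.self_comp_symm, Matrix.submatrix_id_id]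
        exact hx)
    rw [E2_eq, Matrix.submatrix_mul_equiv] at h2
    have h3 : (((tot 1 g * x).submatrix (eps n r s k) (eps n r s k)).submatrix (eps n r s k).symm (eps n r s k).symm ∈ T) := h2
    rw [Matrix.submatrix_submatrix, Equiv.self_comp_symm, Matrix.submatrix_id_id] at h3
    exact h3
  · intro R hR hR0 g hg
    have h2 := spec_gal hspec hm (g := fun l => bigM (g l)) fun l => hgal2 fun σ => ⟨g l σ, hg l σ⟩
    have h3 := Rl_sum (g := fun l => bigM (g l))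
      (y := fun l => GG.pv (bigM fun σ => Rm n (exq a) (μ σ) p 0) (fun i j => bigM Z i j) (m l)) hKW hW h2
    have hmap : ∀ z : Matrix (IX n r s k) (IX n r s k) ℂ, MvPolynomial.eval (fl (z.submatrix (eps n r s k) (eps n r s k)))
        (MvPolynomial.map (algebraMap K ℂ) (MvPolynomial.rename (fun b => ((eps n r s k).symm b.1, (eps n r s k).symm b.2)) R)) =
        MvPolynomial.eval (fun b => z b.1 b.2) (MvPolynomial.map (algebraMap K ℂ) R) := by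
      intro z
      rw [MvPolynomial.map_rename, MvPolynomial.eval_rename]
      congr 2
      funext b
      simp [fl]
    have hdeg : (MvPolynomial.map (algebraMap K ℂ) (MvPolynomial.rename (fun b : IX n r s k × IX n r s k =>
        ((eps n r s k).symm b.1, (eps n r s k).symm b.2)) R)).totalDegree ≤ e := by
      refine le_trans ?_ ((MvPolynomial.totalDegree_rename_le (fun b : IX n r s k × IX n r s k =>
        ((eps n r s k).symm b.1, (eps n r s k).symm b.2)) R).trans hR)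
      refine Finset.sup_mono (fun c hc => ?_)
      rw [MvPolynomial.mem_support_iff] at hc ⊢
      intro h0
      rw [MvPolynomial.coeff_map, h0, map_zero] at hc
      exact hc rfl
    have hco : ∀ c, (MvPolynomial.map (algebraMap K ℂ) (MvPolynomial.rename (fun b : IX n r s k × IX n r s k =>
        ((eps n r s k).symm b.1, (eps n r s k).symm b.2)) R)).coeff c ∈ K := by
      intro c
      rw [MvPolynomial.coeff_map]
      exact (MvPolynomial.coeff c (MvPolynomial.rename (fun b : IX n r s k × IX n r s k =>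
        ((eps n r s k).symm b.1, (eps n r s k).symm b.2)) R)).2
    have h4 := h3 _ hco hdeg
    rw [hE, hmap] at h4
    have h5 := h4 hR0
    rw [E2_eq, Matrix.submatrix_mul_equiv, hmap] at h5
    exact h5

open Classical in
/-- **almost all tuples** -/
theorem main_se (hn : 2 ≤ n) {a : Fin n → ℝ} {f : Polynomial ℚ}
    (hf : f.map (algebraMap ℚ ℝ) = ∏ i, (Polynomial.X - Polynomial.C (a i))) {p : Fin (n + 1)} (ha : StrictMono (brp a p 0))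
    {μ : Fin s → ℚ} (h0 : ∀ σ, 0 < μ σ) (h1 : ∀ σ, μ σ < 1) (hμ : Function.Injective μ)
    (hμ' : ∀ σ τ, σ ≠ τ → μ σ + μ τ ≠ 1) (h2 : 3 ≤ n → ∀ σ, 2 * μ σ ≠ 1)
    (h3 : 3 ≤ n → ∀ σ, ∀ j : ℤ, ((n - 1 : ℕ) : ℚ) * μ σ ≠ j) :
    ∃ δ : Fin s → ℂ, (∀ σ, δ σ ≠ 0) ∧ ∃ G₀ : ℕ, ∀ k D r e : ℕ,
      (∃ M : ℕ, ∃ c : ℝ, 0 < c ∧ ∀ K : Subfield ℂ, FiniteDimensional ℚ K → Module.finrank ℚ K ≤ D →
        ∀ C₀ : Matrix (Fin r) (Fin r) ℂ, ∀ N : ℕ, 1 ≤ N →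
        ∃ S : Finset ℕ, S.card ≤ M ∧ ∀ m : Fin k → ℕ, (∀ i j, i ≠ j → (G₀ : ℤ) ≤ |(m i : ℤ) - m j|) →
          (∀ i, N ≤ m i ∧ (m i : ℝ) ≤ N + (N : ℝ) ^ c ∧ m i ∉ S) → Cn K C₀ a p (fun σ => (μ σ : ℝ)) δ e m) ∧
      ∃ c : ℝ, 0 < c ∧ ∃ C : ℝ, ∀ K : Subfield ℂ, FiniteDimensional ℚ K → Module.finrank ℚ K ≤ D →
        ∀ C₀ : Matrix (Fin r) (Fin r) ℂ, ∀ T : ℕ, 1 ≤ T →
        (((Fintype.piFinset fun _ : Fin k => Finset.Icc 2 T).filter fun m =>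
          ¬ Cn K C₀ a p (fun σ => (μ σ : ℝ)) δ e m).card : ℝ) ≤ C * (T : ℝ) ^ ((k : ℝ) - c) := by
  have ha' := mono_of_brp ha
  have hg := gap_of_brp ha
  have hc := cfg_of ha' hf
  have e0 : ∀ σ, (0 : ℝ) < (μ σ : ℝ) := fun σ => by exact_mod_cast h0 σ
  have e1 : ∀ σ, (μ σ : ℝ) < 1 := fun σ => by exact_mod_cast h1 σ
  have eμ : Function.Injective fun σ => (μ σ : ℝ) := fun σ τ h => hμ (Rat.cast_injective (α := ℝ) h)
  have eμ' : ∀ σ τ, σ ≠ τ → (μ σ : ℝ) + (μ τ : ℝ) ≠ 1 := fun σ τ h h' => hμ' σ τ h (by exact_mod_cast h')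
  have e2 : 3 ≤ n → ∀ σ, 2 * (μ σ : ℝ) ≠ 1 := fun hn σ h => h2 hn σ (by exact_mod_cast h)
  have e3 : 3 ≤ n → ∀ σ, ∀ j : ℤ, ((n - 1 : ℕ) : ℝ) * (μ σ : ℝ) ≠ j := fun hn σ j h => h3 hn σ j (by exact_mod_cast h)
  have hν : ∀ σ, (((1 - μ σ : ℚ)) : ℝ) = 1 - (μ σ : ℝ) := fun σ => by push_cast; rfl
  obtain ⟨Z, hZ, ρ, hN⟩ := exists_near hc hν e0 e1 hg
  have hf0 := coeff0_ne hc hg
  have hdat := dat_big hf0 fun σ => ((hZ σ).dat hc.deg hf0).2.2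
  obtain ⟨x₂, hx₂⟩ := exists_nat_ge (1 / ρ + 1)
  have hρ0 := hN.pos
  have hx₂0 : 0 < x₂ := by
    have h4 : (0 : ℝ) < x₂ := lt_of_lt_of_le (by positivity) hx₂
    exact_mod_cast h4
  obtain ⟨x₀, G₀, hx₀, hmain⟩ := eng hdat x₂
  have hx₀0 : 0 < x₀ := lt_of_lt_of_le hx₂0 hx₀
  have hx₀r : (0 : ℝ) < x₀ := by exact_mod_cast hx₀0
  have hρ : 1 / (x₀ : ℝ) ≤ ρ := by
    rw [div_le_iff₀ hx₀r]
    have h4 : (x₂ : ℝ) ≤ x₀ := by exact_mod_cast hx₀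
    have h5 : 1 / ρ ≤ x₀ := by linarith
    rw [div_le_iff₀ hρ0] at h5
    linarith
  -- the constant matrix
  set Ω : Matrix (Fin (n * s)) (Fin (n * s)) ℂ := bigM fun σ => Rm n (exq a) (μ σ) p 0 with hΩ
  have hdet : ∀ σ, (Rm n (exq a) (μ σ) p 0).det ≠ 0 := fun σ => Rm_det hc.mono (e0 σ) (e1 σ) hg
  set Θ : Matrix (Fin (n * s)) (Fin (n * s)) ℂ := bigM fun σ => (Rm n (exq a) (μ σ) p 0)⁻¹ with hΘ
  have hΩΘ : Ω * Θ = 1 := by
    rw [hΩ, hΘ, bigM_mul, ← bigM_one]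
    congr 1
    funext σ
    exact Matrix.mul_nonsing_inv _ (isUnit_iff_ne_zero.2 (hdet σ))
  have hΘΩ : Θ * Ω = 1 := mul_eq_one_comm.1 hΩΘ
  have hgal2 : ∀ g : Fin s → SpecialLinearGroup (Fin n) ℂ, Gal Ω (fun i j => bigM Z i j) x₀ (bigM fun σ => (g σ).1) :=
    fun g => gal_big hn hc hν e0 e1 eμ eμ' e2 e3 hg hN hx₀r hρ g
  have hgal1 : ∀ N ∈ NN n s, ∀ t : ℂ, Gal Ω (fun i j => bigM Z i j) x₀ (IsNilpotent.exp (t • N)) :=
    fun N hNN t => NN_gal hn hc hν e0 e1 eμ eμ' e2 e3 hg hN hx₀r hρ hNN t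
  have hcn : ∀ {r k : ℕ} {K : Subfield ℂ} {C₀ : Matrix (Fin r) (Fin r) ℂ} {e : ℕ} {m : Fin k → ℕ},
      Good K C₀ Ω (fun i j => bigM Z i j) x₀ e m →
      Cn K C₀ a p (fun σ => (μ σ : ℝ)) (fun σ => (Rm n (exq a) (μ σ) p 0).det) e m := by
    intro r k K C₀ e m hG
    exact cn_of ha' hn hN hx₀0 hρ hgal1 hgal2 hG
  refine ⟨fun σ => (Rm n (exq a) (μ σ) p 0).det, hdet, G₀, fun k D r e => ?_⟩
  obtain ⟨⟨M, c₁, hc₁, hwin⟩, c, hc', C, hcount⟩ := hmain k D r e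
  refine ⟨⟨M, c₁, hc₁, ?_⟩, c, hc', C, ?_⟩
  · intro K hK hKD C₀ N hN1
    obtain ⟨S, hS, hS'⟩ := hwin Ω Θ hΩΘ hΘΩ K hK hKD (Fin r) C₀ (by simp) N hN1
    exact ⟨S, hS, fun m hm hmS => hcn (hS' m hm hmS)⟩
  · intro K hK hKD C₀ T hT
    refine le_trans ?_ (hcount Ω Θ hΩΘ hΘΩ K hK hKD (Fin r) C₀ (by simp) T hT)
    have h4 : ((Fintype.piFinset fun _ : Fin k => Finset.Icc 2 T).filter fun m =>
        ¬ Cn K C₀ a p (fun σ => (μ σ : ℝ)) (fun σ => (Rm n (exq a) (μ σ) p 0).det) e m) ⊆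
        ((Fintype.piFinset fun _ : Fin k => Finset.Icc 2 T).filter fun m => ¬ Good K C₀ Ω (fun i j => bigM Z i j) x₀ e m) := by
      intro m hm
      rw [Finset.mem_filter] at hm ⊢
      exact ⟨hm.1, fun h5 => hm.2 (hcn h5)⟩
    exact_mod_cast Finset.card_le_card h4

end Pool.Agent.K1H12.SE
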