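import Pool.Agent.K1H12.SE.Blk
import Pool.Agent.K1H12.SE.Eng

/-!
# Superelliptic periods: the unipotent elements and the group generated by them
-/

set_option autoImplicit false

namespace Pool.Agent.K1H12.SE

open Finset Matrix
open Pool.Agent.Y123.GN

variable {n s : ℕ}

/-- one block -/
noncomputable def Ls (σ : Fin s) : Matrix (Fin n) (Fin n) ℂ →ₗ[ℂ] Matrix (Fin (n * s)) (Fin (n * s)) ℂ where
  toFun A := bigM (Pi.single σ A)
  map_add' A B := by
    rw [Pi.single_add]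
    ext i j
    obtain ⟨p, rfl⟩ := finProdFinEquiv.surjective i
    obtain ⟨q, rfl⟩ := finProdFinEquiv.surjective j
    rw [Matrix.add_apply, bigM_apply, bigM_apply, bigM_apply]
    split_ifs
    · rfl
    · rw [add_zero]
  map_smul' c A := by
    rw [Pi.single_smul, RingHom.id_apply]
    ext i j
    obtain ⟨p, rfl⟩ := finProdFinEquiv.surjective i
    obtain ⟨q, rfl⟩ := finProdFinEquiv.surjective j
    rw [Matrix.smul_apply, bigM_apply, bigM_apply]
    split_ifs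
    · rfl
    · rw [smul_zero]

theorem Ls_apply (σ : Fin s) (A : Matrix (Fin n) (Fin n) ℂ) : Ls σ A = bigM (Pi.single σ A) := rfl

theorem Ls_mul (σ : Fin s) (A B : Matrix (Fin n) (Fin n) ℂ) : Ls σ A * Ls σ B = Ls σ (A * B) := by
  rw [Ls_apply, Ls_apply, Ls_apply, bigM_mul]
  congr 1
  funext τ
  by_cases h : τ = σ
  · subst h
    rw [Pi.single_eq_same, Pi.single_eq_same, Pi.single_eq_same]
  · rw [Pi.single_eq_of_ne h, Pi.single_eq_of_ne h, Pi.single_eq_of_ne h, Matrix.zero_mul]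

/-- one block, the others are one -/
theorem one_add_Ls (σ : Fin s) (A : Matrix (Fin n) (Fin n) ℂ) : 1 + Ls σ A = bigM fun τ => if τ = σ then 1 + A else 1 := by
  rw [Ls_apply, ← bigM_one]
  ext i j
  obtain ⟨p, rfl⟩ := finProdFinEquiv.surjective i
  obtain ⟨q, rfl⟩ := finProdFinEquiv.surjective j
  rw [Matrix.add_apply, bigM_apply, bigM_apply, bigM_apply]
  split_ifs with h1 h2
  · subst h2
    rw [Pi.single_eq_same, Matrix.add_apply]
  · rw [Pi.single_eq_of_ne h2, Matrix.zero_apply, add_zero]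
  · rw [add_zero]

/-- the nilpotent elements -/
def NN (n s : ℕ) : Set (Matrix (Fin (n * s)) (Fin (n * s)) ℂ) :=
  {N | ∃ (σ : Fin s) (v ψ : Fin n → ℂ), ψ ⬝ᵥ v = 0 ∧ N = Ls σ (vecMulVec v ψ)}

theorem NN_sq {N : Matrix (Fin (n * s)) (Fin (n * s)) ℂ} (hN : N ∈ NN n s) : N ^ 2 = 0 := by
  obtain ⟨σ, v, ψ, h, rfl⟩ := hN
  rw [sq, Ls_mul, r1_mul, h, zero_smul, map_zero]

theorem NN_exp {N : Matrix (Fin (n * s)) (Fin (n * s)) ℂ} (hN : N ∈ NN n s) (t : ℂ) :
    IsNilpotent.exp (t • N) = 1 + t • N := by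
  rw [IsNilpotent.exp_eq_sum (k := 2) (by rw [smul_pow, NN_sq hN, smul_zero]), sum_range_succ, sum_range_one]
  simp

theorem NN_perf : Perf (NN n s) := by
  rintro _ ⟨σ, v, ψ, h, rfl⟩
  by_cases hv : v = 0
  · rw [hv, zero_vecMulVec, map_zero]
    exact Submodule.zero_mem _
  by_cases hψ : ψ = 0
  · rw [hψ, vecMulVec_zero, map_zero]
    exact Submodule.zero_mem _
  obtain ⟨i, hi⟩ := Function.ne_iff.1 hv
  obtain ⟨j, hj⟩ := Function.ne_iff.1 hψ
  rw [Pi.zero_apply] at hi hj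
  set w : Fin n → ℂ := (ψ j)⁻¹ • ee j with hw
  set φ₀ : Fin n → ℂ := (v i)⁻¹ • ee i with hφ₀
  set φ : Fin n → ℂ := φ₀ - (φ₀ ⬝ᵥ w) • ψ with hφ
  have e1 : ψ ⬝ᵥ w = 1 := by
    rw [hw, dotProduct_smul, dotProduct_comm, ee_dot, smul_eq_mul, inv_mul_cancel₀ hj]
  have e2 : φ ⬝ᵥ w = 0 := by
    rw [hφ, sub_dotProduct, smul_dotProduct (φ₀ ⬝ᵥ w) ψ w, e1, smul_eq_mul, mul_one, sub_self]
  have e3 : φ ⬝ᵥ v = 1 := by
    rw [hφ, sub_dotProduct, smul_dotProduct (φ₀ ⬝ᵥ w) ψ v, h, smul_zero, sub_zero, hφ₀, smul_dotProduct, ee_dot, smul_eq_mul,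
      inv_mul_cancel₀ hi]
  have e4 : (φ - ψ) ⬝ᵥ (v + w) = 0 := by
    rw [sub_dotProduct, dotProduct_add, dotProduct_add, e1, e2, e3, h]
    ring
  have key : vecMulVec v ψ = (1 / 2 : ℂ) • ((vecMulVec (v + w) (φ - ψ) * vecMulVec v ψ - vecMulVec v ψ * vecMulVec (v + w) (φ - ψ)) +
      (vecMulVec v ψ * vecMulVec w φ - vecMulVec w φ * vecMulVec v ψ)) := by
    rw [r1_mul, r1_mul, r1_mul, r1_mul, sub_dotProduct, dotProduct_add, h, e1, e3, add_vecMulVec, vecMulVec_sub]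
    module
  rw [key, map_smul, map_add, map_sub, map_sub, ← Ls_mul, ← Ls_mul, ← Ls_mul, ← Ls_mul]
  refine Submodule.smul_mem _ _ (Submodule.add_mem _ (Submodule.subset_span ?_) (Submodule.subset_span ?_))
  · exact ⟨_, ⟨σ, _, _, e4, rfl⟩, _, ⟨σ, _, _, h, rfl⟩, rfl⟩
  · exact ⟨_, ⟨σ, _, _, h, rfl⟩, _, ⟨σ, _, _, e2, rfl⟩, rfl⟩

theorem det_one_add_r1 {v ψ : Fin n → ℂ} (h : ψ ⬝ᵥ v = 0) (t : ℂ) : (1 + t • vecMulVec v ψ).det = 1 := by
  rw [← smul_vecMulVec, vecMulVec_eq Unit, Matrix.det_one_add_replicateCol_mul_replicateRow]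
  rw [dotProduct_smul, h, smul_zero, add_zero]

/-- the nilpotent elements are Galois -/
theorem NN_gal {a : ℕ → ℝ} {m : ℕ} (hn : 2 ≤ n) {f : Polynomial ℚ} (hc : Cfg n a f) {μ : Fin s → ℝ} {ν : Fin s → ℚ} (hν : ∀ σ, (ν σ : ℝ) = 1 - μ σ)
    (h0 : ∀ σ, 0 < μ σ) (h1 : ∀ σ, μ σ < 1) (hμ : Function.Injective μ) (hμ' : ∀ σ τ, σ ≠ τ → μ σ + μ τ ≠ 1)
    (h2 : 3 ≤ n → ∀ σ, 2 * μ σ ≠ 1) (h3 : 3 ≤ n → ∀ σ, ∀ k : ℤ, ((n - 1 : ℕ) : ℝ) * μ σ ≠ k)
    (hg : Gap n a m 0) {Z : Fin s → Matrix (Fin n) (Fin n) (PowerSeries ℚ)} {C : Fin s → Matrix (Fin n) (Fin n) ℂ} {ρ : ℝ}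
    (hN : Near n a μ m Z C ρ) {x₀ : ℝ} (hx₀ : 0 < x₀) (hρ : 1 / x₀ ≤ ρ) {N : Matrix (Fin (n * s)) (Fin (n * s)) ℂ}
    (hNN : N ∈ NN n s) (t : ℂ) :
    Gal (bigM C) (fun i j => bigM Z i j) x₀ (IsNilpotent.exp (t • N)) := by
  rw [NN_exp hNN]
  obtain ⟨σ, v, ψ, h, rfl⟩ := hNN
  rw [← map_smul, one_add_Ls]
  have h4 : ∀ τ : Fin s, (if τ = σ then 1 + t • vecMulVec v ψ else 1 : Matrix (Fin n) (Fin n) ℂ).det = 1 := by
    intro τ
    split_ifs
    · exact det_one_add_r1 h t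
    · exact Matrix.det_one
  exact gal_big hn hc hν h0 h1 hμ hμ' h2 h3 hg hN hx₀ hρ fun τ => ⟨_, h4 τ⟩

/-- the group generated by the exponentials -/
theorem EG_NN (hn : 2 ≤ n) (g : Fin s → SpecialLinearGroup (Fin n) ℂ) : bigM (fun σ => (g σ).1) ∈ EG (NN n s) := by
  have : Nontrivial (Fin n) := Fin.nontrivial_iff_two_le.2 hn
  have h4 : ∀ (σ : Fin s) (g : SpecialLinearGroup (Fin n) ℂ), bigM (fun τ => if τ = σ then g.1 else 1) ∈ EG (NN n s) := by
    intro σ g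
    refine Pool.Agent.H463R3.PSLn.transvection_induction (fun g => bigM (fun τ => if τ = σ then g.1 else 1) ∈ EG (NN n s))
      (fun i j hij c => ?_) (fun A B hA hB => ?_) g
    · refine Submonoid.subset_closure ⟨Ls σ (vecMulVec (ee i) (ee j)), ⟨σ, ee i, ee j, ?_, rfl⟩, c, ?_⟩
      · rw [ee_dot]
        unfold ee
        rw [Pi.single_eq_of_ne hij.symm]
      · rw [NN_exp ⟨σ, ee i, ee j, by rw [ee_dot]; unfold ee; rw [Pi.single_eq_of_ne hij.symm], rfl⟩, ← map_smul, one_add_Ls]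
        congr 1
        funext τ
        split_ifs
        · change (1 : Matrix (Fin n) (Fin n) ℂ) + Matrix.single i j c = _
          congr 1
          ext k l
          unfold ee
          rw [Matrix.smul_apply, vecMulVec_apply, Matrix.single_apply, Pi.single_apply, Pi.single_apply, smul_eq_mul]
          by_cases hk : i = k
          · by_cases hl : j = l
            · simp [hk, hl]
            · simp [hl, Ne.symm hl]
          · simp [hk, Ne.symm hk]
        · rfl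
    · have h5 := Submonoid.mul_mem _ hA hB
      rw [bigM_mul] at h5
      have h6 : (fun τ => (if τ = σ then A.1 else 1) * (if τ = σ then B.1 else 1)) =
          fun τ => if τ = σ then (A * B).1 else (1 : Matrix (Fin n) (Fin n) ℂ) := by
        funext τ
        split_ifs
        · rfl
        · rw [one_mul]
      rw [h6] at h5
      exact h5
  have h5 : ∀ S : Finset (Fin s), bigM (fun σ => if σ ∈ S then (g σ).1 else 1) ∈ EG (NN n s) := by
    intro S
    induction S using Finset.induction_on with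
    | empty =>
      simp only [Finset.notMem_empty, if_false]
      rw [bigM_one]
      exact Submonoid.one_mem _
    | insert a S ha ih =>
      have h6 := Submonoid.mul_mem _ (h4 a (g a)) ih
      rw [bigM_mul] at h6
      have h7 : (fun σ => (if σ = a then (g a).1 else 1) * (if σ ∈ S then (g σ).1 else 1)) =
          fun σ => if σ ∈ insert a S then (g σ).1 else (1 : Matrix (Fin n) (Fin n) ℂ) := by
        funext σ
        by_cases h8 : σ = a
        · subst h8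
          rw [if_pos rfl, if_neg ha, if_pos (Finset.mem_insert_self _ _), mul_one]
        · rw [if_neg h8, one_mul]
          simp only [Finset.mem_insert, h8, false_or]
      rw [h7] at h6
      exact h6
  have h6 := h5 Finset.univ
  simpa only [Finset.mem_univ, if_true] using h6

end Pool.Agent.K1H12.SE
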