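import Pool.Agent.K1H12.SE.Tor
import Pool.Agent.H463R3.PSLn

/-!
# Relations which hold on the fibres of the determinant map
-/

set_option autoImplicit false

namespace Pool.Agent.K1H12.SE

open Finset Matrix

variable {n s k r : ℕ}

/-- the value of a polynomial in the entries of a family of matrices -/
noncomputable def evf (p : MvPolynomial (Fin k × Fin s × Fin n × Fin n) ℂ) (Y : Fin k → Fin s → Matrix (Fin n) (Fin n) ℂ) : ℂ :=
  MvPolynomial.eval (fun b => Y b.1 b.2.1 b.2.2.1 b.2.2.2) p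

/-- left translation -/
noncomputable def trf (g : Fin k → Fin s → Matrix (Fin n) (Fin n) ℂ) (p : MvPolynomial (Fin k × Fin s × Fin n × Fin n) ℂ) :
    MvPolynomial (Fin k × Fin s × Fin n × Fin n) ℂ :=
  MvPolynomial.bind₁ (fun b => ∑ c, MvPolynomial.C (g b.1 b.2.1 b.2.2.1 c) * MvPolynomial.X (b.1, b.2.1, c, b.2.2.2)) p

theorem evf_trf (g : Fin k → Fin s → Matrix (Fin n) (Fin n) ℂ) (p : MvPolynomial (Fin k × Fin s × Fin n × Fin n) ℂ)
    (Y : Fin k → Fin s → Matrix (Fin n) (Fin n) ℂ) : evf (trf g p) Y = evf p (fun l σ => g l σ * Y l σ) := by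
  unfold evf trf
  rw [← MvPolynomial.coe_aeval_eq_eval, ← MvPolynomial.coe_aeval_eq_eval]
  simp only [RingHom.coe_coe]
  rw [MvPolynomial.aeval_bind₁]
  congr 2
  funext b
  simp only [map_sum, map_mul, MvPolynomial.aeval_C, MvPolynomial.aeval_X, Algebra.algebraMap_self, RingHom.id_apply,
    Matrix.mul_apply]

/-- a rational family of matrices of determinant one -/
def RatF (Y : Fin k → Fin s → Matrix (Fin n) (Fin n) ℂ) : Prop :=
  ∃ Y' : Fin k → Fin s → Matrix (Fin n) (Fin n) ℚ, (∀ l σ, (Y' l σ).det = 1) ∧ ∀ l σ, Y l σ = (Y' l σ).map (algebraMap ℚ ℂ)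

theorem RatF.mul {Y Z : Fin k → Fin s → Matrix (Fin n) (Fin n) ℂ} (hY : RatF Y) (hZ : RatF Z) :
    RatF fun l σ => Y l σ * Z l σ := by
  obtain ⟨Y', hY1, hY2⟩ := hY
  obtain ⟨Z', hZ1, hZ2⟩ := hZ
  refine ⟨fun l σ => Y' l σ * Z' l σ, fun l σ => by rw [Matrix.det_mul, hY1, hZ1, one_mul], fun l σ => ?_⟩
  change Y l σ * Z l σ = (Y' l σ * Z' l σ).map (algebraMap ℚ ℂ)
  rw [hY2, hZ2, Matrix.map_mul]

theorem RatF.one : RatF (fun _ _ => 1 : Fin k → Fin s → Matrix (Fin n) (Fin n) ℂ) :=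
  ⟨fun _ _ => 1, fun _ _ => Matrix.det_one, fun _ _ => by rw [Matrix.map_one _ (map_zero _) (map_one _)]⟩

/-- the elements which preserve the vanishing on rational families -/
def Vs (n s k : ℕ) : Set (Fin k → Fin s → Matrix (Fin n) (Fin n) ℂ) :=
  {g | ∀ p : MvPolynomial (Fin k × Fin s × Fin n × Fin n) ℂ, (∀ Y, RatF Y → evf p Y = 0) →
    ∀ Y, RatF Y → evf p (fun l σ => g l σ * Y l σ) = 0}

theorem Vs_mul {g h : Fin k → Fin s → Matrix (Fin n) (Fin n) ℂ} (hg : g ∈ Vs n s k) (hh : h ∈ Vs n s k) :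
    (fun l σ => g l σ * h l σ) ∈ Vs n s k := by
  intro p hp Y hY
  have h1 := hh (trf g p) (fun Z hZ => by rw [evf_trf]; exact hg p hp Z hZ) Y hY
  rw [evf_trf] at h1
  simpa only [Matrix.mul_assoc] using h1

theorem Vs_rat {g : Fin k → Fin s → Matrix (Fin n) (Fin n) ℂ} (hg : RatF g) : g ∈ Vs n s k :=
  fun _ hp _ hY => hp _ (hg.mul hY)

theorem evf_line (p : MvPolynomial (Fin k × Fin s × Fin n × Fin n) ℂ) (A B : Fin k → Fin s → Matrix (Fin n) (Fin n) ℂ) :
    ∃ P : Polynomial ℂ, ∀ x : ℂ, P.eval x = evf p (fun l σ => A l σ + x • B l σ) := by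
  unfold evf
  induction p using MvPolynomial.induction_on with
  | C c => exact ⟨Polynomial.C c, fun x => by simp⟩
  | add p q hp hq =>
    obtain ⟨P, hP⟩ := hp
    obtain ⟨Q, hQ⟩ := hq
    exact ⟨P + Q, fun x => by rw [Polynomial.eval_add, hP, hQ, map_add]⟩
  | mul_X p b hp =>
    obtain ⟨P, hP⟩ := hp
    refine ⟨P * (Polynomial.C (A b.1 b.2.1 b.2.2.1 b.2.2.2) + Polynomial.X * Polynomial.C (B b.1 b.2.1 b.2.2.1 b.2.2.2)), fun x => ?_⟩
    rw [Polynomial.eval_mul, hP, map_mul, MvPolynomial.eval_X]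
    simp only [Polynomial.eval_add, Polynomial.eval_mul, Polynomial.eval_X, Polynomial.eval_C, Matrix.add_apply,
      Matrix.smul_apply, smul_eq_mul]

/-- one component -/
def slot (l₀ : Fin k) (σ₀ : Fin s) (A : Matrix (Fin n) (Fin n) ℂ) : Fin k → Fin s → Matrix (Fin n) (Fin n) ℂ :=
  fun l σ => if l = l₀ ∧ σ = σ₀ then A else 1

theorem slot_transv (l₀ : Fin k) (σ₀ : Fin s) {i j : Fin n} (hij : i ≠ j) (c : ℂ) :
    slot l₀ σ₀ (1 + Matrix.single i j c) ∈ Vs n s k := by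
  intro p hp Y hY
  obtain ⟨P, hP⟩ := evf_line p Y (fun l σ => (if l = l₀ ∧ σ = σ₀ then Matrix.single i j 1 else 0) * Y l σ)
  have e1 : ∀ x : ℂ, (fun l σ => slot l₀ σ₀ (1 + Matrix.single i j x) l σ * Y l σ) =
      fun l σ => Y l σ + x • ((if l = l₀ ∧ σ = σ₀ then Matrix.single i j 1 else 0) * Y l σ) := by
    intro x
    funext l σ
    unfold slot
    split_ifs
    · rw [Matrix.add_mul, Matrix.one_mul, ← Matrix.smul_mul, Matrix.smul_single, smul_eq_mul, mul_one]
    · rw [Matrix.one_mul, Matrix.zero_mul, smul_zero, add_zero]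
  have h1 : P = 0 := by
    refine Polynomial.eq_zero_of_infinite_isRoot P (Set.Infinite.mono ?_ (Set.infinite_range_of_injective (Nat.cast_injective (R := ℂ))))
    rintro _ ⟨N, rfl⟩
    change P.IsRoot (N : ℂ)
    rw [Polynomial.IsRoot.def, hP, ← e1]
    refine hp _ (RatF.mul ⟨fun l σ => if l = l₀ ∧ σ = σ₀ then 1 + Matrix.single i j (N : ℚ) else 1, fun l σ => ?_, fun l σ => ?_⟩ hY)
    · change (if l = l₀ ∧ σ = σ₀ then 1 + Matrix.single i j (N : ℚ) else 1 : Matrix (Fin n) (Fin n) ℚ).det = 1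
      split_ifs
      · exact Matrix.det_transvection_of_ne i j hij _
      · exact Matrix.det_one
    · change slot l₀ σ₀ (1 + Matrix.single i j (N : ℂ)) l σ =
        (if l = l₀ ∧ σ = σ₀ then 1 + Matrix.single i j (N : ℚ) else 1 : Matrix (Fin n) (Fin n) ℚ).map (algebraMap ℚ ℂ)
      unfold slot
      split_ifs
      · rw [Matrix.map_add _ (fun a b => map_add _ a b), Matrix.map_one _ (map_zero _) (map_one _)]
        congr 1
        ext a b
        rw [Matrix.map_apply, Matrix.single_apply, Matrix.single_apply]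
        split_ifs
        · simp
        · simp
      · rw [Matrix.map_one _ (map_zero _) (map_one _)]
  rw [e1, ← hP, h1, Polynomial.eval_zero]

theorem slot_sl [Nontrivial (Fin n)] (l₀ : Fin k) (σ₀ : Fin s) (g : SpecialLinearGroup (Fin n) ℂ) : slot l₀ σ₀ g.1 ∈ Vs n s k := by
  refine Pool.Agent.H463R3.PSLn.transvection_induction (fun g => slot l₀ σ₀ g.1 ∈ Vs n s k) (fun i j hij c => ?_)
    (fun A B hA hB => ?_) g
  · exact slot_transv l₀ σ₀ hij c
  · have h1 := Vs_mul hA hB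
    have h2 : (fun l σ => slot l₀ σ₀ A.1 l σ * slot l₀ σ₀ B.1 l σ) = slot l₀ σ₀ (A * B).1 := by
      funext l σ
      unfold slot
      split_ifs
      · rfl
      · rw [Matrix.one_mul]
    rw [h2] at h1
    exact h1

/-- **density** -/
theorem dense_sl (hn : 2 ≤ n) {p : MvPolynomial (Fin k × Fin s × Fin n × Fin n) ℂ} (hp : ∀ Y, RatF Y → evf p Y = 0)
    {g : Fin k → Fin s → Matrix (Fin n) (Fin n) ℂ} (hg : ∀ l σ, (g l σ).det = 1) : evf p g = 0 := by
  have : Nontrivial (Fin n) := Fin.nontrivial_iff_two_le.2 hn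
  have key : ∀ S : Finset (Fin k × Fin s), (fun l σ => if (l, σ) ∈ S then g l σ else 1) ∈ Vs n s k := by
    intro S
    induction S using Finset.induction_on with
    | empty =>
      simp only [Finset.notMem_empty, if_false]
      exact Vs_rat RatF.one
    | insert b S hb ih =>
      have h1 := Vs_mul (slot_sl b.1 b.2 ⟨g b.1 b.2, hg b.1 b.2⟩) ih
      have h2 : (fun l σ => slot b.1 b.2 (g b.1 b.2) l σ * (if (l, σ) ∈ S then g l σ else 1)) =
          fun l σ => if (l, σ) ∈ insert b S then g l σ else (1 : Matrix (Fin n) (Fin n) ℂ) := by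
        funext l σ
        unfold slot
        by_cases h3 : l = b.1 ∧ σ = b.2
        · have h4 : (l, σ) = b := Prod.ext h3.1 h3.2
          rw [if_pos h3, h4, if_neg hb, if_pos (Finset.mem_insert_self _ _), Matrix.mul_one, h3.1, h3.2]
        · have h4 : (l, σ) ≠ b := fun h => h3 ⟨congrArg Prod.fst h, congrArg Prod.snd h⟩
          rw [if_neg h3, Matrix.one_mul]
          simp only [Finset.mem_insert, h4, false_or]
      rw [h2] at h1
      exact h1
  have h1 := key Finset.univ p hp _ RatF.one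
  simpa using h1

/-- the polynomial of the values at `x ⊕ Y D(d)`, `Y` variable -/
theorem exists_evf {K : Subfield ℂ} (R : MvPolynomial (IX n r s k × IX n r s k) K) (x : Matrix (Fin r) (Fin r) ℂ) (d : Fin s → ℂ) :
    ∃ p : MvPolynomial (Fin k × Fin s × Fin n × Fin n) ℂ, ∀ Y : Fin k → Fin s → Matrix (Fin n) (Fin n) ℂ, evf p Y =
      MvPolynomial.eval (fun b => tot x (fun l σ => Y l σ * Dg n (d σ)) b.1 b.2) (MvPolynomial.map (algebraMap K ℂ) R) := by
  unfold evf
  induction R using MvPolynomial.induction_on with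
  | C c => exact ⟨MvPolynomial.C (algebraMap K ℂ c), fun Y => by rw [MvPolynomial.map_C, MvPolynomial.eval_C, MvPolynomial.eval_C]⟩
  | add p q hp hq =>
    obtain ⟨P, hP⟩ := hp
    obtain ⟨Q, hQ⟩ := hq
    exact ⟨P + Q, fun Y => by rw [map_add, map_add, map_add, hP, hQ]⟩
  | mul_X p b hp =>
    obtain ⟨P, hP⟩ := hp
    obtain ⟨Q, hQ⟩ : ∃ Q : MvPolynomial (Fin k × Fin s × Fin n × Fin n) ℂ, ∀ Y : Fin k → Fin s → Matrix (Fin n) (Fin n) ℂ,
        MvPolynomial.eval (fun b => Y b.1 b.2.1 b.2.2.1 b.2.2.2) Q = tot x (fun l σ => Y l σ * Dg n (d σ)) b.1 b.2 := by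
      obtain ⟨b1, b2⟩ := b
      rcases b1 with i | ⟨i, l, σ⟩ <;> rcases b2 with j | ⟨j, l', τ⟩
      · exact ⟨MvPolynomial.C (x i j), fun Y => by rw [MvPolynomial.eval_C]; rfl⟩
      · exact ⟨0, fun Y => by rw [map_zero]; rfl⟩
      · exact ⟨0, fun Y => by rw [map_zero]; rfl⟩
      · by_cases h : (l, σ) = (l', τ)
        · simp only [Prod.mk.injEq] at h
          obtain ⟨rfl, rfl⟩ := h
          refine ⟨∑ c, MvPolynomial.X (l, σ, i, c) * MvPolynomial.C (Dg n (d σ) c j), fun Y => ?_⟩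
          unfold tot
          rw [Matrix.fromBlocks_apply₂₂, Matrix.blockDiagonal_apply, if_pos rfl]
          change _ = (Y l σ * Dg n (d σ)) i j
          rw [Matrix.mul_apply, map_sum]
          simp only [map_mul, MvPolynomial.eval_X, MvPolynomial.eval_C]
        · refine ⟨0, fun Y => ?_⟩
          unfold tot
          rw [map_zero, Matrix.fromBlocks_apply₂₂, Matrix.blockDiagonal_apply, if_neg h]
    refine ⟨P * Q, fun Y => ?_⟩
    rw [map_mul, hP, hQ, map_mul, map_mul, MvPolynomial.map_X, MvPolynomial.eval_X]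

open Classical in
/-- the polynomials over `K` for rational `Y` -/
noncomputable def RaP (K : Subfield ℂ) (Y : Fin k → Fin s → Matrix (Fin n) (Fin n) ℚ) (b : IX n r s k × IX n r s k) :
    MvPolynomial ((Fin r ⊕ Fin s) × (Fin r ⊕ Fin s)) K :=
  match b with
  | (Sum.inl i, Sum.inl j) => MvPolynomial.X (Sum.inl i, Sum.inl j)
  | (Sum.inl _, Sum.inr _) => 0
  | (Sum.inr _, Sum.inl _) => 0
  | (Sum.inr p, Sum.inr q) => if p.2 = q.2 then MvPolynomial.C (algebraMap ℚ K (Y p.2.1 p.2.2 p.1 q.1)) *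
      (if (q.1 : ℕ) = 0 then MvPolynomial.X (Sum.inr p.2.2, Sum.inr p.2.2) else 1) else 0

theorem RaP_eval {K : Subfield ℂ} (Y : Fin k → Fin s → Matrix (Fin n) (Fin n) ℚ) (x : Matrix (Fin r) (Fin r) ℂ) (d : Fin s → ℂ)
    (b : IX n r s k × IX n r s k) :
    MvPolynomial.eval (fun b => bt x d b.1 b.2) (MvPolynomial.map (algebraMap K ℂ) (RaP K Y b)) =
      tot x (fun l σ => (Y l σ).map (algebraMap ℚ ℂ) * Dg n (d σ)) b.1 b.2 := by
  obtain ⟨b1, b2⟩ := b
  rcases b1 with i | ⟨i, l, σ⟩ <;> rcases b2 with j | ⟨j, l', τ⟩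
  · unfold RaP
    rw [eval_X']
    rfl
  · unfold RaP
    simp only [map_zero]
    rfl
  · unfold RaP
    simp only [map_zero]
    rfl
  · unfold RaP tot
    simp only [Matrix.fromBlocks_apply₂₂, Matrix.blockDiagonal_apply]
    by_cases h : (l, σ) = (l', τ)
    · simp only [Prod.mk.injEq] at h
      obtain ⟨rfl, rfl⟩ := h
      rw [if_pos rfl, if_pos rfl]
      unfold Dg
      rw [Matrix.mul_diagonal, Matrix.map_apply, map_mul, map_mul, MvPolynomial.map_C, MvPolynomial.eval_C]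
      congr 1
      split_ifs
      · rw [eval_X']
        unfold bt
        rw [Matrix.fromBlocks_apply₂₂, Matrix.diagonal_apply_eq]
      · rw [map_one, map_one]
    · rw [if_neg h, if_neg h, map_zero, map_zero]

/-- values of composed polynomials -/
theorem eval_bindK {K : Subfield ℂ} {B B' : Type} (Pol : B' → MvPolynomial B K) (p : MvPolynomial B' K) (y : B → ℂ) :
    MvPolynomial.eval y (MvPolynomial.map (algebraMap K ℂ) (MvPolynomial.bind₁ Pol p)) =
      MvPolynomial.eval (fun b => MvPolynomial.eval y (MvPolynomial.map (algebraMap K ℂ) (Pol b))) (MvPolynomial.map (algebraMap K ℂ) p) := by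
  have h3 := MvPolynomial.eval₂Hom_bind₁ (algebraMap K ℂ) y Pol p
  simp only [MvPolynomial.coe_eval₂Hom] at h3
  simp only [MvPolynomial.eval_map]
  exact h3

/-- **relations on the fibres of the determinant map** -/
theorem pull_rel {K : Subfield ℂ} (hn : 2 ≤ n) {C₀ : Matrix (Fin r) (Fin r) ℂ} {δ : Fin s → ℂ}
    (R : MvPolynomial (IX n r s k × IX n r s k) K)
    (hR : ∀ X : Fin k → Fin s → Matrix (Fin n) (Fin n) ℂ, (∀ l σ, (X l σ).det = δ σ) →
      MvPolynomial.eval (fun b => tot C₀ X b.1 b.2) (MvPolynomial.map (algebraMap K ℂ) R) = 0)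
    {x : Matrix (Fin r) (Fin r) ℂ} {X : Fin k → Fin s → Matrix (Fin n) (Fin n) ℂ} {d : Fin s → ℂ} (hd : ∀ σ, d σ ≠ 0)
    (hz : ∀ p : MvPolynomial ((Fin r ⊕ Fin s) × (Fin r ⊕ Fin s)) K,
      MvPolynomial.eval (fun b => bt C₀ δ b.1 b.2) (MvPolynomial.map (algebraMap K ℂ) p) = 0 →
      MvPolynomial.eval (fun b => bt x d b.1 b.2) (MvPolynomial.map (algebraMap K ℂ) p) = 0)
    (hX : ∀ l σ, (X l σ).det = d σ) :
    MvPolynomial.eval (fun b => tot x X b.1 b.2) (MvPolynomial.map (algebraMap K ℂ) R) = 0 := by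
  obtain ⟨p, hp⟩ := exists_evf R x d
  have h1 : ∀ Y, RatF Y → evf p Y = 0 := by
    rintro Y ⟨Y', hY1, hY2⟩
    rw [hp]
    have e1 : Y = fun l σ => (Y' l σ).map (algebraMap ℚ ℂ) := by
      funext l σ
      exact hY2 l σ
    rw [e1]
    have h2 := hz (MvPolynomial.bind₁ (RaP K Y') R) (by
      rw [eval_bindK]
      simp only [RaP_eval]
      refine hR _ fun l σ => ?_
      rw [Matrix.det_mul, Dg_det (by omega), ← RingHom.mapMatrix_apply, ← RingHom.map_det, hY1, map_one, one_mul])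
    rw [eval_bindK] at h2
    simp only [RaP_eval] at h2
    exact h2
  have h2 := dense_sl hn h1 (g := fun l σ => X l σ * Dg n (d σ)⁻¹) fun l σ => by
    rw [Matrix.det_mul, Dg_det (by omega), hX, mul_inv_cancel₀ (hd σ)]
  rw [hp] at h2
  have e1 : (fun l σ => X l σ * Dg n (d σ)⁻¹ * Dg n (d σ)) = X := by
    funext l σ
    rw [Matrix.mul_assoc, Dg_mul, inv_mul_cancel₀ (hd σ), Dg_one, Matrix.mul_one]
  rw [e1] at h2
  exact h2

/-- the closure of a point -/
def zar (K : Subfield ℂ) {B : Type} [Fintype B] [DecidableEq B] (c : Matrix B B ℂ) : Set (Matrix B B ℂ) :=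
  {z | IsUnit z ∧ ∀ p : MvPolynomial (B × B) K, MvPolynomial.eval (fun b => c b.1 b.2) (MvPolynomial.map (algebraMap K ℂ) p) = 0 →
    MvPolynomial.eval (fun b => z b.1 b.2) (MvPolynomial.map (algebraMap K ℂ) p) = 0}

/-- the closure is contained in the inverse image -/
theorem zar_pull {K : Subfield ℂ} (hk : 0 < k) {C₀ : Matrix (Fin r) (Fin r) ℂ} {P : Fin k → Fin s → Matrix (Fin n) (Fin n) ℂ}
    {δ : Fin s → ℂ} (hP : ∀ l σ, (P l σ).det = δ σ) {z : Matrix (IX n r s k) (IX n r s k) ℂ} (hz : z ∈ zar K (tot C₀ P)) :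
    ∃ (x : Matrix (Fin r) (Fin r) ℂ) (X : Fin k → Fin s → Matrix (Fin n) (Fin n) ℂ) (d : Fin s → ℂ),
      z = tot x X ∧ bt x d ∈ zar K (bt C₀ δ) ∧ ∀ l σ, (X l σ).det = d σ := by
  obtain ⟨hu, h⟩ := hz
  set l₀ : Fin k := ⟨0, hk⟩
  have h1 : z = tot (b0 z) (b1 z) := eq_tot fun b hb => by
    have := h (MvPolynomial.X b) (by rw [eval_X', tot_off _ _ hb])
    rwa [eval_X'] at this
  have h2 : ∀ l σ, (b1 z l σ).det = (b1 z l₀ σ).det := by
    intro l σ
    have := h ((gb K l σ).det - (gb K l₀ σ).det) (by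
      rw [map_sub, map_sub, gb_eval, gb_eval, b1_tot, b1_tot, hP, hP, sub_self])
    rw [map_sub, map_sub, gb_eval, gb_eval, sub_eq_zero] at this
    exact this
  refine ⟨b0 z, b1 z, fun σ => (b1 z l₀ σ).det, h1, ⟨?_, fun p hp => ?_⟩, h2⟩
  · rw [h1] at hu
    have h3 := tot_unit.1 hu
    exact bt_unit.2 ⟨h3.1, fun σ => ((Matrix.isUnit_iff_isUnit_det _).1 (h3.2 l₀ σ)).ne_zero⟩
  · have h3 := h (MvPolynomial.bind₁ (QhP K n r s k l₀) p) (by
      rw [eval_bindK]
      simp only [← QhP_eval]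
      have h4 : Qh n r s k l₀ (tot C₀ P) = bt C₀ δ := by
        unfold Qh
        rw [b0_tot]
        simp only [b1_tot, hP]
      rw [h4]
      exact hp)
    rw [eval_bindK] at h3
    simp only [← QhP_eval] at h3
    exact h3

end Pool.Agent.K1H12.SE
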