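import Pool.Agent.K1H12.SE.Tor

/-!
# Subtorsors: proportional diagonal entries
-/

set_option autoImplicit false

namespace Pool.Agent.K1H12.SE

open Finset Matrix
open Pool.Agent.Y123.ST (SubT)

variable {K : Subfield ℂ} {r s s' : ℕ}

theorem bt_inj {x y : Matrix (Fin r) (Fin r) ℂ} {d e : Fin s → ℂ} (h : bt x d = bt y e) : x = y ∧ d = e := by
  constructor
  · ext i j
    have := congrFun (congrFun h (Sum.inl i)) (Sum.inl j)
    exact this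
  · funext σ
    have := congrFun (congrFun h (Sum.inr σ)) (Sum.inr σ)
    unfold bt at this
    rwa [Matrix.fromBlocks_apply₂₂, Matrix.fromBlocks_apply₂₂, Matrix.diagonal_apply_eq, Matrix.diagonal_apply_eq] at this

/-- change of the diagonal entries -/
noncomputable def Th (r : ℕ) (ι : Fin s' → Fin s) (e : Fin s' → ℂ) (z : Matrix (Fin r ⊕ Fin s) (Fin r ⊕ Fin s) ℂ) :
    Matrix (Fin r ⊕ Fin s') (Fin r ⊕ Fin s') ℂ :=
  bt (Matrix.of fun i j => z (Sum.inl i) (Sum.inl j)) fun τ => z (Sum.inr (ι τ)) (Sum.inr (ι τ)) * e τ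

theorem Th_bt (ι : Fin s' → Fin s) (e : Fin s' → ℂ) (x : Matrix (Fin r) (Fin r) ℂ) (d : Fin s → ℂ) :
    Th r ι e (bt x d) = bt x fun τ => d (ι τ) * e τ := by
  unfold Th
  congr 1
  funext τ
  unfold bt
  rw [Matrix.fromBlocks_apply₂₂, Matrix.diagonal_apply_eq]

open Classical in
/-- the polynomials -/
noncomputable def ThP (r : ℕ) (ι : Fin s' → Fin s) (e : Fin s' → K) (b : (Fin r ⊕ Fin s') × (Fin r ⊕ Fin s')) :
    MvPolynomial ((Fin r ⊕ Fin s) × (Fin r ⊕ Fin s)) K :=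
  match b with
  | (Sum.inl i, Sum.inl j) => MvPolynomial.X (Sum.inl i, Sum.inl j)
  | (Sum.inl _, Sum.inr _) => 0
  | (Sum.inr _, Sum.inl _) => 0
  | (Sum.inr σ, Sum.inr τ) => if σ = τ then MvPolynomial.X (Sum.inr (ι σ), Sum.inr (ι σ)) * MvPolynomial.C (e σ) else 0

theorem ThP_eval (ι : Fin s' → Fin s) (e : Fin s' → K) (z : Matrix (Fin r ⊕ Fin s) (Fin r ⊕ Fin s) ℂ)
    (b : (Fin r ⊕ Fin s') × (Fin r ⊕ Fin s')) :
    Th r ι (fun τ => (e τ : ℂ)) z b.1 b.2 =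
      MvPolynomial.eval (fun b => z b.1 b.2) (MvPolynomial.map (algebraMap K ℂ) (ThP r ι e b)) := by
  obtain ⟨b1, b2⟩ := b
  rcases b1 with i | σ <;> rcases b2 with j | τ
  · unfold ThP
    rw [eval_X']
    rfl
  · unfold ThP
    simp only [map_zero]
    rfl
  · unfold ThP
    simp only [map_zero]
    rfl
  · unfold ThP Th bt
    simp only [Matrix.fromBlocks_apply₂₂]
    by_cases h : σ = τ
    · subst h
      rw [Matrix.diagonal_apply_eq, if_pos rfl, map_mul, map_mul, eval_X', MvPolynomial.map_C, MvPolynomial.eval_C]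
      rfl
    · rw [Matrix.diagonal_apply_ne _ h, if_neg h, map_zero, map_zero]

/-- the inverse image under `Th` -/
theorem Th_sub (ι : Fin s' → Fin s) (e : Fin s' → K) (he : ∀ τ, e τ ≠ 0)
    {S₀ : Set (Matrix (Fin r ⊕ Fin s) (Fin r ⊕ Fin s) ℂ)} (hS₀ : SubT K S₀) (hS : S₀ ⊆ S1s r s)
    {T : Set (Matrix (Fin r ⊕ Fin s') (Fin r ⊕ Fin s') ℂ)} (hT : SubT K T) :
    SubT K {x | x ∈ S₀ ∧ Th r ι (fun τ => (e τ : ℂ)) x ∈ T} := by
  have he' : ∀ τ, (e τ : ℂ) ≠ 0 := fun τ h => he τ (by exact_mod_cast h)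
  refine comap_sub hS₀ _ (ThP r ι e) (fun x _ b => ThP_eval ι e x b) ?_ ?_ hT
  · intro x hx y hy z hz
    obtain ⟨x, d, rfl, hx⟩ := hS hx
    obtain ⟨y, f, rfl, hy⟩ := hS hy
    obtain ⟨z, g, rfl, hz⟩ := hS hz
    have h2 : IsUnit (bt y fun τ => f (ι τ) * (e τ : ℂ)) :=
      bt_unit.2 ⟨(bt_unit.1 hy).1, fun τ => mul_ne_zero ((bt_unit.1 hy).2 _) (he' τ)⟩
    rw [bt_inv hy, bt_mul, bt_mul, Th_bt, Th_bt, Th_bt, Th_bt, bt_inv h2, bt_mul, bt_mul]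
    congr 1
    funext τ
    have h3 := (bt_unit.1 hy).2 (ι τ)
    have h4 := he' τ
    field_simp
  · intro x hx
    obtain ⟨x, d, rfl, hx⟩ := hS hx
    rw [Th_bt]
    exact bt_unit.2 ⟨(bt_unit.1 hx).1, fun τ => mul_ne_zero ((bt_unit.1 hx).2 _) (he' τ)⟩

/-- the matrices `x ⊕ diag (l c)` -/
def Sp (r : ℕ) (c : Fin s → ℂ) : Set (Matrix (Fin r ⊕ Fin s) (Fin r ⊕ Fin s) ℂ) :=
  {z | ∃ (x : Matrix (Fin r) (Fin r) ℂ) (l : ℂ), z = bt x (fun σ => l * c σ) ∧ IsUnit z}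

theorem Sp_le (c : Fin s → ℂ) : Sp r c ⊆ S1s r s := by
  rintro z ⟨x, l, h, hz⟩
  exact ⟨x, _, h, hz⟩

theorem Sp_sub (c : Fin s → K) (hc : ∀ σ, c σ ≠ 0) (σ₀ : Fin s) : SubT K (Sp r fun σ => (c σ : ℂ)) := by
  have hc' : ∀ σ, (c σ : ℂ) ≠ 0 := fun σ h => hc σ (by exact_mod_cast h)
  obtain ⟨h1, I, hI⟩ := S1s_sub (r := r) (s := s) K
  refine ⟨?_, I ∪ {p | ∃ σ τ, p = MvPolynomial.X (Sum.inr σ, Sum.inr σ) * MvPolynomial.C (c τ) -
    MvPolynomial.X (Sum.inr τ, Sum.inr τ) * MvPolynomial.C (c σ)}, fun z => ?_⟩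
  · rintro _ ⟨x, l, rfl, hx⟩ _ ⟨y, l', rfl, hy⟩ _ ⟨z, l'', rfl, hz⟩
    refine ⟨x * y⁻¹ * z, l * l'⁻¹ * l'', ?_, (hx.mul (inv_unit hy)).mul hz⟩
    rw [bt_inv hy, bt_mul, bt_mul]
    congr 1
    funext σ
    have h2 := (bt_unit.1 hy).2 σ
    have h3 : l' ≠ 0 := left_ne_zero_of_mul h2
    have h4 := hc' σ
    field_simp
  · constructor
    · rintro ⟨x, l, rfl, hx⟩
      have h2 := (hI (bt x fun σ => l * (c σ : ℂ))).1 ⟨x, _, rfl, hx⟩
      refine ⟨hx, ?_⟩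
      rintro p (hp | ⟨σ, τ, rfl⟩)
      · exact h2.2 p hp
      · rw [map_sub, map_sub, map_mul, map_mul, map_mul, map_mul, eval_X', eval_X', MvPolynomial.map_C, MvPolynomial.map_C,
          MvPolynomial.eval_C, MvPolynomial.eval_C]
        unfold bt
        rw [Matrix.fromBlocks_apply₂₂, Matrix.fromBlocks_apply₂₂, Matrix.diagonal_apply_eq, Matrix.diagonal_apply_eq]
        change l * (c σ : ℂ) * (c τ : ℂ) - l * (c τ : ℂ) * (c σ : ℂ) = 0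
        ring
    · rintro ⟨hz, h⟩
      obtain ⟨x, d, h2, -⟩ := (hI z).2 ⟨hz, fun p hp => h p (Or.inl hp)⟩
      refine ⟨x, d σ₀ * (c σ₀ : ℂ)⁻¹, ?_, hz⟩
      rw [h2]
      congr 1
      funext σ
      have h3 := h _ (Or.inr ⟨σ, σ₀, rfl⟩)
      rw [map_sub, map_sub, map_mul, map_mul, map_mul, map_mul, eval_X', eval_X', MvPolynomial.map_C, MvPolynomial.map_C,
          MvPolynomial.eval_C, MvPolynomial.eval_C, h2] at h3
      unfold bt at h3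
      rw [Matrix.fromBlocks_apply₂₂, Matrix.fromBlocks_apply₂₂, Matrix.diagonal_apply_eq, Matrix.diagonal_apply_eq] at h3
      change d σ * (c σ₀ : ℂ) - d σ₀ * (c σ : ℂ) = 0 at h3
      have h4 := hc' σ₀
      field_simp
      linear_combination h3

/-- **proportional diagonal entries** -/
theorem sm_prop (c : Fin s → K) (hc : ∀ σ, c σ ≠ 0) (hs : 0 < s) {C₀ : Matrix (Fin r) (Fin r) ℂ} (hC₀ : IsUnit C₀) {w : ℂ} (hw : w ≠ 0) :
    sm K (bt C₀ fun σ => w * (c σ : ℂ)) = {z | ∃ (x : Matrix (Fin r) (Fin r) ℂ) (l : ℂ), z = bt x (fun σ => l * (c σ : ℂ)) ∧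
      bt x (fun _ : Fin 1 => l) ∈ sm K (bt C₀ fun _ : Fin 1 => w)} := by
  have hc' : ∀ σ, (c σ : ℂ) ≠ 0 := fun σ h => hc σ (by exact_mod_cast h)
  set σ₀ : Fin s := ⟨0, hs⟩ with hσ₀
  have hu1 : IsUnit (bt C₀ fun _ : Fin 1 => w) := bt_unit.2 ⟨hC₀, fun _ => hw⟩
  have hu2 : IsUnit (bt C₀ fun σ => w * (c σ : ℂ)) := bt_unit.2 ⟨hC₀, fun σ => mul_ne_zero hw (hc' σ)⟩
  apply Set.Subset.antisymm
  · intro z hz
    have h1 := Th_sub (r := r) (s := s) (s' := 1) (fun _ => σ₀) (fun _ => (c σ₀)⁻¹) (fun _ => inv_ne_zero (hc _)) (Sp_sub c hc σ₀)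
      (Sp_le _) (sm_sub hu1)
    have h2 : (bt C₀ fun σ => w * (c σ : ℂ)) ∈ {x | x ∈ (Sp r fun σ => (c σ : ℂ)) ∧
        Th r (fun _ : Fin 1 => σ₀) (fun _ => (((c σ₀)⁻¹ : K) : ℂ)) x ∈ sm K (bt C₀ fun _ : Fin 1 => w)} := by
      refine ⟨⟨C₀, w, rfl, hu2⟩, ?_⟩
      rw [Th_bt]
      have h3 : (fun _ : Fin 1 => w * (c σ₀ : ℂ) * (((c σ₀)⁻¹ : K) : ℂ)) = fun _ : Fin 1 => w := by
        funext _
        push_cast
        rw [mul_assoc, mul_inv_cancel₀ (hc' σ₀), mul_one]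
      rw [h3]
      exact mem_sm_self _
    obtain ⟨⟨x, l, rfl, hx⟩, h4⟩ := hz _ h1 h2
    refine ⟨x, l, rfl, ?_⟩
    rw [Th_bt] at h4
    have h3 : (fun _ : Fin 1 => l * (c σ₀ : ℂ) * (((c σ₀)⁻¹ : K) : ℂ)) = fun _ : Fin 1 => l := by
      funext _
      push_cast
      rw [mul_assoc, mul_inv_cancel₀ (hc' σ₀), mul_one]
    rwa [h3] at h4
  · rintro z ⟨x, l, rfl, hz⟩
    have h1 := Th_sub (r := r) (s := 1) (s' := s) (fun _ => 0) c hc (S1s_sub K) subset_rfl (sm_sub hu2)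
    have h2 : (bt C₀ fun _ : Fin 1 => w) ∈ {x | x ∈ S1s r 1 ∧
        Th r (fun _ : Fin s => (0 : Fin 1)) (fun τ => (c τ : ℂ)) x ∈ sm K (bt C₀ fun σ => w * (c σ : ℂ))} := by
      refine ⟨⟨C₀, _, rfl, hu1⟩, ?_⟩
      rw [Th_bt]
      exact mem_sm_self _
    have h3 := (hz _ h1 h2).2
    rwa [Th_bt] at h3

theorem transc_pi (K : Subfield ℂ) [FiniteDimensional ℚ K] : Transcendental K (Real.pi : ℂ) := by
  intro h
  have h2 : IsAlgebraic ℚ (Real.pi : ℂ) := by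
    have : Algebra.IsAlgebraic ℚ K := Algebra.IsAlgebraic.of_finite ℚ K
    exact h.restrictScalars ℚ
  exact Pool.Agent.H340R2.LW.transcendental_pi_complex h2

theorem uni_eval (p : MvPolynomial ((Fin 0 ⊕ Fin 1) × (Fin 0 ⊕ Fin 1)) K) (x : Matrix (Fin 0 ⊕ Fin 1) (Fin 0 ⊕ Fin 1) ℂ) :
    MvPolynomial.eval (fun b : (Fin 0 ⊕ Fin 1) × (Fin 0 ⊕ Fin 1) => x b.1 b.2) (MvPolynomial.map (algebraMap K ℂ) p) =
    Polynomial.aeval (x (Sum.inr 0) (Sum.inr 0))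
      (MvPolynomial.aeval (fun _ : (Fin 0 ⊕ Fin 1) × (Fin 0 ⊕ Fin 1) => (Polynomial.X : Polynomial K)) p) := by
  have h3 : (fun b : (Fin 0 ⊕ Fin 1) × (Fin 0 ⊕ Fin 1) => x b.1 b.2) = fun _ => x (Sum.inr 0) (Sum.inr 0) := by
    funext b
    obtain ⟨b1, b2⟩ := b
    rcases b1 with i | σ
    · exact i.elim0
    rcases b2 with j | τ
    · exact j.elim0
    have e1 : σ = 0 := Subsingleton.elim _ _
    have e2 : τ = 0 := Subsingleton.elim _ _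
    rw [e1, e2]
  rw [h3, MvPolynomial.eval_map]
  induction p using MvPolynomial.induction_on with
  | C a => simp
  | add p q hp hq => rw [MvPolynomial.eval₂_add, map_add, map_add, hp, hq]
  | mul_X p i hp => rw [MvPolynomial.eval₂_mul, MvPolynomial.eval₂_X, map_mul, map_mul, hp, MvPolynomial.aeval_X, Polynomial.aeval_X]

/-- rank one and transcendental: everything -/
theorem sm_pi (K : Subfield ℂ) [FiniteDimensional ℚ K] (C₀ : Matrix (Fin 0) (Fin 0) ℂ)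
    {z : Matrix (Fin 0 ⊕ Fin 1) (Fin 0 ⊕ Fin 1) ℂ} (hz : IsUnit z) : z ∈ sm K (bt C₀ fun _ : Fin 1 => (Real.pi : ℂ)) := by
  rintro T ⟨-, I, hI⟩ hcT
  rw [hI]
  refine ⟨hz, fun p hp => ?_⟩
  have h2 := ((hI _).1 hcT).2 p hp
  rw [uni_eval] at h2 ⊢
  have h4 : (bt C₀ fun _ : Fin 1 => (Real.pi : ℂ)) (Sum.inr 0) (Sum.inr 0) = (Real.pi : ℂ) := by
    unfold bt
    rw [Matrix.fromBlocks_apply₂₂, Matrix.diagonal_apply_eq]
  rw [h4] at h2
  have h5 := (transcendental_iff.1 (transc_pi K)) _ h2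
  rw [h5, map_zero]

end Pool.Agent.K1H12.SE
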