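import Pool.Agent.K1H12.SE.Glob

/-!
# Superelliptic periods: the determinant for two branch points
-/

set_option autoImplicit false

namespace Pool.Agent.K1H12.SE

open Filter Topology Finset MeasureTheory

variable {μ : ℝ}

/-- the beta integral -/
noncomputable def bb (μ : ℝ) : ℝ := ∫ v in (0 : ℝ)..1, v ^ (-μ) * (1 - v) ^ (μ - 1)

theorem bb_eq (h0 : 0 < μ) (h1 : μ < 1) : bb μ = Real.pi / Real.sin (Real.pi * μ) := by
  have h2 : Complex.betaIntegral ((1 - μ : ℝ) : ℂ) ((μ : ℝ) : ℂ) = ((bb μ : ℝ) : ℂ) := by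
    unfold Complex.betaIntegral bb
    rw [← intervalIntegral.integral_ofReal]
    refine intervalIntegral.integral_congr fun v hv => ?_
    rw [Set.uIcc_of_le zero_le_one] at hv
    have e1 : ((v : ℂ)) ^ (((1 - μ : ℝ) : ℂ) - 1) = ((v ^ (-μ) : ℝ) : ℂ) := by
      rw [Complex.ofReal_cpow hv.1]
      congr 1
      push_cast
      ring
    have e2 : (1 - (v : ℂ)) ^ (((μ : ℝ) : ℂ) - 1) = (((1 - v) ^ (μ - 1) : ℝ) : ℂ) := by
      rw [Complex.ofReal_cpow (by linarith [hv.2])]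
      push_cast
      rfl
    rw [e1, e2]
    push_cast
    rfl
  have h3 := Complex.Gamma_mul_Gamma_eq_betaIntegral (s := ((1 - μ : ℝ) : ℂ)) (t := ((μ : ℝ) : ℂ))
    (by rw [Complex.ofReal_re]; linarith) (by rwa [Complex.ofReal_re])
  rw [h2] at h3
  have h4 : ((1 - μ : ℝ) : ℂ) + ((μ : ℝ) : ℂ) = 1 := by push_cast; ring
  rw [h4, Complex.Gamma_one, one_mul, Complex.Gamma_ofReal, Complex.Gamma_ofReal, ← Complex.ofReal_mul] at h3
  have h5 : Real.Gamma (1 - μ) * Real.Gamma μ = bb μ := Complex.ofReal_injective h3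
  rw [← h5, mul_comm, Real.Gamma_mul_Gamma_one_sub]

theorem int01 {p q : ℝ} (hp : -1 < p) (hp' : p ≤ 0) (hq : -1 < q) (hq' : q ≤ 0) :
    IntervalIntegrable (fun v : ℝ => |v| ^ p * |1 - v| ^ q) volume 0 1 := by
  have h2 := int_prod (range 2) (fun k => (k : ℝ)) (fun k => if k = 0 then p else q)
    (fun k _ l _ hkl => by exact_mod_cast hkl) (fun k _ => by split_ifs <;> constructor <;> assumption) 0 1
  refine h2.congr ?_
  intro v _
  simp only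
  rw [Finset.prod_range_succ, Finset.prod_range_one]
  simp only [Nat.cast_zero, sub_zero, Nat.cast_one, if_true, one_ne_zero, if_false]
  rw [abs_sub_comm v 1]

theorem bb_symm : ∫ v in (0 : ℝ)..1, v ^ (μ - 1) * (1 - v) ^ (-μ) = bb μ := by
  have h2 := intervalIntegral.integral_comp_sub_left (a := 0) (b := 1) (fun v : ℝ => v ^ (-μ) * (1 - v) ^ (μ - 1)) 1
  rw [sub_zero, sub_self] at h2
  unfold bb
  rw [← h2]
  refine intervalIntegral.integral_congr fun v _ => ?_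
  rw [sub_sub_cancel, mul_comm]

theorem int_one (h1 : μ < 1) : ∫ v in (0 : ℝ)..1, (1 - v) ^ (-μ) = 1 / (1 - μ) := by
  have h2 := intervalIntegral.integral_comp_sub_left (a := 0) (b := 1) (fun v : ℝ => v ^ (-μ)) 1
  rw [sub_zero, sub_self] at h2
  rw [h2, integral_rpow (Or.inl (by linarith))]
  rw [Real.one_rpow, Real.zero_rpow (by linarith), sub_zero]
  congr 1
  ring

variable {a : ℕ → ℝ} {t : ℝ}

theorem seg0 (ht0 : a 0 < t) (ht1 : t < a 1) (j : ℕ) :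
    Rf 2 a μ 1 j 0 t = ∫ v in (0 : ℝ)..1, (a 0 + v * (t - a 0)) ^ j * (v ^ (-μ) * (1 - v) ^ (μ - 1)) * (a 1 - a 0 - v * (t - a 0)) ^ (-μ) := by
  have hτ : 0 < t - a 0 := by linarith
  unfold Rf
  have e0 : er a 1 t 0 = a 0 := er_lt (by norm_num)
  have e1 : er a 1 t (0 + 1) = t := er_eq
  rw [e0, e1]
  have h2 := intervalIntegral.smul_integral_comp_mul_add (a := 0) (b := 1) (f := fun x : ℝ => x ^ j * Wr 2 a μ t x)
    (c := t - a 0) (d := a 0)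
  rw [mul_zero, zero_add, mul_one, sub_add_cancel, smul_eq_mul] at h2
  rw [← h2, ← intervalIntegral.integral_const_mul]
  refine intervalIntegral.integral_congr fun v hv => ?_
  rw [Set.uIcc_of_le zero_le_one] at hv
  change (t - a 0) * (((t - a 0) * v + a 0) ^ j * Wr 2 a μ t ((t - a 0) * v + a 0)) = _
  unfold Wr
  rw [Finset.prod_range_succ, Finset.prod_range_one]
  have f1 : (t - a 0) * v + a 0 - a 0 = (t - a 0) * v := by ring
  have f2 : (t - a 0) * v + a 0 - a 1 = -(a 1 - a 0 - v * (t - a 0)) := by ring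
  have f3 : (t - a 0) * v + a 0 - t = -((t - a 0) * (1 - v)) := by ring
  have f4 : 0 < a 1 - a 0 - v * (t - a 0) := by nlinarith [hv.1, hv.2]
  rw [f1, f2, f3, abs_neg, abs_neg, abs_mul, abs_mul, abs_of_pos hτ, abs_of_nonneg hv.1, abs_of_pos f4,
    abs_of_nonneg (by linarith [hv.2] : (0 : ℝ) ≤ 1 - v), Real.mul_rpow hτ.le hv.1,
    Real.mul_rpow hτ.le (by linarith [hv.2] : (0 : ℝ) ≤ 1 - v)]
  have f5 : (t - a 0) * ((t - a 0) ^ (-μ) * (t - a 0) ^ (μ - 1)) = 1 := by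
    rw [← Real.rpow_add hτ]
    have : -μ + (μ - 1) = -1 := by ring
    rw [this, Real.rpow_neg_one, mul_inv_cancel₀ hτ.ne']
  have f6 : (t - a 0) * v + a 0 = a 0 + v * (t - a 0) := by ring
  rw [f6]
  calc (t - a 0) * ((a 0 + v * (t - a 0)) ^ j * ((t - a 0) ^ (-μ) * v ^ (-μ) * (a 1 - a 0 - v * (t - a 0)) ^ (-μ) *
        ((t - a 0) ^ (μ - 1) * (1 - v) ^ (μ - 1))))
      = ((t - a 0) * ((t - a 0) ^ (-μ) * (t - a 0) ^ (μ - 1))) * ((a 0 + v * (t - a 0)) ^ j * (v ^ (-μ) * (1 - v) ^ (μ - 1)) *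
        (a 1 - a 0 - v * (t - a 0)) ^ (-μ)) := by ring
    _ = _ := by rw [f5, one_mul]

theorem seg1 (ht0 : a 0 < t) (ht1 : t < a 1) (j : ℕ) :
    Rf 2 a μ 1 j 1 t = ∫ v in (0 : ℝ)..1, (t + v * (a 1 - t)) ^ j * (v ^ (μ - 1) * (1 - v) ^ (-μ)) * (t - a 0 + v * (a 1 - t)) ^ (-μ) := by
  have hτ : 0 < a 1 - t := by linarith
  unfold Rf
  have e0 : er a 1 t 1 = t := er_eq
  have e1 : er a 1 t (1 + 1) = a 1 := er_gt (by norm_num)
  rw [e0, e1]
  have h2 := intervalIntegral.smul_integral_comp_mul_add (a := 0) (b := 1) (f := fun x : ℝ => x ^ j * Wr 2 a μ t x)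
    (c := a 1 - t) (d := t)
  rw [mul_zero, zero_add, mul_one, sub_add_cancel, smul_eq_mul] at h2
  rw [← h2, ← intervalIntegral.integral_const_mul]
  refine intervalIntegral.integral_congr fun v hv => ?_
  rw [Set.uIcc_of_le zero_le_one] at hv
  change (a 1 - t) * (((a 1 - t) * v + t) ^ j * Wr 2 a μ t ((a 1 - t) * v + t)) = _
  unfold Wr
  rw [Finset.prod_range_succ, Finset.prod_range_one]
  have f1 : (a 1 - t) * v + t - a 0 = t - a 0 + v * (a 1 - t) := by ring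
  have f2 : (a 1 - t) * v + t - a 1 = -((a 1 - t) * (1 - v)) := by ring
  have f3 : (a 1 - t) * v + t - t = (a 1 - t) * v := by ring
  have f4 : 0 < t - a 0 + v * (a 1 - t) := by nlinarith [hv.1, hv.2]
  rw [f1, f2, f3, abs_neg, abs_mul, abs_mul, abs_of_pos hτ, abs_of_nonneg hv.1, abs_of_pos f4,
    abs_of_nonneg (by linarith [hv.2] : (0 : ℝ) ≤ 1 - v), Real.mul_rpow hτ.le hv.1,
    Real.mul_rpow hτ.le (by linarith [hv.2] : (0 : ℝ) ≤ 1 - v)]
  have f5 : (a 1 - t) * ((a 1 - t) ^ (-μ) * (a 1 - t) ^ (μ - 1)) = 1 := by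
    rw [← Real.rpow_add hτ]
    have : -μ + (μ - 1) = -1 := by ring
    rw [this, Real.rpow_neg_one, mul_inv_cancel₀ hτ.ne']
  have f6 : (a 1 - t) * v + t = t + v * (a 1 - t) := by ring
  rw [f6]
  calc (a 1 - t) * ((t + v * (a 1 - t)) ^ j * ((t - a 0 + v * (a 1 - t)) ^ (-μ) * ((a 1 - t) ^ (-μ) * (1 - v) ^ (-μ)) *
        ((a 1 - t) ^ (μ - 1) * v ^ (μ - 1))))
      = ((a 1 - t) * ((a 1 - t) ^ (-μ) * (a 1 - t) ^ (μ - 1))) * ((t + v * (a 1 - t)) ^ j * (v ^ (μ - 1) * (1 - v) ^ (-μ)) *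
        (t - a 0 + v * (a 1 - t)) ^ (-μ)) := by ring
    _ = _ := by rw [f5, one_mul]

theorem int_w0 (h0 : 0 < μ) (h1 : μ < 1) : IntervalIntegrable (fun v : ℝ => v ^ (-μ) * (1 - v) ^ (μ - 1)) volume 0 1 := by
  refine (int01 (p := -μ) (q := μ - 1) (by linarith) (by linarith) (by linarith) (by linarith)).congr ?_
  intro v hv
  rw [Set.uIoc_of_le zero_le_one] at hv
  simp only
  rw [abs_of_pos hv.1, abs_of_nonneg (by linarith [hv.2] : (0 : ℝ) ≤ 1 - v)]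

theorem int_w1 (h0 : 0 < μ) (h1 : μ < 1) : IntervalIntegrable (fun v : ℝ => v ^ (μ - 1) * (1 - v) ^ (-μ)) volume 0 1 := by
  refine (int01 (p := μ - 1) (q := -μ) (by linarith) (by linarith) (by linarith) (by linarith)).congr ?_
  intro v hv
  rw [Set.uIoc_of_le zero_le_one] at hv
  simp only
  rw [abs_of_pos hv.1, abs_of_nonneg (by linarith [hv.2] : (0 : ℝ) ≤ 1 - v)]

theorem w_nonneg {p q v : ℝ} (hv : v ∈ Set.Icc (0 : ℝ) 1) : 0 ≤ v ^ p * (1 - v) ^ q :=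
  mul_nonneg (Real.rpow_nonneg hv.1 _) (Real.rpow_nonneg (by linarith [hv.2]) _)

/-- a continuous factor -/
theorem int_cw {w g : ℝ → ℝ} (hw : IntervalIntegrable w volume 0 1) (hg : ContinuousOn g (Set.uIcc 0 1)) :
    IntervalIntegrable (fun v => w v * g v) volume 0 1 := hw.mul_continuousOn hg

theorem mono_w {w g g' : ℝ → ℝ} (hw : IntervalIntegrable w volume 0 1) (hw0 : ∀ v ∈ Set.Icc (0 : ℝ) 1, 0 ≤ w v)
    (hg : ContinuousOn g (Set.uIcc 0 1)) (hg' : ContinuousOn g' (Set.uIcc 0 1)) (h : ∀ v ∈ Set.Icc (0 : ℝ) 1, g v ≤ g' v) :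
    ∫ v in (0 : ℝ)..1, w v * g v ≤ ∫ v in (0 : ℝ)..1, w v * g' v :=
  intervalIntegral.integral_mono_on zero_le_one (int_cw hw hg) (int_cw hw hg') fun v hv =>
    mul_le_mul_of_nonneg_left (h v hv) (hw0 v hv)

theorem bb_nonneg (μ : ℝ) : 0 ≤ bb μ := by
  unfold bb
  exact intervalIntegral.integral_nonneg zero_le_one fun v hv => w_nonneg hv

theorem r00_bd (h0 : 0 < μ) (h1 : μ < 1) (ht0 : a 0 < t) (ht1 : t < a 1) :
    (a 1 - a 0) ^ (-μ) * bb μ ≤ Rf 2 a μ 1 0 0 t ∧ Rf 2 a μ 1 0 0 t ≤ (a 1 - t) ^ (-μ) * bb μ := by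
  have hA : 0 < a 1 - a 0 := by linarith
  have hc : ContinuousOn (fun v : ℝ => (a 1 - a 0 - v * (t - a 0)) ^ (-μ)) (Set.uIcc 0 1) := by
    rw [Set.uIcc_of_le zero_le_one]
    refine ContinuousOn.rpow_const (by fun_prop) fun v hv => Or.inl ?_
    have : 0 < a 1 - a 0 - v * (t - a 0) := by nlinarith [hv.1, hv.2]
    exact this.ne'
  have e1 : Rf 2 a μ 1 0 0 t = ∫ v in (0 : ℝ)..1, (v ^ (-μ) * (1 - v) ^ (μ - 1)) * (a 1 - a 0 - v * (t - a 0)) ^ (-μ) := by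
    rw [seg0 ht0 ht1]
    refine intervalIntegral.integral_congr fun v _ => ?_
    simp only [pow_zero, one_mul]
  have e2 : ∀ c : ℝ, c * bb μ = ∫ v in (0 : ℝ)..1, (v ^ (-μ) * (1 - v) ^ (μ - 1)) * c := by
    intro c
    rw [intervalIntegral.integral_mul_const, mul_comm]
    rfl
  rw [e1, e2, e2]
  constructor
  · refine mono_w (int_w0 h0 h1) (fun v hv => w_nonneg hv) continuousOn_const hc fun v hv => ?_
    have h2 : 0 < a 1 - a 0 - v * (t - a 0) := by nlinarith [hv.1, hv.2]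
    have h3 : a 1 - a 0 - v * (t - a 0) ≤ a 1 - a 0 := by nlinarith [hv.1, hv.2]
    exact Real.rpow_le_rpow_of_nonpos h2 h3 (by linarith)
  · refine mono_w (int_w0 h0 h1) (fun v hv => w_nonneg hv) hc continuousOn_const fun v hv => ?_
    have h3 : a 1 - t ≤ a 1 - a 0 - v * (t - a 0) := by nlinarith [hv.1, hv.2]
    exact Real.rpow_le_rpow_of_nonpos (by linarith) h3 (by linarith)

theorem r01_bd (h0 : 0 < μ) (h1 : μ < 1) (ht0 : a 0 < t) (ht1 : t < a 1) :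
    0 ≤ Rf 2 a μ 1 1 0 t - a 0 * Rf 2 a μ 1 0 0 t ∧
    Rf 2 a μ 1 1 0 t - a 0 * Rf 2 a μ 1 0 0 t ≤ (t - a 0) * Rf 2 a μ 1 0 0 t := by
  have hc : ContinuousOn (fun v : ℝ => (a 1 - a 0 - v * (t - a 0)) ^ (-μ)) (Set.uIcc 0 1) := by
    rw [Set.uIcc_of_le zero_le_one]
    refine ContinuousOn.rpow_const (by fun_prop) fun v hv => Or.inl ?_
    have : 0 < a 1 - a 0 - v * (t - a 0) := by nlinarith [hv.1, hv.2]
    exact this.ne'
  have e1 : Rf 2 a μ 1 0 0 t = ∫ v in (0 : ℝ)..1, (v ^ (-μ) * (1 - v) ^ (μ - 1)) * (a 1 - a 0 - v * (t - a 0)) ^ (-μ) := by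
    rw [seg0 ht0 ht1]
    refine intervalIntegral.integral_congr fun v _ => ?_
    simp only [pow_zero, one_mul]
  have e2 : Rf 2 a μ 1 1 0 t = ∫ v in (0 : ℝ)..1, (v ^ (-μ) * (1 - v) ^ (μ - 1)) *
      ((a 0 + v * (t - a 0)) * (a 1 - a 0 - v * (t - a 0)) ^ (-μ)) := by
    rw [seg0 ht0 ht1]
    refine intervalIntegral.integral_congr fun v _ => ?_
    simp only [pow_one]
    ring
  have hc1 : ContinuousOn (fun v : ℝ => (a 0 + v * (t - a 0)) * (a 1 - a 0 - v * (t - a 0)) ^ (-μ)) (Set.uIcc 0 1) :=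
    ((by fun_prop : Continuous fun v : ℝ => a 0 + v * (t - a 0)).continuousOn).mul hc
  have i1 := int_cw (int_w0 h0 h1) hc1
  have i0 := int_cw (int_w0 h0 h1) hc
  have e3 : Rf 2 a μ 1 1 0 t - a 0 * Rf 2 a μ 1 0 0 t = ∫ v in (0 : ℝ)..1, (v ^ (-μ) * (1 - v) ^ (μ - 1)) *
      ((v * (t - a 0)) * (a 1 - a 0 - v * (t - a 0)) ^ (-μ)) := by
    rw [e1, e2, ← intervalIntegral.integral_const_mul, ← intervalIntegral.integral_sub i1 (i0.const_mul _)]
    refine intervalIntegral.integral_congr fun v _ => ?_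
    try simp only
    ring
  have hc2 : ContinuousOn (fun v : ℝ => (v * (t - a 0)) * (a 1 - a 0 - v * (t - a 0)) ^ (-μ)) (Set.uIcc 0 1) :=
    ((by fun_prop : Continuous fun v : ℝ => v * (t - a 0)).continuousOn).mul hc
  rw [e3]
  constructor
  · refine intervalIntegral.integral_nonneg zero_le_one fun v hv => mul_nonneg (w_nonneg hv) (mul_nonneg ?_ ?_)
    · exact mul_nonneg hv.1 (by linarith)
    · exact Real.rpow_nonneg (by nlinarith [hv.1, hv.2]) _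
  · have e4 : (t - a 0) * Rf 2 a μ 1 0 0 t = ∫ v in (0 : ℝ)..1, (v ^ (-μ) * (1 - v) ^ (μ - 1)) *
        ((t - a 0) * (a 1 - a 0 - v * (t - a 0)) ^ (-μ)) := by
      rw [e1, ← intervalIntegral.integral_const_mul]
      refine intervalIntegral.integral_congr fun v _ => ?_
      try simp only
      ring
    rw [e4]
    refine mono_w (int_w0 h0 h1) (fun v hv => w_nonneg hv) hc2 (continuousOn_const.mul hc) fun v hv => ?_
    refine mul_le_mul_of_nonneg_right ?_ (Real.rpow_nonneg (by nlinarith [hv.1, hv.2]) _)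
    nlinarith [hv.1, hv.2]

theorem r10_bd (h0 : 0 < μ) (h1 : μ < 1) (ht0 : a 0 < t) (ht1 : t < a 1) :
    0 ≤ Rf 2 a μ 1 0 1 t ∧ Rf 2 a μ 1 0 1 t ≤ (t - a 0) ^ (-μ) * bb μ := by
  have hc : ContinuousOn (fun v : ℝ => (t - a 0 + v * (a 1 - t)) ^ (-μ)) (Set.uIcc 0 1) := by
    rw [Set.uIcc_of_le zero_le_one]
    refine ContinuousOn.rpow_const (by fun_prop) fun v hv => Or.inl ?_
    have : 0 < t - a 0 + v * (a 1 - t) := by nlinarith [hv.1, hv.2]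
    exact this.ne'
  have e1 : Rf 2 a μ 1 0 1 t = ∫ v in (0 : ℝ)..1, (v ^ (μ - 1) * (1 - v) ^ (-μ)) * (t - a 0 + v * (a 1 - t)) ^ (-μ) := by
    rw [seg1 ht0 ht1]
    refine intervalIntegral.integral_congr fun v _ => ?_
    simp only [pow_zero, one_mul]
  have e2 : ∀ c : ℝ, c * bb μ = ∫ v in (0 : ℝ)..1, (v ^ (μ - 1) * (1 - v) ^ (-μ)) * c := by
    intro c
    rw [intervalIntegral.integral_mul_const, mul_comm, bb_symm]
  rw [e1, e2]
  constructor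
  · refine intervalIntegral.integral_nonneg zero_le_one fun v hv => mul_nonneg (w_nonneg hv) (Real.rpow_nonneg ?_ _)
    nlinarith [hv.1, hv.2]
  · refine mono_w (int_w1 h0 h1) (fun v hv => w_nonneg hv) hc continuousOn_const fun v hv => ?_
    have h3 : t - a 0 ≤ t - a 0 + v * (a 1 - t) := by nlinarith [hv.1, hv.2]
    exact Real.rpow_le_rpow_of_nonpos (by linarith) h3 (by linarith)

theorem int_wv (h1 : μ < 1) : ∫ v in (0 : ℝ)..1, (v ^ (μ - 1) * (1 - v) ^ (-μ)) * v ^ (1 - μ) = 1 / (1 - μ) := by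
  rw [← int_one h1]
  refine intervalIntegral.integral_congr_ae ?_
  refine Filter.Eventually.of_forall fun v hv => ?_
  rw [Set.uIoc_of_le zero_le_one] at hv
  have h2 : v ^ (μ - 1) * v ^ (1 - μ) = 1 := by
    rw [← Real.rpow_add hv.1]
    have : μ - 1 + (1 - μ) = 0 := by ring
    rw [this, Real.rpow_zero]
  calc v ^ (μ - 1) * (1 - v) ^ (-μ) * v ^ (1 - μ) = (v ^ (μ - 1) * v ^ (1 - μ)) * (1 - v) ^ (-μ) := by ring
    _ = (1 - v) ^ (-μ) := by rw [h2, one_mul]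

theorem r11_bd (h0 : 0 < μ) (h1 : μ < 1) (ht0 : a 0 < t) (ht1 : t < a 1) :
    (a 1 - a 0) ^ (1 - μ) * (1 / (1 - μ)) ≤ Rf 2 a μ 1 1 1 t - a 0 * Rf 2 a μ 1 0 1 t ∧
    Rf 2 a μ 1 1 1 t - a 0 * Rf 2 a μ 1 0 1 t ≤ (a 1 - a 0) ^ (1 - μ) * (1 / (1 - μ)) + (t - a 0) ^ (1 - μ) * bb μ := by
  have hA : 0 < a 1 - a 0 := by linarith
  have hc : ContinuousOn (fun v : ℝ => (t - a 0 + v * (a 1 - t)) ^ (-μ)) (Set.uIcc 0 1) := by
    rw [Set.uIcc_of_le zero_le_one]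
    refine ContinuousOn.rpow_const (by fun_prop) fun v hv => Or.inl ?_
    have : 0 < t - a 0 + v * (a 1 - t) := by nlinarith [hv.1, hv.2]
    exact this.ne'
  have hc1 : ContinuousOn (fun v : ℝ => (t - a 0 + v * (a 1 - t)) ^ (1 - μ)) (Set.uIcc 0 1) :=
    ContinuousOn.rpow_const (by fun_prop) fun v _ => Or.inr (by linarith)
  have e1 : Rf 2 a μ 1 0 1 t = ∫ v in (0 : ℝ)..1, (v ^ (μ - 1) * (1 - v) ^ (-μ)) * (t - a 0 + v * (a 1 - t)) ^ (-μ) := by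
    rw [seg1 ht0 ht1]
    refine intervalIntegral.integral_congr fun v _ => ?_
    simp only [pow_zero, one_mul]
  have e2 : Rf 2 a μ 1 1 1 t = ∫ v in (0 : ℝ)..1, (v ^ (μ - 1) * (1 - v) ^ (-μ)) *
      ((t + v * (a 1 - t)) * (t - a 0 + v * (a 1 - t)) ^ (-μ)) := by
    rw [seg1 ht0 ht1]
    refine intervalIntegral.integral_congr fun v _ => ?_
    simp only [pow_one]
    ring
  have hc2 : ContinuousOn (fun v : ℝ => (t + v * (a 1 - t)) * (t - a 0 + v * (a 1 - t)) ^ (-μ)) (Set.uIcc 0 1) :=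
    ((by fun_prop : Continuous fun v : ℝ => t + v * (a 1 - t)).continuousOn).mul hc
  have i1 := int_cw (int_w1 h0 h1) hc2
  have i0 := int_cw (int_w1 h0 h1) hc
  have e3 : Rf 2 a μ 1 1 1 t - a 0 * Rf 2 a μ 1 0 1 t = ∫ v in (0 : ℝ)..1, (v ^ (μ - 1) * (1 - v) ^ (-μ)) *
      (t - a 0 + v * (a 1 - t)) ^ (1 - μ) := by
    rw [e1, e2, ← intervalIntegral.integral_const_mul, ← intervalIntegral.integral_sub i1 (i0.const_mul _)]
    refine intervalIntegral.integral_congr fun v hv => ?_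
    rw [Set.uIcc_of_le zero_le_one] at hv
    have h2 : 0 < t - a 0 + v * (a 1 - t) := by nlinarith [hv.1, hv.2]
    have h3 : (t - a 0 + v * (a 1 - t)) ^ (1 - μ) = (t - a 0 + v * (a 1 - t)) * (t - a 0 + v * (a 1 - t)) ^ (-μ) := by
      rw [sub_eq_add_neg (1 : ℝ), Real.rpow_add h2, Real.rpow_one]
    try simp only
    rw [h3]
    ring
  have hcv : ContinuousOn (fun v : ℝ => v ^ (1 - μ)) (Set.uIcc 0 1) :=
    ContinuousOn.rpow_const (by fun_prop) fun v _ => Or.inr (by linarith)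
  have e5 : (a 1 - a 0) ^ (1 - μ) * (1 / (1 - μ)) =
      ∫ v in (0 : ℝ)..1, (v ^ (μ - 1) * (1 - v) ^ (-μ)) * ((a 1 - a 0) ^ (1 - μ) * v ^ (1 - μ)) := by
    rw [← int_wv h1, ← intervalIntegral.integral_const_mul]
    refine intervalIntegral.integral_congr fun v _ => ?_
    try simp only
    ring
  have e6 : (a 1 - a 0) ^ (1 - μ) * (1 / (1 - μ)) + (t - a 0) ^ (1 - μ) * bb μ =
      ∫ v in (0 : ℝ)..1, (v ^ (μ - 1) * (1 - v) ^ (-μ)) * ((a 1 - a 0) ^ (1 - μ) * v ^ (1 - μ) + (t - a 0) ^ (1 - μ)) := by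
    have hc5 : ContinuousOn (fun v : ℝ => (a 1 - a 0) ^ (1 - μ) * v ^ (1 - μ)) (Set.uIcc 0 1) := continuousOn_const.mul hcv
    have i5 := int_cw (int_w1 h0 h1) hc5
    rw [e5, ← bb_symm, ← intervalIntegral.integral_const_mul, ← intervalIntegral.integral_add i5 ((int_w1 h0 h1).const_mul _)]
    refine intervalIntegral.integral_congr fun v _ => ?_
    try simp only
    ring
  rw [e3, e6, e5]
  have hcl : ContinuousOn (fun v : ℝ => (a 1 - a 0) ^ (1 - μ) * v ^ (1 - μ)) (Set.uIcc 0 1) := continuousOn_const.mul hcv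
  constructor
  · refine mono_w (int_w1 h0 h1) (fun v hv => w_nonneg hv) hcl hc1 fun v hv => ?_
    rw [← Real.mul_rpow hA.le hv.1]
    refine Real.rpow_le_rpow (mul_nonneg hA.le hv.1) ?_ (by linarith)
    nlinarith [hv.1, hv.2]
  · refine mono_w (int_w1 h0 h1) (fun v hv => w_nonneg hv) hc1 (hcl.add continuousOn_const) fun v hv => ?_
    rw [← Real.mul_rpow hA.le hv.1]
    refine le_trans (Real.rpow_le_rpow ?_ ?_ (by linarith)) (Real.rpow_add_le_add_rpow (mul_nonneg hA.le hv.1) (by linarith : (0 : ℝ) ≤ t - a 0)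
      (by linarith) (by linarith))
    · nlinarith [hv.1, hv.2]
    · nlinarith [hv.1, hv.2]

theorem two_lim (ha : StrictMono a) (h0 : 0 < μ) (h1 : μ < 1) :
    Tendsto (fun t : ℝ => Rf 2 a μ 1 0 0 t * Rf 2 a μ 1 1 1 t - Rf 2 a μ 1 1 0 t * Rf 2 a μ 1 0 1 t) (𝓝[>] (a 0))
      (𝓝 ((a 1 - a 0) ^ (-μ) * bb μ * ((a 1 - a 0) ^ (1 - μ) * (1 / (1 - μ))))) := by
  have h01 : a 0 < a 1 := ha (by norm_num)
  have hA : 0 < a 1 - a 0 := by linarith
  have hev : ∀ᶠ t : ℝ in 𝓝[>] (a 0), a 0 < t ∧ t < a 1 := by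
    filter_upwards [self_mem_nhdsWithin, mem_nhdsWithin_of_mem_nhds (Iio_mem_nhds h01)] with t h2 h3
    exact ⟨h2, h3⟩
  have ht : Tendsto (fun t : ℝ => t) (𝓝[>] (a 0)) (𝓝 (a 0)) := tendsto_nhdsWithin_of_tendsto_nhds tendsto_id
  have l1 : Tendsto (fun t : ℝ => Rf 2 a μ 1 0 0 t) (𝓝[>] (a 0)) (𝓝 ((a 1 - a 0) ^ (-μ) * bb μ)) := by
    refine tendsto_of_tendsto_of_tendsto_of_le_of_le' tendsto_const_nhds (h := fun t => (a 1 - t) ^ (-μ) * bb μ) ?_ ?_ ?_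
    · exact ((tendsto_const_nhds.sub ht).rpow_const (Or.inl hA.ne')).mul_const _
    · filter_upwards [hev] with t h2 using (r00_bd h0 h1 h2.1 h2.2).1
    · filter_upwards [hev] with t h2 using (r00_bd h0 h1 h2.1 h2.2).2
  have hτ : Tendsto (fun t : ℝ => (t - a 0) ^ (1 - μ)) (𝓝[>] (a 0)) (𝓝 0) := by
    have h2 := (ht.sub_const (a 0)).rpow_const (p := 1 - μ) (Or.inr (by linarith))
    rwa [sub_self, Real.zero_rpow (by linarith)] at h2
  have l2 : Tendsto (fun t : ℝ => Rf 2 a μ 1 1 1 t - a 0 * Rf 2 a μ 1 0 1 t) (𝓝[>] (a 0)) (𝓝 ((a 1 - a 0) ^ (1 - μ) * (1 / (1 - μ)))) := by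
    refine tendsto_of_tendsto_of_tendsto_of_le_of_le' tendsto_const_nhds
      (h := fun t => (a 1 - a 0) ^ (1 - μ) * (1 / (1 - μ)) + (t - a 0) ^ (1 - μ) * bb μ) ?_ ?_ ?_
    · have h2 := (hτ.mul_const (bb μ)).const_add ((a 1 - a 0) ^ (1 - μ) * (1 / (1 - μ)))
      rwa [zero_mul, add_zero] at h2
    · filter_upwards [hev] with t h2 using (r11_bd h0 h1 h2.1 h2.2).1
    · filter_upwards [hev] with t h2 using (r11_bd h0 h1 h2.1 h2.2).2
  have l3 : Tendsto (fun t : ℝ => (Rf 2 a μ 1 1 0 t - a 0 * Rf 2 a μ 1 0 0 t) * Rf 2 a μ 1 0 1 t) (𝓝[>] (a 0)) (𝓝 0) := by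
    refine tendsto_of_tendsto_of_tendsto_of_le_of_le' tendsto_const_nhds
      (h := fun t => (t - a 0) ^ (1 - μ) * bb μ * Rf 2 a μ 1 0 0 t) ?_ ?_ ?_
    · have h2 := (hτ.mul_const (bb μ)).mul l1
      rwa [zero_mul, zero_mul] at h2
    · filter_upwards [hev] with t h2
      exact mul_nonneg (r01_bd h0 h1 h2.1 h2.2).1 (r10_bd h0 h1 h2.1 h2.2).1
    · filter_upwards [hev] with t h2
      have h3 := r01_bd h0 h1 h2.1 h2.2
      have h4 := r10_bd h0 h1 h2.1 h2.2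
      have h5 : 0 ≤ Rf 2 a μ 1 0 0 t := le_trans (mul_nonneg (Real.rpow_nonneg hA.le _) (bb_nonneg μ)) (r00_bd h0 h1 h2.1 h2.2).1
      have h6 : (t - a 0) ^ (1 - μ) = (t - a 0) * (t - a 0) ^ (-μ) := by
        rw [sub_eq_add_neg (1 : ℝ), Real.rpow_add (by linarith [h2.1]), Real.rpow_one]
      calc (Rf 2 a μ 1 1 0 t - a 0 * Rf 2 a μ 1 0 0 t) * Rf 2 a μ 1 0 1 t
          ≤ ((t - a 0) * Rf 2 a μ 1 0 0 t) * ((t - a 0) ^ (-μ) * bb μ) :=
            mul_le_mul h3.2 h4.2 h4.1 (mul_nonneg (by linarith [h2.1]) h5)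
        _ = (t - a 0) ^ (1 - μ) * bb μ * Rf 2 a μ 1 0 0 t := by rw [h6]; ring
  have h2 := (l1.mul l2).sub l3
  rw [sub_zero] at h2
  refine h2.congr fun t => ?_
  ring

/-- the value of the determinant -/
noncomputable def dd (A μ : ℝ) : ℝ := A ^ (1 - 2 * μ) / ((1 - μ) * Real.sin (Real.pi * μ)) * Real.pi

theorem Sm_two {m : ℕ} (hm : m ≤ 2) (μ : ℝ) : (Sm 2 μ m).det = 1 := by
  rw [Matrix.det_fin_two]
  unfold Sm Mz
  interval_cases m <;> simp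

theorem det_two {f : Polynomial ℚ} (hc : Cfg 2 a f) {ν : ℚ} (hν : (ν : ℝ) = 1 - μ)
    (h0 : 0 < μ) (h1 : μ < 1) {p : ℕ} (hg : Gap 2 a p 0) {m : ℕ} (ht : Gap 2 a m t) :
    (Rm 2 a μ m t).det = ((dd (a 1 - a 0) μ : ℝ) : ℂ) := by
  obtain ⟨κ, hκ⟩ := det_R_const hc hν h0 h1 hg
  have ha := hc.mono
  have h01 : a 0 < a 1 := ha (by norm_num)
  have hA : 0 < a 1 - a 0 := by linarith
  have e1 : ∀ (m : ℕ) (t : ℝ), Gap 2 a m t → (Rm 2 a μ m t).det = κ := by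
    intro m t hgt
    have h2 := hκ m t hgt
    rwa [Sm_two hgt.1, one_mul] at h2
  rw [e1 m t ht]
  have e2 : ∀ t : ℝ, a 0 < t → t < a 1 →
      ((Rf 2 a μ 1 0 0 t * Rf 2 a μ 1 1 1 t - Rf 2 a μ 1 1 0 t * Rf 2 a μ 1 0 1 t : ℝ) : ℂ) = κ := by
    intro t h2 h3
    have hgt : Gap 2 a 1 t := by
      refine ⟨by norm_num, fun k hk => ?_, fun k hk hk' => ?_⟩
      · have : k = 0 := by omega
        rw [this]
        exact h2
      · have : k = 1 := by omega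
        rw [this]
        exact h3
    rw [← e1 1 t hgt, Matrix.det_fin_two]
    unfold Rm
    simp only [Matrix.of_apply, Fin.val_zero, Fin.val_one]
    push_cast
    ring
  have l1 : Tendsto (fun t : ℝ => ((Rf 2 a μ 1 0 0 t * Rf 2 a μ 1 1 1 t - Rf 2 a μ 1 1 0 t * Rf 2 a μ 1 0 1 t : ℝ) : ℂ)) (𝓝[>] (a 0))
      (𝓝 (((a 1 - a 0) ^ (-μ) * bb μ * ((a 1 - a 0) ^ (1 - μ) * (1 / (1 - μ))) : ℝ) : ℂ)) :=
    (Complex.continuous_ofReal.tendsto _).comp (two_lim ha h0 h1)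
  have l2 : Tendsto (fun t : ℝ => ((Rf 2 a μ 1 0 0 t * Rf 2 a μ 1 1 1 t - Rf 2 a μ 1 1 0 t * Rf 2 a μ 1 0 1 t : ℝ) : ℂ)) (𝓝[>] (a 0))
      (𝓝 κ) := by
    refine tendsto_const_nhds.congr' ?_
    filter_upwards [self_mem_nhdsWithin, mem_nhdsWithin_of_mem_nhds (Iio_mem_nhds h01)] with t h2 h3
    exact (e2 t h2 h3).symm
  rw [tendsto_nhds_unique l2 l1, bb_eq h0 h1]
  congr 1
  unfold dd
  have h3 : (a 1 - a 0) ^ (1 - 2 * μ) = (a 1 - a 0) ^ (-μ) * (a 1 - a 0) ^ (1 - μ) := by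
    rw [← Real.rpow_add hA]
    congr 1
    ring
  have h4 : (1 - μ) ≠ 0 := by linarith
  have h5 : Real.sin (Real.pi * μ) ≠ 0 := by
    refine (Real.sin_pos_of_pos_of_lt_pi (by positivity) ?_).ne'
    nlinarith [Real.pi_pos]
  rw [h3]
  field_simp

end Pool.Agent.K1H12.SE
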