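import Pool.Agent.K1H12.SE.Two
import Pool.Agent.K1H12.SE.Tor2
import Pool.Agent.K1H12.SE.Main

/-!
# Two branch points: the smallest subtorsor
-/

set_option autoImplicit false

namespace Pool.Agent.K1H12.SE

open Finset Matrix
open Pool.Agent.Y123.ST (SubT)

variable {r s k : ℕ}

/-- the algebraic factor of the determinant -/
noncomputable def cq (a : Fin 2 → ℝ) (μ : ℝ) : ℝ := (a 1 - a 0) ^ (1 - 2 * μ) / ((1 - μ) * Real.sin (Real.pi * μ))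

theorem cq_pos {a : Fin 2 → ℝ} (ha : a 0 < a 1) {μ : ℝ} (h0 : 0 < μ) (h1 : μ < 1) : 0 < cq a μ := by
  unfold cq
  have h2 : 0 < a 1 - a 0 := by linarith
  have h5 : 0 < Real.sin (Real.pi * μ) := by
    refine Real.sin_pos_of_pos_of_lt_pi (by positivity) ?_
    nlinarith [Real.pi_pos]
  have h6 : 0 < 1 - μ := by linarith
  positivity

theorem cq_dd (a : Fin 2 → ℝ) (μ : ℝ) : dd (exq a 1 - exq a 0) μ = Real.pi * cq a μ := by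
  have e0 : exq a 0 = a 0 := exq_lt a 0
  have e1 : exq a 1 = a 1 := exq_lt a 1
  unfold dd cq
  rw [e0, e1]
  ring

theorem det_prd {a : Fin 2 → ℝ} {f : Polynomial ℚ}
    (hf : f.map (algebraMap ℚ ℝ) = ∏ i, (Polynomial.X - Polynomial.C (a i))) {p : Fin 3} (ha : StrictMono (brp a p 0))
    {μ : ℚ} (h0 : 0 < μ) (h1 : μ < 1) {t : ℝ} (ht : StrictMono (brp a p t)) :
    (prd a p μ t).det = ((Real.pi * cq a μ : ℝ) : ℂ) := by
  rw [prd_eq, ← cq_dd]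
  exact det_two (cfg_of (mono_of_brp ha) hf) (ν := 1 - μ) (by push_cast; rfl) (by exact_mod_cast h0) (by exact_mod_cast h1)
    (gap_of_brp ha) (gap_of_brp ht)

/-- **the smallest subtorsor for two branch points** -/
theorem two_sm {K : Subfield ℂ} {C₀ : Matrix (Fin r) (Fin r) ℂ} (hC₀ : IsUnit C₀) (hk : 0 < k) (hs : 0 < s)
    {a : Fin 2 → ℝ} {f : Polynomial ℚ}
    (hf : f.map (algebraMap ℚ ℝ) = ∏ i, (Polynomial.X - Polynomial.C (a i))) {p : Fin 3} (ha : StrictMono (brp a p 0))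
    {μ : Fin s → ℚ} (h0 : ∀ σ, 0 < μ σ) (h1 : ∀ σ, μ σ < 1) (hK : ∀ σ, ((cq a (μ σ) : ℝ) : ℂ) ∈ K) {δ : Fin s → ℂ} {e : ℕ} {m : Fin k → ℕ}
    (h : Cn K C₀ a p (fun σ => (μ σ : ℝ)) δ e m) :
    sm K (tot C₀ fun l σ => prd a p (μ σ) (1 / (m l : ℝ))) =
      {z | ∃ (x : Matrix (Fin r) (Fin r) ℂ) (X : Fin k → Fin s → Matrix (Fin 2) (Fin 2) ℂ) (w : ℂ), z = tot x X ∧
        bt x (fun _ : Fin 1 => w) ∈ sm K (bt C₀ fun _ : Fin 1 => (Real.pi : ℂ)) ∧ ∀ l σ, (X l σ).det = w * ((cq a (μ σ) : ℝ) : ℂ)} := by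
  obtain ⟨g1, g2, g3, -⟩ := h
  have h01 : a 0 < a 1 := mono_of_brp ha (by simp)
  have hcq : ∀ σ, ((cq a (μ σ) : ℝ) : ℂ) ≠ 0 := fun σ => by
    have := (cq_pos (a := a) h01 (μ := μ σ) (by exact_mod_cast h0 σ) (by exact_mod_cast h1 σ)).ne'
    exact_mod_cast this
  have hδ : ∀ σ, δ σ = (Real.pi : ℂ) * ((cq a (μ σ) : ℝ) : ℂ) := by
    intro σ
    rw [← g2 ⟨0, hk⟩ σ, det_prd hf ha (h0 σ) (h1 σ) (g1 _)]
    push_cast
    rfl
  have hδ' : δ = fun σ => (Real.pi : ℂ) * ((cq a (μ σ) : ℝ) : ℂ) := funext hδ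
  have hpi : (Real.pi : ℂ) ≠ 0 := by exact_mod_cast Real.pi_ne_zero
  have hδ0 : ∀ σ, δ σ ≠ 0 := fun σ => by
    rw [hδ]
    exact mul_ne_zero hpi (hcq σ)
  have h4 := smallest_tot (K := K) (by norm_num : 0 < 2) hk hC₀ hδ0 g2 g3
  have h5 := sm_prop (K := K) (r := r) (s := s) (fun σ => ⟨((cq a (μ σ) : ℝ) : ℂ), hK σ⟩)
    (fun σ h => hcq σ (congrArg Subtype.val h)) hs hC₀ hpi
  have h6 : sm K (bt C₀ δ) = {z | ∃ (x : Matrix (Fin r) (Fin r) ℂ) (l : ℂ), z = bt x (fun σ => l * ((cq a (μ σ) : ℝ) : ℂ)) ∧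
      bt x (fun _ : Fin 1 => l) ∈ sm K (bt C₀ fun _ : Fin 1 => (Real.pi : ℂ))} := by
    rw [hδ']
    exact h5
  rw [h4, h6]
  ext z
  constructor
  · rintro ⟨x, X, d, h7, ⟨x', l, h8, h9⟩, h10⟩
    obtain ⟨rfl, rfl⟩ := bt_inj h8
    exact ⟨x, X, l, h7, h9, h10⟩
  · rintro ⟨x, X, w, h7, h8, h9⟩
    exact ⟨x, X, _, h7, ⟨x, w, rfl, h8⟩, h9⟩

end Pool.Agent.K1H12.SE
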