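import Pool.Agent.K1H12.SE.Two2
import Pool.Agent.K1H12.SE.Rel

/-!
# Two branch points: relations of bounded degree between the periods and `π`
-/

set_option autoImplicit false

namespace Pool.Agent.K1H12.SE

open Finset Matrix

variable {s k : ℕ}

theorem alg_rpow {A : ℝ} (hA : 0 < A) (h : IsAlgebraic ℚ A) (q : ℚ) : IsAlgebraic ℚ (A ^ (q : ℝ)) := by
  have h1 : (A ^ (q : ℝ)) ^ q.den = A ^ q.num := by
    rw [← Real.rpow_natCast, ← Real.rpow_mul hA.le, ← Real.rpow_intCast]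
    congr 1
    have h2 := Rat.mul_den_eq_num q
    exact_mod_cast h2
  refine IsAlgebraic.of_pow q.den_pos ?_
  rw [h1]
  rcases Int.eq_nat_or_neg q.num with ⟨n, hn | hn⟩
  · rw [hn, zpow_natCast]
    exact h.pow n
  · rw [hn, _root_.zpow_neg, zpow_natCast]
    exact (h.pow n).inv

theorem alg_cq {a : Fin 2 → ℝ} {f : Polynomial ℚ}
    (hf : f.map (algebraMap ℚ ℝ) = ∏ i, (Polynomial.X - Polynomial.C (a i))) (h01 : a 0 < a 1) (μ : ℚ) :
    IsAlgebraic ℚ ((cq a μ : ℝ) : ℂ) := by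
  have hf0 : f ≠ 0 := by
    intro h
    rw [h, Polynomial.map_zero] at hf
    exact (Finset.prod_ne_zero_iff.2 fun i _ => Polynomial.X_sub_C_ne_zero (a i)) hf.symm
  have hroot : ∀ i, IsAlgebraic ℚ (a i) := by
    intro i
    refine ⟨f, hf0, ?_⟩
    rw [Polynomial.aeval_def, Polynomial.eval₂_eq_eval_map, hf, Polynomial.eval_prod]
    exact Finset.prod_eq_zero (Finset.mem_univ i) (by simp)
  have h1 : IsAlgebraic ℚ (a 1 - a 0) := (hroot 1).sub (hroot 0)
  have h2 : IsAlgebraic ℚ ((a 1 - a 0) ^ (1 - 2 * (μ : ℝ))) := by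
    have h3 := alg_rpow (sub_pos.2 h01) h1 (1 - 2 * μ)
    push_cast at h3
    exact h3
  have h4 : IsAlgebraic ℚ (Real.sin (Real.pi * (μ : ℝ))) := by
    rw [mul_comm]
    have h5 := Real.isAlgebraic_sin_rat_mul_pi μ
    exact h5.extendScalars (algebraMap ℤ ℚ).injective_int
  have h6 : IsAlgebraic ℚ (1 - (μ : ℝ)) := by
    have h7 := isAlgebraic_algebraMap (R := ℚ) (A := ℝ) (1 - μ)
    simpa using h7
  have h8 : IsAlgebraic ℚ (cq a μ) := by
    unfold cq
    rw [div_eq_mul_inv]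
    exact h2.mul (h6.mul h4).inv
  exact (isAlgebraic_algebraMap_iff (R := ℚ) (A := ℂ) (algebraMap ℝ ℂ).injective).2 h8

/-- the closure of the point `(π, π c)` -/
theorem pi_rel {K : Subfield ℂ} [FiniteDimensional ℚ K] (c : Fin s → K) (w : ℂ)
    (p : MvPolynomial ((Fin 1 ⊕ Fin s) × (Fin 1 ⊕ Fin s)) K)
    (hp : MvPolynomial.eval (fun b => bt (Matrix.of fun _ _ => (Real.pi : ℂ)) (fun σ => (Real.pi : ℂ) * (c σ : ℂ)) b.1 b.2)
      (MvPolynomial.map (algebraMap K ℂ) p) = 0) :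
    MvPolynomial.eval (fun b => bt (Matrix.of fun _ _ => w) (fun σ => w * (c σ : ℂ)) b.1 b.2)
      (MvPolynomial.map (algebraMap K ℂ) p) = 0 := by
  classical
  set Pol : (Fin 1 ⊕ Fin s) × (Fin 1 ⊕ Fin s) → Polynomial K := fun b =>
    match b with
    | (Sum.inl _, Sum.inl _) => Polynomial.X
    | (Sum.inl _, Sum.inr _) => 0
    | (Sum.inr _, Sum.inl _) => 0
    | (Sum.inr σ, Sum.inr τ) => if σ = τ then Polynomial.X * Polynomial.C (c σ) else 0 with hPol
  have key : ∀ x : ℂ, MvPolynomial.eval (fun b => bt (Matrix.of fun _ _ => x) (fun σ => x * (c σ : ℂ)) b.1 b.2)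
      (MvPolynomial.map (algebraMap K ℂ) p) = Polynomial.aeval x (MvPolynomial.aeval Pol p) := by
    intro x
    have h1 : (fun b : (Fin 1 ⊕ Fin s) × (Fin 1 ⊕ Fin s) => bt (Matrix.of fun _ _ => x) (fun σ => x * (c σ : ℂ)) b.1 b.2) =
        fun b => Polynomial.aeval x (Pol b) := by
      funext b
      obtain ⟨b1, b2⟩ := b
      rcases b1 with i | σ <;> rcases b2 with j | τ
      · simp only [hPol, Polynomial.aeval_X]
        rfl
      · simp only [hPol, map_zero]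
        rfl
      · simp only [hPol, map_zero]
        rfl
      · simp only [hPol]
        unfold bt
        rw [Matrix.fromBlocks_apply₂₂]
        by_cases h : σ = τ
        · subst h
          rw [Matrix.diagonal_apply_eq, if_pos rfl, map_mul, Polynomial.aeval_X, Polynomial.aeval_C]
          rfl
        · rw [Matrix.diagonal_apply_ne _ h, if_neg h, map_zero]
    rw [h1, MvPolynomial.eval_map]
    clear hp
    induction p using MvPolynomial.induction_on with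
    | C a => simp
    | add p q hp hq => rw [MvPolynomial.eval₂_add, map_add, map_add, hp, hq]
    | mul_X p i hp => rw [MvPolynomial.eval₂_mul, MvPolynomial.eval₂_X, map_mul, map_mul, hp, MvPolynomial.aeval_X]
  rw [key] at hp ⊢
  rw [(transcendental_iff.1 (transc_pi K)) _ hp, map_zero]

/-- the coordinates `π` and the entries of the matrices -/
def pt (w : ℂ) (X : Fin k → Fin s → Matrix (Fin 2) (Fin 2) ℂ) : Option (Fin k × Fin s × Fin 2 × Fin 2) → ℂ
  | none => w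
  | some b => X b.1 b.2.1 b.2.2.1 b.2.2.2

/-- **the relations of bounded degree for two branch points** -/
theorem two_rel {K : Subfield ℂ} [FiniteDimensional ℚ K] (hk : 0 < k)
    {a : Fin 2 → ℝ} {f : Polynomial ℚ}
    (hf : f.map (algebraMap ℚ ℝ) = ∏ i, (Polynomial.X - Polynomial.C (a i))) {p : Fin 3} (ha : StrictMono (brp a p 0))
    {μ : Fin s → ℚ} (h0 : ∀ σ, 0 < μ σ) (h1 : ∀ σ, μ σ < 1) (hK : ∀ σ, ((cq a (μ σ) : ℝ) : ℂ) ∈ K) {δ : Fin s → ℂ} {e : ℕ} {m : Fin k → ℕ}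
    (h : Cn K (Matrix.of fun _ _ => (Real.pi : ℂ) : Matrix (Fin 1) (Fin 1) ℂ) a p (fun σ => (μ σ : ℝ)) δ e m)
    (Q : MvPolynomial (Option (Fin k × Fin s × Fin 2 × Fin 2)) K) (hQ : Q.totalDegree ≤ e)
    (hQ0 : MvPolynomial.eval (pt (Real.pi : ℂ) fun l σ => prd a p (μ σ) (1 / (m l : ℝ))) (MvPolynomial.map (algebraMap K ℂ) Q) = 0)
    {w : ℂ} (hw : w ≠ 0) {X : Fin k → Fin s → Matrix (Fin 2) (Fin 2) ℂ} (hX : ∀ l σ, (X l σ).det = w * ((cq a (μ σ) : ℝ) : ℂ)) :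
    MvPolynomial.eval (pt w X) (MvPolynomial.map (algebraMap K ℂ) Q) = 0 := by
  obtain ⟨g1, g2, -, g4⟩ := h
  have h01 : a 0 < a 1 := mono_of_brp ha (by simp)
  have hcq : ∀ σ, ((cq a (μ σ) : ℝ) : ℂ) ≠ 0 := fun σ => by
    have := (cq_pos (a := a) h01 (μ := μ σ) (by exact_mod_cast h0 σ) (by exact_mod_cast h1 σ)).ne'
    exact_mod_cast this
  have hδ : ∀ σ, δ σ = (Real.pi : ℂ) * ((cq a (μ σ) : ℝ) : ℂ) := by
    intro σ
    rw [← g2 ⟨0, hk⟩ σ, det_prd hf ha (h0 σ) (h1 σ) (g1 _)]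
    push_cast
    rfl
  have hpi : (Real.pi : ℂ) ≠ 0 := by exact_mod_cast Real.pi_ne_zero
  set ι : Option (Fin k × Fin s × Fin 2 × Fin 2) → IX 2 1 s k × IX 2 1 s k := fun o => o.elim (Sum.inl 0, Sum.inl 0)
    fun b => (Sum.inr (b.2.2.1, (b.1, b.2.1)), Sum.inr (b.2.2.2, (b.1, b.2.1))) with hι
  have hren : ∀ (x : ℂ) (Y : Fin k → Fin s → Matrix (Fin 2) (Fin 2) ℂ),
      MvPolynomial.eval (fun b => tot (Matrix.of fun _ _ => x : Matrix (Fin 1) (Fin 1) ℂ) Y b.1 b.2)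
        (MvPolynomial.map (algebraMap K ℂ) (MvPolynomial.rename ι Q)) = MvPolynomial.eval (pt x Y) (MvPolynomial.map (algebraMap K ℂ) Q) := by
    intro x Y
    rw [MvPolynomial.map_rename, MvPolynomial.eval_rename]
    congr 2
    funext o
    rcases o with _ | ⟨l, σ, i, j⟩
    · rfl
    · change tot _ Y (Sum.inr (i, (l, σ))) (Sum.inr (j, (l, σ))) = Y l σ i j
      unfold tot
      rw [Matrix.fromBlocks_apply₂₂, Matrix.blockDiagonal_apply, if_pos rfl]
  have hdeg : (MvPolynomial.rename ι Q).totalDegree ≤ e := (MvPolynomial.totalDegree_rename_le _ _).trans hQ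
  rw [← hren]
  have hPu : ∀ l σ, IsUnit (prd a p (μ σ) (1 / (m l : ℝ))).det := fun l σ => by
    rw [g2]
    rw [hδ]
    exact isUnit_iff_ne_zero.2 (mul_ne_zero hpi (hcq σ))
  refine pull_rel (C₀ := Matrix.of fun _ _ => (Real.pi : ℂ)) (δ := δ) (d := fun σ => w * ((cq a (μ σ) : ℝ) : ℂ)) le_rfl _ ?_
    (fun σ => mul_ne_zero hw (hcq σ)) ?_ hX
  · intro X' hX'
    have h4 := g4 _ hdeg (by rw [hren]; exact hQ0) (fun l σ => X' l σ * (prd a p (μ σ) (1 / (m l : ℝ)))⁻¹) (fun l σ => by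
      rw [Matrix.det_mul, Matrix.det_nonsing_inv, Ring.inverse_eq_inv', g2, hX']
      exact mul_inv_cancel₀ (by rw [hδ]; exact mul_ne_zero hpi (hcq σ)))
    have h5 : (tot 1 (fun l σ => X' l σ * (prd a p (μ σ) (1 / (m l : ℝ)))⁻¹) *
        tot (Matrix.of fun _ _ => (Real.pi : ℂ) : Matrix (Fin 1) (Fin 1) ℂ) (fun l σ => prd a p (μ σ) (1 / (m l : ℝ)))) =
        tot (Matrix.of fun _ _ => (Real.pi : ℂ) : Matrix (Fin 1) (Fin 1) ℂ) X' := by
      rw [tot_mul, Matrix.one_mul]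
      congr 1
      funext l σ
      rw [Matrix.mul_assoc, Matrix.nonsing_inv_mul _ (hPu l σ), Matrix.mul_one]
    rw [h5] at h4
    exact h4
  · intro q hq
    have hδ' : δ = fun σ => (Real.pi : ℂ) * (((⟨((cq a (μ σ) : ℝ) : ℂ), hK σ⟩ : K)) : ℂ) := funext hδ
    rw [hδ'] at hq
    exact pi_rel (fun σ => ⟨((cq a (μ σ) : ℝ) : ℂ), hK σ⟩) w q hq

end Pool.Agent.K1H12.SE
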